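import Mathlib

set_option autoImplicit false
set_option maxHeartbeats 1000000

/-!
The heat integral along a horizontal line: differentiability in the parameter.
-/

open Complex MeasureTheory Set Filter Topology

namespace Pool.Agent.Helper54.Hf

/-- the kernel -/
noncomputable def kk (F : ℂ → ℂ) (t x : ℝ) (w : ℂ) (v : ℝ) : ℂ :=
  F ⟨v, x⟩ * cexp (-((⟨v, x⟩ : ℂ) - w) ^ 2 / (4 * t))

/-- the integral over a part of the horizontal line -/
noncomputable def AI (F : ℂ → ℂ) (t x : ℝ) (I : Set ℝ) (w : ℂ) : ℂ := ∫ v in I, kk F t x w v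

/-- the derivative -/
noncomputable def AD (F : ℂ → ℂ) (t x : ℝ) (I : Set ℝ) (w : ℂ) : ℂ :=
  ∫ v in I, kk F t x w v * (((⟨v, x⟩ : ℂ) - w) / (2 * t))

/-- growth hypothesis -/
def Gr (F : ℂ → ℂ) : Prop := ∃ C : ℝ, 0 < C ∧ ∀ w : ℂ, ‖F w‖ ≤ C * Real.exp (w.re ^ 2 / 16)

lemma hline_cont (x : ℝ) : Continuous (fun v : ℝ => (⟨v, x⟩ : ℂ)) := by
  have : (fun v : ℝ => (⟨v, x⟩ : ℂ)) = fun v : ℝ => (v : ℂ) + (x : ℂ) * I := by
    funext v; apply Complex.ext <;> simp
  rw [this]; fun_prop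

lemma kk_cont {F : ℂ → ℂ} (hF : Continuous F) (t x : ℝ) (w : ℂ) : Continuous (kk F t x w) := by
  unfold kk
  have h1 := hline_cont x
  exact (hF.comp h1).mul (by fun_prop)

lemma norm_exp_sq {t : ℝ} (ht : 0 < t) (z : ℂ) :
    ‖cexp (-z ^ 2 / (4 * t))‖ = Real.exp (-(z.re ^ 2) / (4 * t) + z.im ^ 2 / (4 * t)) := by
  rw [Complex.norm_exp]
  congr 1
  have : -z ^ 2 / (4 * (t : ℂ)) = ((1 / (4 * t) : ℝ) : ℂ) * (-z ^ 2) := by
    push_cast
    have : (t : ℂ) ≠ 0 := by exact_mod_cast ht.ne'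
    field_simp
  rw [this, re_ofReal_mul, neg_re, sq, mul_re]
  field_simp
  ring

lemma kk_bound {F : ℂ → ℂ} {C t : ℝ} (hC : 0 < C) (hb : ∀ w : ℂ, ‖F w‖ ≤ C * Real.exp (w.re ^ 2 / 16))
    (ht : 0 < t) (ht1 : t ≤ 1 / 2) (x : ℝ) (w0 : ℂ) :
    ∃ K : ℝ, 0 < K ∧ ∀ w ∈ Metric.ball w0 1, ∀ v : ℝ, ‖kk F t x w v‖ ≤
      K * Real.exp (-(3 / 16) * (v - w0.re) ^ 2) ∧
      ‖kk F t x w v * (((⟨v, x⟩ : ℂ) - w) / (2 * t))‖ ≤ K * Real.exp (-(1 / 8) * (v - w0.re) ^ 2) := by
  set K1 : ℝ := C * Real.exp ((|w0.re| + 1) ^ 2 / 8 + (|x - w0.im| + 1) ^ 2 / (4 * t) + 3 / 8) with hK1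
  set K2 : ℝ := K1 * ((|x - w0.im| + 3 + 8) / (2 * t)) with hK2
  have hK1p : 0 < K1 := by positivity
  have hK2p : 0 < K2 := by positivity
  refine ⟨K1 + K2, by positivity, fun w hw v => ?_⟩
  rw [Metric.mem_ball, dist_eq_norm] at hw
  have hre : |w.re - w0.re| ≤ 1 := by
    have := Complex.abs_re_le_norm (w - w0)
    rw [sub_re] at this; linarith
  have him : |w.im - w0.im| ≤ 1 := by
    have := Complex.abs_im_le_norm (w - w0)
    rw [sub_im] at this; linarith
  have hre' := abs_le.1 hre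
  have h1 : ‖kk F t x w v‖ ≤ K1 * Real.exp (-(3 / 16) * (v - w0.re) ^ 2) := by
    unfold kk
    rw [norm_mul, norm_exp_sq ht]
    simp only [sub_re, sub_im]
    have h2 := hb ⟨v, x⟩
    simp only at h2
    calc ‖F ⟨v, x⟩‖ * Real.exp (-((v - w.re) ^ 2) / (4 * t) + (x - w.im) ^ 2 / (4 * t))
        ≤ (C * Real.exp (v ^ 2 / 16)) * Real.exp (-((v - w.re) ^ 2) / (4 * t) + (x - w.im) ^ 2 / (4 * t)) :=
          mul_le_mul_of_nonneg_right h2 (Real.exp_pos _).le
      _ = C * Real.exp (v ^ 2 / 16 + (-((v - w.re) ^ 2) / (4 * t) + (x - w.im) ^ 2 / (4 * t))) := by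
          rw [Real.exp_add (v ^ 2 / 16)]; ring
      _ ≤ C * Real.exp (((|w0.re| + 1) ^ 2 / 8 + (|x - w0.im| + 1) ^ 2 / (4 * t) + 3 / 8) +
            -(3 / 16) * (v - w0.re) ^ 2) := by
          apply mul_le_mul_of_nonneg_left _ hC.le
          apply Real.exp_le_exp.2
          have a1 : (v - w.re) ^ 2 / 2 ≤ (v - w.re) ^ 2 / (4 * t) := by
            apply div_le_div_of_nonneg_left (sq_nonneg _) (by positivity) (by linarith)
          have a2 : (x - w.im) ^ 2 / (4 * t) ≤ (|x - w0.im| + 1) ^ 2 / (4 * t) := by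
            apply div_le_div_of_nonneg_right _ (by positivity)
            rw [← sq_abs (x - w.im)]
            apply pow_le_pow_left₀ (abs_nonneg _)
            have e : x - w.im = (x - w0.im) - (w.im - w0.im) := by ring
            rw [e]
            exact (abs_sub _ _).trans (by linarith)
          have a3 : w.re ^ 2 ≤ (|w0.re| + 1) ^ 2 := by
            rw [← sq_abs w.re]
            apply pow_le_pow_left₀ (abs_nonneg _)
            have e : w.re = w0.re + (w.re - w0.re) := by ring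
            rw [e]
            exact (abs_add_le _ _).trans (by linarith)
          have a4 : (v - w0.re) ^ 2 ≤ 2 * (v - w.re) ^ 2 + 2 := by nlinarith [sq_nonneg ((v - w.re) - (w.re - w0.re))]
          have a5 : v ^ 2 ≤ 2 * (v - w.re) ^ 2 + 2 * w.re ^ 2 := by nlinarith [sq_nonneg ((v - w.re) - w.re)]
          have e : -((v - w.re) ^ 2) / (4 * t) = -((v - w.re) ^ 2 / (4 * t)) := by ring
          rw [e]
          linarith
      _ = _ := by rw [Real.exp_add _ (-(3 / 16) * (v - w0.re) ^ 2), hK1]; ring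
  have hexp : Real.exp (-(3 / 16) * (v - w0.re) ^ 2) ≤ 1 * Real.exp (-(1 / 8) * (v - w0.re) ^ 2) := by
    rw [one_mul]; apply Real.exp_le_exp.2; nlinarith [sq_nonneg (v - w0.re)]
  refine ⟨h1.trans (mul_le_mul_of_nonneg_right (by linarith) (Real.exp_pos _).le), ?_⟩
  rw [norm_mul]
  have h3 : ‖((⟨v, x⟩ : ℂ) - w) / (2 * t)‖ ≤ ((|x - w0.im| + 3 + 8) / (2 * t)) *
      Real.exp (1 / 16 * (v - w0.re) ^ 2) := by
    rw [norm_div]
    have h7 : ‖(2 : ℂ) * t‖ = 2 * t := by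
      rw [norm_mul, Complex.norm_real, Real.norm_of_nonneg ht.le]; norm_num
    rw [h7, div_mul_eq_mul_div]
    apply div_le_div_of_nonneg_right _ (by positivity)
    have h4 : ‖(⟨v, x⟩ : ℂ) - w‖ ≤ |v - w0.re| + 1 + (|x - w0.im| + 1) := by
      refine (Complex.norm_le_abs_re_add_abs_im _).trans ?_
      simp only [sub_re, sub_im]
      apply add_le_add
      · have e : v - w.re = (v - w0.re) - (w.re - w0.re) := by ring
        rw [e]; exact (abs_sub _ _).trans (by linarith)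
      · have e : x - w.im = (x - w0.im) - (w.im - w0.im) := by ring
        rw [e]; exact (abs_sub _ _).trans (by linarith)
    refine h4.trans ?_
    have h5 := Real.add_one_le_exp (1 / 16 * (v - w0.re) ^ 2)
    have h6 : |v - w0.re| ≤ 1 + (v - w0.re) ^ 2 / 4 := by
      nlinarith [sq_nonneg (|v - w0.re| - 2), sq_abs (v - w0.re)]
    have h8 : 0 ≤ |x - w0.im| := abs_nonneg _
    have h9 : 1 ≤ Real.exp (1 / 16 * (v - w0.re) ^ 2) := Real.one_le_exp (by positivity)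
    nlinarith
  calc ‖kk F t x w v‖ * ‖((⟨v, x⟩ : ℂ) - w) / (2 * t)‖
      ≤ (K1 * Real.exp (-(3 / 16) * (v - w0.re) ^ 2)) * (((|x - w0.im| + 3 + 8) / (2 * t)) *
      Real.exp (1 / 16 * (v - w0.re) ^ 2)) := mul_le_mul h1 h3 (norm_nonneg _) (by positivity)
    _ = K2 * (Real.exp (-(3 / 16) * (v - w0.re) ^ 2) * Real.exp (1 / 16 * (v - w0.re) ^ 2)) := by
        rw [hK2]; ring
    _ = K2 * Real.exp (-(1 / 8) * (v - w0.re) ^ 2) := by
        rw [← Real.exp_add]; congr 2; ring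
    _ ≤ _ := mul_le_mul_of_nonneg_right (by linarith) (Real.exp_pos _).le

lemma gauss_shift_int (b a : ℝ) (hb : 0 < b) (K : ℝ) :
    Integrable (fun v : ℝ => K * Real.exp (-b * (v - a) ^ 2)) :=
  ((integrable_exp_neg_mul_sq hb).comp_sub_right a).const_mul K

lemma kk_int {F : ℂ → ℂ} (hF : Continuous F) (hg : Gr F) {t : ℝ} (ht : 0 < t) (ht1 : t ≤ 1 / 2)
    (x : ℝ) (w : ℂ) : Integrable (kk F t x w) := by
  obtain ⟨C, hC, hb⟩ := hg
  obtain ⟨K, hK, h⟩ := kk_bound hC hb ht ht1 x w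
  exact (gauss_shift_int (3 / 16) w.re (by norm_num) K).mono' (kk_cont hF t x w).aestronglyMeasurable
    (Eventually.of_forall fun v => (h w (Metric.mem_ball_self one_pos) v).1)

theorem AI_deriv {F : ℂ → ℂ} (hF : Continuous F) (hg : Gr F) {t : ℝ} (ht : 0 < t) (ht1 : t ≤ 1 / 2)
    (x : ℝ) (I : Set ℝ) (w : ℂ) : HasDerivAt (AI F t x I) (AD F t x I w) w := by
  obtain ⟨C, hC, hb⟩ := id hg
  obtain ⟨K, hK, h⟩ := kk_bound hC hb ht ht1 x w
  have ht' : (t : ℂ) ≠ 0 := by exact_mod_cast ht.ne'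
  have := hasDerivAt_integral_of_dominated_loc_of_deriv_le (μ := volume.restrict I)
    (F := fun w v => kk F t x w v) (F' := fun w v => kk F t x w v * (((⟨v, x⟩ : ℂ) - w) / (2 * t)))
    (x₀ := w) (s := Metric.ball w 1) (bound := fun v => K * Real.exp (-(1 / 8) * (v - w.re) ^ 2))
    (Metric.ball_mem_nhds w one_pos)
    (Eventually.of_forall fun w' => (kk_cont hF t x w').aestronglyMeasurable)
    (kk_int hF hg ht ht1 x w).integrableOn ?_ ?_ ?_ ?_
  · exact this.2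
  · have h1 : Continuous (fun v : ℝ => kk F t x w v * (((⟨v, x⟩ : ℂ) - w) / (2 * t))) := by
      have h2 := kk_cont hF t x w
      have h3 := hline_cont x
      fun_prop
    exact h1.aestronglyMeasurable
  · exact Eventually.of_forall fun v w' hw' => (h w' hw' v).2
  · exact (gauss_shift_int (1 / 8) w.re (by norm_num) K).integrableOn
  · refine Eventually.of_forall fun v w' hw' => ?_
    unfold kk
    have h1 : HasDerivAt (fun w : ℂ => -((⟨v, x⟩ : ℂ) - w) ^ 2 / (4 * t))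
        (((⟨v, x⟩ : ℂ) - w') / (2 * t)) w' := by
      have h2 : HasDerivAt (fun w : ℂ => (⟨v, x⟩ : ℂ) - w) (-1) w' := by
        simpa using (hasDerivAt_id w').const_sub (⟨v, x⟩ : ℂ)
      have h3 := ((h2.pow 2).neg).div_const (4 * (t : ℂ))
      refine h3.congr_deriv ?_
      push_cast
      field_simp
      ring
    have h4 := (h1.cexp).const_mul (F ⟨v, x⟩)
    refine h4.congr_deriv ?_
    ring

end Pool.Agent.Helper54.Hf
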