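import Pool.Agent.Helper54.Hf.G4

set_option autoImplicit false
set_option maxHeartbeats 1000000

open Complex MeasureTheory Set

namespace Pool.Agent.Helper54.Hf

/-- the value at the saddle point -/
noncomputable def MM (F : ℂ → ℂ) (t : ℝ) (w0 p1 : ℂ) : ℂ := F p1 * cexp (-(p1 - w0) ^ 2 / (4 * t))

/-- the normalised integrand -/
noncomputable def GG (F : ℂ → ℂ) (t : ℝ) (w0 p1 : ℂ) (s : ℝ) : ℂ :=
  F (p1 + s) * cexp (-(p1 + s - w0) ^ 2 / (4 * t)) / MM F t w0 p1

section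
variable {F : ℂ → ℂ} {t L ε V : ℝ} {w0 : ℂ}

lemma Loc.MM_ne (h : Loc F t L ε V w0) {p1 : ℂ} (hp : ‖p1 - (w0 + (t * L : ℝ))‖ ≤ t * L / 100) :
    MM F t w0 p1 ≠ 0 := by
  obtain ⟨g1, g2, g3, g4⟩ := h.geo hp
  have := h.tL
  have := h.V0
  exact mul_ne_zero (h.H1 p1 (by linarith) (by linarith)).1 (Complex.exp_ne_zero _)

lemma Loc.GG_eq (h : Loc F t L ε V w0) {p1 : ℂ} (hp : ‖p1 - (w0 + (t * L : ℝ))‖ ≤ t * L / 100)
    (hp2 : p1 - w0 = 2 * t * (deriv F p1 / F p1)) {s : ℝ} (hs : -(p1.re - V) ≤ s) :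
    ∃ P : ℂ, ‖P‖ ≤ 8 * ε * (s ^ 2 / t) ∧ GG F t w0 p1 s = Real.exp (-(s ^ 2 / t) / 4) * cexp P := by
  obtain ⟨P, h1, h2⟩ := h.expand hp hs
  refine ⟨P, h1, ?_⟩
  have hM := h.MM_ne hp
  have ht : (t : ℂ) ≠ 0 := by exact_mod_cast h.t0.ne'
  unfold GG
  rw [div_eq_iff hM, h2]
  unfold MM
  have e1 : -(p1 + s - w0) ^ 2 / (4 * (t : ℂ)) = -(p1 - w0) ^ 2 / (4 * t) - (deriv F p1 / F p1) * s +
      -((s : ℂ) ^ 2 / t) / 4 := by
    have e2 : p1 + s - w0 = (p1 - w0) + s := by ring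
    rw [e2, hp2]
    generalize deriv F p1 / F p1 = q
    field_simp
    ring
  rw [e1]
  push_cast
  have e3 : cexp (deriv F p1 / F p1 * s + P) * cexp (-(p1 - w0) ^ 2 / (4 * t) -
      (deriv F p1 / F p1) * s + -((s : ℂ) ^ 2 / t) / 4) =
      cexp (-((s : ℂ) ^ 2 / t) / 4) * cexp P * cexp (-(p1 - w0) ^ 2 / (4 * t)) := by
    rw [← Complex.exp_add, ← Complex.exp_add, ← Complex.exp_add]
    congr 1; ring
  calc F p1 * cexp (deriv F p1 / F p1 * s + P) * cexp (-(p1 - w0) ^ 2 / (4 * t) -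
      (deriv F p1 / F p1) * s + -((s : ℂ) ^ 2 / t) / 4)
      = F p1 * (cexp (deriv F p1 / F p1 * s + P) * cexp (-(p1 - w0) ^ 2 / (4 * t) -
      (deriv F p1 / F p1) * s + -((s : ℂ) ^ 2 / t) / 4)) := by ring
    _ = _ := by rw [e3]; ring

lemma Loc.g2 (h : Loc F t L ε V w0) {p1 : ℂ} (hp : ‖p1 - (w0 + (t * L : ℝ))‖ ≤ t * L / 100)
    (hp2 : p1 - w0 = 2 * t * (deriv F p1 / F p1)) {s : ℝ} (hs : |s| ≤ p1.re / 2) :
    ‖GG F t w0 p1 s - Real.exp (-(s ^ 2 / t) / 4)‖ ≤
      1 / 200 * (s ^ 2 / t) * Real.exp (-(s ^ 2 / t) / 8) := by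
  obtain ⟨g1, g2, g3, g4⟩ := h.geo hp
  have hV := h.V0
  have ht := h.t0
  obtain ⟨P, h1, h2⟩ := h.GG_eq hp hp2 (s := s) (by have := (abs_le.1 hs).1; linarith)
  have hX0 : 0 ≤ s ^ 2 / t := by positivity
  set X := s ^ 2 / t with hX
  have he1 := h.e1
  have hP : ‖P‖ ≤ X / 400 := by nlinarith
  rw [h2]
  have e : (Real.exp (-X / 4) : ℂ) * cexp P - Real.exp (-X / 4) = Real.exp (-X / 4) * (cexp P - 1) := by ring
  rw [e, norm_mul, Complex.norm_real, Real.norm_of_nonneg (Real.exp_pos _).le]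
  have h3 : ‖cexp P - 1‖ ≤ ‖P‖ * Real.exp ‖P‖ := by
    have h3 := Complex.norm_exp_sub_sum_le_norm_mul_exp P 1
    simpa using h3
  calc Real.exp (-X / 4) * ‖cexp P - 1‖ ≤ Real.exp (-X / 4) * (X / 400 * Real.exp (X / 400)) := by
        apply mul_le_mul_of_nonneg_left _ (Real.exp_pos _).le
        refine h3.trans (mul_le_mul hP (Real.exp_le_exp.2 hP) (Real.exp_pos _).le (by positivity))
    _ = X / 400 * (Real.exp (-X / 4) * Real.exp (X / 400)) := by ring
    _ = X / 400 * Real.exp (-X / 4 + X / 400) := by rw [← Real.exp_add]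
    _ ≤ (1 / 200 * X) * Real.exp (-X / 8) := by
        apply mul_le_mul _ _ (Real.exp_pos _).le (by positivity)
        · linarith
        · apply Real.exp_le_exp.2; linarith

lemma Loc.g1 (h : Loc F t L ε V w0) {p1 : ℂ} (hp : ‖p1 - (w0 + (t * L : ℝ))‖ ≤ t * L / 100)
    (hp2 : p1 - w0 = 2 * t * (deriv F p1 / F p1)) {s : ℝ} (hs : -p1.re ≤ s) :
    ‖GG F t w0 p1 s‖ ≤ Real.exp (-(s ^ 2 / t) / 16) := by
  obtain ⟨g1, g2, g3, g4⟩ := h.geo hp
  have hV := h.V0
  have ht := h.t0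
  have he0 := h.e0
  have he1 := h.e1
  have hy0 := h.y0
  have htL := h.tL
  rcases le_or_gt (-(p1.re - V)) s with hc | hc
  · obtain ⟨P, h1, h2⟩ := h.GG_eq hp hp2 hc
    rw [h2, norm_mul, Complex.norm_real, Real.norm_of_nonneg (Real.exp_pos _).le, Complex.norm_exp,
      ← Real.exp_add]
    apply Real.exp_le_exp.2
    have h3 := Complex.re_le_norm P
    have hX0 : 0 ≤ s ^ 2 / t := by positivity
    nlinarith
  · -- near the axis
    have hM := h.MM_ne hp
    have hF1 : F p1 ≠ 0 := (h.H1 p1 (by linarith) (by linarith)).1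
    obtain ⟨P, h1, h2⟩ := h.expand hp (s := -(p1.re - V)) le_rfl
    set a := p1.re - V with ha
    have hmono := h.H2 (p1.re + s) p1.im (by rw [abs_le]; constructor <;> linarith) (by linarith)
    have e1 : (⟨p1.re + s, p1.im⟩ : ℂ) = p1 + s := by
      apply Complex.ext <;> simp
    have e2 : (⟨V, p1.im⟩ : ℂ) = p1 + ((-a : ℝ) : ℂ) := by
      apply Complex.ext <;> simp [ha]
    rw [e1, e2, h2] at hmono
    have hψ : deriv F p1 / F p1 = (p1 - w0) / (2 * t) := by
      rw [hp2]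
      have : (t : ℂ) ≠ 0 := by exact_mod_cast ht.ne'
      field_simp
    have hre : (deriv F p1 / F p1 * ((-a : ℝ) : ℂ) + P).re = -(a * (p1.re - w0.re) / (2 * t)) + P.re := by
      rw [hψ, add_re]
      congr 1
      have : (p1 - w0) / (2 * (t : ℂ)) * ((-a : ℝ) : ℂ) = (((-a / (2 * t) : ℝ)) : ℂ) * (p1 - w0) := by
        push_cast
        have : (t : ℂ) ≠ 0 := by exact_mod_cast ht.ne'
        field_simp
      rw [this, re_ofReal_mul, sub_re]
      field_simp
    rw [norm_mul, Complex.norm_exp, hre] at hmono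
    unfold GG MM
    rw [norm_div, norm_mul, norm_mul, Complex.norm_exp, Complex.norm_exp]
    have hsq : ∀ z : ℂ, (-z ^ 2 / (4 * (t : ℂ))).re = -(z.re ^ 2 - z.im ^ 2) / (4 * t) := by
      intro z
      have : -z ^ 2 / (4 * (t : ℂ)) = ((1 / (4 * t) : ℝ) : ℂ) * (-z ^ 2) := by
        push_cast
        have : (t : ℂ) ≠ 0 := by exact_mod_cast ht.ne'
        field_simp
      rw [this, re_ofReal_mul, neg_re, sq, mul_re]
      field_simp
    have hden : 0 < ‖F p1‖ * Real.exp ((-(p1 - w0) ^ 2 / (4 * (t : ℂ))).re) := by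
      have := norm_pos_iff.2 hF1
      positivity
    rw [div_le_iff₀ hden, hsq, hsq]
    simp only [sub_re, add_re, ofReal_re, sub_im, add_im, ofReal_im, add_zero]
    calc ‖F (p1 + s)‖ * Real.exp (-((p1.re + s - w0.re) ^ 2 - (p1.im - w0.im) ^ 2) / (4 * t))
        ≤ (‖F p1‖ * Real.exp (-(a * (p1.re - w0.re) / (2 * t)) + P.re)) *
          Real.exp (-((p1.re + s - w0.re) ^ 2 - (p1.im - w0.im) ^ 2) / (4 * t)) :=
          mul_le_mul_of_nonneg_right hmono (Real.exp_pos _).le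
      _ = ‖F p1‖ * Real.exp ((-(a * (p1.re - w0.re) / (2 * t)) + P.re) +
          -((p1.re + s - w0.re) ^ 2 - (p1.im - w0.im) ^ 2) / (4 * t)) := by
          rw [Real.exp_add (-(a * (p1.re - w0.re) / (2 * t)) + P.re)]; ring
      _ ≤ ‖F p1‖ * Real.exp (-(s ^ 2 / t) / 16 +
          -((p1.re - w0.re) ^ 2 - (p1.im - w0.im) ^ 2) / (4 * t)) := by
          apply mul_le_mul_of_nonneg_left _ (norm_nonneg _)
          apply Real.exp_le_exp.2
          have h3 := Complex.re_le_norm P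
          have h4 : P.re ≤ 8 * ε * (a ^ 2 / t) := by
            refine h3.trans (h1.trans (le_of_eq ?_)); ring
          have h5 : 8 * ε * (a ^ 2 / t) ≤ 1 / 400 * (a ^ 2 / t) :=
            mul_le_mul_of_nonneg_right (by linarith) (by positivity)
          -- everything times 1/t
          have key : -(a * (p1.re - w0.re)) / 2 + 1 / 400 * a ^ 2 - (p1.re + s - w0.re) ^ 2 / 4 +
              (p1.re - w0.re) ^ 2 / 4 + s ^ 2 / 16 ≤ 0 := by
            have hA0 : 0 ≤ p1.re - w0.re := by have := (abs_le.1 g1).1; linarith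
            have hAv : p1.re - w0.re ≤ p1.re := by linarith
            set A := p1.re - w0.re with hA
            have e3 : p1.re + s - w0.re = A + s := by rw [hA]; ring
            rw [e3]
            have hr : 0 ≤ -(s + a) := by rw [ha]; linarith
            have hr2 : -(s + a) ≤ V := by rw [ha]; linarith
            have e4 : -(a * A) / 2 + 1 / 400 * a ^ 2 - (A + s) ^ 2 / 4 + A ^ 2 / 4 + s ^ 2 / 16 =
                A * (-(s + a)) / 2 + 1 / 400 * a ^ 2 - 3 / 16 * s ^ 2 := by ring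
            rw [e4]
            have ha1 : 14 / 15 * p1.re ≤ a := by rw [ha]; linarith
            have hv : 0 < p1.re := by linarith
            have ha2 : a ≤ -s := by linarith
            have h6 : A * (-(s + a)) ≤ p1.re * (p1.re / 15) :=
              mul_le_mul hAv (by linarith) hr hv.le
            have h7 : a ^ 2 ≤ s ^ 2 := by
              rw [← neg_sq s]
              exact pow_le_pow_left₀ (by linarith) ha2 2
            have h8 : (14 / 15 * p1.re) ^ 2 ≤ a ^ 2 := pow_le_pow_left₀ (by positivity) ha1 2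
            nlinarith
          have h9 : (-(a * (p1.re - w0.re) / (2 * t)) + P.re) +
              -((p1.re + s - w0.re) ^ 2 - (p1.im - w0.im) ^ 2) / (4 * t) -
              (-(s ^ 2 / t) / 16 + -((p1.re - w0.re) ^ 2 - (p1.im - w0.im) ^ 2) / (4 * t)) ≤
              (-(a * (p1.re - w0.re)) / 2 + 1 / 400 * a ^ 2 - (p1.re + s - w0.re) ^ 2 / 4 +
              (p1.re - w0.re) ^ 2 / 4 + s ^ 2 / 16) / t := by
            have e5 : (-(a * (p1.re - w0.re)) / 2 + 1 / 400 * a ^ 2 - (p1.re + s - w0.re) ^ 2 / 4 +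
              (p1.re - w0.re) ^ 2 / 4 + s ^ 2 / 16) / t = -(a * (p1.re - w0.re) / (2 * t)) +
              1 / 400 * (a ^ 2 / t) + -((p1.re + s - w0.re) ^ 2 - (p1.im - w0.im) ^ 2) / (4 * t) -
              (-(s ^ 2 / t) / 16 + -((p1.re - w0.re) ^ 2 - (p1.im - w0.im) ^ 2) / (4 * t)) := by
              field_simp; ring
            rw [e5]; linarith
          have h10 : (-(a * (p1.re - w0.re)) / 2 + 1 / 400 * a ^ 2 - (p1.re + s - w0.re) ^ 2 / 4 +
              (p1.re - w0.re) ^ 2 / 4 + s ^ 2 / 16) / t ≤ 0 := div_nonpos_of_nonpos_of_nonneg key ht.le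
          linarith
      _ = _ := by rw [Real.exp_add]; ring

end

end Pool.Agent.Helper54.Hf
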