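import Pool.Agent.Helper54.Hf.A1
import Pool.Agent.Helper54.Hf.G5

set_option autoImplicit false
set_option maxHeartbeats 1000000

/-!
The heat transform as a sum of two conjugate pieces.
-/

open Complex MeasureTheory Set Filter Topology

namespace Pool.Agent.Helper54.Hf

/-- `H` is the heat transform of `F` at time `t` (in the horizontal direction). -/
def IsHeat (F H : ℂ → ℂ) (t : ℝ) : Prop :=
  ∀ w : ℂ, (Real.sqrt (4 * Real.pi * t) : ℂ) * H w =
    ∫ r : ℝ, F (w + r) * cexp (-(r : ℂ) ^ 2 / (4 * t))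

/-- symmetries of `F` -/
structure Sym (F : ℂ → ℂ) : Prop where
  even : ∀ w, F (-w) = F w
  real : ∀ w, F (starRingEnd ℂ w) = starRingEnd ℂ (F w)

lemma shift_id {F H : ℂ → ℂ} (hF : Continuous F) (hg : Gr F) {t : ℝ} (ht : 0 < t)
    (ht1 : t ≤ 1 / 2) (hH : Differentiable ℂ H) (hh : IsHeat F H t) (x : ℝ) (w : ℂ) :
    (Real.sqrt (4 * Real.pi * t) : ℂ) * H w = AI F t x univ w := by
  have h1 : AnalyticOnNhd ℂ (fun w => (Real.sqrt (4 * Real.pi * t) : ℂ) * H w) univ :=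
    (DifferentiableOn.analyticOnNhd ((hH.const_mul _).differentiableOn) isOpen_univ)
  have h2 : AnalyticOnNhd ℂ (AI F t x univ) univ := by
    apply DifferentiableOn.analyticOnNhd _ isOpen_univ
    intro w _
    exact (AI_deriv hF hg ht ht1 x univ w).differentiableAt.differentiableWithinAt
  have h3 : ∀ a : ℝ, (Real.sqrt (4 * Real.pi * t) : ℂ) * H ⟨a, x⟩ = AI F t x univ ⟨a, x⟩ := by
    intro a
    rw [hh]
    unfold AI kk
    rw [Measure.restrict_univ]
    have h4 := integral_sub_right_eq_self (μ := volume)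
      (fun r : ℝ => F (⟨a, x⟩ + r) * cexp (-(r : ℂ) ^ 2 / (4 * t))) a
    rw [← h4]
    refine integral_congr_ae (Eventually.of_forall fun v => ?_)
    have e1 : (⟨a, x⟩ : ℂ) + ((v - a : ℝ) : ℂ) = ⟨v, x⟩ := by
      apply Complex.ext <;> simp
    have e2 : (⟨v, x⟩ : ℂ) - ⟨a, x⟩ = ((v - a : ℝ) : ℂ) := by
      apply Complex.ext <;> simp
    simp only [e1, e2]
  have h5 : ∃ᶠ z in 𝓝[≠] (⟨0, x⟩ : ℂ), (fun w => (Real.sqrt (4 * Real.pi * t) : ℂ) * H w) z =
      AI F t x univ z := by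
    have hseq : Tendsto (fun n : ℕ => (⟨1 / ((n : ℝ) + 1), x⟩ : ℂ)) atTop (𝓝[≠] (⟨0, x⟩ : ℂ)) := by
      rw [tendsto_nhdsWithin_iff]
      constructor
      · have hc := (hline_cont x).tendsto 0
        exact hc.comp tendsto_one_div_add_atTop_nhds_zero_nat
      · refine Eventually.of_forall fun n => ?_
        simp only [mem_compl_iff, mem_singleton_iff]
        intro h
        have := congrArg Complex.re h
        simp only at this
        have h6 : (0 : ℝ) < 1 / ((n : ℝ) + 1) := by positivity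
        linarith
    exact hseq.frequently (Frequently.of_forall fun n => h3 _)
  have h6 := AnalyticOnNhd.eq_of_frequently_eq h1 h2 h5
  exact congrFun h6 w

lemma reflect {F : ℂ → ℂ} (hs : Sym F) (t x : ℝ) (w : ℂ) :
    AI F t x (Iic 0) w = starRingEnd ℂ (AI F t x (Ioi 0) (-(starRingEnd ℂ w))) := by
  unfold AI
  rw [← integral_conj]
  rw [← neg_zero, ← integral_comp_neg_Ioi]
  rw [neg_zero]
  refine integral_congr_ae (Eventually.of_forall fun v => ?_)
  simp only [kk]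
  rw [map_mul, ← Complex.exp_conj]
  have e1 : F ⟨-v, x⟩ = starRingEnd ℂ (F ⟨v, x⟩) := by
    rw [← hs.real, ← hs.even]
    congr 1
    apply Complex.ext <;> simp
  rw [e1]
  congr 2
  rw [map_div₀, map_neg, map_pow, map_sub, map_neg, map_mul, Complex.conj_ofReal]
  have e2 : (⟨-v, x⟩ : ℂ) = -(starRingEnd ℂ ⟨v, x⟩) := by apply Complex.ext <;> simp
  have e3 : starRingEnd ℂ (4 : ℂ) = 4 := Complex.conj_ofNat 4
  rw [e2, e3, Complex.conj_conj]
  ring

/-- **The decomposition.** -/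
lemma decomp {F H : ℂ → ℂ} (hF : Continuous F) (hs : Sym F) (hg : Gr F) {t : ℝ} (ht : 0 < t)
    (ht1 : t ≤ 1 / 2) (hH : Differentiable ℂ H) (hh : IsHeat F H t) (x : ℝ) (w : ℂ) :
    (Real.sqrt (4 * Real.pi * t) : ℂ) * H w = AI F t x (Ioi 0) w +
      starRingEnd ℂ (AI F t x (Ioi 0) (-(starRingEnd ℂ w))) := by
  rw [shift_id hF hg ht ht1 hH hh x w, ← reflect hs]
  unfold AI
  have hi := kk_int hF hg ht ht1 x w
  rw [Measure.restrict_univ, ← integral_add_compl (s := Ioi (0:ℝ)) measurableSet_Ioi hi, compl_Ioi]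

lemma reflect_deriv {F : ℂ → ℂ} (hF : Continuous F) (hg : Gr F) {t : ℝ} (ht : 0 < t)
    (ht1 : t ≤ 1 / 2) (x : ℝ) (w : ℂ) :
    HasDerivAt (fun w => starRingEnd ℂ (AI F t x (Ioi 0) (-(starRingEnd ℂ w))))
      (-(starRingEnd ℂ (AD F t x (Ioi 0) (-(starRingEnd ℂ w))))) w := by
  have h1 : HasDerivAt (fun w => AI F t x (Ioi 0) (-w)) (-(AD F t x (Ioi 0) (-(starRingEnd ℂ w))))
      (starRingEnd ℂ w) := by
    have h2 := AI_deriv hF hg ht ht1 x (Ioi 0) (-(starRingEnd ℂ w))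
    have h3 := HasDerivAt.comp (starRingEnd ℂ w) h2 (hasDerivAt_neg (starRingEnd ℂ w))
    have h4 := h3.congr_deriv (show AD F t x (Ioi 0) (-(starRingEnd ℂ) w) * -1 =
      -(AD F t x (Ioi 0) (-(starRingEnd ℂ w))) by ring)
    exact h4
  have h5 := h1.conj_conj
  rw [Complex.conj_conj, map_neg] at h5
  exact h5

/-- change of variables to the saddle point -/
lemma AI_saddle {F : ℂ → ℂ} {t : ℝ} {w0 p1 : ℂ} (hM : MM F t w0 p1 ≠ 0) (ht : 0 < t) (η : ℝ) :
    AI F t p1.im (Ioi 0) (w0 + η) = MM F t w0 p1 * cexp (η * (p1 - w0) / (2 * t) - η ^ 2 / (4 * t)) *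
      ∫ s in Ioi (-p1.re), GG F t w0 p1 s * cexp (((η / (2 * t) : ℝ) : ℂ) * s) := by
  have ht' : (t : ℂ) ≠ 0 := by exact_mod_cast ht.ne'
  unfold AI
  rw [← integral_const_mul, ← integral_indicator measurableSet_Ioi, ← integral_indicator measurableSet_Ioi,
    ← integral_add_left_eq_self (μ := volume) _ p1.re]
  refine integral_congr_ae (Eventually.of_forall fun s => ?_)
  by_cases hs : s ∈ Ioi (-p1.re)
  · have hs' : p1.re + s ∈ Ioi (0 : ℝ) := by rw [mem_Ioi] at hs ⊢; linarith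
    simp only [indicator_of_mem hs, indicator_of_mem hs']
    unfold kk GG
    have e1 : (⟨p1.re + s, p1.im⟩ : ℂ) = p1 + s := by apply Complex.ext <;> simp
    rw [e1]
    have e2 : -(p1 + (s : ℂ) - (w0 + η)) ^ 2 / (4 * (t : ℂ)) =
        (η * (p1 - w0) / (2 * t) - η ^ 2 / (4 * t)) + (-(p1 + s - w0) ^ 2 / (4 * t) +
          ((η / (2 * t) : ℝ) : ℂ) * s) := by
      push_cast
      field_simp
      ring
    rw [e2, Complex.exp_add, Complex.exp_add]
    field_simp
  · have hs' : p1.re + s ∉ Ioi (0 : ℝ) := by rw [mem_Ioi] at hs ⊢; linarith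
    simp only [indicator_of_notMem hs, indicator_of_notMem hs']

lemma AD_saddle {F : ℂ → ℂ} {t : ℝ} {w0 p1 : ℂ} (hM : MM F t w0 p1 ≠ 0) (ht : 0 < t) (η : ℝ)
    (hi0 : IntegrableOn (fun s : ℝ => GG F t w0 p1 s * cexp (((η / (2 * t) : ℝ) : ℂ) * s)) (Ioi (-p1.re)))
    (hi1 : IntegrableOn (fun s : ℝ => GG F t w0 p1 s * s * cexp (((η / (2 * t) : ℝ) : ℂ) * s)) (Ioi (-p1.re))) :
    AD F t p1.im (Ioi 0) (w0 + η) = MM F t w0 p1 * cexp (η * (p1 - w0) / (2 * t) - η ^ 2 / (4 * t)) *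
      (((p1 - w0 - η) / (2 * t)) * (∫ s in Ioi (-p1.re), GG F t w0 p1 s * cexp (((η / (2 * t) : ℝ) : ℂ) * s)) +
        1 / (2 * t) * ∫ s in Ioi (-p1.re), GG F t w0 p1 s * s * cexp (((η / (2 * t) : ℝ) : ℂ) * s)) := by
  have ht' : (t : ℂ) ≠ 0 := by exact_mod_cast ht.ne'
  rw [← integral_const_mul ((p1 - w0 - η) / (2 * (t : ℂ))), ← integral_const_mul (1 / (2 * (t : ℂ))),
    ← integral_add (hi0.const_mul _) (hi1.const_mul _), ← integral_const_mul]
  unfold AD
  rw [← integral_indicator measurableSet_Ioi, ← integral_indicator measurableSet_Ioi,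
    ← integral_add_left_eq_self (μ := volume) _ p1.re]
  refine integral_congr_ae (Eventually.of_forall fun s => ?_)
  by_cases hs : s ∈ Ioi (-p1.re)
  · have hs' : p1.re + s ∈ Ioi (0 : ℝ) := by rw [mem_Ioi] at hs ⊢; linarith
    simp only [indicator_of_mem hs, indicator_of_mem hs']
    unfold kk GG
    have e1 : (⟨p1.re + s, p1.im⟩ : ℂ) = p1 + s := by apply Complex.ext <;> simp
    rw [e1]
    have e2 : -(p1 + (s : ℂ) - (w0 + η)) ^ 2 / (4 * (t : ℂ)) =
        (η * (p1 - w0) / (2 * t) - η ^ 2 / (4 * t)) + (-(p1 + s - w0) ^ 2 / (4 * t) +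
          ((η / (2 * t) : ℝ) : ℂ) * s) := by
      push_cast
      field_simp
      ring
    rw [e2, Complex.exp_add, Complex.exp_add]
    field_simp
    ring
  · have hs' : p1.re + s ∉ Ioi (0 : ℝ) := by rw [mem_Ioi] at hs ⊢; linarith
    simp only [indicator_of_notMem hs, indicator_of_notMem hs']

end Pool.Agent.Helper54.Hf
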