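import Pool.Agent.Helper54.Hf.A2

set_option autoImplicit false
set_option maxHeartbeats 1000000

/-!
Zeros of the heat transform near a point with the local hypotheses.
-/

open Complex MeasureTheory Set Filter Topology

namespace Pool.Agent.Helper54.Hf

section
variable {F H : ℂ → ℂ} {t L ε V : ℝ} {w0 : ℂ}

lemma GG_cont (hF : Continuous F) (t : ℝ) (w0 p1 : ℂ) : Continuous (GG F t w0 p1) := by
  unfold GG
  have h1 : Continuous (fun s : ℝ => F (p1 + s)) := hF.comp (by fun_prop)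
  exact (h1.mul (by fun_prop)).div_const _

lemma sqrt_lower {t : ℝ} (ht : 0 < t) : 7 / 2 * Real.sqrt t ≤ Real.sqrt (4 * Real.pi * t) := by
  have h1 : Real.sqrt (4 * Real.pi * t) = Real.sqrt (4 * Real.pi) * Real.sqrt t :=
    Real.sqrt_mul (by positivity) t
  rw [h1]
  apply mul_le_mul_of_nonneg_right _ (Real.sqrt_nonneg _)
  apply Real.le_sqrt_of_sq_le
  have := Real.pi_gt_d2
  norm_num
  linarith

lemma J0_lower {G : ℝ → ℂ} {t v1 S θ : ℝ} (hG : Continuous G) (ht : 0 < t) (hS : 0 < S) (hSv : S ≤ v1) (hΛ : 125 * t ≤ S ^ 2)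
    (hθ : |θ| * Real.sqrt t ≤ 1 / 100)
    (g1 : ∀ s, -v1 ≤ s → ‖G s‖ ≤ Real.exp (-(s ^ 2 / t) / 16))
    (g2 : ∀ s, |s| ≤ S → ‖G s - Real.exp (-(s ^ 2 / t) / 4)‖ ≤
      1 / 200 * (s ^ 2 / t) * Real.exp (-(s ^ 2 / t) / 8)) :
    5 / 2 * Real.sqrt t ≤ ‖∫ s in Ioi (-v1), G s * cexp (θ * s)‖ := by
  have h1 := J0_est hG ht hS hSv hΛ hθ g1 g2
  have h2 := sqrt_lower ht
  have h3 : ‖((Real.sqrt (4 * Real.pi * t) : ℝ) : ℂ)‖ = Real.sqrt (4 * Real.pi * t) := by
    rw [Complex.norm_real, Real.norm_of_nonneg (Real.sqrt_nonneg _)]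
  have h4 := norm_sub_norm_le ((Real.sqrt (4 * Real.pi * t) : ℝ) : ℂ) (∫ s in Ioi (-v1), G s * cexp (θ * s))
  rw [norm_sub_rev] at h4
  rw [h3] at h4
  linarith

/-- `‖exp(η(p1-w0)/2t - η²/4t)‖` and the reflected point -/
lemma refl_point (w0 : ℂ) : -(starRingEnd ℂ w0) = w0 + ((-(2 * w0.re) : ℝ) : ℂ) := by
  apply Complex.ext <;> simp <;> ring

/-- lower bound away from the axis -/
theorem Loc.lower (h : Loc F t L ε V w0) (hs : Sym F) (hg : Gr F) (hH : Differentiable ℂ H)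
    (hh : IsHeat F H t) (h5 : 11 * t ≤ w0.re * (w0.re + t * L)) (h6 : 520 * t ≤ (w0.re + t * L) ^ 2) :
    ∃ p1 : ℂ, ‖p1 - (w0 + (t * L : ℝ))‖ ≤ t * L / 100 ∧ p1 - w0 = 2 * t * (deriv F p1 / F p1) ∧
      1 / 2 * ‖MM F t w0 p1‖ ≤ ‖H w0‖ := by
  obtain ⟨p1, hp, hp2⟩ := h.saddle
  refine ⟨p1, hp, hp2, ?_⟩
  obtain ⟨q1, q2, q3, q4⟩ := h.geo hp
  have ht := h.t0
  have hy0 := h.y0
  have htL := h.tL
  have hV := h.V0
  have hM := h.MM_ne hp
  have hv : 0 < p1.re := by linarith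
  have hv2 : 500 * t ≤ p1.re ^ 2 := by
    have : (99 / 100 * (w0.re + t * L)) ^ 2 ≤ p1.re ^ 2 := pow_le_pow_left₀ (by positivity) q4 2
    nlinarith
  have hst : 0 < Real.sqrt t := Real.sqrt_pos.2 ht
  have hA : 5 / 2 * Real.sqrt t * ‖MM F t w0 p1‖ ≤ ‖AI F t p1.im (Ioi 0) w0‖ := by
    have e := AI_saddle hM ht (F := F) (t := t) (w0 := w0) (p1 := p1) 0
    simp only [ofReal_zero, add_zero, zero_mul, zero_div, ne_eq, OfNat.ofNat_ne_zero, not_false_eq_true,
      zero_pow, sub_zero, Complex.exp_zero, mul_one] at e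
    rw [e, norm_mul]
    have h1 := J0_lower (GG_cont h.dif.continuous t w0 p1) ht (S := p1.re / 2) (by positivity) (by linarith)
      (v1 := p1.re) (θ := 0) (by nlinarith) (by simp) (fun s hs => h.g1 hp hp2 hs) (fun s hs => h.g2 hp hp2 hs)
    simp only [ofReal_zero, zero_mul, Complex.exp_zero, mul_one] at h1
    nlinarith [norm_nonneg (MM F t w0 p1)]
  have hB : ‖AI F t p1.im (Ioi 0) (-(starRingEnd ℂ w0))‖ ≤ 1 / 2 * Real.sqrt t * ‖MM F t w0 p1‖ := by
    rw [refl_point, AI_saddle hM ht, mul_assoc, norm_mul, ← integral_const_mul]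
    have h1 := J2_est (t := t) (v1 := p1.re) (y0 := w0.re) ht hy0 hv (by nlinarith) hv2
      (K := fun s : ℝ => cexp (((-(2 * w0.re) : ℝ) : ℂ) * (p1 - w0) / (2 * t) - ((-(2 * w0.re) : ℝ) : ℂ) ^ 2 / (4 * t)) *
        (GG F t w0 p1 s * cexp (((-(2 * w0.re) / (2 * t) : ℝ) : ℂ) * s))) ?_
    · nlinarith [norm_nonneg (MM F t w0 p1)]
    · intro s hs
      have hg1 := h.g1 hp hp2 hs
      rw [norm_mul, norm_mul, Complex.norm_exp, Complex.norm_exp]
      have e1 : (((-(2 * w0.re) : ℝ) : ℂ) * (p1 - w0) / (2 * t) - ((-(2 * w0.re) : ℝ) : ℂ) ^ 2 / (4 * t)).re =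
          -(w0.re * (p1.re - w0.re) / t) - w0.re ^ 2 / t := by
        have : ((-(2 * w0.re) : ℝ) : ℂ) * (p1 - w0) / (2 * t) - ((-(2 * w0.re) : ℝ) : ℂ) ^ 2 / (4 * t) =
            ((-(2 * w0.re) / (2 * t) : ℝ) : ℂ) * (p1 - w0) - ((w0.re ^ 2 / t : ℝ) : ℂ) := by
          push_cast
          have : (t : ℂ) ≠ 0 := by exact_mod_cast ht.ne'
          field_simp
          ring
        rw [this, sub_re, re_ofReal_mul, ofReal_re, sub_re]
        field_simp
      have e2 : (((-(2 * w0.re) / (2 * t) : ℝ) : ℂ) * s).re = -(w0.re * s / t) := by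
        rw [re_ofReal_mul, ofReal_re]; field_simp
      rw [e1, e2]
      calc Real.exp (-(w0.re * (p1.re - w0.re) / t) - w0.re ^ 2 / t) * (‖GG F t w0 p1 s‖ * Real.exp (-(w0.re * s / t)))
          = ‖GG F t w0 p1 s‖ * Real.exp ((-(w0.re * (p1.re - w0.re) / t) - w0.re ^ 2 / t) + -(w0.re * s / t)) := by
            rw [Real.exp_add (-(w0.re * (p1.re - w0.re) / t) - w0.re ^ 2 / t)]; ring
        _ = ‖GG F t w0 p1 s‖ * Real.exp (-(w0.re * (p1.re + s) / t)) := by
            congr 2; field_simp; ring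
        _ ≤ _ := mul_le_mul_of_nonneg_right hg1 (Real.exp_pos _).le
  have hd := decomp h.dif.continuous hs hg ht h.t1 hH hh p1.im w0
  have h7 : ‖AI F t p1.im (Ioi 0) w0‖ - ‖AI F t p1.im (Ioi 0) (-(starRingEnd ℂ w0))‖ ≤
      Real.sqrt (4 * Real.pi * t) * ‖H w0‖ := by
    have e : Real.sqrt (4 * Real.pi * t) * ‖H w0‖ = ‖(Real.sqrt (4 * Real.pi * t) : ℂ) * H w0‖ := by
      rw [norm_mul, Complex.norm_real, Real.norm_of_nonneg (Real.sqrt_nonneg _)]
    rw [e, hd]
    have := norm_sub_le (AI F t p1.im (Ioi 0) w0 + starRingEnd ℂ (AI F t p1.im (Ioi 0) (-(starRingEnd ℂ w0))))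
      (starRingEnd ℂ (AI F t p1.im (Ioi 0) (-(starRingEnd ℂ w0))))
    rw [add_sub_cancel_right, RCLike.norm_conj] at this
    linarith
  have h8 : Real.sqrt (4 * Real.pi * t) ≤ 4 * Real.sqrt t := by
    have h1 : Real.sqrt (4 * Real.pi * t) = Real.sqrt (4 * Real.pi) * Real.sqrt t :=
      Real.sqrt_mul (by positivity) t
    rw [h1]
    apply mul_le_mul_of_nonneg_right _ (Real.sqrt_nonneg _)
    rw [Real.sqrt_le_left (by norm_num)]
    have := Real.pi_lt_d2
    norm_num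
    linarith
  have h9 : 2 * Real.sqrt t * ‖MM F t w0 p1‖ ≤ 4 * Real.sqrt t * ‖H w0‖ := by
    have : Real.sqrt (4 * Real.pi * t) * ‖H w0‖ ≤ 4 * Real.sqrt t * ‖H w0‖ :=
      mul_le_mul_of_nonneg_right h8 (norm_nonneg _)
    linarith
  have h10 : Real.sqrt t * (2 * ‖MM F t w0 p1‖) ≤ Real.sqrt t * (4 * ‖H w0‖) := by linarith
  have := le_of_mul_le_mul_left h10 hst
  linarith

/-- zeros near the axis are on the axis and simple -/
theorem Loc.near (h : Loc F t L ε V w0) (hs : Sym F) (hg : Gr F) (hH : Differentiable ℂ H)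
    (hh : IsHeat F H t) (hlam : 2000000 ≤ t * L ^ 2) (hy : w0.re ≤ 12 / L) (hz : H w0 = 0) :
    w0.re = 0 ∧ deriv H w0 ≠ 0 := by
  obtain ⟨p1, hp, hp2⟩ := h.saddle
  obtain ⟨q1, q2, q3, q4⟩ := h.geo hp
  have ht := h.t0
  have ht1 := h.t1
  have hy0 := h.y0
  have htL := h.tL
  have hL := h.L0
  have hV := h.V0
  have hM := h.MM_ne hp
  have hv : 0 < p1.re := by linarith
  have ht' : (t : ℂ) ≠ 0 := by exact_mod_cast ht.ne'
  have hst : 0 < Real.sqrt t := Real.sqrt_pos.2 ht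
  have hss : Real.sqrt t * Real.sqrt t = t := Real.mul_self_sqrt ht.le
  have hLs : 1400 ≤ Real.sqrt t * L := by
    have h1 : (1400 : ℝ) ^ 2 ≤ (Real.sqrt t * L) ^ 2 := by
      rw [mul_pow, Real.sq_sqrt ht.le]; linarith
    exact le_of_sq_le_sq h1 (by positivity) |>.trans le_rfl
  have hv2 : 500 * t ≤ p1.re ^ 2 := by
    have h1 : (99 / 100 * (t * L)) ^ 2 ≤ p1.re ^ 2 := pow_le_pow_left₀ (by positivity) (by linarith) 2
    have h2 : (t * L) ^ 2 = t * (t * L ^ 2) := by ring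
    have h3 : t * 2000000 ≤ t * (t * L ^ 2) := mul_le_mul_of_nonneg_left hlam ht.le
    nlinarith
  -- the tilts
  have htilt : ∀ η : ℝ, -(2 * w0.re) ≤ η → η ≤ 0 → |η / (2 * t)| * Real.sqrt t ≤ 1 / 100 := by
    intro η h1 h2
    rw [abs_div, abs_of_nonpos h2, abs_of_pos (by positivity : (0:ℝ) < 2 * t)]
    have h3 : -η ≤ 24 / L := by
      have : 24 / L = 2 * (12 / L) := by ring
      linarith
    have h4 : 24 / L ≤ 24 * Real.sqrt t / 1400 := by
      rw [div_le_div_iff₀ hL (by norm_num)]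
      nlinarith
    calc -η / (2 * t) * Real.sqrt t ≤ (24 * Real.sqrt t / 1400) / (2 * t) * Real.sqrt t := by
          apply mul_le_mul_of_nonneg_right _ hst.le
          apply div_le_div_of_nonneg_right (by linarith) (by positivity)
      _ = 24 / 2800 * (Real.sqrt t * Real.sqrt t) / t := by field_simp; ring
      _ = 24 / 2800 := by rw [hss]; field_simp
      _ ≤ 1 / 100 := by norm_num
  -- positivity
  have hpos : ∀ η : ℝ, -(2 * w0.re) ≤ η → η ≤ 0 →
      0 < (AD F t p1.im (Ioi 0) (w0 + η) * starRingEnd ℂ (AI F t p1.im (Ioi 0) (w0 + η))).re := by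
    intro η h1 h2
    have hθ := htilt η h1 h2
    have hGc := GG_cont h.dif.continuous t w0 p1
    have hi0 := Gint (G := GG F t w0 p1) (v1 := p1.re) hGc ht hθ (fun s hs => h.g1 hp hp2 hs)
    have hi1 := J1_int (G := GG F t w0 p1) (v1 := p1.re) hGc ht hθ (fun s hs => h.g1 hp hp2 hs)
    have hJ0 := J0_lower hGc ht (S := p1.re / 2) (by positivity) (by linarith)
      (v1 := p1.re) (by nlinarith) hθ (fun s hs => h.g1 hp hp2 hs) (fun s hs => h.g2 hp hp2 hs)
    have hJ1 := J1_est (G := GG F t w0 p1) (v1 := p1.re) ht hθ (fun s hs => h.g1 hp hp2 hs)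
    rw [AD_saddle hM ht η hi0 hi1, AI_saddle hM ht η]
    set J0 : ℂ := ∫ s in Ioi (-p1.re), GG F t w0 p1 s * cexp (((η / (2 * t) : ℝ) : ℂ) * s) with hJ0d
    set J1 : ℂ := ∫ s in Ioi (-p1.re), GG F t w0 p1 s * s * cexp (((η / (2 * t) : ℝ) : ℂ) * s) with hJ1d
    set E : ℂ := MM F t w0 p1 * cexp (η * (p1 - w0) / (2 * t) - η ^ 2 / (4 * t)) with hE
    have hE0 : E ≠ 0 := mul_ne_zero hM (Complex.exp_ne_zero _)
    have e1 : (E * ((p1 - w0 - η) / (2 * t) * J0 + 1 / (2 * t) * J1) * starRingEnd ℂ (E * J0)) =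
        ((‖E‖ ^ 2 : ℝ) : ℂ) * (((‖J0‖ ^ 2 : ℝ) : ℂ) * ((p1 - w0 - η) / (2 * t)) +
          1 / (2 * t) * (J1 * starRingEnd ℂ J0)) := by
      rw [map_mul]
      push_cast
      rw [← Complex.mul_conj' E, ← Complex.mul_conj' J0]
      ring
    rw [e1, re_ofReal_mul]
    apply mul_pos (by positivity)
    rw [add_re, re_ofReal_mul]
    have e2 : ((p1 - w0 - η) / (2 * (t : ℂ))).re = (p1.re - w0.re - η) / (2 * t) := by
      have : (p1 - w0 - η) / (2 * (t : ℂ)) = ((1 / (2 * t) : ℝ) : ℂ) * (p1 - w0 - η) := by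
        push_cast; field_simp
      rw [this, re_ofReal_mul, sub_re, sub_re, ofReal_re]; field_simp
    have e3 : (1 / (2 * (t : ℂ)) * (J1 * starRingEnd ℂ J0)).re = 1 / (2 * t) * (J1 * starRingEnd ℂ J0).re := by
      have : 1 / (2 * (t : ℂ)) = ((1 / (2 * t) : ℝ) : ℂ) := by push_cast; rfl
      rw [this, re_ofReal_mul]
    rw [e2, e3]
    have h3 : 99 / 200 * L ≤ (p1.re - w0.re - η) / (2 * t) := by
      rw [le_div_iff₀ (by positivity)]
      have := (abs_le.1 q1).1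
      nlinarith
    have h4 : -(43 * t * ‖J0‖) ≤ (J1 * starRingEnd ℂ J0).re := by
      have h5 := Complex.abs_re_le_norm (J1 * starRingEnd ℂ J0)
      rw [norm_mul, RCLike.norm_conj] at h5
      have h6 : ‖J1‖ * ‖J0‖ ≤ 43 * t * ‖J0‖ := mul_le_mul_of_nonneg_right hJ1 (norm_nonneg _)
      have := (abs_le.1 h5).1
      linarith
    have h5 : -(43 / 2 * ‖J0‖) ≤ 1 / (2 * t) * (J1 * starRingEnd ℂ J0).re := by
      have h6 : 1 / (2 * t) * (-(43 * t * ‖J0‖)) ≤ 1 / (2 * t) * (J1 * starRingEnd ℂ J0).re :=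
        mul_le_mul_of_nonneg_left h4 (by positivity)
      have e4 : 1 / (2 * t) * (-(43 * t * ‖J0‖)) = -(43 / 2 * ‖J0‖) := by field_simp
      linarith
    have hJpos : 0 < ‖J0‖ := lt_of_lt_of_le (by positivity) hJ0
    have h7 : ‖J0‖ * (99 / 200 * L) * ‖J0‖ ≤ ‖J0‖ ^ 2 * ((p1.re - w0.re - η) / (2 * t)) := by
      have := mul_le_mul_of_nonneg_left h3 (sq_nonneg ‖J0‖)
      nlinarith
    have h8 : 43 / 2 < ‖J0‖ * (99 / 200 * L) := by
      have h9 : 5 / 2 * Real.sqrt t * (99 / 200 * L) ≤ ‖J0‖ * (99 / 200 * L) :=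
        mul_le_mul_of_nonneg_right hJ0 (by positivity)
      nlinarith
    nlinarith
  have hd := fun w => decomp h.dif.continuous hs hg ht h.t1 hH hh p1.im w
  have hAI := fun w => AI_deriv h.dif.continuous hg ht ht1 p1.im (Ioi 0) w
  -- the zero is on the axis
  have hy00 : w0.re = 0 := by
    by_contra hne
    have hyp : 0 < w0.re := lt_of_le_of_ne hy0 (Ne.symm hne)
    have heq : ‖AI F t p1.im (Ioi 0) w0‖ = ‖AI F t p1.im (Ioi 0) (w0 + ((-(2 * w0.re) : ℝ) : ℂ))‖ := by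
      have h1 := hd w0
      rw [hz, mul_zero, refl_point] at h1
      have h2 : AI F t p1.im (Ioi 0) w0 = -(starRingEnd ℂ (AI F t p1.im (Ioi 0) (w0 + ((-(2 * w0.re) : ℝ) : ℂ)))) := by
        linear_combination -h1
      rw [h2, norm_neg, RCLike.norm_conj]
    set nn : ℝ → ℝ := fun η => ‖AI F t p1.im (Ioi 0) (w0 + (η : ℂ))‖ ^ 2 with hnn
    have hder : ∀ η : ℝ, HasDerivAt nn (2 * (AD F t p1.im (Ioi 0) (w0 + η) *
        starRingEnd ℂ (AI F t p1.im (Ioi 0) (w0 + η))).re) η := by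
      intro η
      have h1 : HasDerivAt (fun η : ℝ => AI F t p1.im (Ioi 0) (w0 + (η : ℂ)))
          (AD F t p1.im (Ioi 0) (w0 + η)) η := by
        have h2 : HasDerivAt (fun η : ℝ => w0 + (η : ℂ)) 1 η := by
          have := (Complex.ofRealCLM.hasDerivAt (x := η)).const_add w0
          simpa using this
        have := HasDerivAt.comp η (hAI (w0 + η)) h2
        rw [mul_one] at this
        exact this
      have h2 := h1.norm_sq
      refine h2.congr_deriv ?_
      simp only [Complex.inner]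
    have hmono : StrictMonoOn nn (Icc (-(2 * w0.re)) 0) := by
      apply strictMonoOn_of_deriv_pos (convex_Icc _ _)
      · intro η _; exact (hder η).continuousAt.continuousWithinAt
      · intro η hη
        rw [interior_Icc] at hη
        rw [(hder η).deriv]
        have := hpos η hη.1.le hη.2.le
        linarith
    have h3 := hmono (left_mem_Icc.2 (by linarith)) (right_mem_Icc.2 (by linarith)) (by linarith)
    simp only [hnn, ofReal_zero, add_zero] at h3
    rw [heq] at h3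
    exact lt_irrefl _ h3
  refine ⟨hy00, ?_⟩
  -- simplicity
  have hrw : -(starRingEnd ℂ w0) = w0 := by
    rw [refl_point, hy00]; simp
  have hposw := hpos 0 (by rw [hy00]; simp) le_rfl
  simp only [ofReal_zero, add_zero] at hposw
  set A := AI F t p1.im (Ioi 0) w0 with hA
  set A' := AD F t p1.im (Ioi 0) w0 with hA'
  have hAim : A.re = 0 := by
    have h1 := hd w0
    rw [hz, mul_zero, hrw, ← hA, Complex.add_conj] at h1
    have h2 : ((2 * A.re : ℝ) : ℂ) = 0 := h1.symm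
    have h3 := Complex.ofReal_eq_zero.1 h2
    linarith
  have hderH : (Real.sqrt (4 * Real.pi * t) : ℂ) * deriv H w0 = A' + -(starRingEnd ℂ A') := by
    have h1 : HasDerivAt (fun w => (Real.sqrt (4 * Real.pi * t) : ℂ) * H w)
        ((Real.sqrt (4 * Real.pi * t) : ℂ) * deriv H w0) w0 := (hH w0).hasDerivAt.const_mul _
    have h2 : HasDerivAt (fun w => (Real.sqrt (4 * Real.pi * t) : ℂ) * H w)
        (A' + -(starRingEnd ℂ A')) w0 := by
      have h3 := (hAI w0).add (reflect_deriv h.dif.continuous hg ht ht1 p1.im w0)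
      rw [hrw] at h3
      have h4 : (fun w => (Real.sqrt (4 * Real.pi * t) : ℂ) * H w) =
          (AI F t p1.im (Ioi 0) + fun w => starRingEnd ℂ (AI F t p1.im (Ioi 0) (-(starRingEnd ℂ w)))) := by
        funext w
        rw [hd w]
        rfl
      rw [h4]
      exact h3
    exact h1.unique h2
  intro h0
  rw [h0, mul_zero] at hderH
  have h4 : A'.im = 0 := by
    have h5 : A' - starRingEnd ℂ A' = 0 := by rw [sub_eq_add_neg]; exact hderH.symm
    rw [Complex.sub_conj] at h5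
    have h6 := (mul_eq_zero.1 h5).resolve_right Complex.I_ne_zero
    have h7 := Complex.ofReal_eq_zero.1 h6
    linarith
  rw [mul_re, conj_re, conj_im, hAim, h4] at hposw
  simp at hposw

/-- **All zeros are on the axis and simple.** -/
theorem Loc.zeros (h : Loc F t L ε V w0) (hs : Sym F) (hg : Gr F) (hH : Differentiable ℂ H)
    (hh : IsHeat F H t) (hlam : 2000000 ≤ t * L ^ 2) (hz : H w0 = 0) :
    w0.re = 0 ∧ deriv H w0 ≠ 0 := by
  rcases le_or_gt w0.re (12 / L) with h1 | h1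
  · exact h.near hs hg hH hh hlam h1 hz
  · exfalso
    have hL := h.L0
    have ht := h.t0
    have hy0 := h.y0
    have h2 : 12 < w0.re * L := by rwa [div_lt_iff₀ hL] at h1
    obtain ⟨p1, hp, hp2, hlow⟩ := h.lower hs hg hH hh (by nlinarith [sq_nonneg w0.re]) (by
      have : (t * L) ^ 2 = t * (t * L ^ 2) := by ring
      have h3 : t * 2000000 ≤ t * (t * L ^ 2) := mul_le_mul_of_nonneg_left hlam ht.le
      have := h.tL
      nlinarith [sq_nonneg w0.re])
    rw [hz, norm_zero] at hlow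
    have := norm_pos_iff.2 (h.MM_ne hp)
    linarith

end

end Pool.Agent.Helper54.Hf
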