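import Pool.Agent.Helper54.Hf.A3

set_option autoImplicit false
set_option maxHeartbeats 1000000

/-!
Real zeros: sign changes on the axis.
-/

open Complex MeasureTheory Set Filter Topology

namespace Pool.Agent.Helper54.Hf

lemma AI_saddleC {F : ℂ → ℂ} {t : ℝ} {w0 p1 : ℂ} (hM : MM F t w0 p1 ≠ 0) (ht : 0 < t) (η : ℂ) :
    AI F t p1.im (Ioi 0) (w0 + η) = MM F t w0 p1 * cexp (η * (p1 - w0) / (2 * t) - η ^ 2 / (4 * t)) *
      ∫ s in Ioi (-p1.re), GG F t w0 p1 s * cexp (η / (2 * t) * s) := by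
  have ht' : (t : ℂ) ≠ 0 := by exact_mod_cast ht.ne'
  unfold AI
  rw [← integral_const_mul, ← integral_indicator measurableSet_Ioi, ← integral_indicator measurableSet_Ioi,
    ← integral_add_left_eq_self (μ := volume) _ p1.re]
  refine integral_congr_ae (Eventually.of_forall fun s => ?_)
  by_cases hs : s ∈ Ioi (-p1.re)
  · have hs' : p1.re + s ∈ Ioi (0 : ℝ) := by rw [mem_Ioi] at hs ⊢; linarith
    simp only [indicator_of_mem hs, indicator_of_mem hs']
    unfold kk GG
    have e1 : (⟨p1.re + s, p1.im⟩ : ℂ) = p1 + s := by apply Complex.ext <;> simp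
    rw [e1]
    have e2 : -(p1 + (s : ℂ) - (w0 + η)) ^ 2 / (4 * (t : ℂ)) =
        (η * (p1 - w0) / (2 * t) - η ^ 2 / (4 * t)) + (-(p1 + s - w0) ^ 2 / (4 * t) +
          η / (2 * t) * s) := by
      field_simp
      ring
    rw [e2, Complex.exp_add, Complex.exp_add]
    field_simp
  · have hs' : p1.re + s ∉ Ioi (0 : ℝ) := by rw [mem_Ioi] at hs ⊢; linarith
    simp only [indicator_of_notMem hs, indicator_of_notMem hs']

lemma J_rot {G : ℝ → ℂ} {t v1 : ℝ} (hG : Continuous G) (ht : 0 < t) (θ : ℝ)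
    (g1 : ∀ s, -v1 ≤ s → ‖G s‖ ≤ Real.exp (-(s ^ 2 / t) / 16)) :
    ‖(∫ s in Ioi (-v1), G s * cexp (I * θ * s)) - ∫ s in Ioi (-v1), G s * cexp (((0 : ℝ) : ℂ) * s)‖ ≤
      43 * t * |θ| := by
  have h0 : |(0 : ℝ)| * Real.sqrt t ≤ 1 / 100 := by simp
  have hi0 := Gint hG ht h0 g1
  have hi1 : IntegrableOn (fun s : ℝ => G s * cexp (I * θ * s)) (Ioi (-v1)) := by
    refine Integrable.mono' hi0.norm (by
      have : Continuous (fun s : ℝ => G s * cexp (I * θ * s)) := by fun_prop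
      exact this.aestronglyMeasurable) (Eventually.of_forall fun s => ?_)
    rw [norm_mul, norm_mul]
    have e1 : ‖cexp (I * θ * s)‖ = 1 := by
      rw [Complex.norm_exp]
      have : (I * θ * s : ℂ).re = 0 := by simp
      rw [this, Real.exp_zero]
    have e2 : ‖cexp (((0 : ℝ) : ℂ) * s)‖ = 1 := by simp
    rw [e1, e2]
  rw [← integral_sub hi1 hi0]
  rw [← integral_indicator measurableSet_Ioi]
  refine (norm_integral_le_of_norm_le ((gauss64_int ht).const_mul (|θ| * (3 * Real.sqrt t))) ?_).trans ?_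
  · refine Filter.Eventually.of_forall fun s => ?_
    by_cases hs : s ∈ Ioi (-v1)
    · rw [indicator_of_mem hs]
      have h1 := point1 ht h0 g1 (le_of_lt hs)
      simp only [ofReal_zero, zero_mul, Complex.exp_zero, mul_one] at h1 ⊢
      have e : G s * cexp (I * θ * s) - G s = G s * (cexp (I * ((θ * s : ℝ) : ℂ)) - 1) := by
        push_cast
        rw [← mul_assoc]; ring
      rw [e, norm_mul]
      have h2 := Real.norm_exp_I_mul_ofReal_sub_one_le (x := θ * s)
      rw [Real.norm_eq_abs, abs_mul] at h2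
      rw [norm_mul, Complex.norm_real, Real.norm_eq_abs] at h1
      calc ‖G s‖ * ‖cexp (I * ((θ * s : ℝ) : ℂ)) - 1‖ ≤ ‖G s‖ * (|θ| * |s|) :=
            mul_le_mul_of_nonneg_left h2 (norm_nonneg _)
        _ = |θ| * (‖G s‖ * |s|) := by ring
        _ ≤ |θ| * (3 * Real.sqrt t * Real.exp (-(s ^ 2 / t) / 64)) :=
            mul_le_mul_of_nonneg_left h1 (abs_nonneg _)
        _ = _ := by ring
    · rw [indicator_of_notMem hs, norm_zero]
      positivity
  · rw [integral_const_mul]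
    have h1 := gauss64 ht
    have h2 := Real.sqrt_nonneg t
    have h3 : Real.sqrt t * Real.sqrt t = t := Real.mul_self_sqrt ht.le
    have h4 := abs_nonneg θ
    have h5 : |θ| * (3 * Real.sqrt t) * ∫ s : ℝ, Real.exp (-(s ^ 2 / t) / 64) ≤
        |θ| * (3 * Real.sqrt t) * (14.2 * Real.sqrt t) :=
      mul_le_mul_of_nonneg_left h1 (by positivity)
    have h6 : |θ| * (3 * Real.sqrt t) * (14.2 * Real.sqrt t) = 42.6 * (Real.sqrt t * Real.sqrt t) * |θ| := by ring
    rw [h6, h3] at h5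
    have h7 : 0 ≤ t * |θ| := by positivity
    linarith

variable {F H : ℂ → ℂ} {t L ε V : ℝ} {w0 : ℂ}

/-- A sign change of `H` on the axis. -/
theorem Loc.real_zero (h : Loc F t L ε V w0) (hs : Sym F) (hg : Gr F) (hH : Differentiable ℂ H)
    (hh : IsHeat F H t) (hlam : 2000000 ≤ t * L ^ 2) (hre : w0.re = 0) :
    ∃ y : ℝ, w0.im ≤ y ∧ y ≤ w0.im + 13 / L ∧ H (I * y) = 0 := by
  obtain ⟨p1, hp, hp2⟩ := h.saddle
  obtain ⟨q1, q2, q3, q4⟩ := h.geo hp
  have ht := h.t0
  have ht1 := h.t1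
  have htL := h.tL
  have hL := h.L0
  have hV := h.V0
  have hM := h.MM_ne hp
  rw [hre, zero_add] at q1 q4
  have hv : 0 < p1.re := by linarith
  have ht' : (t : ℂ) ≠ 0 := by exact_mod_cast ht.ne'
  have hst : 0 < Real.sqrt t := Real.sqrt_pos.2 ht
  have hss : Real.sqrt t * Real.sqrt t = t := Real.mul_self_sqrt ht.le
  have hLs : 1400 ≤ Real.sqrt t * L := by
    have h1 : (1400 : ℝ) ^ 2 ≤ (Real.sqrt t * L) ^ 2 := by
      rw [mul_pow, Real.sq_sqrt ht.le]; linarith
    exact le_of_sq_le_sq h1 (by positivity) |>.trans le_rfl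
  have hv2 : 500 * t ≤ p1.re ^ 2 := by
    have h1 : (99 / 100 * (t * L)) ^ 2 ≤ p1.re ^ 2 := pow_le_pow_left₀ (by positivity) (by linarith) 2
    have h2 : (t * L) ^ 2 = t * (t * L ^ 2) := by ring
    have h3 : t * 2000000 ≤ t * (t * L ^ 2) := mul_le_mul_of_nonneg_left hlam ht.le
    nlinarith
  have hGc := GG_cont h.dif.continuous t w0 p1
  set ψ : ℂ := (p1 - w0) / (2 * t) with hψ
  have hψr : ψ.re = p1.re / (2 * t) := by
    have : ψ = ((1 / (2 * t) : ℝ) : ℂ) * (p1 - w0) := by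
      rw [hψ]; push_cast; field_simp
    rw [this, re_ofReal_mul, sub_re, hre]; ring
  have hψ1 : 99 / 200 * L ≤ ψ.re := by
    rw [hψr, le_div_iff₀ (by positivity)]
    have := (abs_le.1 q1).1
    nlinarith
  have hψ0 : 0 < ψ.re := by
    have : 0 < 99 / 200 * L := by positivity
    linarith
  -- the rotated integral
  set J : ℝ → ℂ := fun x => ∫ s in Ioi (-p1.re), GG F t w0 p1 s * cexp (I * x / (2 * t) * s) with hJ
  have hJre : ∀ x : ℝ, 0 ≤ x → x ≤ 13 / L → 0 < (J x).re := by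
    intro x hx0 hx1
    have h1 := J0_est hGc ht (S := p1.re / 2) (by positivity) (by linarith)
      (v1 := p1.re) (θ := 0) (by nlinarith) (by simp) (fun s hs => h.g1 hp hp2 hs) (fun s hs => h.g2 hp hp2 hs)
    have h2 := J_rot (v1 := p1.re) hGc ht (x / (2 * t)) (fun s hs => h.g1 hp hp2 hs)
    have e : (fun s : ℝ => GG F t w0 p1 s * cexp (I * ((x / (2 * t) : ℝ) : ℂ) * s)) =
        fun s : ℝ => GG F t w0 p1 s * cexp (I * x / (2 * t) * s) := by
      funext s
      push_cast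
      congr 2
      ring
    rw [e] at h2
    have h3 : ‖J x - ((Real.sqrt (4 * Real.pi * t) : ℝ) : ℂ)‖ ≤ 43 * t * |x / (2 * t)| + Real.sqrt t := by
      have := norm_add_le (J x - ∫ s in Ioi (-p1.re), GG F t w0 p1 s * cexp (((0 : ℝ) : ℂ) * s))
        ((∫ s in Ioi (-p1.re), GG F t w0 p1 s * cexp (((0 : ℝ) : ℂ) * s)) - ((Real.sqrt (4 * Real.pi * t) : ℝ) : ℂ))
      rw [sub_add_sub_cancel] at this
      exact this.trans (add_le_add h2 h1)
    have h4 : 43 * t * |x / (2 * t)| = 43 / 2 * x := by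
      rw [abs_of_nonneg (by positivity)]
      field_simp
    have h5 : x ≤ 13 * Real.sqrt t / 1400 := by
      refine hx1.trans ?_
      rw [div_le_div_iff₀ hL (by norm_num)]
      nlinarith
    have h6 := sqrt_lower ht
    have h7 := (abs_le.1 ((Complex.abs_re_le_norm _).trans h3)).1
    rw [sub_re, ofReal_re, h4] at h7
    linarith
  have hd := fun w => decomp h.dif.continuous hs hg ht h.t1 hH hh p1.im w
  set g : ℝ → ℝ := fun x => Real.sqrt (4 * Real.pi * t) * (H (w0 + I * x)).re with hgd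
  have hax : ∀ x : ℝ, -(starRingEnd ℂ (w0 + I * x)) = w0 + I * x := by
    intro x
    apply Complex.ext
    · simp [hre]
    · simp; ring
  have hval : ∀ x : ℝ, (Real.sqrt (4 * Real.pi * t) : ℂ) * H (w0 + I * x) =
      ((2 * (AI F t p1.im (Ioi 0) (w0 + I * x)).re : ℝ) : ℂ) := by
    intro x
    rw [hd, hax, Complex.add_conj]
  have hgA : ∀ x : ℝ, g x = 2 * (AI F t p1.im (Ioi 0) (w0 + I * x)).re := by
    intro x
    have := congrArg Complex.re (hval x)
    rw [ofReal_re, re_ofReal_mul] at this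
    exact this
  have hgc : Continuous g := by
    simp only [hgd]
    have := hH.continuous
    fun_prop
  -- the phase
  set φ : ℝ := arg (MM F t w0 p1) with hφ
  have hE : ∀ (x : ℝ) (k : ℤ), φ + x * ψ.re = k * Real.pi →
      ∃ r : ℝ, 0 < r ∧ AI F t p1.im (Ioi 0) (w0 + I * x) = (r : ℂ) * cexp (k * Real.pi * I) * J x := by
    intro x k hk
    refine ⟨‖MM F t w0 p1‖ * Real.exp (x ^ 2 / (4 * t) - x * ψ.im), by
      have := norm_pos_iff.2 hM
      positivity, ?_⟩
    rw [AI_saddleC hM ht]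
    congr 1
    have e1 : MM F t w0 p1 = ‖MM F t w0 p1‖ * cexp (φ * I) := by
      rw [hφ, Complex.norm_mul_exp_arg_mul_I]
    have e2 : I * x * (p1 - w0) / (2 * t) - (I * x) ^ 2 / (4 * t) =
        ((x ^ 2 / (4 * t) - x * ψ.im : ℝ) : ℂ) + ((x * ψ.re : ℝ) : ℂ) * I := by
      have e3 : I * x * (p1 - w0) / (2 * t) = I * x * ψ := by rw [hψ]; ring
      rw [e3]
      have e4 : (I * x * ψ : ℂ) = ((-(x * ψ.im) : ℝ) : ℂ) + ((x * ψ.re : ℝ) : ℂ) * I := by
        apply Complex.ext <;> simp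
      rw [e4, mul_pow, I_sq]
      push_cast
      ring
    rw [e2, Complex.exp_add]
    nth_rewrite 1 [e1]
    rw [ofReal_mul (‖MM F t w0 p1‖) (Real.exp (x ^ 2 / (4 * t) - x * ψ.im)),
      ofReal_exp (x ^ 2 / (4 * t) - x * ψ.im)]
    have e5 : cexp (k * Real.pi * I) = cexp (φ * I) * cexp (((x * ψ.re : ℝ) : ℂ) * I) := by
      rw [← Complex.exp_add]
      congr 1
      have := congrArg (fun x : ℝ => (x : ℂ)) hk
      simp only [ofReal_add, ofReal_mul, ofReal_intCast] at this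
      rw [← this]
      push_cast
      ring
    rw [e5]
    ring
  set k : ℤ := ⌈φ / Real.pi⌉ with hk
  have hpi := Real.pi_pos
  have hk1 : φ ≤ k * Real.pi := by
    have := Int.le_ceil (φ / Real.pi)
    rwa [div_le_iff₀ hpi] at this
  have hk2 : k * Real.pi < φ + Real.pi := by
    have := Int.ceil_lt_add_one (φ / Real.pi)
    rw [← hk] at this
    have h1 := mul_lt_mul_of_pos_right this hpi
    rw [add_mul, div_mul_cancel₀ _ hpi.ne'] at h1
    linarith
  set x1 : ℝ := (k * Real.pi - φ) / ψ.re with hx1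
  set x2 : ℝ := (((k + 1 : ℤ) : ℝ) * Real.pi - φ) / ψ.re with hx2
  have hx1' : φ + x1 * ψ.re = k * Real.pi := by rw [hx1]; field_simp; ring
  have hx2' : φ + x2 * ψ.re = ((k + 1 : ℤ) : ℝ) * Real.pi := by rw [hx2]; field_simp; ring
  have hx10 : 0 ≤ x1 := div_nonneg (by linarith) hψ0.le
  have hx12 : x1 ≤ x2 := by
    rw [hx1, hx2]
    apply div_le_div_of_nonneg_right _ hψ0.le
    push_cast
    linarith
  have hx2L : x2 ≤ 13 / L := by
    rw [hx2, div_le_div_iff₀ hψ0 hL]
    push_cast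
    have := Real.pi_lt_d2
    nlinarith
  obtain ⟨r1, hr1, e1⟩ := hE x1 k hx1'
  obtain ⟨r2, hr2, e2⟩ := hE x2 (k + 1) hx2'
  have hJ1 := hJre x1 hx10 (hx12.trans hx2L)
  have hJ2 := hJre x2 (hx10.trans hx12) hx2L
  set u : ℂ := cexp (k * Real.pi * I) with hu
  have hu2 : cexp (((k + 1 : ℤ) : ℂ) * Real.pi * I) = -u := by
    rw [hu]
    have : ((k + 1 : ℤ) : ℂ) * Real.pi * I = k * Real.pi * I + Real.pi * I := by push_cast; ring
    rw [this, Complex.exp_add, Complex.exp_pi_mul_I]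
    ring
  have husq : u * u = 1 := by
    rw [hu, ← Complex.exp_add]
    have : (k : ℂ) * Real.pi * I + k * Real.pi * I = k * (2 * Real.pi * I) := by ring
    rw [this]
    exact Complex.exp_int_mul_two_pi_mul_I k
  rw [hu2] at e2
  have hsgn : (g x1 < 0 ∧ 0 < g x2) ∨ (g x2 < 0 ∧ 0 < g x1) := by
    rw [hgA, hgA, e1, e2]
    rcases mul_self_eq_one_iff.1 husq with hu1 | hu1
    · right
      rw [hu1]
      have a1 : ((r2 : ℂ) * -1 * J x2).re = -(r2 * (J x2).re) := by
        have : (r2 : ℂ) * -1 * J x2 = ((-r2 : ℝ) : ℂ) * J x2 := by push_cast; ring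
        rw [this, re_ofReal_mul]; ring
      have a2 : ((r1 : ℂ) * 1 * J x1).re = r1 * (J x1).re := by
        rw [mul_one, re_ofReal_mul]
      rw [a1, a2]
      constructor <;> nlinarith [mul_pos hr1 hJ1, mul_pos hr2 hJ2]
    · left
      rw [hu1]
      have a1 : ((r1 : ℂ) * -1 * J x1).re = -(r1 * (J x1).re) := by
        have : (r1 : ℂ) * -1 * J x1 = ((-r1 : ℝ) : ℂ) * J x1 := by push_cast; ring
        rw [this, re_ofReal_mul]; ring
      have a2 : ((r2 : ℂ) * - -1 * J x2).re = r2 * (J x2).re := by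
        rw [neg_neg, mul_one, re_ofReal_mul]
      rw [a1, a2]
      constructor <;> nlinarith [mul_pos hr1 hJ1, mul_pos hr2 hJ2]
  obtain ⟨x, hx, hgx⟩ : ∃ x ∈ Icc x1 x2, g x = 0 := by
    rcases hsgn with ⟨a, b⟩ | ⟨a, b⟩
    · have := intermediate_value_Icc hx12 hgc.continuousOn
      exact this ⟨a.le, b.le⟩
    · have := intermediate_value_Icc' hx12 hgc.continuousOn
      exact this ⟨a.le, b.le⟩
  refine ⟨w0.im + x, by linarith [hx.1], by linarith [hx.2], ?_⟩
  have e3 : I * ((w0.im + x : ℝ) : ℂ) = w0 + I * x := by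
    apply Complex.ext
    · simp [hre]
    · simp
  rw [e3]
  have h5 := hval x
  rw [← hgA, hgx, ofReal_zero] at h5
  have h6 : (Real.sqrt (4 * Real.pi * t) : ℂ) ≠ 0 := by
    have : 0 < Real.sqrt (4 * Real.pi * t) := Real.sqrt_pos.2 (by positivity)
    exact_mod_cast this.ne'
  exact (mul_eq_zero.1 h5).resolve_left h6

end Pool.Agent.Helper54.Hf
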