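import Pool.Agent.Helper54.Hf.A4

set_option autoImplicit false
set_option maxHeartbeats 1000000

/-!
The phase along the axis.
-/

open Complex MeasureTheory Set Filter Topology

namespace Pool.Agent.Helper54.Hf

lemma AD_saddleC {F : ℂ → ℂ} {t : ℝ} {w0 p1 : ℂ} (hM : MM F t w0 p1 ≠ 0) (ht : 0 < t) (η : ℂ)
    (hi0 : IntegrableOn (fun s : ℝ => GG F t w0 p1 s * cexp (η / (2 * t) * s)) (Ioi (-p1.re)))
    (hi1 : IntegrableOn (fun s : ℝ => GG F t w0 p1 s * s * cexp (η / (2 * t) * s)) (Ioi (-p1.re))) :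
    AD F t p1.im (Ioi 0) (w0 + η) = MM F t w0 p1 * cexp (η * (p1 - w0) / (2 * t) - η ^ 2 / (4 * t)) *
      (((p1 - w0 - η) / (2 * t)) * (∫ s in Ioi (-p1.re), GG F t w0 p1 s * cexp (η / (2 * t) * s)) +
        1 / (2 * t) * ∫ s in Ioi (-p1.re), GG F t w0 p1 s * s * cexp (η / (2 * t) * s)) := by
  have ht' : (t : ℂ) ≠ 0 := by exact_mod_cast ht.ne'
  rw [← integral_const_mul ((p1 - w0 - η) / (2 * (t : ℂ))), ← integral_const_mul (1 / (2 * (t : ℂ))),
    ← integral_add (hi0.const_mul _) (hi1.const_mul _), ← integral_const_mul]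
  unfold AD
  rw [← integral_indicator measurableSet_Ioi, ← integral_indicator measurableSet_Ioi,
    ← integral_add_left_eq_self (μ := volume) _ p1.re]
  refine integral_congr_ae (Eventually.of_forall fun s => ?_)
  by_cases hs : s ∈ Ioi (-p1.re)
  · have hs' : p1.re + s ∈ Ioi (0 : ℝ) := by rw [mem_Ioi] at hs ⊢; linarith
    simp only [indicator_of_mem hs, indicator_of_mem hs']
    unfold kk GG
    have e1 : (⟨p1.re + s, p1.im⟩ : ℂ) = p1 + s := by apply Complex.ext <;> simp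
    rw [e1]
    have e2 : -(p1 + (s : ℂ) - (w0 + η)) ^ 2 / (4 * (t : ℂ)) =
        (η * (p1 - w0) / (2 * t) - η ^ 2 / (4 * t)) + (-(p1 + s - w0) ^ 2 / (4 * t) +
          η / (2 * t) * s) := by
      field_simp
      ring
    rw [e2, Complex.exp_add, Complex.exp_add]
    field_simp
    ring
  · have hs' : p1.re + s ∉ Ioi (0 : ℝ) := by rw [mem_Ioi] at hs ⊢; linarith
    simp only [indicator_of_notMem hs, indicator_of_notMem hs']

lemma norm_rot (θ s : ℝ) : ‖cexp (I * θ * s)‖ = 1 := by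
  rw [Complex.norm_exp]
  have : (I * θ * s : ℂ).re = 0 := by simp
  rw [this, Real.exp_zero]

section

variable {G : ℝ → ℂ} {t v1 : ℝ}

lemma I0_rot (hG : Continuous G) (ht : 0 < t) (θ : ℝ)
    (g1 : ∀ s, -v1 ≤ s → ‖G s‖ ≤ Real.exp (-(s ^ 2 / t) / 16)) :
    IntegrableOn (fun s : ℝ => G s * cexp (I * θ * s)) (Ioi (-v1)) := by
  have h0 : |(0 : ℝ)| * Real.sqrt t ≤ 1 / 100 := by simp
  have hi0 := Gint hG ht h0 g1
  refine Integrable.mono' hi0.norm (by
    have : Continuous (fun s : ℝ => G s * cexp (I * θ * s)) := by fun_prop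
    exact this.aestronglyMeasurable) (Eventually.of_forall fun s => ?_)
  rw [norm_mul, norm_mul, norm_rot]
  simp

lemma I1_rot (hG : Continuous G) (ht : 0 < t) (θ : ℝ)
    (g1 : ∀ s, -v1 ≤ s → ‖G s‖ ≤ Real.exp (-(s ^ 2 / t) / 16)) :
    IntegrableOn (fun s : ℝ => G s * s * cexp (I * θ * s)) (Ioi (-v1)) := by
  have h0 : |(0 : ℝ)| * Real.sqrt t ≤ 1 / 100 := by simp
  have hi0 := J1_int hG ht h0 g1
  refine Integrable.mono' hi0.norm (by
    have : Continuous (fun s : ℝ => G s * s * cexp (I * θ * s)) := by fun_prop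
    exact this.aestronglyMeasurable) (Eventually.of_forall fun s => ?_)
  rw [norm_mul, norm_mul (G s * s), norm_rot]
  simp

lemma J1_rot (ht : 0 < t) (θ : ℝ)
    (g1 : ∀ s, -v1 ≤ s → ‖G s‖ ≤ Real.exp (-(s ^ 2 / t) / 16)) :
    ‖∫ s in Ioi (-v1), G s * s * cexp (I * θ * s)‖ ≤ 43 * t := by
  have h0 : |(0 : ℝ)| * Real.sqrt t ≤ 1 / 100 := by simp
  rw [← integral_indicator measurableSet_Ioi]
  refine (norm_integral_le_of_norm_le ((gauss64_int ht).const_mul (3 * Real.sqrt t)) ?_).trans ?_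
  · refine Filter.Eventually.of_forall fun s => ?_
    by_cases hs : s ∈ Ioi (-v1)
    · rw [indicator_of_mem hs, norm_mul, norm_rot, mul_one]
      have h1 := point1 ht h0 g1 (le_of_lt hs)
      simp only [ofReal_zero, zero_mul, Complex.exp_zero, mul_one] at h1
      exact h1
    · rw [indicator_of_notMem hs, norm_zero]
      positivity
  · rw [integral_const_mul]
    have h1 := gauss64 ht
    have h2 := Real.sqrt_nonneg t
    have h3 : Real.sqrt t * Real.sqrt t = t := Real.mul_self_sqrt ht.le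
    nlinarith

end

variable {F H : ℂ → ℂ} {t L ε V : ℝ} {w0 : ℂ}

/-- The behaviour of `H` near a point of the axis. -/
theorem Loc.phase (h : Loc F t L ε V w0) (hs : Sym F) (hg : Gr F) (hH : Differentiable ℂ H)
    (hh : IsHeat F H t) (hlam : 2000000 ≤ t * L ^ 2) (hre : w0.re = 0) :
    ∃ (ψ : ℂ) (A D : ℝ → ℂ), ‖ψ - L / 2‖ ≤ 2 * ε * L ∧ A 0 ≠ 0 ∧
      (∀ x : ℝ, (Real.sqrt (4 * Real.pi * t) : ℂ) * H (w0 + I * x) = ((2 * (A x).re : ℝ) : ℂ)) ∧
      (∀ x : ℝ, HasDerivAt A (I * D x) x) ∧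
      (∀ x : ℝ, ∃ ρ : ℂ, ‖ρ‖ ≤ 10 * |x| / Real.sqrt t ∧
        A x = A 0 * cexp (I * x * ψ + ((x ^ 2 / (4 * t) : ℝ) : ℂ)) * (1 + ρ)) ∧
      (∀ x : ℝ, |x| ≤ 16 / L → ‖D x - L / 2 * A x‖ ≤ (2 * ε + 10 / Real.sqrt (t * L ^ 2)) * L * ‖A x‖) := by
  obtain ⟨p1, hp, hp2⟩ := h.saddle
  obtain ⟨q1, q2, q3, q4⟩ := h.geo hp
  have ht := h.t0
  have ht1 := h.t1
  have htL := h.tL
  have hL := h.L0
  have hV := h.V0
  have hε := h.e0
  have hM := h.MM_ne hp
  rw [hre, zero_add] at q1 q4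
  have hv : 0 < p1.re := by linarith
  have ht' : (t : ℂ) ≠ 0 := by exact_mod_cast ht.ne'
  have hst : 0 < Real.sqrt t := Real.sqrt_pos.2 ht
  have hss : Real.sqrt t * Real.sqrt t = t := Real.mul_self_sqrt ht.le
  have hsl : Real.sqrt (t * L ^ 2) = Real.sqrt t * L := by
    rw [Real.sqrt_mul ht.le, Real.sqrt_sq hL.le]
  have hLs : 1400 ≤ Real.sqrt t * L := by
    have h1 : (1400 : ℝ) ^ 2 ≤ (Real.sqrt t * L) ^ 2 := by
      rw [mul_pow, Real.sq_sqrt ht.le]; linarith
    exact le_of_sq_le_sq h1 (by positivity) |>.trans le_rfl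
  have hv2 : 500 * t ≤ p1.re ^ 2 := by
    have h1 : (99 / 100 * (t * L)) ^ 2 ≤ p1.re ^ 2 := pow_le_pow_left₀ (by positivity) (by linarith) 2
    have h2 : (t * L) ^ 2 = t * (t * L ^ 2) := by ring
    have h3 : t * 2000000 ≤ t * (t * L ^ 2) := mul_le_mul_of_nonneg_left hlam ht.le
    nlinarith
  have hGc := GG_cont h.dif.continuous t w0 p1
  have hg1 : ∀ s, -p1.re ≤ s → ‖GG F t w0 p1 s‖ ≤ Real.exp (-(s ^ 2 / t) / 16) := fun s hs => h.g1 hp hp2 hs
  set ψ : ℂ := deriv F p1 / F p1 with hψ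
  have hψeq : (p1 - w0) / (2 * t) = ψ := by
    rw [hp2]; field_simp
  have hψL : ‖ψ - L / 2‖ ≤ 2 * ε * L := by
    have h1 := (h.H1 p1 (by linarith) (by linarith)).2
    have h2 : |p1.re - w0.re| ≤ 101 / 100 * (t * L) := by
      rw [hre, sub_zero, abs_of_pos hv]
      linarith [(abs_le.1 q1).2]
    have h3 : t * L ≤ L / 2 := by nlinarith
    have h4 : ε * (L + |p1.re - w0.re|) ≤ ε * (2 * L) := by
      apply mul_le_mul_of_nonneg_left _ hε.le
      linarith
    refine h1.trans ?_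
    linarith
  set A : ℝ → ℂ := fun x => AI F t p1.im (Ioi 0) (w0 + I * x) with hA
  set D : ℝ → ℂ := fun x => AD F t p1.im (Ioi 0) (w0 + I * x) with hD
  set J : ℝ → ℂ := fun x => ∫ s in Ioi (-p1.re), GG F t w0 p1 s * cexp (I * x / (2 * t) * s) with hJ
  set J1 : ℝ → ℂ := fun x => ∫ s in Ioi (-p1.re), GG F t w0 p1 s * s * cexp (I * x / (2 * t) * s) with hJ1
  set E : ℝ → ℂ := fun x => MM F t w0 p1 * cexp (I * x * (p1 - w0) / (2 * t) - (I * x) ^ 2 / (4 * t)) with hE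
  have hrot : ∀ x s : ℝ, cexp (I * x / (2 * t) * s) = cexp (I * ((x / (2 * t) : ℝ) : ℂ) * s) := by
    intro x s
    push_cast
    congr 1
    ring
  have hAJ : ∀ x, A x = E x * J x := fun x => AI_saddleC hM ht (I * x)
  have hJ0eq : J 0 = ∫ s in Ioi (-p1.re), GG F t w0 p1 s * cexp (((0 : ℝ) : ℂ) * s) := by
    simp only [hJ]
    refine integral_congr_ae (Eventually.of_forall fun s => ?_)
    simp
  have hJ0low : 5 / 2 * Real.sqrt t ≤ ‖J 0‖ := by
    rw [hJ0eq]
    exact J0_lower hGc ht (S := p1.re / 2) (by positivity) (by linarith)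
      (v1 := p1.re) (θ := 0) (by nlinarith) (by simp) hg1 (fun s hs => h.g2 hp hp2 hs)
  have hJ00 : J 0 ≠ 0 := by
    intro h0
    rw [h0, norm_zero] at hJ0low
    nlinarith
  have hJdiff : ∀ x : ℝ, ‖J x - J 0‖ ≤ 43 / 2 * |x| := by
    intro x
    have h2 := J_rot (v1 := p1.re) hGc ht (x / (2 * t)) hg1
    have e : (fun s : ℝ => GG F t w0 p1 s * cexp (I * ((x / (2 * t) : ℝ) : ℂ) * s)) =
        fun s : ℝ => GG F t w0 p1 s * cexp (I * x / (2 * t) * s) := by
      funext s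
      rw [hrot]
    rw [e, ← hJ0eq] at h2
    have h4 : 43 * t * |x / (2 * t)| = 43 / 2 * |x| := by
      rw [abs_div, abs_of_pos (by positivity : (0:ℝ) < 2 * t)]
      field_simp
    rw [h4] at h2
    exact h2
  have hE0 : ∀ x, E x ≠ 0 := fun x => mul_ne_zero hM (Complex.exp_ne_zero _)
  have hd := fun w => decomp h.dif.continuous hs hg ht h.t1 hH hh p1.im w
  have hax : ∀ x : ℝ, -(starRingEnd ℂ (w0 + I * x)) = w0 + I * x := by
    intro x
    apply Complex.ext
    · simp [hre]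
    · simp; ring
  refine ⟨ψ, A, D, hψL, ?_, ?_, ?_, ?_, ?_⟩
  · rw [hAJ]
    exact mul_ne_zero (hE0 0) hJ00
  · intro x
    rw [hd, hax, Complex.add_conj]
  · intro x
    have h1 := AI_deriv h.dif.continuous hg ht ht1 p1.im (Ioi 0) (w0 + I * x)
    have h2 : HasDerivAt (fun x : ℝ => w0 + I * (x : ℂ)) I x := by
      have := ((Complex.ofRealCLM.hasDerivAt (x := x)).const_mul I).const_add w0
      simpa using this
    have h3 := HasDerivAt.comp x h1 h2
    rw [mul_comm] at h3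
    exact h3
  · intro x
    refine ⟨(J x - J 0) / J 0, ?_, ?_⟩
    · rw [norm_div, div_le_div_iff₀ (norm_pos_iff.2 hJ00) hst]
      have h1 := hJdiff x
      have h2 : ‖J x - J 0‖ * Real.sqrt t ≤ 43 / 2 * |x| * Real.sqrt t :=
        mul_le_mul_of_nonneg_right h1 hst.le
      have h3 : 10 * |x| * (5 / 2 * Real.sqrt t) ≤ 10 * |x| * ‖J 0‖ :=
        mul_le_mul_of_nonneg_left hJ0low (by positivity)
      nlinarith [mul_nonneg (abs_nonneg x) hst.le]
    · rw [hAJ, hAJ]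
      have e1 : (1 : ℂ) + (J x - J 0) / J 0 = J x / J 0 := by field_simp; ring
      rw [e1]
      have e2 : E x = E 0 * cexp (I * x * ψ + ((x ^ 2 / (4 * t) : ℝ) : ℂ)) := by
        simp only [hE]
        rw [mul_assoc (MM F t w0 p1), ← Complex.exp_add]
        congr 2
        rw [← hψeq]
        push_cast
        field_simp
        ring_nf
        rw [I_sq]
        ring
      rw [e2]
      field_simp
  · intro x hx
    have hi0 := I0_rot (v1 := p1.re) hGc ht (x / (2 * t)) hg1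
    have hi1 := I1_rot (v1 := p1.re) hGc ht (x / (2 * t)) hg1
    have hJ1n := J1_rot (G := GG F t w0 p1) (v1 := p1.re) ht (x / (2 * t)) hg1
    simp only [← hrot] at hi0 hi1 hJ1n
    have hDe : D x = E x * ((p1 - w0 - I * x) / (2 * t) * J x + 1 / (2 * t) * J1 x) :=
      AD_saddleC hM ht (I * x) hi0 hi1
    have hx' : |x| ≤ 16 * Real.sqrt t / 1400 := by
      refine hx.trans ?_
      rw [div_le_div_iff₀ hL (by norm_num)]
      nlinarith
    have hJx : 9 / 4 * Real.sqrt t ≤ ‖J x‖ := by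
      have h1 := hJdiff x
      have h2 := norm_sub_norm_le (J 0) (J x)
      rw [norm_sub_rev] at h2
      linarith
    have e1 : D x - L / 2 * A x = E x * ((ψ - L / 2 - I * x / (2 * t)) * J x + 1 / (2 * t) * J1 x) := by
      have e0 : (p1 - w0 - I * x) / (2 * (t : ℂ)) = ψ - I * x / (2 * t) := by
        rw [← hψeq]; ring
      rw [hDe, hAJ, e0]
      ring
    rw [e1, hAJ, norm_mul (E x), norm_mul (E x)]
    have h1 : ‖I * (x : ℂ) / (2 * t)‖ ≤ 8 / 1400 / Real.sqrt t := by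
      rw [norm_div, norm_mul, norm_I, one_mul, norm_mul, Complex.norm_real, Complex.norm_real,
        Real.norm_eq_abs, Real.norm_of_nonneg ht.le, Complex.norm_ofNat]
      rw [div_le_div_iff₀ (by positivity) hst]
      have : |x| * Real.sqrt t ≤ 16 * Real.sqrt t / 1400 * Real.sqrt t :=
        mul_le_mul_of_nonneg_right hx' hst.le
      nlinarith
    have h2 : ‖(ψ - L / 2 - I * x / (2 * t)) * J x + 1 / (2 * t) * J1 x‖ ≤
        (2 * ε * L + 8 / 1400 / Real.sqrt t) * ‖J x‖ + 43 / 2 := by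
      refine (norm_add_le _ _).trans (add_le_add ?_ ?_)
      · rw [norm_mul]
        apply mul_le_mul_of_nonneg_right _ (norm_nonneg _)
        exact (norm_sub_le _ _).trans (add_le_add hψL h1)
      · rw [norm_mul, norm_div, norm_one, norm_mul, Complex.norm_real, Real.norm_of_nonneg ht.le,
          Complex.norm_ofNat]
        calc 1 / (2 * t) * ‖J1 x‖ ≤ 1 / (2 * t) * (43 * t) :=
              mul_le_mul_of_nonneg_left hJ1n (by positivity)
          _ = 43 / 2 := by field_simp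
    have h3 : (43 : ℝ) / 2 ≤ 86 / 9 / Real.sqrt t * ‖J x‖ := by
      have : 86 / 9 / Real.sqrt t * (9 / 4 * Real.sqrt t) ≤ 86 / 9 / Real.sqrt t * ‖J x‖ :=
        mul_le_mul_of_nonneg_left hJx (by positivity)
      refine le_trans (le_of_eq ?_) this
      field_simp
      norm_num
    have h4 : (8 / 1400 / Real.sqrt t + 86 / 9 / Real.sqrt t) ≤ 10 / Real.sqrt (t * L ^ 2) * L := by
      rw [hsl]
      have e5 : 10 / (Real.sqrt t * L) * L = 10 / Real.sqrt t := by field_simp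
      rw [e5, ← add_div]
      apply div_le_div_of_nonneg_right _ hst.le
      norm_num
    have h5 : (2 * ε * L + 8 / 1400 / Real.sqrt t) * ‖J x‖ + 43 / 2 ≤
        (2 * ε + 10 / Real.sqrt (t * L ^ 2)) * L * ‖J x‖ := by
      have h6 := mul_le_mul_of_nonneg_right h4 (norm_nonneg (J x))
      nlinarith
    calc ‖E x‖ * ‖(ψ - L / 2 - I * x / (2 * t)) * J x + 1 / (2 * t) * J1 x‖
        ≤ ‖E x‖ * ((2 * ε + 10 / Real.sqrt (t * L ^ 2)) * L * ‖J x‖) :=
          mul_le_mul_of_nonneg_left (h2.trans h5) (norm_nonneg _)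
      _ = _ := by ring

end Pool.Agent.Helper54.Hf
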