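import Pool.Agent.Helper54.Hf.A5

set_option autoImplicit false
set_option maxHeartbeats 1000000

/-!
Regular spacing of the zeros on the axis.
-/

open Complex MeasureTheory Set Filter Topology

namespace Pool.Agent.Helper54.Hf

lemma sin_low {δ θ : ℝ} (h0 : 0 < δ) (h1 : δ ≤ 1 / 2) (h2 : δ ≤ θ) (h3 : θ ≤ Real.pi - δ) :
    9 / 10 * δ ≤ Real.sin θ := by
  have h4 : 9 / 10 * δ ≤ Real.sin δ := by
    have := Real.sin_gt_sub_cube h0
    nlinarith [mul_pos h0 h0]
  have hpi := Real.pi_gt_three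
  rcases le_or_gt θ (Real.pi / 2) with h | h
  · exact h4.trans (Real.sin_le_sin_of_le_of_le_pi_div_two (by linarith) h h2)
  · rw [← Real.sin_pi_sub]
    exact h4.trans (Real.sin_le_sin_of_le_of_le_pi_div_two (by linarith) (by linarith) (by linarith))

section abstract_phase

variable {B E : ℝ → ℂ} {r : ℝ → ℝ} {L κ κ2 δ a : ℝ}

lemma near_re (hb : ∀ x, |x| ≤ 16 / L → ‖B x - r x * cexp (((x * a : ℝ) : ℂ) * I)‖ ≤ r x * κ) {x : ℝ} (hx : |x| ≤ 16 / L) :
    |(B x).re - r x * Real.cos (x * a)| ≤ r x * κ := by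
  have h1 := (Complex.abs_re_le_norm _).trans (hb x hx)
  rw [sub_re, re_ofReal_mul, Complex.exp_ofReal_mul_I_re] at h1
  exact h1

lemma near_im (hb : ∀ x, |x| ≤ 16 / L → ‖B x - r x * cexp (((x * a : ℝ) : ℂ) * I)‖ ≤ r x * κ) {x : ℝ} (hx : |x| ≤ 16 / L) :
    |(B x).im - r x * Real.sin (x * a)| ≤ r x * κ := by
  have h1 := (Complex.abs_im_le_norm _).trans (hb x hx)
  rw [sub_im, im_ofReal_mul, Complex.exp_ofReal_mul_I_im] at h1
  exact h1

lemma near_norm (hr : ∀ x, 0 < r x)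
    (hb : ∀ x, |x| ≤ 16 / L → ‖B x - r x * cexp (((x * a : ℝ) : ℂ) * I)‖ ≤ r x * κ) {x : ℝ} (hx : |x| ≤ 16 / L) :
    ‖B x‖ ≤ r x * (1 + κ) := by
  have h1 := hb x hx
  have h2 := norm_sub_norm_le (B x) (r x * cexp (((x * a : ℝ) : ℂ) * I))
  rw [norm_mul, Complex.norm_exp_ofReal_mul_I, mul_one, Complex.norm_real,
    Real.norm_of_nonneg (hr x).le] at h2
  linarith

/-- the next zero -/
theorem B_gap (hL : 0 < L) (ha : |a - L / 2| ≤ δ / 10 * L) (hr : ∀ x, 0 < r x)
    (hb : ∀ x, |x| ≤ 16 / L → ‖B x - r x * cexp (((x * a : ℝ) : ℂ) * I)‖ ≤ r x * κ)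
    (hd : ∀ x, HasDerivAt B (I * E x) x)
    (hE : ∀ x, |x| ≤ 16 / L → ‖E x - L / 2 * B x‖ ≤ κ2 * L * ‖B x‖) (B0 : B 0 = 1)
    (hδ0 : 0 < δ) (hδ1 : δ ≤ 1 / 2) (hκ0 : 0 ≤ κ) (hκ : κ ≤ δ / 4) (hκ20 : 0 ≤ κ2) (hκ2 : κ2 ≤ 1 / 20) :
    ∃ x1, 0 < x1 ∧ |x1 - 2 * Real.pi / L| ≤ δ * (2 * Real.pi / L) ∧ (B x1).im = 0 ∧
      ∀ x, 0 < x → x < x1 → (B x).im ≠ 0 := by
  have hpi := Real.pi_gt_three
  have hpi2 := Real.pi_lt_d2
  have ha' := abs_le.1 ha
  have ha1 : 9 / 20 * L ≤ a := by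
    have : δ / 10 * L ≤ 1 / 20 * L := mul_le_mul_of_nonneg_right (by linarith) hL.le
    linarith [ha'.1]
  have ha0 : 0 < a := by
    have : 0 < 9 / 20 * L := by positivity
    linarith
  -- small arguments
  have hsmall : ∀ θ : ℝ, 0 ≤ θ → θ ≤ 4 → |θ / a| ≤ 16 / L := by
    intro θ h0 h4
    rw [abs_of_nonneg (by positivity), div_le_div_iff₀ ha0 hL]
    nlinarith
  have hEre : ∀ x, |x| ≤ 16 / L → |(E x).re - L / 2 * (B x).re| ≤ κ2 * L * (r x * (1 + κ)) := by
    intro x hx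
    have h1 := (Complex.abs_re_le_norm _).trans (hE x hx)
    have e : (E x - L / 2 * B x).re = (E x).re - L / 2 * (B x).re := by
      rw [sub_re]
      have : (L : ℂ) / 2 * B x = ((L / 2 : ℝ) : ℂ) * B x := by push_cast; ring
      rw [this, re_ofReal_mul]
    rw [e] at h1
    refine h1.trans ?_
    exact mul_le_mul_of_nonneg_left (near_norm hr hb hx) (by positivity)
  have himd : ∀ x, HasDerivAt (fun x => (B x).im) (E x).re x := by
    intro x
    have h1 := (Complex.imCLM.hasFDerivAt (x := B x)).comp_hasDerivAt x (hd x)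
    refine h1.congr_deriv ?_
    simp
  have himc : Continuous (fun x => (B x).im) :=
    continuous_iff_continuousAt.2 fun x => (himd x).continuousAt
  have hposd : ∀ x, |x| ≤ 16 / L → 7 / 8 ≤ Real.cos (x * a) → 0 < (E x).re := by
    intro x hx hc
    have h1 := (abs_le.1 (hEre x hx)).1
    have h2 := (abs_le.1 (near_re hb hx)).1
    have hrx := hr x
    have h3 : r x * (7 / 8) ≤ r x * Real.cos (x * a) := mul_le_mul_of_nonneg_left hc hrx.le
    have h4 : r x * κ ≤ r x * (1 / 8) := mul_le_mul_of_nonneg_left (by linarith) hrx.le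
    have h5 : r x * (3 / 4) ≤ (B x).re := by linarith
    have h6 : L / 2 * (r x * (3 / 4)) ≤ L / 2 * (B x).re := mul_le_mul_of_nonneg_left h5 (by positivity)
    have h7 : κ2 * L * (r x * (1 + κ)) ≤ 1 / 20 * L * (r x * (9 / 8)) := by
      apply mul_le_mul (mul_le_mul_of_nonneg_right hκ2 hL.le) _ (by positivity) (by positivity)
      exact mul_le_mul_of_nonneg_left (by linarith) hrx.le
    have h8 : 0 < L * r x := by positivity
    nlinarith
  have hnegd : ∀ x, |x| ≤ 16 / L → Real.cos (x * a) ≤ -(7 / 8) → (E x).re < 0 := by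
    intro x hx hc
    have h1 := (abs_le.1 (hEre x hx)).2
    have h2 := (abs_le.1 (near_re hb hx)).2
    have hrx := hr x
    have h3 : r x * Real.cos (x * a) ≤ r x * (-(7 / 8)) := mul_le_mul_of_nonneg_left hc hrx.le
    have h4 : r x * κ ≤ r x * (1 / 8) := mul_le_mul_of_nonneg_left (by linarith) hrx.le
    have h5 : (B x).re ≤ r x * (-(3 / 4)) := by linarith
    have h6 : L / 2 * (B x).re ≤ L / 2 * (r x * (-(3 / 4))) := mul_le_mul_of_nonneg_left h5 (by positivity)
    have h7 : κ2 * L * (r x * (1 + κ)) ≤ 1 / 20 * L * (r x * (9 / 8)) := by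
      apply mul_le_mul (mul_le_mul_of_nonneg_right hκ2 hL.le) _ (by positivity) (by positivity)
      exact mul_le_mul_of_nonneg_left (by linarith) hrx.le
    have h8 : 0 < L * r x := by positivity
    nlinarith
  set xa := (1 / 2) / a with hxa
  set xb := (Real.pi - δ) / a with hxb
  set xc := (Real.pi + δ) / a with hxc
  have hxa0 : 0 < xa := by positivity
  have hab : xa ≤ xb := div_le_div_of_nonneg_right (by linarith) ha0.le
  have hbc : xb < xc := div_lt_div_of_pos_right (by linarith) ha0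
  have hL16 : xc ≤ 16 / L := by
    have := hsmall (Real.pi + δ) (by linarith) (by linarith)
    rwa [abs_of_nonneg (by positivity)] at this
  have hxin : ∀ x, 0 ≤ x → x ≤ xc → |x| ≤ 16 / L := fun x h0 h1 => by
    rw [abs_of_nonneg h0]; linarith
  -- (i)
  have hmono : StrictMonoOn (fun x => (B x).im) (Icc 0 xa) := by
    apply strictMonoOn_of_deriv_pos (convex_Icc _ _) himc.continuousOn
    intro x hx
    rw [interior_Icc] at hx
    rw [(himd x).deriv]
    refine hposd x (hxin x hx.1.le (by linarith [hx.2])) ?_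
    have h1 : x * a ≤ 1 / 2 := by
      have := hx.2.le
      rwa [hxa, le_div_iff₀ ha0] at this
    have h2 : 0 ≤ x * a := mul_nonneg hx.1.le ha0.le
    have := Real.one_sub_sq_div_two_le_cos (x := x * a)
    nlinarith
  have hi : ∀ x, 0 < x → x ≤ xa → 0 < (B x).im := by
    intro x h0 h1
    have := hmono (left_mem_Icc.2 hxa0.le) ⟨h0.le, h1⟩ h0
    simp only [B0, one_im] at this
    exact this
  -- (ii)
  have hii : ∀ x, xa ≤ x → x ≤ xb → 0 < (B x).im := by
    intro x h0 h1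
    have h2 := (abs_le.1 (near_im hb (hxin x (by linarith) (by linarith)))).1
    have hrx := hr x
    have h3 : 1 / 2 ≤ x * a := by rwa [hxa, div_le_iff₀ ha0] at h0
    have h4 : x * a ≤ Real.pi - δ := by rwa [hxb, le_div_iff₀ ha0] at h1
    have h5 := sin_low hδ0 hδ1 (by linarith) h4
    have h6 : r x * (9 / 10 * δ) ≤ r x * Real.sin (x * a) := mul_le_mul_of_nonneg_left h5 hrx.le
    have h7 : r x * κ ≤ r x * (δ / 4) := mul_le_mul_of_nonneg_left hκ hrx.le
    have h8 : 0 < r x * δ := by positivity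
    nlinarith
  -- (iii)
  have hiii : (B xc).im < 0 := by
    have h2 := (abs_le.1 (near_im hb (hxin xc (by linarith) le_rfl))).2
    have hrx := hr xc
    have e : xc * a = Real.pi + δ := by rw [hxc]; field_simp
    have h5 := sin_low hδ0 hδ1 le_rfl (by linarith)
    have e2 : Real.sin (xc * a) = -Real.sin δ := by
      rw [e, add_comm, Real.sin_add_pi]
    rw [e2] at h2
    have h6 : r xc * (9 / 10 * δ) ≤ r xc * Real.sin δ := mul_le_mul_of_nonneg_left h5 hrx.le
    have h7 : r xc * κ ≤ r xc * (δ / 4) := mul_le_mul_of_nonneg_left hκ hrx.le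
    have h8 : 0 < r xc * δ := by positivity
    nlinarith
  -- (iv)
  have hanti : StrictAntiOn (fun x => (B x).im) (Icc xb xc) := by
    apply strictAntiOn_of_deriv_neg (convex_Icc _ _) himc.continuousOn
    intro x hx
    rw [interior_Icc] at hx
    rw [(himd x).deriv]
    refine hnegd x (hxin x (by linarith [hx.1]) hx.2.le) ?_
    have h1 : Real.pi - δ ≤ x * a := by
      have := hx.1.le
      rwa [hxb, div_le_iff₀ ha0] at this
    have h2 : x * a ≤ Real.pi + δ := by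
      have := hx.2.le
      rwa [hxc, le_div_iff₀ ha0] at this
    have h3 := Real.one_sub_sq_div_two_le_cos (x := x * a - Real.pi)
    have h4 : Real.cos (x * a - Real.pi) = -Real.cos (x * a) := Real.cos_sub_pi _
    rw [h4] at h3
    nlinarith
  have hxb0 := hii xb hab le_rfl
  obtain ⟨x1, hx1, hx1z⟩ : ∃ x ∈ Icc xb xc, (B x).im = 0 := by
    have := intermediate_value_Icc' hbc.le himc.continuousOn
    exact this ⟨hiii.le, hxb0.le⟩
  have hx10 : 0 < x1 := by linarith [hx1.1]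
  refine ⟨x1, hx10, ?_, hx1z, ?_⟩
  · have h1 : Real.pi - δ ≤ x1 * a := by
      have := hx1.1
      rwa [hxb, div_le_iff₀ ha0] at this
    have h2 : x1 * a ≤ Real.pi + δ := by
      have := hx1.2
      rwa [hxc, le_div_iff₀ ha0] at this
    have h3 : |x1 * a - Real.pi| ≤ δ := by rw [abs_le]; constructor <;> linarith
    have h4 : |Real.pi - 2 * Real.pi / L * a| ≤ δ / 10 * (2 * Real.pi) := by
      have e : Real.pi - 2 * Real.pi / L * a = (-(2 * Real.pi) / L) * (a - L / 2) := by field_simp; ring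
      rw [e, abs_mul, abs_div, abs_neg, abs_of_pos (by positivity : 0 < 2 * Real.pi), abs_of_pos hL]
      calc 2 * Real.pi / L * |a - L / 2| ≤ 2 * Real.pi / L * (δ / 10 * L) :=
            mul_le_mul_of_nonneg_left ha (by positivity)
        _ = _ := by field_simp
    have h5 : |x1 - 2 * Real.pi / L| * a ≤ δ + δ / 10 * (2 * Real.pi) := by
      have e0 : |x1 - 2 * Real.pi / L| * a = |(x1 - 2 * Real.pi / L) * a| := by
        rw [abs_mul, abs_of_pos ha0]
      rw [e0]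
      have e : (x1 - 2 * Real.pi / L) * a = (x1 * a - Real.pi) + (Real.pi - 2 * Real.pi / L * a) := by ring
      rw [e]
      exact (abs_add_le _ _).trans (add_le_add h3 h4)
    have h6 : |x1 - 2 * Real.pi / L| * (9 / 20 * L) ≤ |x1 - 2 * Real.pi / L| * a :=
      mul_le_mul_of_nonneg_left ha1 (abs_nonneg _)
    have e7 : δ * (2 * Real.pi / L) = (δ * (2 * Real.pi) * (9 / 20)) / (9 / 20 * L) := by field_simp
    rw [e7, le_div_iff₀ (by positivity)]
    nlinarith
  · intro x h0 h1 hz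
    rcases le_or_gt x xa with h | h
    · exact (hi x h0 h).ne' hz
    · rcases le_or_gt x xb with h' | h'
      · exact (hii x h.le h').ne' hz
      · have := hanti ⟨h'.le, by linarith [hx1.2]⟩ hx1 h1
        simp only at this
        rw [hx1z, hz] at this
        exact lt_irrefl _ this

/-- a zero in every interval of length `(1 + δ) 2π / L` -/
theorem B_zero (hL : 0 < L) (ha : |a - L / 2| ≤ δ / 10 * L) (hr : ∀ x, 0 < r x)
    (hb : ∀ x, |x| ≤ 16 / L → ‖B x - r x * cexp (((x * a : ℝ) : ℂ) * I)‖ ≤ r x * κ)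
    (hc : Continuous B) (hδ0 : 0 < δ) (hδ1 : δ ≤ 1 / 2) (hκ : κ ≤ δ / 4) (φ : ℝ) :
    ∃ x, 0 ≤ x ∧ x ≤ (1 + δ) * (2 * Real.pi / L) ∧ (cexp (φ * I) * B x).re = 0 := by
  have hpi := Real.pi_gt_three
  have hpi2 := Real.pi_lt_d2
  have hpi0 := Real.pi_pos
  have ha' := abs_le.1 ha
  have ha1 : 9 / 20 * L ≤ a := by
    have : δ / 10 * L ≤ 1 / 20 * L := mul_le_mul_of_nonneg_right (by linarith) hL.le
    linarith [ha'.1]
  have ha0 : 0 < a := by
    have : 0 < 9 / 20 * L := by positivity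
    linarith
  have hnear : ∀ x, |x| ≤ 16 / L → |(cexp (φ * I) * B x).re - r x * Real.cos (φ + x * a)| ≤ r x * κ := by
    intro x hx
    have h1 : ‖cexp (φ * I) * B x - r x * cexp (((φ + x * a : ℝ) : ℂ) * I)‖ ≤ r x * κ := by
      have e : cexp (φ * I) * B x - r x * cexp (((φ + x * a : ℝ) : ℂ) * I) =
          cexp (φ * I) * (B x - r x * cexp (((x * a : ℝ) : ℂ) * I)) := by
        rw [ofReal_add, add_mul, Complex.exp_add]; ring
      rw [e, norm_mul, Complex.norm_exp_ofReal_mul_I, one_mul]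
      exact hb x hx
    have h2 := (Complex.abs_re_le_norm _).trans h1
    rw [sub_re, re_ofReal_mul, Complex.exp_ofReal_mul_I_re] at h2
    exact h2
  set k : ℤ := ⌈(φ + δ / 2 - Real.pi / 2) / Real.pi⌉ with hk
  have hk1 : φ + δ / 2 ≤ Real.pi / 2 + k * Real.pi := by
    have := Int.le_ceil ((φ + δ / 2 - Real.pi / 2) / Real.pi)
    rw [div_le_iff₀ hpi0] at this
    linarith
  have hk2 : Real.pi / 2 + k * Real.pi < φ + δ / 2 + Real.pi := by
    have := Int.ceil_lt_add_one ((φ + δ / 2 - Real.pi / 2) / Real.pi)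
    rw [← hk] at this
    have h1 := mul_lt_mul_of_pos_right this hpi0
    rw [add_mul, div_mul_cancel₀ _ hpi0.ne'] at h1
    linarith
  set c := Real.pi / 2 + k * Real.pi with hcdef
  set xm := (c - δ / 2 - φ) / a with hxm
  set xp := (c + δ / 2 - φ) / a with hxp
  have hxm0 : 0 ≤ xm := div_nonneg (by linarith) ha0.le
  have hmp : xm ≤ xp := div_le_div_of_nonneg_right (by linarith) ha0.le
  have hxpL : xp ≤ (1 + δ) * (2 * Real.pi / L) := by
    have e : (1 + δ) * (2 * Real.pi / L) = ((1 + δ) * (2 * Real.pi)) / L := by ring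
    rw [hxp, e, div_le_div_iff₀ ha0 hL]
    have h1 : (c + δ / 2 - φ) * L ≤ (Real.pi + δ) * L := mul_le_mul_of_nonneg_right (by linarith) hL.le
    have h2 : (1 + δ) * (2 * Real.pi) * ((1 / 2 - δ / 10) * L) ≤ (1 + δ) * (2 * Real.pi) * a :=
      mul_le_mul_of_nonneg_left (by linarith [ha'.1]) (by positivity)
    have h3 : Real.pi + δ ≤ (1 + δ) * (2 * Real.pi) * (1 / 2 - δ / 10) := by nlinarith [mul_pos hδ0 hpi0]
    have h4 := mul_le_mul_of_nonneg_right h3 hL.le
    linarith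
  have hxp16 : xp ≤ 16 / L := by
    refine hxpL.trans ?_
    have e : (1 + δ) * (2 * Real.pi / L) = ((1 + δ) * (2 * Real.pi)) / L := by ring
    rw [e]
    apply div_le_div_of_nonneg_right _ hL.le
    nlinarith
  have hxin : ∀ x, 0 ≤ x → x ≤ xp → |x| ≤ 16 / L := fun x h0 h1 => by
    rw [abs_of_nonneg h0]; linarith
  have hs := sin_low (δ := δ / 2) (θ := δ / 2) (by linarith) (by linarith) le_rfl (by linarith)
  set u := Real.cos (k * Real.pi) with hu
  have hsk : Real.sin (k * Real.pi) = 0 := Real.sin_int_mul_pi k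
  have hu2 : u * u = 1 := by
    have := Real.sin_sq_add_cos_sq (k * Real.pi)
    rw [hsk] at this
    rw [hu]; nlinarith
  have em : φ + xm * a = (Real.pi / 2 - δ / 2) + k * Real.pi := by
    rw [hxm, hcdef]; field_simp; ring
  have ep : φ + xp * a = (Real.pi / 2 + δ / 2) + k * Real.pi := by
    rw [hxp, hcdef]; field_simp; ring
  have cm : Real.cos (φ + xm * a) = Real.sin (δ / 2) * u := by
    rw [em, Real.cos_add, hsk, Real.cos_pi_div_two_sub]; ring
  have cp : Real.cos (φ + xp * a) = -(Real.sin (δ / 2) * u) := by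
    rw [ep, Real.cos_add, hsk, add_comm (Real.pi / 2), Real.cos_add_pi_div_two]; ring
  have h1 := abs_le.1 (hnear xm (hxin xm hxm0 hmp))
  have h2 := abs_le.1 (hnear xp (hxin xp (hxm0.trans hmp) le_rfl))
  rw [cm] at h1
  rw [cp] at h2
  have hrm := hr xm
  have hrp := hr xp
  have k1 : r xm * κ ≤ r xm * (δ / 4) := mul_le_mul_of_nonneg_left hκ hrm.le
  have k2 : r xp * κ ≤ r xp * (δ / 4) := mul_le_mul_of_nonneg_left hκ hrp.le
  have k3 : r xm * (9 / 10 * (δ / 2)) ≤ r xm * Real.sin (δ / 2) := mul_le_mul_of_nonneg_left hs hrm.le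
  have k4 : r xp * (9 / 10 * (δ / 2)) ≤ r xp * Real.sin (δ / 2) := mul_le_mul_of_nonneg_left hs hrp.le
  have k5 : 0 < r xm * δ := by positivity
  have k6 : 0 < r xp * δ := by positivity
  have hgc : Continuous (fun x => (cexp (φ * I) * B x).re) := by fun_prop
  have hex : ∃ x ∈ Icc xm xp, (cexp (φ * I) * B x).re = 0 := by
    rcases mul_self_eq_one_iff.1 hu2 with h | h
    · rw [h] at h1 h2
      have := intermediate_value_Icc' hmp hgc.continuousOn
      exact this ⟨by linarith [h2.2], by linarith [h1.1]⟩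
    · rw [h] at h1 h2
      have := intermediate_value_Icc hmp hgc.continuousOn
      exact this ⟨by linarith [h1.2], by linarith [h2.1]⟩
  obtain ⟨x, hx, hz⟩ := hex
  exact ⟨x, by linarith [hx.1], by linarith [hx.2], hz⟩

end abstract_phase

variable {F H : ℂ → ℂ} {t L ε V : ℝ} {w0 : ℂ}

/-- normalised phase data at a point of the axis -/
theorem Loc.norm_phase (h : Loc F t L ε V w0) (hs : Sym F) (hg : Gr F) (hH : Differentiable ℂ H)
    (hh : IsHeat F H t) (hlam : 2000000 ≤ t * L ^ 2) (hre : w0.re = 0) {δ : ℝ} (hδ0 : 0 < δ)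
    (hε : 20 * ε ≤ δ) (hlδ : (640 / δ) ^ 2 ≤ t * L ^ 2) :
    ∃ (A0 : ℂ) (B E : ℝ → ℂ) (r : ℝ → ℝ) (a : ℝ), A0 ≠ 0 ∧ |a - L / 2| ≤ δ / 10 * L ∧ (∀ x, 0 < r x) ∧
      (∀ x, |x| ≤ 16 / L → ‖B x - r x * cexp (((x * a : ℝ) : ℂ) * I)‖ ≤ r x * (δ / 4)) ∧
      (∀ x, HasDerivAt B (I * E x) x) ∧
      (∀ x, |x| ≤ 16 / L → ‖E x - L / 2 * B x‖ ≤ 1 / 20 * L * ‖B x‖) ∧ B 0 = 1 ∧
      (∀ x : ℝ, (Real.sqrt (4 * Real.pi * t) : ℂ) * H (w0 + I * x) = ((2 * (A0 * B x).re : ℝ) : ℂ)) := by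
  obtain ⟨ψ, A, D, h1, h2, h3, h4, h5, h6⟩ := h.phase hs hg hH hh hlam hre
  have ht := h.t0
  have hL := h.L0
  have he0 := h.e0
  have he1 := h.e1
  have hst : 0 < Real.sqrt t := Real.sqrt_pos.2 ht
  have hsl : Real.sqrt (t * L ^ 2) = Real.sqrt t * L := by
    rw [Real.sqrt_mul ht.le, Real.sqrt_sq hL.le]
  have hLs : 1400 ≤ Real.sqrt t * L := by
    have h1 : (1400 : ℝ) ^ 2 ≤ (Real.sqrt t * L) ^ 2 := by
      rw [mul_pow, Real.sq_sqrt ht.le]; linarith
    exact le_of_sq_le_sq h1 (by positivity) |>.trans le_rfl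
  have hLδ : 640 / δ ≤ Real.sqrt t * L := by
    have h1 : (640 / δ) ^ 2 ≤ (Real.sqrt t * L) ^ 2 := by
      rw [mul_pow, Real.sq_sqrt ht.le]; exact hlδ
    exact le_of_sq_le_sq h1 (by positivity) |>.trans le_rfl
  refine ⟨A 0, fun x => A x / A 0, fun x => D x / A 0, fun x => Real.exp (x ^ 2 / (4 * t) - x * ψ.im), ψ.re,
    h2, ?_, fun x => Real.exp_pos _, ?_, ?_, ?_, ?_, ?_⟩
  · have e1 : (ψ - L / 2).re = ψ.re - L / 2 := by
      rw [sub_re]
      have : (L : ℂ) / 2 = ((L / 2 : ℝ) : ℂ) := by push_cast; ring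
      rw [this, ofReal_re]
    have e2 := (Complex.abs_re_le_norm _).trans h1
    rw [e1] at e2
    refine e2.trans (mul_le_mul_of_nonneg_right (by linarith) hL.le)
  · intro x hx
    obtain ⟨ρ, hρ, hA⟩ := h5 x
    have e1 : cexp (I * x * ψ + ((x ^ 2 / (4 * t) : ℝ) : ℂ)) =
        ((Real.exp (x ^ 2 / (4 * t) - x * ψ.im) : ℝ) : ℂ) * cexp (((x * ψ.re : ℝ) : ℂ) * I) := by
      rw [ofReal_exp, ← Complex.exp_add]
      congr 1
      have e4 : (I * x * ψ : ℂ) = ((-(x * ψ.im) : ℝ) : ℂ) + ((x * ψ.re : ℝ) : ℂ) * I := by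
        apply Complex.ext <;> simp
      rw [e4]
      push_cast
      ring
    have e2 : A x / A 0 - ((Real.exp (x ^ 2 / (4 * t) - x * ψ.im) : ℝ) : ℂ) * cexp (((x * ψ.re : ℝ) : ℂ) * I) =
        ((Real.exp (x ^ 2 / (4 * t) - x * ψ.im) : ℝ) : ℂ) * cexp (((x * ψ.re : ℝ) : ℂ) * I) * ρ := by
      rw [hA, e1]
      field_simp
      ring
    rw [e2, norm_mul, norm_mul, Complex.norm_exp_ofReal_mul_I, mul_one, Complex.norm_real,
      Real.norm_of_nonneg (Real.exp_pos _).le]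
    apply mul_le_mul_of_nonneg_left _ (Real.exp_pos _).le
    refine hρ.trans ?_
    rw [div_le_iff₀ hst]
    have h7 : |x| * L ≤ 16 := by rwa [le_div_iff₀ hL] at hx
    have h8 : 640 ≤ Real.sqrt t * L * δ := by rwa [div_le_iff₀ hδ0] at hLδ
    have h9 : 10 * |x| * L ≤ δ / 4 * Real.sqrt t * L := by nlinarith
    exact le_of_mul_le_mul_right h9 hL
  · intro x
    have := (h4 x).div_const (A 0)
    refine this.congr_deriv ?_
    ring
  · intro x hx
    have e1 : D x / A 0 - L / 2 * (A x / A 0) = (D x - L / 2 * A x) / A 0 := by ring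
    rw [e1, norm_div, norm_div, ← mul_div_assoc]
    apply div_le_div_of_nonneg_right _ (norm_nonneg _)
    refine (h6 x hx).trans ?_
    apply mul_le_mul_of_nonneg_right _ (norm_nonneg _)
    apply mul_le_mul_of_nonneg_right _ hL.le
    rw [hsl]
    have : 10 / (Real.sqrt t * L) ≤ 10 / 1400 := div_le_div_of_nonneg_left (by norm_num) (by norm_num) hLs
    linarith
  · simp only
    field_simp
  · intro x
    rw [h3]
    have : A 0 * (A x / A 0) = A x := by field_simp
    rw [this]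

/-- **The gap to the next zero.** -/
theorem Loc.gap (h : Loc F t L ε V w0) (hs : Sym F) (hg : Gr F) (hH : Differentiable ℂ H)
    (hh : IsHeat F H t) (hlam : 2000000 ≤ t * L ^ 2) (hre : w0.re = 0) {δ : ℝ} (hδ0 : 0 < δ) (hδ1 : δ ≤ 1 / 2)
    (hε : 20 * ε ≤ δ) (hlδ : (640 / δ) ^ 2 ≤ t * L ^ 2) (hz : H w0 = 0) :
    ∃ y : ℝ, w0.im < y ∧ |y - w0.im - 2 * Real.pi / L| ≤ δ * (2 * Real.pi / L) ∧ H (I * y) = 0 ∧
      ∀ x : ℝ, w0.im < x → x < y → H (I * x) ≠ 0 := by
  obtain ⟨A0, B, E, r, a, h1, h2, h3, h4, h5, h6, h7, h8⟩ := h.norm_phase hs hg hH hh hlam hre hδ0 hε hlδ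
  obtain ⟨x1, g1, g2, g3, g4⟩ := B_gap h.L0 h2 h3 h4 h5 h6 h7 hδ0 hδ1 (by linarith) le_rfl (by norm_num) le_rfl
  have ht := h.t0
  have hsq : (Real.sqrt (4 * Real.pi * t) : ℂ) ≠ 0 := by
    have : 0 < Real.sqrt (4 * Real.pi * t) := Real.sqrt_pos.2 (by positivity)
    exact_mod_cast this.ne'
  have hA0 : A0.re = 0 := by
    have := h8 0
    rw [ofReal_zero, mul_zero, add_zero, hz, mul_zero, h7, mul_one] at this
    have := Complex.ofReal_eq_zero.1 this.symm
    linarith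
  have hA0i : A0.im ≠ 0 := by
    intro h0
    exact h1 (Complex.ext hA0 h0)
  have hval : ∀ x : ℝ, H (w0 + I * x) = 0 ↔ (B x).im = 0 := by
    intro x
    have e := h8 x
    rw [mul_re, hA0, zero_mul, zero_sub] at e
    constructor
    · intro h0
      rw [h0, mul_zero] at e
      have := Complex.ofReal_eq_zero.1 e.symm
      have h9 : A0.im * (B x).im = 0 := by linarith
      exact (mul_eq_zero.1 h9).resolve_left hA0i
    · intro h0
      rw [h0, mul_zero, neg_zero, mul_zero, ofReal_zero] at e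
      exact (mul_eq_zero.1 e).resolve_left hsq
  have hpt : ∀ x : ℝ, I * ((w0.im + x : ℝ) : ℂ) = w0 + I * x := by
    intro x
    apply Complex.ext
    · simp [hre]
    · simp
  refine ⟨w0.im + x1, by linarith, ?_, ?_, ?_⟩
  · have : w0.im + x1 - w0.im - 2 * Real.pi / L = x1 - 2 * Real.pi / L := by ring
    rw [this]; exact g2
  · rw [hpt]; exact (hval x1).2 g3
  · intro x hx1 hx2 h0
    have e : x = w0.im + (x - w0.im) := by ring
    rw [e, hpt] at h0
    exact g4 (x - w0.im) (by linarith) (by linarith) ((hval _).1 h0)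

/-- **A zero in every short interval.** -/
theorem Loc.zero_near (h : Loc F t L ε V w0) (hs : Sym F) (hg : Gr F) (hH : Differentiable ℂ H)
    (hh : IsHeat F H t) (hlam : 2000000 ≤ t * L ^ 2) (hre : w0.re = 0) {δ : ℝ} (hδ0 : 0 < δ) (hδ1 : δ ≤ 1 / 2)
    (hε : 20 * ε ≤ δ) (hlδ : (640 / δ) ^ 2 ≤ t * L ^ 2) :
    ∃ y : ℝ, w0.im ≤ y ∧ y ≤ w0.im + (1 + δ) * (2 * Real.pi / L) ∧ H (I * y) = 0 := by
  obtain ⟨A0, B, E, r, a, h1, h2, h3, h4, h5, h6, h7, h8⟩ := h.norm_phase hs hg hH hh hlam hre hδ0 hε hlδ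
  have hBc : Continuous B := continuous_iff_continuousAt.2 fun x => (h5 x).continuousAt
  obtain ⟨x, g1, g2, g3⟩ := B_zero h.L0 h2 h3 h4 hBc hδ0 hδ1 le_rfl (arg A0)
  have ht := h.t0
  have hsq : (Real.sqrt (4 * Real.pi * t) : ℂ) ≠ 0 := by
    have : 0 < Real.sqrt (4 * Real.pi * t) := Real.sqrt_pos.2 (by positivity)
    exact_mod_cast this.ne'
  have hpt : I * ((w0.im + x : ℝ) : ℂ) = w0 + I * x := by
    apply Complex.ext
    · simp [hre]
    · simp
  refine ⟨w0.im + x, by linarith, by linarith, ?_⟩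
  rw [hpt]
  have e := h8 x
  have e2 : A0 * B x = ((‖A0‖ : ℝ) : ℂ) * (cexp (arg A0 * I) * B x) := by
    rw [← mul_assoc, Complex.norm_mul_exp_arg_mul_I]
  rw [e2, re_ofReal_mul, g3, mul_zero, mul_zero, ofReal_zero] at e
  exact (mul_eq_zero.1 e).resolve_left hsq

end Pool.Agent.Helper54.Hf
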