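import Mathlib

set_option autoImplicit false
set_option maxHeartbeats 1000000

/-!
Laplace estimates with a pointwise Gaussian majorant.
-/

open Complex MeasureTheory Set

namespace Pool.Agent.Helper54.Hf

lemma gauss_sum (t : ℝ) (ht : 0 < t) (c : ℝ) (hc : 0 < c) :
    ∫ s : ℝ, Real.exp (-s ^ 2 / (c * t)) = Real.sqrt (Real.pi * (c * t)) := by
  have h := integral_gaussian (1 / (c * t))
  have e : (fun s : ℝ => Real.exp (-s ^ 2 / (c * t))) = fun s : ℝ => Real.exp (-(1 / (c * t)) * s ^ 2) := by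
    funext s; congr 1; field_simp
  rw [e, h]
  congr 1
  field_simp

lemma gauss_int (t : ℝ) (ht : 0 < t) (c : ℝ) (hc : 0 < c) :
    Integrable (fun s : ℝ => Real.exp (-s ^ 2 / (c * t))) := by
  have h := integrable_exp_neg_mul_sq (b := 1 / (c * t)) (by positivity)
  refine h.congr (Filter.Eventually.of_forall fun s => ?_)
  show Real.exp (-(1 / (c * t)) * s ^ 2) = Real.exp (-s ^ 2 / (c * t))
  congr 1; field_simp

/-- the elementary bound of the tilt -/
lemma tilt {t θ s : ℝ} (ht : 0 < t) (hθ : |θ| * Real.sqrt t ≤ 1 / 100) :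
    |θ * s| ≤ 1 / 200 + s ^ 2 / t / 200 := by
  have hst : 0 < Real.sqrt t := Real.sqrt_pos.2 ht
  have h1 : |s| ≤ Real.sqrt t * ((1 + s ^ 2 / t) / 2) := by
    have h2 : s ^ 2 / t = (|s| / Real.sqrt t) ^ 2 := by
      rw [div_pow, Real.sq_sqrt ht.le, sq_abs]
    rw [h2]
    have h3 : |s| = Real.sqrt t * (|s| / Real.sqrt t) := by field_simp
    have h4 : |s| / Real.sqrt t ≤ (1 + (|s| / Real.sqrt t) ^ 2) / 2 := by
      nlinarith [sq_nonneg (|s| / Real.sqrt t - 1)]
    calc |s| = Real.sqrt t * (|s| / Real.sqrt t) := h3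
      _ ≤ _ := mul_le_mul_of_nonneg_left h4 hst.le
  have h5 : 0 ≤ s ^ 2 / t := by positivity
  rw [abs_mul]
  calc |θ| * |s| ≤ |θ| * (Real.sqrt t * ((1 + s ^ 2 / t) / 2)) :=
        mul_le_mul_of_nonneg_left h1 (abs_nonneg _)
    _ = (|θ| * Real.sqrt t) * ((1 + s ^ 2 / t) / 2) := by ring
    _ ≤ 1 / 100 * ((1 + s ^ 2 / t) / 2) := mul_le_mul_of_nonneg_right hθ (by positivity)
    _ = _ := by ring

lemma exp_one_div_200 : Real.exp (1 / 200) ≤ 1.01 := by
  have h := Real.exp_bound' (x := 1 / 200) (by norm_num) (by norm_num) (n := 2) (by norm_num)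
  norm_num [Finset.sum_range_succ, Nat.factorial] at h
  linarith

/-- `X ≤ a e^{X / a}` -/
lemma lin_le_exp {a X : ℝ} (ha : 0 < a) : X ≤ a * Real.exp (X / a - 1) := by
  have h := Real.add_one_le_exp (X / a - 1)
  have h2 : X = a * (X / a - 1 + 1) := by field_simp; ring
  calc X = a * (X / a - 1 + 1) := h2
    _ ≤ _ := mul_le_mul_of_nonneg_left h ha.le

lemma exp_neg_one_le : Real.exp (-1) ≤ 0.368 := by
  have h := Real.exp_neg_one_lt_d9
  linarith

lemma small_mass {t S s : ℝ} (ht : 0 < t) (hS : 0 < S) (hΛ : 125 * t ≤ S ^ 2) (hs : S ≤ |s|) :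
    Real.exp (-(s ^ 2 / t) / 16 + (s ^ 2 / t) / 200) ≤ 0.012 * Real.exp (-(s ^ 2 / t) / 64) := by
  have h1 : 125 ≤ s ^ 2 / t := by
    rw [le_div_iff₀ ht]
    have : S ^ 2 ≤ |s| ^ 2 := pow_le_pow_left₀ hS.le hs 2
    rw [sq_abs] at this
    linarith
  set X := s ^ 2 / t with hX
  have h2 : Real.exp (-X / 16 + X / 200) ≤ Real.exp (-X / 64 + -5) := by
    apply Real.exp_le_exp.2; linarith
  have h3 : Real.exp (-5) ≤ 0.012 := by
    have h4 : Real.exp (-5) = Real.exp (-1) ^ 5 := by rw [← Real.exp_nat_mul]; norm_num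
    rw [h4]
    calc Real.exp (-1) ^ 5 ≤ 0.368 ^ 5 := pow_le_pow_left₀ (Real.exp_pos _).le exp_neg_one_le 5
      _ ≤ 0.012 := by norm_num
  rw [Real.exp_add (-X / 64) (-5)] at h2
  calc _ ≤ Real.exp (-X / 64) * Real.exp (-5) := h2
    _ ≤ Real.exp (-X / 64) * 0.012 := mul_le_mul_of_nonneg_left h3 (Real.exp_pos _).le
    _ = _ := by ring

/-- pointwise estimate -/
lemma point {G : ℝ → ℂ} {t v1 S θ : ℝ} (ht : 0 < t) (hS : 0 < S) (hΛ : 125 * t ≤ S ^ 2)
    (hθ : |θ| * Real.sqrt t ≤ 1 / 100)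
    (g1 : ∀ s, -v1 ≤ s → ‖G s‖ ≤ Real.exp (-(s ^ 2 / t) / 16))
    (g2 : ∀ s, |s| ≤ S → ‖G s - Real.exp (-(s ^ 2 / t) / 4)‖ ≤
      1 / 200 * (s ^ 2 / t) * Real.exp (-(s ^ 2 / t) / 8)) {s : ℝ} (hs : -v1 ≤ s) :
    ‖G s * cexp (θ * s) - Real.exp (-(s ^ 2 / t) / 4)‖ ≤ 0.06 * Real.exp (-(s ^ 2 / t) / 64) := by
  have htl := tilt (s := s) ht hθ
  set X := s ^ 2 / t with hX
  have hX0 : 0 ≤ X := by positivity
  have hE : ‖cexp (θ * s)‖ ≤ Real.exp (1 / 200 + X / 200) := by
    rw [Complex.norm_exp]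
    apply Real.exp_le_exp.2
    have : ((θ : ℂ) * s).re = θ * s := by simp
    rw [this]
    exact (le_abs_self _).trans htl
  have hE' : ‖cexp (θ * s)‖ ≤ 1.01 * Real.exp (X / 200) := by
    refine hE.trans ?_
    rw [Real.exp_add]
    exact mul_le_mul_of_nonneg_right exp_one_div_200 (Real.exp_pos _).le
  rcases le_or_gt |s| S with h | h
  · have h1 := g2 s h
    have e : G s * cexp (θ * s) - Real.exp (-X / 4) =
        (G s - Real.exp (-X / 4)) * cexp (θ * s) + Real.exp (-X / 4) * (cexp (θ * s) - 1) := by ring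
    have h2 : ‖cexp (θ * s) - 1‖ ≤ |θ * s| * Real.exp |θ * s| := by
      have h3 := Complex.norm_exp_sub_sum_le_norm_mul_exp ((θ : ℂ) * s) 1
      simp only [Finset.range_one, Finset.sum_singleton, pow_zero, Nat.factorial_zero, Nat.cast_one,
        div_one, pow_one] at h3
      have h4 : ‖(θ : ℂ) * s‖ = |θ * s| := by
        rw [← Complex.ofReal_mul, Complex.norm_real, Real.norm_eq_abs]
      rw [h4] at h3
      exact h3
    have h5 : |θ * s| * Real.exp |θ * s| ≤ (1 / 200 + X / 200) * (1.01 * Real.exp (X / 200)) := by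
      apply mul_le_mul htl _ (Real.exp_pos _).le (by positivity)
      calc Real.exp |θ * s| ≤ Real.exp (1 / 200 + X / 200) := Real.exp_le_exp.2 htl
        _ = Real.exp (1 / 200) * Real.exp (X / 200) := Real.exp_add _ _
        _ ≤ _ := mul_le_mul_of_nonneg_right exp_one_div_200 (Real.exp_pos _).le
    have h6 : ‖G s * cexp (θ * s) - Real.exp (-X / 4)‖ ≤
        (1 / 200 * X * Real.exp (-X / 8)) * (1.01 * Real.exp (X / 200)) +
          Real.exp (-X / 4) * ((1 / 200 + X / 200) * (1.01 * Real.exp (X / 200))) := by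
      rw [e]
      refine (norm_add_le _ _).trans (add_le_add ?_ ?_)
      · rw [norm_mul]
        exact mul_le_mul h1 hE' (norm_nonneg _) (by positivity)
      · rw [norm_mul, Complex.norm_real, Real.norm_of_nonneg (Real.exp_pos _).le]
        exact mul_le_mul_of_nonneg_left (h2.trans h5) (Real.exp_pos _).le
    refine h6.trans ?_
    -- everything in terms of e^{-X/64}
    have hA : X * (Real.exp (-X / 8) * Real.exp (X / 200)) ≤ 4 * Real.exp (-X / 64) := by
      rw [← Real.exp_add]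
      have h7 : X ≤ 10 * Real.exp (X / 10 - 1) := by
        have := lin_le_exp (a := 10) (X := X) (by norm_num)
        exact this
      have h8 : X ≤ 4 * Real.exp (X / 10.4) := by
        have h9 := lin_le_exp (a := 10.4) (X := X) (by norm_num)
        have h10 : Real.exp (X / 10.4 - 1) = Real.exp (X / 10.4) * Real.exp (-1) := by
          rw [← Real.exp_add]; ring_nf
        rw [h10] at h9
        have h11 := exp_neg_one_le
        have h12 := Real.exp_pos (X / 10.4)
        nlinarith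
      calc X * Real.exp (-X / 8 + X / 200) ≤ (4 * Real.exp (X / 10.4)) * Real.exp (-X / 8 + X / 200) :=
            mul_le_mul_of_nonneg_right h8 (Real.exp_pos _).le
        _ = 4 * Real.exp (X / 10.4 + (-X / 8 + X / 200)) := by
            rw [Real.exp_add (X / 10.4) (-X / 8 + X / 200)]; ring
        _ ≤ 4 * Real.exp (-X / 64) := by
            apply mul_le_mul_of_nonneg_left _ (by norm_num)
            apply Real.exp_le_exp.2
            have : X / 10.4 + (-X / 8 + X / 200) = -X * (1 / 8 - 1 / 200 - 1 / 10.4) := by ring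
            rw [this]
            have h13 : -X / 64 = -X * (1 / 64) := by ring
            rw [h13]
            have : (1 : ℝ) / 64 ≤ 1 / 8 - 1 / 200 - 1 / 10.4 := by norm_num
            nlinarith
    have hB : Real.exp (-X / 4) * Real.exp (X / 200) * (1 + X) ≤ 3 * Real.exp (-X / 64) := by
      rw [← Real.exp_add]
      have h8 : 1 + X ≤ 3 * Real.exp (X / 5) := by
        have h9 := Real.add_one_le_exp (X / 5)
        nlinarith [Real.exp_pos (X / 5), Real.quadratic_le_exp_of_nonneg (x := X / 5) (by positivity), sq_nonneg (X / 5 - 1)]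
      calc Real.exp (-X / 4 + X / 200) * (1 + X) ≤ Real.exp (-X / 4 + X / 200) * (3 * Real.exp (X / 5)) :=
            mul_le_mul_of_nonneg_left h8 (Real.exp_pos _).le
        _ = 3 * Real.exp (-X / 4 + X / 200 + X / 5) := by rw [Real.exp_add (-X / 4 + X / 200)]; ring
        _ ≤ 3 * Real.exp (-X / 64) := by
            apply mul_le_mul_of_nonneg_left _ (by norm_num)
            apply Real.exp_le_exp.2
            linarith
    nlinarith [Real.exp_pos (-X / 64)]
  · have h1 := g1 s hs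
    have h2 := small_mass ht hS hΛ h.le
    rw [← hX] at h2
    have h3 : ‖G s * cexp (θ * s)‖ ≤ 1.01 * Real.exp (-X / 16 + X / 200) := by
      rw [norm_mul, Real.exp_add]
      calc ‖G s‖ * ‖cexp (θ * s)‖ ≤ Real.exp (-X / 16) * (1.01 * Real.exp (X / 200)) :=
            mul_le_mul h1 hE' (norm_nonneg _) (Real.exp_pos _).le
        _ = _ := by ring
    have h4 : Real.exp (-X / 4) ≤ Real.exp (-X / 16 + X / 200) := by
      apply Real.exp_le_exp.2; linarith
    have h5 : ‖(Real.exp (-X / 4) : ℂ)‖ = Real.exp (-X / 4) := by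
      rw [Complex.norm_real, Real.norm_of_nonneg (Real.exp_pos _).le]
    calc _ ≤ ‖G s * cexp (θ * s)‖ + ‖(Real.exp (-X / 4) : ℂ)‖ := norm_sub_le _ _
      _ ≤ 1.01 * Real.exp (-X / 16 + X / 200) + Real.exp (-X / 16 + X / 200) := by
          rw [h5]; exact add_le_add h3 h4
      _ ≤ _ := by nlinarith [Real.exp_pos (-X / 64)]

lemma point1 {G : ℝ → ℂ} {t v1 θ : ℝ} (ht : 0 < t)
    (hθ : |θ| * Real.sqrt t ≤ 1 / 100)
    (g1 : ∀ s, -v1 ≤ s → ‖G s‖ ≤ Real.exp (-(s ^ 2 / t) / 16)) {s : ℝ} (hs : -v1 ≤ s) :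
    ‖G s * s * cexp (θ * s)‖ ≤ 3 * Real.sqrt t * Real.exp (-(s ^ 2 / t) / 64) := by
  have htl := tilt (s := s) ht hθ
  have hst : 0 < Real.sqrt t := Real.sqrt_pos.2 ht
  have hs2 : |s| = Real.sqrt t * (|s| / Real.sqrt t) := by field_simp
  have hX' : s ^ 2 / t = (|s| / Real.sqrt t) ^ 2 := by
    rw [div_pow, Real.sq_sqrt ht.le, sq_abs]
  set X := s ^ 2 / t with hX
  set x := |s| / Real.sqrt t with hx
  have hx0 : 0 ≤ x := by positivity
  have hE : ‖cexp (θ * s)‖ ≤ 1.01 * Real.exp (X / 200) := by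
    rw [Complex.norm_exp]
    have : ((θ : ℂ) * s).re = θ * s := by simp
    rw [this]
    calc Real.exp (θ * s) ≤ Real.exp (1 / 200 + X / 200) :=
          Real.exp_le_exp.2 ((le_abs_self _).trans htl)
      _ = Real.exp (1 / 200) * Real.exp (X / 200) := Real.exp_add _ _
      _ ≤ _ := mul_le_mul_of_nonneg_right exp_one_div_200 (Real.exp_pos _).le
  have h1 := g1 s hs
  rw [norm_mul, norm_mul, Complex.norm_real, Real.norm_eq_abs]
  -- x ≤ 2.9 e^{X * (1/16 - 1/200 - 1/64)}
  have h2 : x ≤ 2.9 * Real.exp (X / 24) := by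
    have h3 := Real.add_one_le_exp (X / 24)
    rw [hX'] at h3 ⊢
    nlinarith [sq_nonneg (x - 5), Real.exp_pos (x ^ 2 / 24)]
  calc ‖G s‖ * |s| * ‖cexp (θ * s)‖
      ≤ Real.exp (-X / 16) * (Real.sqrt t * (2.9 * Real.exp (X / 24))) * (1.01 * Real.exp (X / 200)) := by
        apply mul_le_mul _ hE (norm_nonneg _) (by positivity)
        apply mul_le_mul h1 _ (abs_nonneg _) (Real.exp_pos _).le
        rw [hs2]
        exact mul_le_mul_of_nonneg_left h2 hst.le
    _ = (2.9 * 1.01) * Real.sqrt t * (Real.exp (-X / 16) * Real.exp (X / 24) * Real.exp (X / 200)) := by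
        ring
    _ = (2.9 * 1.01) * Real.sqrt t * Real.exp (-X / 16 + X / 24 + X / 200) := by
        rw [← Real.exp_add, ← Real.exp_add]
    _ ≤ 3 * Real.sqrt t * Real.exp (-X / 64) := by
        apply mul_le_mul _ _ (Real.exp_pos _).le (by positivity)
        · apply mul_le_mul_of_nonneg_right (by norm_num) hst.le
        · apply Real.exp_le_exp.2
          have hX0 : 0 ≤ X := by rw [hX']; positivity
          linarith

end Pool.Agent.Helper54.Hf
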