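import Pool.Agent.Helper54.Hf.G1

set_option autoImplicit false
set_option maxHeartbeats 1000000

open Complex MeasureTheory Set

namespace Pool.Agent.Helper54.Hf

lemma gauss64 {t : ℝ} (ht : 0 < t) : ∫ s : ℝ, Real.exp (-(s ^ 2 / t) / 64) ≤ 14.2 * Real.sqrt t := by
  have e : (fun s : ℝ => Real.exp (-(s ^ 2 / t) / 64)) = fun s : ℝ => Real.exp (-s ^ 2 / (64 * t)) := by
    funext s; congr 1; field_simp
  rw [e, gauss_sum t ht 64 (by norm_num)]
  have h1 : Real.sqrt (Real.pi * (64 * t)) = Real.sqrt (64 * Real.pi) * Real.sqrt t := by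
    rw [← Real.sqrt_mul (by positivity)]; ring_nf
  rw [h1]
  apply mul_le_mul_of_nonneg_right _ (Real.sqrt_nonneg _)
  rw [Real.sqrt_le_left (by norm_num)]
  have := Real.pi_lt_d4
  norm_num
  linarith

lemma gauss64_int {t : ℝ} (ht : 0 < t) : Integrable (fun s : ℝ => Real.exp (-(s ^ 2 / t) / 64)) := by
  refine (gauss_int t ht 64 (by norm_num)).congr (Filter.Eventually.of_forall fun s => ?_)
  show Real.exp (-s ^ 2 / (64 * t)) = Real.exp (-(s ^ 2 / t) / 64)
  congr 1; field_simp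

lemma gauss4_int {t : ℝ} (ht : 0 < t) : Integrable (fun s : ℝ => Real.exp (-(s ^ 2 / t) / 4)) := by
  refine (gauss_int t ht 4 (by norm_num)).congr (Filter.Eventually.of_forall fun s => ?_)
  show Real.exp (-s ^ 2 / (4 * t)) = Real.exp (-(s ^ 2 / t) / 4)
  congr 1; field_simp

lemma gauss4 {t : ℝ} (ht : 0 < t) :
    ∫ s : ℝ, Real.exp (-(s ^ 2 / t) / 4) = Real.sqrt (4 * Real.pi * t) := by
  have e : (fun s : ℝ => Real.exp (-(s ^ 2 / t) / 4)) = fun s : ℝ => Real.exp (-s ^ 2 / (4 * t)) := by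
    funext s; congr 1; field_simp
  rw [e, gauss_sum t ht 4 (by norm_num)]
  congr 1; ring

section
variable {G : ℝ → ℂ} {t v1 S θ : ℝ}

lemma Gint (hG : Continuous G) (ht : 0 < t) (hθ : |θ| * Real.sqrt t ≤ 1 / 100)
    (g1 : ∀ s, -v1 ≤ s → ‖G s‖ ≤ Real.exp (-(s ^ 2 / t) / 16)) :
    IntegrableOn (fun s : ℝ => G s * cexp (θ * s)) (Ioi (-v1)) := by
  have hc : Continuous (fun s : ℝ => G s * cexp (θ * s)) := by fun_prop
  refine Integrable.mono' (((gauss64_int ht).const_mul 1.01).integrableOn) hc.aestronglyMeasurable ?_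
  refine (ae_restrict_iff' measurableSet_Ioi).2 (Filter.Eventually.of_forall fun s hs => ?_)
  have htl := tilt (s := s) ht hθ
  have h1 := g1 s (le_of_lt hs)
  rw [norm_mul, Complex.norm_exp]
  have e : ((θ : ℂ) * s).re = θ * s := by simp
  rw [e]
  have hX0 : 0 ≤ s ^ 2 / t := by positivity
  calc ‖G s‖ * Real.exp (θ * s) ≤ Real.exp (-(s ^ 2 / t) / 16) * (Real.exp (1 / 200) * Real.exp (s ^ 2 / t / 200)) := by
        apply mul_le_mul h1 _ (Real.exp_pos _).le (Real.exp_pos _).le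
        rw [← Real.exp_add]
        exact Real.exp_le_exp.2 ((le_abs_self _).trans htl)
    _ = Real.exp (1 / 200) * Real.exp (-(s ^ 2 / t) / 16 + s ^ 2 / t / 200) := by
        rw [Real.exp_add (-(s ^ 2 / t) / 16)]; ring
    _ ≤ 1.01 * Real.exp (-(s ^ 2 / t) / 64) := by
        apply mul_le_mul exp_one_div_200 _ (Real.exp_pos _).le (by norm_num)
        apply Real.exp_le_exp.2; linarith

lemma J0_est (hG : Continuous G) (ht : 0 < t) (hS : 0 < S) (hSv : S ≤ v1) (hΛ : 125 * t ≤ S ^ 2)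
    (hθ : |θ| * Real.sqrt t ≤ 1 / 100)
    (g1 : ∀ s, -v1 ≤ s → ‖G s‖ ≤ Real.exp (-(s ^ 2 / t) / 16))
    (g2 : ∀ s, |s| ≤ S → ‖G s - Real.exp (-(s ^ 2 / t) / 4)‖ ≤
      1 / 200 * (s ^ 2 / t) * Real.exp (-(s ^ 2 / t) / 8)) :
    ‖(∫ s in Ioi (-v1), G s * cexp (θ * s)) - Real.sqrt (4 * Real.pi * t)‖ ≤ Real.sqrt t := by
  have h4 : ((Real.sqrt (4 * Real.pi * t) : ℝ) : ℂ) = ∫ s : ℝ, ((Real.exp (-(s ^ 2 / t) / 4) : ℝ) : ℂ) := by
    rw [integral_complex_ofReal, gauss4 ht]
  rw [h4, ← integral_indicator measurableSet_Ioi, ← integral_sub]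
  · refine (norm_integral_le_of_norm_le ((gauss64_int ht).const_mul 0.06) ?_).trans ?_
    · refine Filter.Eventually.of_forall fun s => ?_
      by_cases hs : s ∈ Ioi (-v1)
      · rw [indicator_of_mem hs]
        exact point ht hS hΛ hθ g1 g2 (le_of_lt hs)
      · rw [indicator_of_notMem hs, zero_sub, norm_neg, Complex.norm_real,
          Real.norm_of_nonneg (Real.exp_pos _).le]
        have hs' : s ≤ -v1 := not_lt.1 hs
        have h5 : S ≤ |s| := by
          rw [abs_of_nonpos (by linarith)]; linarith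
        have h6 := small_mass ht hS hΛ h5
        have hX0 : 0 ≤ s ^ 2 / t := by positivity
        have h7 : Real.exp (-(s ^ 2 / t) / 4) ≤ Real.exp (-(s ^ 2 / t) / 16 + (s ^ 2 / t) / 200) := by
          apply Real.exp_le_exp.2; linarith
        have h8 := Real.exp_pos (-(s ^ 2 / t) / 64)
        linarith
    · rw [integral_const_mul]
      have := gauss64 ht
      have h9 := Real.sqrt_nonneg t
      nlinarith
  · rw [integrable_indicator_iff measurableSet_Ioi]
    exact Gint hG ht hθ g1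
  · exact (gauss4_int ht).ofReal

lemma J1_est (ht : 0 < t) (hθ : |θ| * Real.sqrt t ≤ 1 / 100)
    (g1 : ∀ s, -v1 ≤ s → ‖G s‖ ≤ Real.exp (-(s ^ 2 / t) / 16)) :
    ‖∫ s in Ioi (-v1), G s * s * cexp (θ * s)‖ ≤ 43 * t := by
  rw [← integral_indicator measurableSet_Ioi]
  refine (norm_integral_le_of_norm_le ((gauss64_int ht).const_mul (3 * Real.sqrt t)) ?_).trans ?_
  · refine Filter.Eventually.of_forall fun s => ?_
    by_cases hs : s ∈ Ioi (-v1)
    · rw [indicator_of_mem hs]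
      exact point1 ht hθ g1 (le_of_lt hs)
    · rw [indicator_of_notMem hs, norm_zero]
      positivity
  · rw [integral_const_mul]
    have h1 := gauss64 ht
    have h2 := Real.sqrt_nonneg t
    have h3 : Real.sqrt t * Real.sqrt t = t := Real.mul_self_sqrt ht.le
    nlinarith

lemma J1_int (hG : Continuous G) (ht : 0 < t) (hθ : |θ| * Real.sqrt t ≤ 1 / 100)
    (g1 : ∀ s, -v1 ≤ s → ‖G s‖ ≤ Real.exp (-(s ^ 2 / t) / 16)) :
    IntegrableOn (fun s : ℝ => G s * s * cexp (θ * s)) (Ioi (-v1)) := by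
  have hc : Continuous (fun s : ℝ => G s * s * cexp (θ * s)) := by fun_prop
  refine Integrable.mono' (((gauss64_int ht).const_mul (3 * Real.sqrt t)).integrableOn)
    hc.aestronglyMeasurable ?_
  exact (ae_restrict_iff' measurableSet_Ioi).2 (Filter.Eventually.of_forall fun s hs =>
    point1 ht hθ g1 (le_of_lt hs))

/-- The reflected integral is small. -/
lemma J2_est (ht : 0 < t) {y0 : ℝ} (hy : 0 ≤ y0) (hv : 0 < v1) (h5 : 10 * t ≤ y0 * v1)
    (h6 : 500 * t ≤ v1 ^ 2) {K : ℝ → ℂ}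
    (g1 : ∀ s, -v1 ≤ s → ‖K s‖ ≤ Real.exp (-(s ^ 2 / t) / 16) * Real.exp (-(y0 * (v1 + s) / t))) :
    ‖∫ s in Ioi (-v1), K s‖ ≤ 1 / 2 * Real.sqrt t := by
  rw [← integral_indicator measurableSet_Ioi]
  refine (norm_integral_le_of_norm_le ((gauss64_int ht).const_mul (1 / 30)) ?_).trans ?_
  · refine Filter.Eventually.of_forall fun s => ?_
    by_cases hs : s ∈ Ioi (-v1)
    · rw [indicator_of_mem hs]
      refine (g1 s (le_of_lt hs)).trans ?_
      have hs' : -v1 < s := hs
      have hX0 : 0 ≤ s ^ 2 / t := by positivity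
      have h5' : Real.exp (-5) ≤ 1 / 30 := by
        have h4 : Real.exp (-5) = Real.exp (-1) ^ 5 := by rw [← Real.exp_nat_mul]; norm_num
        rw [h4]
        calc Real.exp (-1) ^ 5 ≤ 0.368 ^ 5 := pow_le_pow_left₀ (Real.exp_pos _).le exp_neg_one_le 5
          _ ≤ 1 / 30 := by norm_num
      rw [← Real.exp_add]
      have key : -(s ^ 2 / t) / 16 + -(y0 * (v1 + s) / t) ≤ -5 + -(s ^ 2 / t) / 64 := by
        rcases le_or_gt (-v1 / 2) s with h | h
        · have h7 : 5 ≤ y0 * (v1 + s) / t := by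
            rw [le_div_iff₀ ht]
            nlinarith
          linarith
        · have h7 : 125 ≤ s ^ 2 / t := by
            rw [le_div_iff₀ ht]
            nlinarith
          have h8 : 0 ≤ y0 * (v1 + s) / t := by
            apply div_nonneg (mul_nonneg hy (by linarith)) ht.le
          linarith
      calc Real.exp (-(s ^ 2 / t) / 16 + -(y0 * (v1 + s) / t)) ≤ Real.exp (-5 + -(s ^ 2 / t) / 64) :=
            Real.exp_le_exp.2 key
        _ = Real.exp (-5) * Real.exp (-(s ^ 2 / t) / 64) := Real.exp_add _ _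
        _ ≤ _ := mul_le_mul_of_nonneg_right h5' (Real.exp_pos _).le
    · rw [indicator_of_notMem hs, norm_zero]
      positivity
  · rw [integral_const_mul]
    have h1 := gauss64 ht
    have h2 := Real.sqrt_nonneg t
    nlinarith

end

end Pool.Agent.Helper54.Hf
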