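import Pool.Agent.Helper54.Hf.G2

set_option autoImplicit false
set_option maxHeartbeats 1000000

open Complex MeasureTheory Set

namespace Pool.Agent.Helper54.Hf

/-- the local hypotheses -/
structure Loc (F : ℂ → ℂ) (t L ε V : ℝ) (w0 : ℂ) : Prop where
  dif : Differentiable ℂ F
  t0 : 0 < t
  t1 : t ≤ 1 / 2
  L0 : 0 < L
  e0 : 0 < ε
  e1 : ε ≤ 1 / 3200
  V0 : 0 < V
  y0 : 0 ≤ w0.re
  h16 : 16 * V ≤ w0.re + t * L
  H1 : ∀ p : ℂ, V ≤ p.re → |p.im - w0.im| ≤ t * L → F p ≠ 0 ∧
    ‖deriv F p / F p - L / 2‖ ≤ ε * (L + |p.re - w0.re|)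
  H2 : ∀ v x : ℝ, |v| ≤ V → |x - w0.im| ≤ t * L → ‖F ⟨v, x⟩‖ ≤ ‖F ⟨V, x⟩‖

section
variable {F : ℂ → ℂ} {t L ε V : ℝ} {w0 : ℂ}

lemma Loc.tL (h : Loc F t L ε V w0) : 0 < t * L := mul_pos h.t0 h.L0

lemma Loc.psi_diff (h : Loc F t L ε V w0) {p : ℂ} (h1 : V ≤ p.re) (h2 : |p.im - w0.im| ≤ t * L) :
    DifferentiableAt ℂ (fun p => deriv F p / F p) p := by
  have h3 : DifferentiableAt ℂ (deriv F) p := by
    have := (h.dif.analyticAt p).deriv
    exact this.differentiableAt
  exact h3.div (h.dif p) (h.H1 p h1 h2).1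

lemma Loc.deriv_bound (h : Loc F t L ε V w0) {p : ℂ} (h1 : V + t * L / 8 ≤ p.re)
    (h2 : |p.im - w0.im| + t * L / 8 ≤ t * L) {D : ℝ} (h3 : |p.re - w0.re| + t * L / 8 ≤ D) :
    ‖deriv (fun p => deriv F p / F p) p‖ ≤ ε * (L + D) / (t * L / 8) := by
  have hρ : 0 < t * L / 8 := by have := h.tL; positivity
  have hin : ∀ z ∈ Metric.closedBall p (t * L / 8), V ≤ z.re ∧ |z.im - w0.im| ≤ t * L ∧
      |z.re - w0.re| ≤ D := by
    intro z hz
    rw [Metric.mem_closedBall, dist_eq_norm] at hz
    have hre : |z.re - p.re| ≤ t * L / 8 := by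
      have := Complex.abs_re_le_norm (z - p)
      rw [sub_re] at this; linarith
    have him : |z.im - p.im| ≤ t * L / 8 := by
      have := Complex.abs_im_le_norm (z - p)
      rw [sub_im] at this; linarith
    rw [abs_le] at hre him
    refine ⟨by linarith, ?_, ?_⟩
    · have : z.im - w0.im = (z.im - p.im) + (p.im - w0.im) := by ring
      rw [this]
      refine (abs_add_le _ _).trans ?_
      have h4 : |z.im - p.im| ≤ t * L / 8 := abs_le.2 him
      linarith
    · have : z.re - w0.re = (z.re - p.re) + (p.re - w0.re) := by ring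
      rw [this]
      refine (abs_add_le _ _).trans ?_
      have h4 : |z.re - p.re| ≤ t * L / 8 := abs_le.2 hre
      linarith
  have hd : DiffContOnCl ℂ (fun p => deriv F p / F p - (L : ℂ) / 2) (Metric.ball p (t * L / 8)) := by
    apply DifferentiableOn.diffContOnCl
    rw [closure_ball _ hρ.ne']
    intro z hz
    have h5 := hin z hz
    exact ((h.psi_diff h5.1 h5.2.1).sub_const _).differentiableWithinAt
  have h6 := Complex.norm_deriv_le_of_forall_mem_sphere_norm_le hρ hd (C := ε * (L + D)) (by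
    intro z hz
    have h5 := hin z (Metric.sphere_subset_closedBall hz)
    refine (h.H1 z h5.1 h5.2.1).2.trans ?_
    exact mul_le_mul_of_nonneg_left (by linarith [h5.2.2]) h.e0.le)
  have h7 : deriv (fun p => deriv F p / F p - (L : ℂ) / 2) p = deriv (fun p => deriv F p / F p) p := by
    rw [deriv_sub_const]
  rw [h7] at h6
  exact h6

/-- existence of the saddle point -/
lemma Loc.saddle (h : Loc F t L ε V w0) : ∃ p1 : ℂ, ‖p1 - (w0 + (t * L : ℝ))‖ ≤ t * L / 100 ∧
    p1 - w0 = 2 * t * (deriv F p1 / F p1) := by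
  have htL := h.tL
  set c : ℂ := w0 + (t * L : ℝ) with hc
  have hcre : c.re = w0.re + t * L := by simp [hc]
  have hcim : c.im = w0.im := by simp [hc]
  have hin : ∀ z ∈ Metric.closedBall c (t * L / 100), V + t * L / 8 ≤ z.re ∧
      |z.im - w0.im| ≤ t * L / 100 ∧ |z.re - w0.re| ≤ 1.01 * (t * L) := by
    intro z hz
    rw [Metric.mem_closedBall, dist_eq_norm] at hz
    have hre : |z.re - c.re| ≤ t * L / 100 := by
      have := Complex.abs_re_le_norm (z - c)
      rw [sub_re] at this; linarith
    have him : |z.im - c.im| ≤ t * L / 100 := by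
      have := Complex.abs_im_le_norm (z - c)
      rw [sub_im] at this; linarith
    rw [hcre] at hre
    rw [hcim] at him
    have hre' := abs_le.1 hre
    have h16 := h.h16
    have hy0 := h.y0
    refine ⟨by linarith, him, ?_⟩
    rw [abs_le]; constructor <;> linarith
  have hps : ∀ z ∈ Metric.closedBall c (t * L / 100), DifferentiableAt ℂ (fun p => w0 + 2 * t * (deriv F p / F p)) z := by
    intro z hz
    have h5 := hin z hz
    have := h.psi_diff (p := z) (by linarith) (by linarith)
    exact (this.const_mul (2 * (t : ℂ))).const_add w0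
  have ht1 := h.t1
  have ht0 := h.t0
  have hL0 := h.L0
  have he1 := h.e1
  have he0 := h.e0
  have htL2 : t * L ≤ L / 2 := by nlinarith
  have hmaps : MapsTo (fun p => w0 + 2 * t * (deriv F p / F p)) (Metric.closedBall c (t * L / 100))
      (Metric.closedBall c (t * L / 100)) := by
    intro z hz
    have h5 := hin z hz
    rw [Metric.mem_closedBall, dist_eq_norm]
    have e : w0 + 2 * t * (deriv F z / F z) - c = 2 * t * (deriv F z / F z - L / 2) := by
      rw [hc]; push_cast; ring
    rw [e, norm_mul]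
    have h6 := (h.H1 z (by linarith) (by linarith)).2
    have h7 : ‖(2 : ℂ) * t‖ = 2 * t := by
      rw [norm_mul, Complex.norm_real, Real.norm_of_nonneg ht0.le]; norm_num
    rw [h7]
    calc 2 * t * ‖deriv F z / F z - L / 2‖ ≤ 2 * t * (ε * (L + |z.re - w0.re|)) :=
          mul_le_mul_of_nonneg_left h6 (by positivity)
      _ ≤ 2 * t * (1 / 3200 * (L + 1.01 * (L / 2))) := by
          apply mul_le_mul_of_nonneg_left _ (by positivity)
          apply mul_le_mul he1 _ (by positivity) (by norm_num)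
          have := h5.2.2
          linarith
      _ ≤ t * L / 100 := by nlinarith
  have hder : ∀ z ∈ Metric.closedBall c (t * L / 100),
      ‖deriv (fun p => w0 + 2 * t * (deriv F p / F p)) z‖₊ ≤ 1 / 2 := by
    intro z hz
    have h5 := hin z hz
    have e : deriv (fun p => w0 + 2 * t * (deriv F p / F p)) z =
        2 * t * deriv (fun p => deriv F p / F p) z := by
      rw [deriv_const_add, deriv_const_mul]
      exact h.psi_diff (p := z) (by linarith) (by linarith)
    have h6 := h.deriv_bound (p := z) (D := 1.01 * (L / 2) + L / 16) h5.1 (by linarith) (by linarith [h5.2.2])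
    rw [← NNReal.coe_le_coe, coe_nnnorm, e, norm_mul]
    have h7 : ‖(2 : ℂ) * t‖ = 2 * t := by
      rw [norm_mul, Complex.norm_real, Real.norm_of_nonneg ht0.le]; norm_num
    rw [h7]
    push_cast
    calc 2 * t * ‖deriv (fun p => deriv F p / F p) z‖
        ≤ 2 * t * (ε * (L + (1.01 * (L / 2) + L / 16)) / (t * L / 8)) :=
          mul_le_mul_of_nonneg_left h6 (by positivity)
      _ = ε * (16 * (1 + 1.01 / 2 + 1 / 16)) := by field_simp; ring
      _ ≤ 1 / 3200 * (16 * (1 + 1.01 / 2 + 1 / 16)) := by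
          apply mul_le_mul_of_nonneg_right he1 (by norm_num)
      _ ≤ 1 / 2 := by norm_num
  have hlip : LipschitzOnWith (1 / 2) (fun p => w0 + 2 * t * (deriv F p / F p))
      (Metric.closedBall c (t * L / 100)) :=
    (convex_closedBall c _).lipschitzOnWith_of_nnnorm_deriv_le hps hder
  have hcon : ContractingWith (1 / 2) (hmaps.restrict _ _ _) := by
    refine ⟨?_, hlip.mapsToRestrict hmaps⟩
    rw [← NNReal.coe_lt_coe]; push_cast; norm_num
  obtain ⟨p1, hp1, hfix, -⟩ := ContractingWith.exists_fixedPoint' (x := c)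
    (Metric.isClosed_closedBall.isComplete) hmaps hcon
    (Metric.mem_closedBall_self (by positivity)) (edist_ne_top _ _)
  refine ⟨p1, ?_, ?_⟩
  · rw [Metric.mem_closedBall, dist_eq_norm] at hp1
    exact hp1
  · have h8 : w0 + 2 * t * (deriv F p1 / F p1) = p1 := hfix
    linear_combination -h8

end

end Pool.Agent.Helper54.Hf
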