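import Pool.Agent.Helper54.Hf.G3

set_option autoImplicit false
set_option maxHeartbeats 1000000

open Complex MeasureTheory Set

namespace Pool.Agent.Helper54.Hf

section
variable {F : ℂ → ℂ} {t L ε V : ℝ} {w0 : ℂ}

/-- the geometric facts about the saddle point -/
lemma Loc.geo (h : Loc F t L ε V w0) {p1 : ℂ} (hp : ‖p1 - (w0 + (t * L : ℝ))‖ ≤ t * L / 100) :
    |p1.re - (w0.re + t * L)| ≤ t * L / 100 ∧ |p1.im - w0.im| ≤ t * L / 100 ∧ 15 * V ≤ p1.re ∧
      99 / 100 * (w0.re + t * L) ≤ p1.re := by
  have hre : |p1.re - (w0.re + t * L)| ≤ t * L / 100 := by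
    have := Complex.abs_re_le_norm (p1 - (w0 + (t * L : ℝ)))
    simp only [sub_re, add_re, ofReal_re] at this
    linarith
  have him : |p1.im - w0.im| ≤ t * L / 100 := by
    have := Complex.abs_im_le_norm (p1 - (w0 + (t * L : ℝ)))
    simp only [sub_im, add_im, ofReal_im, add_zero] at this
    linarith
  have h1 := abs_le.1 hre
  have := h.tL
  have := h.h16
  have := h.y0
  have := h.V0
  exact ⟨hre, him, by linarith, by linarith⟩

/-- variation of the logarithmic derivative along the horizontal line -/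
lemma Loc.var (h : Loc F t L ε V w0) {p1 : ℂ} (hp : ‖p1 - (w0 + (t * L : ℝ))‖ ≤ t * L / 100)
    {s : ℝ} (hs : -(p1.re - V) ≤ s) :
    ‖deriv F (p1 + s) / F (p1 + s) - deriv F p1 / F p1‖ ≤ 16 * ε / t * |s| := by
  obtain ⟨g1, g2, g3, g4⟩ := h.geo hp
  have htL := h.tL
  have ht0 := h.t0
  have ht1 := h.t1
  have hL0 := h.L0
  have he0 := h.e0
  have hy0 := h.y0
  have hV0 := h.V0
  have h16 := h.h16
  have htL2 : t * L ≤ L / 2 := by nlinarith
  have g1' := abs_le.1 g1
  rcases le_or_gt |s| (t * L / 4) with hc | hc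
  · have key := (convex_closedBall p1 (t * L / 4)).norm_image_sub_le_of_norm_deriv_le
      (f := fun p => deriv F p / F p) (C := 16 * ε / t) (x := p1) (y := p1 + s) ?_ ?_
      (Metric.mem_closedBall_self (by positivity)) ?_
    · refine key.trans (le_of_eq ?_)
      rw [add_sub_cancel_left, Complex.norm_real, Real.norm_eq_abs]
    · intro z hz
      rw [Metric.mem_closedBall, dist_eq_norm] at hz
      have hre : |z.re - p1.re| ≤ t * L / 4 := by
        have := Complex.abs_re_le_norm (z - p1)
        rw [sub_re] at this; linarith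
      have him : |z.im - p1.im| ≤ t * L / 4 := by
        have := Complex.abs_im_le_norm (z - p1)
        rw [sub_im] at this; linarith
      apply h.psi_diff
      · have := abs_le.1 hre; linarith
      · have e : z.im - w0.im = (z.im - p1.im) + (p1.im - w0.im) := by ring
        rw [e]; refine (abs_add_le _ _).trans ?_; linarith
    · intro z hz
      rw [Metric.mem_closedBall, dist_eq_norm] at hz
      have hre : |z.re - p1.re| ≤ t * L / 4 := by
        have := Complex.abs_re_le_norm (z - p1)
        rw [sub_re] at this; linarith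
      have him : |z.im - p1.im| ≤ t * L / 4 := by
        have := Complex.abs_im_le_norm (z - p1)
        rw [sub_im] at this; linarith
      have hre' := abs_le.1 hre
      have h5 := h.deriv_bound (p := z) (D := 1.4 * (L / 2)) (by linarith) (by
        have e : z.im - w0.im = (z.im - p1.im) + (p1.im - w0.im) := by ring
        rw [e]
        have := abs_add_le (z.im - p1.im) (p1.im - w0.im)
        linarith) (by
        have e : z.re - w0.re = (z.re - p1.re) + ((p1.re - (w0.re + t * L)) + t * L) := by ring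
        rw [e]
        have a1 := abs_add_le (z.re - p1.re) ((p1.re - (w0.re + t * L)) + t * L)
        have a2 := abs_add_le (p1.re - (w0.re + t * L)) (t * L)
        rw [abs_of_pos htL] at a2
        linarith)
      refine h5.trans ?_
      have e : ε * (L + 1.4 * (L / 2)) / (t * L / 8) = 13.6 * ε / t := by field_simp; ring
      rw [e]
      apply div_le_div_of_nonneg_right _ ht0.le
      nlinarith
    · rw [Metric.mem_closedBall, dist_eq_norm, add_sub_cancel_left, Complex.norm_real, Real.norm_eq_abs]
      exact hc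
  · have h1 := (h.H1 (p1 + s) (by simp; linarith) (by
      simp only [add_im, ofReal_im, add_zero]; linarith)).2
    have h2 := (h.H1 p1 (by linarith) (by linarith)).2
    have b1 : |(p1 + (s : ℂ)).re - w0.re| ≤ |s| + 1.01 * (t * L) := by
      simp only [add_re, ofReal_re]
      have e : p1.re + s - w0.re = s + ((p1.re - (w0.re + t * L)) + t * L) := by ring
      rw [e]
      have a1 := abs_add_le s ((p1.re - (w0.re + t * L)) + t * L)
      have a2 := abs_add_le (p1.re - (w0.re + t * L)) (t * L)
      rw [abs_of_pos htL] at a2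
      linarith
    have b2 : |p1.re - w0.re| ≤ 1.01 * (t * L) := by
      have e : p1.re - w0.re = ((p1.re - (w0.re + t * L)) + t * L) := by ring
      rw [e]
      have a2 := abs_add_le (p1.re - (w0.re + t * L)) (t * L)
      rw [abs_of_pos htL] at a2
      linarith
    have e : deriv F (p1 + s) / F (p1 + s) - deriv F p1 / F p1 =
        (deriv F (p1 + s) / F (p1 + s) - L / 2) - (deriv F p1 / F p1 - L / 2) := by ring
    rw [e]
    have h3 : L ≤ 4 * |s| / t := by rw [le_div_iff₀ ht0]; nlinarith
    have h4 : |s| ≤ |s| / t / 2 := by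
      rw [div_div, le_div_iff₀ (by positivity)]
      nlinarith [abs_nonneg s]
    calc _ ≤ ‖deriv F (p1 + s) / F (p1 + s) - L / 2‖ + ‖deriv F p1 / F p1 - L / 2‖ := norm_sub_le _ _
      _ ≤ ε * (L + |(p1 + (s : ℂ)).re - w0.re|) + ε * (L + |p1.re - w0.re|) := add_le_add h1 h2
      _ ≤ ε * (L + (|s| + 1.01 * (L / 2))) + ε * (L + 1.01 * (L / 2)) := by
          apply add_le_add <;> apply mul_le_mul_of_nonneg_left _ he0.le <;> linarith
      _ = ε * (3.01 * L + |s|) := by ring
      _ ≤ ε * (3.01 * (4 * |s| / t) + |s| / t / 2) := by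
          apply mul_le_mul_of_nonneg_left _ he0.le; linarith
      _ = 12.54 * (ε / t * |s|) := by ring
      _ ≤ 16 * (ε / t * |s|) := by
          apply mul_le_mul_of_nonneg_right (by norm_num) (by positivity)
      _ = _ := by ring

/-- the expansion around the saddle point -/
lemma Loc.expand (h : Loc F t L ε V w0) {p1 : ℂ} (hp : ‖p1 - (w0 + (t * L : ℝ))‖ ≤ t * L / 100)
    {s : ℝ} (hs : -(p1.re - V) ≤ s) :
    ∃ P : ℂ, ‖P‖ ≤ 8 * ε * (s ^ 2 / t) ∧ F (p1 + s) = F p1 * cexp (deriv F p1 / F p1 * s + P) := by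
  obtain ⟨g1, g2, g3, g4⟩ := h.geo hp
  have hV0 := h.V0
  have ht0 := h.t0
  have he0 := h.e0
  have htL := h.tL
  set a : ℝ := p1.re - V with ha
  have ha0 : 0 ≤ a := by rw [ha]; linarith
  set ψ1 := deriv F p1 / F p1 with hψ1
  set δ : ℝ → ℂ := fun σ => deriv F (p1 + (max σ (-a) : ℝ)) / F (p1 + (max σ (-a) : ℝ)) - ψ1 with hδ
  have hreg : ∀ σ : ℝ, V ≤ (p1 + ((max σ (-a) : ℝ) : ℂ)).re ∧ |(p1 + ((max σ (-a) : ℝ) : ℂ)).im - w0.im| ≤ t * L := by
    intro σ
    have := le_max_right σ (-a)
    simp only [add_re, ofReal_re, add_im, ofReal_im, add_zero]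
    exact ⟨by rw [ha] at this; linarith, by linarith⟩
  have hδc : Continuous δ := by
    rw [continuous_iff_continuousAt]
    intro σ
    have h1 : ContinuousAt (fun p => deriv F p / F p) (p1 + ((max σ (-a) : ℝ) : ℂ)) :=
      (h.psi_diff (hreg σ).1 (hreg σ).2).continuousAt
    have h2 : ContinuousAt (fun σ : ℝ => p1 + ((max σ (-a) : ℝ) : ℂ)) σ := by
      have : Continuous (fun σ : ℝ => p1 + ((max σ (-a) : ℝ) : ℂ)) := by fun_prop
      exact this.continuousAt
    exact (ContinuousAt.comp (f := fun σ : ℝ => p1 + ((max σ (-a) : ℝ) : ℂ)) h1 h2).sub continuousAt_const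
  set P : ℝ → ℂ := fun x => ∫ σ in (0 : ℝ)..x, δ σ with hP
  have hPd : ∀ x, HasDerivAt P (δ x) x := fun x =>
    intervalIntegral.integral_hasDerivAt_right (hδc.intervalIntegrable _ _)
      hδc.aestronglyMeasurable.stronglyMeasurableAtFilter hδc.continuousAt
  set g : ℝ → ℂ := fun x => F (p1 + x) * cexp (-(ψ1 * x + P x)) with hg
  have hgd : ∀ x : ℝ, -a ≤ x → HasDerivAt g 0 x := by
    intro x hx
    have hmx : max x (-a) = x := max_eq_left hx
    have hF0 : F (p1 + x) ≠ 0 := by
      have := (h.H1 _ (hreg x).1 (hreg x).2).1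
      rwa [hmx] at this
    have d1 : HasDerivAt (fun x : ℝ => F (p1 + x)) (deriv F (p1 + x)) x := by
      have h1 : HasDerivAt F (deriv F (p1 + x)) (p1 + x) := (h.dif _).hasDerivAt
      have h2 : HasDerivAt (fun x : ℝ => p1 + (x : ℂ)) 1 x := by
        have := (Complex.ofRealCLM.hasDerivAt (x := x)).const_add p1
        simpa using this
      have := HasDerivAt.comp x h1 h2
      rw [mul_one] at this
      exact this
    have d2 : HasDerivAt (fun x : ℝ => cexp (-(ψ1 * x + P x)))
        (cexp (-(ψ1 * x + P x)) * (-(ψ1 + δ x))) x := by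
      have h2 : HasDerivAt (fun x : ℝ => ψ1 * (x : ℂ) + P x) (ψ1 + δ x) x := by
        have h3 : HasDerivAt (fun x : ℝ => ψ1 * (x : ℂ)) ψ1 x := by
          simpa using ((Complex.ofRealCLM.hasDerivAt (x := x)).const_mul ψ1)
        exact h3.add (hPd x)
      exact h2.neg.cexp
    have d3 := d1.mul d2
    have e : deriv F (p1 + x) * cexp (-(ψ1 * x + P x)) +
        F (p1 + x) * (cexp (-(ψ1 * x + P x)) * (-(ψ1 + δ x))) = 0 := by
      have h5 : ψ1 + δ x = deriv F (p1 + x) / F (p1 + x) := by
        simp only [hδ, hmx]; ring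
      rw [h5]
      field_simp
      ring
    rw [e] at d3
    exact d3
  have hconst : g s = g 0 := by
    rcases le_total 0 s with h0 | h0
    · exact constant_of_has_deriv_right_zero (f := g) (a := 0) (b := s)
        (fun x hx => (hgd x (by linarith [hx.1])).continuousAt.continuousWithinAt)
        (fun x hx => (hgd x (by linarith [hx.1])).hasDerivWithinAt) s ⟨h0, le_rfl⟩
    · exact (constant_of_has_deriv_right_zero (f := g) (a := s) (b := 0)
        (fun x hx => (hgd x (by linarith [hx.1])).continuousAt.continuousWithinAt)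
        (fun x hx => (hgd x (by linarith [hx.1])).hasDerivWithinAt) 0 ⟨h0, le_rfl⟩).symm
  have hg0 : g 0 = F p1 := by simp [hg, hP]
  refine ⟨P s, ?_, ?_⟩
  · have hb : ∀ σ ∈ Set.uIcc 0 s, ‖δ σ‖ ≤ 16 * ε / t * |σ| := by
      intro σ hσ
      have hσa : -a ≤ σ := by
        rcases le_total 0 s with h0 | h0
        · rw [uIcc_of_le h0] at hσ; linarith [hσ.1]
        · rw [uIcc_of_ge h0] at hσ; linarith [hσ.1]
      have hmx : max σ (-a) = σ := max_eq_left hσa
      simp only [hδ, hmx]
      exact h.var hp hσa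
    have h2 : ∫ σ in (0:ℝ)..|s|, 16 * ε / t * σ = 8 * ε * (s ^ 2 / t) := by
      rw [intervalIntegral.integral_const_mul, integral_id, sq_abs]
      field_simp; ring
    rcases le_total 0 s with h0 | h0
    · have e1 : P s = ∫ σ in (0:ℝ)..|s|, δ σ := by
        simp only [hP]
        rw [abs_of_nonneg h0]
      rw [e1, ← h2]
      refine intervalIntegral.norm_integral_le_of_norm_le (abs_nonneg s) ?_ ?_
      · refine Filter.Eventually.of_forall fun σ hσ => ?_
        rw [abs_of_nonneg h0] at hσ
        have := hb σ (by rw [uIcc_of_le h0]; exact ⟨hσ.1.le, hσ.2⟩)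
        rwa [abs_of_pos hσ.1] at this
      · exact Continuous.intervalIntegrable (by fun_prop) _ _
    · have e1 : P s = -∫ σ in (0:ℝ)..|s|, δ (-σ) := by
        simp only [hP]
        rw [intervalIntegral.integral_comp_neg, abs_of_nonpos h0, neg_neg, neg_zero,
          intervalIntegral.integral_symm]
      rw [e1, norm_neg, ← h2]
      refine intervalIntegral.norm_integral_le_of_norm_le (abs_nonneg s) ?_ ?_
      · refine Filter.Eventually.of_forall fun σ hσ => ?_
        rw [abs_of_nonpos h0] at hσ
        have := hb (-σ) (by rw [uIcc_of_ge h0]; exact ⟨by linarith [hσ.2], by linarith [hσ.1]⟩)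
        rwa [abs_neg, abs_of_pos hσ.1] at this
      · exact Continuous.intervalIntegrable (by fun_prop) _ _
  · have e2 : F (p1 + s) = g s * cexp (ψ1 * s + P s) := by
      simp only [hg]
      rw [mul_assoc, ← Complex.exp_add]; simp
    rw [e2, hconst, hg0]

end

end Pool.Agent.Helper54.Hf
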