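import Pool.Agent.Helper54.Hf.A3
import Pool.Graph.R_seed8.H370R2.Local

set_option autoImplicit false
set_option maxHeartbeats 1000000

/-!
The number of zeros in a window (Jensen).
-/

open Complex MeasureTheory Set Filter Topology

namespace Pool.Agent.Helper54.Hf

/-- the conditions in a window at the scale `V` -/
structure Good (F : ℂ → ℂ) (L ε V R x0 : ℝ) : Prop where
  H1 : ∀ p : ℂ, V ≤ p.re → |p.im - x0| ≤ R → F p ≠ 0 ∧ ‖deriv F p / F p - L / 2‖ ≤ ε * (L + p.re)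
  H2 : ∀ v x : ℝ, |v| ≤ V → |x - x0| ≤ R → ‖F ⟨v, x⟩‖ ≤ ‖F ⟨V, x⟩‖

lemma Good.loc {F : ℂ → ℂ} {t L ε V R x0 : ℝ} (h : Good F L ε V R x0) (hF : Differentiable ℂ F)
    (t0 : 0 < t) (t1 : t ≤ 1 / 2) (L0 : 0 < L) (e0 : 0 < ε) (e1 : ε ≤ 1 / 6400) (V0 : 0 < V)
    {w0 : ℂ} (y0 : 0 ≤ w0.re) (y1 : w0.re ≤ L) (h16 : 16 * V ≤ w0.re + t * L)
    (hR : |w0.im - x0| + t * L ≤ R) : Loc F t L (2 * ε) V w0 where
  dif := hF
  t0 := t0
  t1 := t1
  L0 := L0
  e0 := by linarith
  e1 := by linarith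
  V0 := V0
  y0 := y0
  h16 := h16
  H1 := by
    intro p hp hi
    have h1 : |p.im - x0| ≤ R := by
      have e : p.im - x0 = (p.im - w0.im) + (w0.im - x0) := by ring
      rw [e]; exact (abs_add_le _ _).trans (by linarith)
    obtain ⟨h2, h3⟩ := h.H1 p hp h1
    refine ⟨h2, h3.trans ?_⟩
    have h4 : p.re ≤ |p.re - w0.re| + L := by
      have := le_abs_self (p.re - w0.re); linarith
    have h5 := abs_nonneg (p.re - w0.re)
    nlinarith
  H2 := by
    intro v x hv hi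
    have h1 : |x - x0| ≤ R := by
      have e : x - x0 = (x - w0.im) + (w0.im - x0) := by ring
      rw [e]; exact (abs_add_le _ _).trans (by linarith)
    exact h.H2 v x hv h1

/-- growth along a segment -/
lemma seg {F : ℂ → ℂ} (hF : Differentiable ℂ F) {p q : ℂ} {D : ℝ}
    (h : ∀ s ∈ Icc (0 : ℝ) 1, ‖deriv F (p + s * (q - p))‖ ≤ D * ‖F (p + s * (q - p))‖) :
    ‖F q‖ ≤ ‖F p‖ * Real.exp (D * ‖q - p‖) := by
  set g : ℝ → ℂ := fun s => F (p + s * (q - p)) with hg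
  have hd : ∀ s : ℝ, HasDerivAt g (deriv F (p + s * (q - p)) * (q - p)) s := by
    intro s
    have h1 : HasDerivAt (fun s : ℝ => p + (s : ℂ) * (q - p)) (q - p) s := by
      have h2 : HasDerivAt (fun s : ℝ => (s : ℂ)) 1 s := HasDerivAt.ofReal_comp (hasDerivAt_id s)
      have := (h2.mul_const (q - p)).const_add p
      simpa using this
    exact HasDerivAt.comp s (hF _).hasDerivAt h1
  have key := norm_le_gronwallBound_of_norm_deriv_right_le (f := g)
    (f' := fun s => deriv F (p + s * (q - p)) * (q - p)) (δ := ‖F p‖) (K := D * ‖q - p‖) (ε := 0)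
    (a := 0) (b := 1) (fun s _ => (hd s).continuousAt.continuousWithinAt)
    (fun s _ => (hd s).hasDerivWithinAt) (by simp [hg]) (by
      intro s hs
      rw [norm_mul, add_zero]
      have := h s ⟨hs.1, hs.2.le⟩
      have h2 := norm_nonneg (q - p)
      calc _ ≤ (D * ‖F (p + s * (q - p))‖) * ‖q - p‖ := mul_le_mul_of_nonneg_right this h2
        _ = _ := by simp only [hg]; ring) 1 ⟨zero_le_one, le_rfl⟩
  rw [gronwallBound_ε0] at key
  simpa [hg] using key

/-- upper bound of `F` in the window -/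
lemma Good.upper {F : ℂ → ℂ} {L ε V R x0 U : ℝ} (h : Good F L ε V R x0) (hF : Differentiable ℂ F)
    (hs : Sym F) (L0 : 0 < L) (e0 : 0 < ε) (e1 : ε ≤ 1 / 6400) (V0 : 0 < V) (hVU : V ≤ U) (hUL : U ≤ L)
    (hR : 8 * U ≤ R) {p1 : ℂ} (h1 : V ≤ p1.re) (h2 : p1.re ≤ 3 * U) (h3 : |p1.im - x0| ≤ U)
    {v x : ℝ} (hx : |x - x0| ≤ 4 * U) :
    ‖F ⟨v, x⟩‖ ≤ ‖F p1‖ * Real.exp (8 * U * L + (L * |v| + ε * v ^ 2)) := by
  have U0 : 0 < U := by linarith
  -- wlog v ≥ 0
  have habs : ‖F ⟨v, x⟩‖ = ‖F ⟨|v|, x⟩‖ := by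
    rcases le_total 0 v with hv | hv
    · rw [abs_of_nonneg hv]
    · rw [abs_of_nonpos hv]
      have e : (⟨v, x⟩ : ℂ) = -(starRingEnd ℂ ⟨-v, x⟩) := by apply Complex.ext <;> simp
      rw [e, hs.even, hs.real, RCLike.norm_conj]
  rw [habs]
  -- the corner
  have hcorner : ‖F ⟨V, x⟩‖ ≤ ‖F p1‖ * Real.exp (8 * U * L) := by
    refine (seg hF (p := p1) (q := ⟨V, x⟩) (D := L) ?_).trans ?_
    · intro s hs'
      have u1 : (p1 + s * (⟨V, x⟩ - p1)).re = p1.re + s * (V - p1.re) := by simp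
      have e2 : (p1 + s * (⟨V, x⟩ - p1)).im = p1.im + s * (x - p1.im) := by simp
      have b1 : V ≤ (p1 + s * (⟨V, x⟩ - p1)).re := by
        rw [u1]; nlinarith [hs'.1, hs'.2]
      have b2 : (p1 + s * (⟨V, x⟩ - p1)).re ≤ 3 * U := by
        rw [u1]; nlinarith [hs'.1, hs'.2]
      have b3 : |(p1 + s * (⟨V, x⟩ - p1)).im - x0| ≤ R := by
        rw [e2]
        rw [abs_le] at hx h3 ⊢
        obtain ⟨x1, x2⟩ := hx
        obtain ⟨x3, x4⟩ := h3
        obtain ⟨s1, s2⟩ := hs'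
        have e : p1.im + s * (x - p1.im) - x0 = (1 - s) * (p1.im - x0) + s * (x - x0) := by ring
        rw [e]
        constructor <;> nlinarith
      obtain ⟨g1, g2⟩ := h.H1 _ b1 b3
      have g3 : ‖deriv F (p1 + s * (⟨V, x⟩ - p1)) / F (p1 + s * (⟨V, x⟩ - p1))‖ ≤ L := by
        have g4 := norm_sub_norm_le (deriv F (p1 + s * (⟨V, x⟩ - p1)) / F (p1 + s * (⟨V, x⟩ - p1))) ((L : ℂ) / 2)
        have g5 : ‖(L : ℂ) / 2‖ = L / 2 := by
          rw [norm_div, Complex.norm_real, Real.norm_of_nonneg L0.le]; norm_num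
        rw [g5] at g4
        have g6 : ε * (L + (p1 + s * (⟨V, x⟩ - p1)).re) ≤ 1 / 6400 * (L + 3 * L) := by
          apply mul_le_mul e1 _ _ (by norm_num)
          · linarith
          · linarith
        linarith
      rw [norm_div, div_le_iff₀ (norm_pos_iff.2 g1)] at g3
      exact g3
    · apply mul_le_mul_of_nonneg_left _ (norm_nonneg _)
      apply Real.exp_le_exp.2
      have g1 : ‖(⟨V, x⟩ : ℂ) - p1‖ ≤ 3 * U + 5 * U := by
        refine (Complex.norm_le_abs_re_add_abs_im _).trans (add_le_add ?_ ?_)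
        · simp only [sub_re]; rw [abs_le]; constructor <;> linarith
        · simp only [sub_im]
          have e : x - p1.im = (x - x0) - (p1.im - x0) := by ring
          rw [e]; exact (abs_sub _ _).trans (by linarith)
      nlinarith
  rcases le_or_gt |v| V with hv | hv
  · have := h.H2 |v| x (by rwa [abs_abs]) (by linarith)
    refine this.trans (hcorner.trans ?_)
    apply mul_le_mul_of_nonneg_left _ (norm_nonneg _)
    apply Real.exp_le_exp.2
    have := abs_nonneg v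
    have : 0 ≤ L * |v| + ε * v ^ 2 := by positivity
    linarith
  · refine (seg hF (p := ⟨V, x⟩) (q := ⟨|v|, x⟩) (D := L + ε * |v|) ?_).trans ?_
    · intro s hs'
      have u1 : ((⟨V, x⟩ : ℂ) + s * (⟨|v|, x⟩ - ⟨V, x⟩)).re = V + s * (|v| - V) := by simp
      have e2 : ((⟨V, x⟩ : ℂ) + s * (⟨|v|, x⟩ - ⟨V, x⟩)).im = x := by simp
      have b1 : V ≤ ((⟨V, x⟩ : ℂ) + s * (⟨|v|, x⟩ - ⟨V, x⟩)).re := by
        rw [u1]; nlinarith [hs'.1, hs'.2]
      have b2 : ((⟨V, x⟩ : ℂ) + s * (⟨|v|, x⟩ - ⟨V, x⟩)).re ≤ |v| := by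
        rw [u1]; nlinarith [hs'.1, hs'.2]
      obtain ⟨g1, g2⟩ := h.H1 _ b1 (by rw [e2]; linarith)
      set q := (⟨V, x⟩ : ℂ) + s * (⟨|v|, x⟩ - ⟨V, x⟩) with hq
      have g3 : ‖deriv F q / F q‖ ≤ L + ε * |v| := by
        have g4 := norm_sub_norm_le (deriv F q / F q) ((L : ℂ) / 2)
        have g5 : ‖(L : ℂ) / 2‖ = L / 2 := by
          rw [norm_div, Complex.norm_real, Real.norm_of_nonneg L0.le]; norm_num
        rw [g5] at g4
        have g6 : ε * (L + q.re) ≤ 1 / 6400 * L + ε * |v| := by nlinarith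
        linarith
      rw [norm_div, div_le_iff₀ (norm_pos_iff.2 g1)] at g3
      exact g3
    · have g1 : ‖(⟨|v|, x⟩ : ℂ) - ⟨V, x⟩‖ ≤ |v| := by
        have e : (⟨|v|, x⟩ : ℂ) - ⟨V, x⟩ = ((|v| - V : ℝ) : ℂ) := by apply Complex.ext <;> simp
        rw [e, Complex.norm_real, Real.norm_eq_abs, abs_le]; constructor <;> linarith
      calc ‖F ⟨V, x⟩‖ * Real.exp ((L + ε * |v|) * ‖(⟨|v|, x⟩ : ℂ) - ⟨V, x⟩‖)
          ≤ (‖F p1‖ * Real.exp (8 * U * L)) * Real.exp (L * |v| + ε * v ^ 2) := by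
            apply mul_le_mul hcorner _ (Real.exp_pos _).le (by positivity)
            apply Real.exp_le_exp.2
            calc (L + ε * |v|) * ‖(⟨|v|, x⟩ : ℂ) - ⟨V, x⟩‖ ≤ (L + ε * |v|) * |v| :=
                  mul_le_mul_of_nonneg_left g1 (by positivity)
              _ = L * |v| + ε * |v| ^ 2 := by ring
              _ = _ := by rw [sq_abs]
        _ = _ := by rw [mul_assoc, ← Real.exp_add]

/-- upper bound of the heat transform -/
lemma Good.Hupper {F H : ℂ → ℂ} {t L ε V R x0 U : ℝ} (h : Good F L ε V R x0) (hF : Differentiable ℂ F)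
    (hs : Sym F) (hh : IsHeat F H t) (t0 : 0 < t) (t1 : t ≤ 1 / 2)
    (L0 : 0 < L) (e0 : 0 < ε) (e1 : ε ≤ 1 / 6400) (V0 : 0 < V) (hVU : V ≤ U) (hUL : U ≤ L)
    (hR : 8 * U ≤ R) (htU : t * L ≤ U) {p1 : ℂ} (h1 : V ≤ p1.re) (h2 : p1.re ≤ 3 * U) (h3 : |p1.im - x0| ≤ U)
    {w : ℂ} (hw1 : |w.re| ≤ 4 * U) (hw2 : |w.im - x0| ≤ 4 * U) :
    ‖H w‖ ≤ 2 * ‖F p1‖ * Real.exp (17 * U * L) := by
  have U0 : 0 < U := by linarith
  have hpt : ∀ r : ℝ, ‖F (w + r) * cexp (-(r : ℂ) ^ 2 / (4 * t))‖ ≤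
      ‖F p1‖ * Real.exp (17 * U * L) * Real.exp (-r ^ 2 / (16 * t)) := by
    intro r
    rw [norm_mul]
    have u1 : w + (r : ℂ) = ⟨w.re + r, w.im⟩ := by apply Complex.ext <;> simp
    have b1 := h.upper hF hs L0 e0 e1 V0 hVU hUL hR h1 h2 h3 (v := w.re + r) (x := w.im) hw2
    have e2 : ‖cexp (-(r : ℂ) ^ 2 / (4 * t))‖ = Real.exp (-r ^ 2 / (4 * t)) := by
      rw [norm_exp_sq t0]; simp
    rw [u1, e2]
    calc ‖F ⟨w.re + r, w.im⟩‖ * Real.exp (-r ^ 2 / (4 * t))
        ≤ (‖F p1‖ * Real.exp (8 * U * L + (L * |w.re + r| + ε * (w.re + r) ^ 2))) *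
          Real.exp (-r ^ 2 / (4 * t)) := mul_le_mul_of_nonneg_right b1 (Real.exp_pos _).le
      _ = ‖F p1‖ * Real.exp (8 * U * L + (L * |w.re + r| + ε * (w.re + r) ^ 2) + -r ^ 2 / (4 * t)) := by
          rw [Real.exp_add _ (-r ^ 2 / (4 * t))]; ring
      _ ≤ ‖F p1‖ * Real.exp (17 * U * L + -r ^ 2 / (16 * t)) := by
          apply mul_le_mul_of_nonneg_left _ (norm_nonneg _)
          apply Real.exp_le_exp.2
          have a1 : |w.re + r| ≤ 4 * U + |r| := (abs_add_le _ _).trans (by linarith)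
          have a2 : (w.re + r) ^ 2 ≤ 2 * (4 * U) ^ 2 + 2 * r ^ 2 := by
            have : w.re ^ 2 ≤ (4 * U) ^ 2 := by
              rw [← sq_abs w.re]; exact pow_le_pow_left₀ (abs_nonneg _) hw1 2
            nlinarith [sq_nonneg (w.re - r)]
          have a3 : L * |r| ≤ r ^ 2 / (16 * t) + 4 * t * L ^ 2 := by
            have : 0 ≤ (|r| / (4 * Real.sqrt t) - 2 * Real.sqrt t * L) ^ 2 := sq_nonneg _
            have hst : 0 < Real.sqrt t := Real.sqrt_pos.2 t0
            have e : (|r| / (4 * Real.sqrt t) - 2 * Real.sqrt t * L) ^ 2 =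
                r ^ 2 / (16 * t) + 4 * t * L ^ 2 - L * |r| := by
              have h4 : Real.sqrt t ^ 2 = t := Real.sq_sqrt t0.le
              have h5 : (|r| / (4 * Real.sqrt t) - 2 * Real.sqrt t * L) ^ 2 =
                |r| ^ 2 / (16 * Real.sqrt t ^ 2) + 4 * Real.sqrt t ^ 2 * L ^ 2 - L * |r| := by
                field_simp; ring
              rw [h5, h4, sq_abs]
            linarith
          have a4 : ε * (w.re + r) ^ 2 ≤ 1 / 6400 * (2 * (4 * U) ^ 2 + 2 * r ^ 2) :=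
            mul_le_mul e1 a2 (sq_nonneg _) (by norm_num)
          have a5 : U ^ 2 ≤ U * L := by nlinarith
          have a6 : r ^ 2 / 2 ≤ r ^ 2 / (4 * t) := by
            apply div_le_div_of_nonneg_left (sq_nonneg _) (by positivity) (by linarith)
          have a7 : t * L ^ 2 ≤ U * L := by nlinarith
          have a8 : L * |w.re + r| ≤ L * (4 * U + |r|) := mul_le_mul_of_nonneg_left a1 L0.le
          have a9 : r ^ 2 / (16 * t) = 1 / 4 * (r ^ 2 / (4 * t)) := by field_simp; norm_num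
          have a10 : -r ^ 2 / (4 * t) = -(r ^ 2 / (4 * t)) := by ring
          have a11 : -r ^ 2 / (16 * t) = -(1 / 4 * (r ^ 2 / (4 * t))) := by rw [← a9]; ring
          rw [a9] at a3
          rw [a10, a11]
          nlinarith [sq_nonneg r]
      _ = _ := by rw [Real.exp_add]; ring
  have h4 := hh w
  have hsq : 0 < Real.sqrt (4 * Real.pi * t) := by positivity
  have h5 : ‖(Real.sqrt (4 * Real.pi * t) : ℂ) * H w‖ ≤
      ‖F p1‖ * Real.exp (17 * U * L) * Real.sqrt (Real.pi * (16 * t)) := by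
    rw [h4]
    refine (norm_integral_le_of_norm_le ((gauss_int t t0 16 (by norm_num)).const_mul _)
      (Eventually.of_forall hpt)).trans (le_of_eq ?_)
    rw [integral_const_mul, gauss_sum t t0 16 (by norm_num)]
  rw [norm_mul, Complex.norm_real, Real.norm_of_nonneg hsq.le] at h5
  have h6 : Real.sqrt (Real.pi * (16 * t)) = 2 * Real.sqrt (4 * Real.pi * t) := by
    rw [show Real.pi * (16 * t) = 2 ^ 2 * (4 * Real.pi * t) by ring, Real.sqrt_mul (by norm_num),
      Real.sqrt_sq (by norm_num)]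
  rw [h6] at h5
  have h7 : Real.sqrt (4 * Real.pi * t) * ‖H w‖ ≤ Real.sqrt (4 * Real.pi * t) *
      (2 * ‖F p1‖ * Real.exp (17 * U * L)) := by linarith
  exact le_of_mul_le_mul_left h7 hsq

lemma mult_div (f : ℂ → ℂ) (hf : Differentiable ℂ f) {c : ℂ} (hc : c ≠ 0) (z : ℂ) :
    H370.mult (fun z => c⁻¹ * f z) z = H370.mult f z := by
  unfold H370.mult analyticOrderNatAt
  have h1 : AnalyticAt ℂ (fun _ : ℂ => c⁻¹) z := analyticAt_const
  have h2 : AnalyticAt ℂ f z := hf.analyticAt z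
  have h3 := analyticOrderAt_mul h1 h2
  have h4 : analyticOrderAt (fun _ : ℂ => c⁻¹) z = 0 := h1.analyticOrderAt_eq_zero.2 (inv_ne_zero hc)
  have h5 : (fun z => c⁻¹ * f z) = (fun _ : ℂ => c⁻¹) * f := rfl
  rw [h5, h3, h4, zero_add]

/-- **Zeros in a window.** -/
theorem Good.count {F H : ℂ → ℂ} {t L ε V R x0 U : ℝ} (h : Good F L ε V R x0) (hF : Differentiable ℂ F)
    (hs : Sym F) (hg : Gr F) (hH : Differentiable ℂ H) (hh : IsHeat F H t) (t0 : 0 < t) (t1 : t ≤ 1 / 2)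
    (L0 : 0 < L) (e0 : 0 < ε) (e1 : ε ≤ 1 / 6400) (V0 : 0 < V) (hVU : 16 * V ≤ U) (hUL : U ≤ L)
    (hR : 8 * U ≤ R) (htU : t * L ≤ U) (h520 : 520 * t ≤ U ^ 2) (hUL2 : 2 ≤ U * L) (S : Finset ℂ)
    (hS : ∀ w ∈ S, |w.re| ≤ U ∧ |w.im - x0| ≤ U) :
    ∑ w ∈ S, (H370.mult H w : ℝ) ≤ 80 * U * L := by
  have U0 : 0 < U := by linarith
  set w1 : ℂ := ⟨U, x0⟩ with hw1
  have hloc := h.loc hF t0 t1 L0 e0 e1 V0 (w0 := w1) (by simp [hw1]; linarith) (by simp [hw1]; linarith)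
    (by simp only [hw1]; have := mul_pos t0 L0; linarith) (by simp [hw1]; linarith)
  have htL := mul_pos t0 L0
  obtain ⟨p1, hp, hp2, hlow⟩ := hloc.lower hs hg hH hh (by simp only [hw1]; nlinarith)
    (by simp only [hw1]; nlinarith)
  obtain ⟨q1, q2, q3, q4⟩ := hloc.geo hp
  have hF1 : F p1 ≠ 0 := (hloc.H1 p1 (by linarith) (by linarith)).1
  have hw1re : w1.re = U := rfl
  have hw1im : w1.im = x0 := rfl
  rw [hw1re] at q1 q4
  rw [hw1im] at q2
  have q1' := abs_le.1 q1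
  -- lower bound
  have hMM : ‖F p1‖ * Real.exp (-(U * L)) ≤ ‖MM F t w1 p1‖ := by
    unfold MM
    rw [norm_mul, norm_exp_sq t0]
    apply mul_le_mul_of_nonneg_left _ (norm_nonneg _)
    apply Real.exp_le_exp.2
    simp only [sub_re, sub_im, hw1re, hw1im]
    have a1 : (p1.re - U) ^ 2 ≤ (1.01 * (t * L)) ^ 2 := by
      apply pow_le_pow_left₀ (by linarith); linarith
    have a2 : (p1.re - U) ^ 2 / (4 * t) ≤ U * L := by
      rw [div_le_iff₀ (by positivity)]
      nlinarith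
    have a3 : 0 ≤ (p1.im - x0) ^ 2 / (4 * t) := by positivity
    have a4 : -(p1.re - U) ^ 2 / (4 * t) = -((p1.re - U) ^ 2 / (4 * t)) := by ring
    rw [a4]; linarith
  have hFp : 0 < ‖F p1‖ := norm_pos_iff.2 hF1
  have hH1 : 0 < ‖H w1‖ := by
    have := Real.exp_pos (-(U * L))
    have : 0 < ‖F p1‖ * Real.exp (-(U * L)) := by positivity
    linarith
  have hH0 : H w1 ≠ 0 := norm_pos_iff.1 hH1
  set M : ℝ := Real.exp (19 * U * L) with hM
  have hM1 : 1 ≤ M := Real.one_le_exp (by positivity)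
  have hexp4 : 4 ≤ Real.exp (U * L) := by
    have h1 : Real.exp 1 ^ 2 = Real.exp 2 := by rw [← Real.exp_nat_mul]; norm_num
    have h2 := Real.exp_one_gt_d9
    have h3 : Real.exp 2 ≤ Real.exp (U * L) := Real.exp_le_exp.2 hUL2
    nlinarith
  have hbound : ∀ z ∈ Metric.closedBall w1 (3 * U), ‖(H w1)⁻¹ * H z‖ ≤ M := by
    intro z hz
    rw [Metric.mem_closedBall, dist_eq_norm] at hz
    have hre : |z.re - w1.re| ≤ 3 * U := by
      have := Complex.abs_re_le_norm (z - w1)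
      rw [sub_re] at this; linarith
    have him : |z.im - w1.im| ≤ 3 * U := by
      have := Complex.abs_im_le_norm (z - w1)
      rw [sub_im] at this; linarith
    rw [hw1re] at hre
    rw [hw1im] at him
    have b1 := h.Hupper hF hs hh t0 t1 L0 e0 e1 V0 (by linarith) hUL hR htU (p1 := p1) (by linarith)
      (by linarith) (by linarith) (w := z) (by
        rw [abs_le] at hre ⊢; constructor <;> linarith) (by linarith)
    rw [norm_mul, norm_inv, inv_mul_le_iff₀ hH1]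
    have b2 : ‖F p1‖ * Real.exp (-(U * L)) ≤ 2 * ‖H w1‖ := by linarith
    have b3 : ‖F p1‖ ≤ 2 * ‖H w1‖ * Real.exp (U * L) := by
      have : ‖F p1‖ = ‖F p1‖ * Real.exp (-(U * L)) * Real.exp (U * L) := by
        rw [mul_assoc, ← Real.exp_add]; simp
      rw [this]
      exact mul_le_mul_of_nonneg_right b2 (Real.exp_pos _).le
    calc ‖H z‖ ≤ 2 * ‖F p1‖ * Real.exp (17 * U * L) := b1
      _ ≤ 2 * (2 * ‖H w1‖ * Real.exp (U * L)) * Real.exp (17 * U * L) := by
          apply mul_le_mul_of_nonneg_right _ (Real.exp_pos _).le; linarith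
      _ = ‖H w1‖ * (4 * (Real.exp (U * L) * Real.exp (17 * U * L))) := by ring
      _ ≤ ‖H w1‖ * (Real.exp (U * L) * (Real.exp (U * L) * Real.exp (17 * U * L))) := by
          apply mul_le_mul_of_nonneg_left _ hH1.le
          exact mul_le_mul_of_nonneg_right hexp4 (by positivity)
      _ = ‖H w1‖ * M := by
          rw [hM, ← Real.exp_add, ← Real.exp_add]; congr 2; ring
  have hj := H370.Loc.jensen_mult (f := fun z => (H w1)⁻¹ * H z) (c := w1) (r := 2.25 * U) (R := 3 * U)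
    (M := M) (by positivity) (by linarith) hM1
    (fun z _ => ((hH.const_mul _).analyticAt z)) (mul_ne_zero (inv_ne_zero hH0) hH0) hbound S (by
      intro z hz
      obtain ⟨z1, z2⟩ := hS z hz
      rw [Metric.mem_closedBall, dist_eq_norm]
      have e : ‖z - w1‖ ^ 2 = (z.re - U) ^ 2 + (z.im - x0) ^ 2 := by
        rw [← Complex.normSq_eq_norm_sq, Complex.normSq_apply]
        simp only [sub_re, sub_im, hw1re, hw1im]; ring
      have h3 : ‖z - w1‖ ^ 2 ≤ (2.25 * U) ^ 2 := by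
        rw [e]
        have a1 : (z.re - U) ^ 2 ≤ (2 * U) ^ 2 := by
          apply sq_le_sq'
          · have := (abs_le.1 z1).1; linarith
          · have := (abs_le.1 z1).2; linarith
        have a2 : (z.im - x0) ^ 2 ≤ U ^ 2 := by
          rw [← sq_abs (z.im - x0)]; exact pow_le_pow_left₀ (abs_nonneg _) z2 2
        nlinarith
      exact (pow_le_pow_iff_left₀ (norm_nonneg _) (by positivity) two_ne_zero).1 h3)
  simp only [mult_div H hH hH0] at hj
  refine hj.trans ?_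
  have u1 : ‖(H w1)⁻¹ * H w1‖ = 1 := by rw [inv_mul_cancel₀ hH0, norm_one]
  rw [u1, div_one, hM, Real.log_exp]
  have e2 : 3 * U / (2.25 * U) = 4 / 3 := by field_simp; norm_num
  rw [e2]
  have h8 : 19 / 80 ≤ Real.log (4 / 3) := by
    have := Real.one_sub_inv_le_log_of_pos (show (0:ℝ) < 4 / 3 by norm_num)
    norm_num at this
    linarith
  rw [div_le_iff₀ (by linarith)]
  have : 0 < U * L := by positivity
  nlinarith

end Pool.Agent.Helper54.Hf
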