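import Pool.Graph.R_seed8.Helper242.KK.Kernel
import Pool.Graph.R_seed8.Helper242.KK.Heat
import Pool.Agent.Helper54.Hf.A2
import Pool.Agent.Helper54.Xm.XiG

set_option autoImplicit false
set_option maxHeartbeats 1000000

/-!
The heat flow of the xi function as a Gaussian average.
-/

open Complex MeasureTheory Set Filter Topology

namespace Pool.Agent.Helper54.Hf

open Pool.Agent.Helper242.KK (FT Ph)
open Pool.Agent.Helper54.Xm

/-- Gaussian bound for the kernel -/
def GB (w : ℝ → ℝ) (A : ℝ) : Prop := ∀ t, |w t| ≤ A * Real.exp (-5 * t ^ 2)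

lemma GB.A0 {w : ℝ → ℝ} {A : ℝ} (hb : GB w A) : 0 ≤ A := by
  have h1 := (abs_nonneg _).trans (hb 0)
  exact nonneg_of_mul_nonneg_left h1 (Real.exp_pos _)

lemma GB.bd {w : ℝ → ℝ} {A : ℝ} (hb : GB w A) (M t : ℝ) :
    |w t| * Real.exp (M * |t|) ≤ A * Real.exp (M ^ 2 / 16) * Real.exp (-1 * t ^ 2) := by
  have hA := hb.A0
  calc |w t| * Real.exp (M * |t|) ≤ A * Real.exp (-5 * t ^ 2) * Real.exp (M * |t|) := by
        gcongr
        exact hb t
    _ = A * Real.exp (-5 * t ^ 2 + M * |t|) := by rw [mul_assoc, ← Real.exp_add]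
    _ ≤ A * Real.exp (M ^ 2 / 16 + -1 * t ^ 2) := by
        refine mul_le_mul_of_nonneg_left (Real.exp_le_exp.2 ?_) hA
        have h4 : t ^ 2 = |t| ^ 2 := (sq_abs t).symm
        rw [h4]
        nlinarith [sq_nonneg (M / 4 - 2 * |t|)]
    _ = _ := by rw [Real.exp_add]; ring

lemma GB.int (A M : ℝ) : Integrable (fun t : ℝ => A * Real.exp (M ^ 2 / 16) * Real.exp (-1 * t ^ 2)) :=
  (integrable_exp_neg_mul_sq one_pos).const_mul _

lemma ft_norm_le (w : ℝ → ℝ) (z : ℂ) (t : ℝ) :
    ‖((w t : ℝ) : ℂ) * cexp (I * z * t)‖ ≤ |w t| * Real.exp (|z.im| * |t|) := by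
  rw [norm_mul, Complex.norm_real, Real.norm_eq_abs, Complex.norm_exp]
  refine mul_le_mul_of_nonneg_left (Real.exp_le_exp.2 ?_) (abs_nonneg _)
  have : (I * z * t).re = - (z.im * t) := by simp
  rw [this, ← abs_mul]
  exact neg_le_abs _

lemma GB.ft_int {w : ℝ → ℝ} {A : ℝ} (hw : Continuous w) (hb : GB w A) (z : ℂ) :
    Integrable (fun t : ℝ => ((w t : ℝ) : ℂ) * cexp (I * z * t)) := by
  refine Integrable.mono' (GB.int A |z.im|)
    ((by fun_prop : Continuous (fun t : ℝ => ((w t : ℝ) : ℂ) * cexp (I * z * t))).aestronglyMeasurable) ?_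
  exact Eventually.of_forall fun t => (ft_norm_le w z t).trans (hb.bd _ t)

lemma GB.ft_growth {w : ℝ → ℝ} {A : ℝ} (hb : GB w A) (z : ℂ) :
    ‖FT w z‖ ≤ A * Real.exp (z.im ^ 2 / 16) * Real.sqrt Real.pi := by
  unfold FT
  have h := norm_integral_le_of_norm_le (GB.int A |z.im|)
    (Eventually.of_forall fun t => (ft_norm_le w z t).trans (hb.bd |z.im| t))
  refine h.trans (le_of_eq ?_)
  rw [integral_const_mul, integral_gaussian, sq_abs, div_one]

lemma GB.ft_diff {w : ℝ → ℝ} {A : ℝ} (hw : Continuous w) (hb : GB w A) :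
    Differentiable ℂ (FT w) := by
  intro z0
  have h := hasDerivAt_integral_of_dominated_loc_of_deriv_le (μ := volume) (𝕜 := ℂ)
    (F := fun (z : ℂ) (t : ℝ) => ((w t : ℝ) : ℂ) * cexp (I * z * t))
    (F' := fun (z : ℂ) (t : ℝ) => ((w t : ℝ) : ℂ) * (cexp (I * z * t) * (I * t)))
    (x₀ := z0) (s := Metric.ball z0 1)
    (bound := fun t => A * Real.exp ((|z0.im| + 2) ^ 2 / 16) * Real.exp (-1 * t ^ 2))
    (Metric.ball_mem_nhds z0 one_pos)
    (Eventually.of_forall fun z =>
      (by fun_prop : Continuous (fun t : ℝ => ((w t : ℝ) : ℂ) * cexp (I * z * t))).aestronglyMeasurable)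
    (GB.ft_int hw hb z0)
    (by
      have : Continuous (fun t : ℝ => ((w t : ℝ) : ℂ) * (cexp (I * z0 * t) * (I * t))) := by fun_prop
      exact this.aestronglyMeasurable)
    (Eventually.of_forall fun t z hz => ?_) (GB.int A _)
    (Eventually.of_forall fun t z hz => ?_)
  · exact h.2.differentiableAt
  · have e : ((w t : ℝ) : ℂ) * (cexp (I * z * t) * (I * t)) =
        (((w t : ℝ) : ℂ) * cexp (I * z * t)) * (I * t) := by ring
    rw [e, norm_mul]
    have h1 : ‖I * (t : ℂ)‖ ≤ Real.exp |t| := by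
      rw [norm_mul, norm_I, one_mul, Complex.norm_real, Real.norm_eq_abs]
      linarith [Real.add_one_le_exp |t|]
    have h2 : |z.im| ≤ |z0.im| + 1 := by
      have h3 : |(z - z0).im| < 1 := lt_of_le_of_lt (Complex.abs_im_le_norm _) (by
        rw [Metric.mem_ball, dist_eq_norm] at hz; exact hz)
      rw [Complex.sub_im] at h3
      have h4 : z.im = z0.im + (z.im - z0.im) := by ring
      rw [h4]
      exact (abs_add_le _ _).trans (by linarith)
    calc ‖((w t : ℝ) : ℂ) * cexp (I * z * t)‖ * ‖I * (t : ℂ)‖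
        ≤ (|w t| * Real.exp (|z.im| * |t|)) * Real.exp |t| := by
          gcongr
          exact ft_norm_le w z t
      _ ≤ (|w t| * Real.exp ((|z0.im| + 1) * |t|)) * Real.exp |t| := by gcongr
      _ = |w t| * Real.exp ((|z0.im| + 2) * |t|) := by
          rw [mul_assoc, ← Real.exp_add]; congr 2; ring
      _ ≤ _ := hb.bd _ t
  · refine HasDerivAt.const_mul _ ?_
    have h1 : HasDerivAt (fun z : ℂ => I * z * t) (I * t) z := by
      have := ((hasDerivAt_id z).const_mul I).mul_const (t : ℂ)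
      simpa using this
    exact h1.cexp

/-- the heat identity -/
theorem GB.ft_heat {w : ℝ → ℝ} {A μ : ℝ} (hμ : 0 < μ) (hw : Continuous w) (hb : GB w A) (z : ℂ) :
    (Real.sqrt (4 * Real.pi * μ) : ℂ) * FT w z =
      ∫ r : ℝ, (Real.exp (-r ^ 2 / (4 * μ)) : ℂ) *
        FT (fun t => w t * Real.exp (-μ * t ^ 2)) (z - r * I) := by
  set φ : ℝ → ℂ := fun t => ((w t : ℝ) : ℂ) * cexp (I * z * t) with hφ
  have hφc : Continuous φ := by simp only [hφ]; fun_prop
  have hφi : Integrable φ := GB.ft_int hw hb z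
  have hb0 : 0 < 1 / (4 * μ) := by positivity
  let g : ℝ → ℝ := fun s => Real.exp (-(1 / (4 * μ)) * s ^ 2)
  have hgc : Continuous g := by simp only [g]; fun_prop
  have hg0 : ∀ s, 0 ≤ g s := fun s => (Real.exp_pos _).le
  have hgi : Integrable g := integrable_exp_neg_mul_sq hb0
  have hgint : ∫ s, g s = Real.sqrt (4 * Real.pi * μ) := by
    simp only [g]
    rw [integral_gaussian]
    congr 1
    field_simp
  have key : ∀ r t : ℝ, (Real.exp (-r ^ 2 / (4 * μ)) : ℂ) *
      (((w t * Real.exp (-μ * t ^ 2) : ℝ) : ℂ) * cexp (I * (z - r * I) * t))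
      = ((g (r - 2 * μ * t) : ℝ) : ℂ) * φ t := by
    intro r t
    simp only [hφ, g]
    push_cast
    have hμ' : (μ : ℂ) ≠ 0 := by exact_mod_cast hμ.ne'
    have e1 : cexp (-(r : ℂ) ^ 2 / (4 * μ)) * (w t * cexp (-μ * (t : ℂ) ^ 2) *
        cexp (I * (z - r * I) * t)) = w t * cexp (-(r : ℂ) ^ 2 / (4 * μ) + -μ * (t : ℂ) ^ 2 +
          I * (z - r * I) * t) := by
      rw [Complex.exp_add, Complex.exp_add]; ring
    have e2 : cexp (-(1 / (4 * (μ : ℂ))) * (r - 2 * μ * t) ^ 2) * (w t * cexp (I * z * t))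
        = w t * cexp (-(1 / (4 * (μ : ℂ))) * (r - 2 * μ * t) ^ 2 + I * z * t) := by
      rw [Complex.exp_add]; ring
    rw [e1, e2]
    congr 2
    field_simp
    linear_combination (-4 * μ * r * t) * Complex.I_sq
  have hFi : Integrable (Function.uncurry (fun r t : ℝ => ((g (r - 2 * μ * t) : ℝ) : ℂ) * φ t))
      (volume.prod volume) := by
    have hcont : Continuous (Function.uncurry (fun r t : ℝ => ((g (r - 2 * μ * t) : ℝ) : ℂ) * φ t)) := by
      unfold Function.uncurry
      fun_prop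
    rw [integrable_prod_iff' hcont.aestronglyMeasurable]
    constructor
    · refine Eventually.of_forall fun t => ?_
      simp only [Function.uncurry]
      exact ((hgi.comp_sub_right (2 * μ * t)).ofReal).mul_const _
    · simp only [Function.uncurry]
      have h1 : ∀ t : ℝ, ∫ r : ℝ, ‖((g (r - 2 * μ * t) : ℝ) : ℂ) * φ t‖
          = Real.sqrt (4 * Real.pi * μ) * ‖φ t‖ := by
        intro t
        have h2 : ∀ r : ℝ, ‖((g (r - 2 * μ * t) : ℝ) : ℂ) * φ t‖ = g (r - 2 * μ * t) * ‖φ t‖ := by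
          intro r
          rw [norm_mul, Complex.norm_real, Real.norm_of_nonneg (hg0 _)]
        simp only [h2]
        rw [integral_mul_const, integral_sub_right_eq_self g, hgint]
      simp only [h1]
      exact hφi.norm.const_mul _
  have hR : ∀ r : ℝ, (Real.exp (-r ^ 2 / (4 * μ)) : ℂ) *
        FT (fun t => w t * Real.exp (-μ * t ^ 2)) (z - r * I)
        = ∫ t : ℝ, ((g (r - 2 * μ * t) : ℝ) : ℂ) * φ t := by
    intro r
    unfold FT
    rw [← integral_const_mul]
    exact integral_congr_ae (Eventually.of_forall fun t => key r t)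
  simp only [hR]
  rw [integral_integral_swap hFi]
  have hI : ∀ t : ℝ, ∫ r : ℝ, ((g (r - 2 * μ * t) : ℝ) : ℂ) * φ t
      = (Real.sqrt (4 * Real.pi * μ) : ℂ) * φ t := by
    intro t
    rw [integral_mul_const]
    congr 1
    have h3 : ∫ r : ℝ, g (r - 2 * μ * t) = Real.sqrt (4 * Real.pi * μ) := by
      rw [integral_sub_right_eq_self g, hgint]
    rw [← h3]
    exact integral_complex_ofReal
  simp only [hI]
  rw [integral_const_mul]
  rfl

/-- the deformed kernel -/
noncomputable def wt (t : ℝ) (u : ℝ) : ℝ := Ph u * Real.exp (t * u ^ 2)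

lemma wt_cont (t : ℝ) : Continuous (wt t) := by
  unfold wt
  have := Pool.Agent.Helper242.KK.continuous_Ph
  fun_prop

lemma wt_gb {t : ℝ} (ht1 : t ≤ 1 / 2) : ∃ A, GB (wt t) A := by
  obtain ⟨A, hA, hb⟩ := Pool.Agent.Helper242.KK.Ph_upper
  refine ⟨A, fun u => ?_⟩
  unfold wt
  rw [abs_mul, abs_of_pos (Real.exp_pos (t * u ^ 2))]
  calc |Ph u| * Real.exp (t * u ^ 2)
      ≤ A * Real.exp (5 * |u| - Real.pi * Real.exp (2 * |u|)) * Real.exp (t * u ^ 2) := by
        gcongr
        exact hb u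
    _ = A * Real.exp (5 * |u| - Real.pi * Real.exp (2 * |u|) + t * u ^ 2) := by
        rw [mul_assoc, ← Real.exp_add]
    _ ≤ A * Real.exp (-5 * u ^ 2) := by
        gcongr
        have h1 := Real.quadratic_le_exp_of_nonneg (x := 2 * |u|) (by positivity)
        have h2 := Real.pi_gt_three
        have h3 : 3 * (1 + 2 * |u| + (2 * |u|) ^ 2 / 2) ≤ Real.pi * Real.exp (2 * |u|) := by
          have h4 : 0 ≤ 1 + 2 * |u| + (2 * |u|) ^ 2 / 2 := by positivity
          exact mul_le_mul h2.le h1 h4 (by positivity)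
        have h5 : u ^ 2 = |u| ^ 2 := (sq_abs u).symm
        have h6 : 0 ≤ |u| := abs_nonneg u
        rw [h5]
        nlinarith [sq_nonneg |u|]

/-- the heat flow in the `w` frame -/
noncomputable def Hx (t : ℝ) (w : ℂ) : ℂ := 8 * FT (wt t) (-(I * w))

lemma Hx_diff {t : ℝ} (ht1 : t ≤ 1 / 2) : Differentiable ℂ (Hx t) := by
  obtain ⟨A, hA⟩ := wt_gb ht1
  have h := GB.ft_diff (wt_cont t) hA
  unfold Hx
  have h2 : Differentiable ℂ (fun w : ℂ => -(I * w)) := by fun_prop
  exact (h.comp h2).const_mul 8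

lemma wt_zero : wt 0 = Ph := by
  funext u
  unfold wt
  rw [zero_mul, Real.exp_zero, mul_one]

lemma fx_eq_ft (w : ℂ) : fx w = Hx 0 w := by
  have h1 : Continuous fx := fx_diff.continuous
  have h2 : Continuous (Hx 0) := (Hx_diff (by norm_num)).continuous
  have h3 : Set.EqOn fx (Hx 0) ({1 / 2, -(1 / 2)}ᶜ : Set ℂ) := by
    intro w hw
    simp only [Set.mem_compl_iff, Set.mem_insert_iff, Set.mem_singleton_iff, not_or] at hw
    have e0 : (1 / 2 + w : ℂ) = 1 / 2 + I * (-(I * w)) := by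
      linear_combination (w) * I_mul_I
    have h0 : (1 / 2 + w : ℂ) ≠ 0 := fun h => hw.2 (by linear_combination h)
    have h1 : (1 / 2 + w : ℂ) ≠ 1 := fun h => hw.1 (by linear_combination h)
    have := Pool.Agent.Helper242.KK.FT_Ph (1 / 2 + w) (-(I * w)) e0 h0 h1
    rw [Hx, wt_zero, this, fx_eq_completed hw.1 hw.2]
    ring
  have hd : Dense ({1 / 2, -(1 / 2)}ᶜ : Set ℂ) := by
    apply Set.Countable.dense_compl ℝ
    exact (Set.toFinite _).countable
  exact congrFun (Continuous.ext_on hd h1 h2 h3) w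

lemma fx_gr : Gr fx := by
  obtain ⟨A, hA⟩ := wt_gb (t := 0) (by norm_num)
  have hA0 := hA.A0
  refine ⟨8 * A * Real.sqrt Real.pi + 1, by positivity, fun w => ?_⟩
  rw [fx_eq_ft, Hx, norm_mul]
  have h := hA.ft_growth (-(I * w))
  have e : (-(I * w)).im = -w.re := by simp
  rw [e, neg_sq] at h
  have h8 : ‖(8 : ℂ)‖ = 8 := by norm_num
  rw [h8]
  have := Real.exp_pos (w.re ^ 2 / 16)
  nlinarith

lemma fx_sym : Sym fx := ⟨fx_even, fx_conj⟩

/-- the heat flow is a Gaussian average -/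
theorem Hx_heat {t : ℝ} (ht : 0 < t) (ht1 : t ≤ 1 / 2) : IsHeat fx (Hx t) t := by
  intro w
  obtain ⟨A, hA⟩ := wt_gb ht1
  have h := GB.ft_heat ht (wt_cont t) hA (-(I * w))
  have e1 : (fun u => wt t u * Real.exp (-t * u ^ 2)) = Ph := by
    funext u
    unfold wt
    rw [mul_assoc, ← Real.exp_add]
    rw [show t * u ^ 2 + -t * u ^ 2 = 0 by ring, Real.exp_zero, mul_one]
  rw [e1] at h
  rw [Hx, mul_left_comm, h, ← integral_const_mul]
  refine integral_congr_ae (Eventually.of_forall fun r => ?_)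
  simp only []
  rw [fx_eq_ft, Hx, wt_zero]
  have e2 : -(I * w) - r * I = -(I * (w + r)) := by ring
  rw [e2]
  push_cast
  ring

end Pool.Agent.Helper54.Hf
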