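import Pool.Agent.Helper54.Hf.R1
import Pool.Graph.R_seed8.H370R2.DirGood

set_option autoImplicit false
set_option maxHeartbeats 1000000

/-!
Symmetries of the heat flow.
-/

open Complex MeasureTheory Set Filter Topology

namespace Pool.Agent.Helper54.Hf

open Pool.Agent.Helper242.KK (FT Ph)
open Pool.Agent.Helper54.Xm

lemma wt_even (t u : ℝ) : wt t (-u) = wt t u := by
  unfold wt
  rw [Pool.Agent.Helper242.KK.Ph_even, neg_sq]

lemma ft_conj (w : ℝ → ℝ) (z : ℂ) : starRingEnd ℂ (FT w z) = FT w (-(starRingEnd ℂ z)) := by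
  unfold FT
  rw [← integral_conj]
  refine integral_congr_ae (Eventually.of_forall fun u => ?_)
  simp only [map_mul, ← Complex.exp_conj, conj_ofReal, conj_I]
  congr 2
  ring

lemma Hx_even (t : ℝ) (w : ℂ) : Hx t (-w) = Hx t w := by
  unfold Hx
  rw [← Pool.Agent.Helper242.KK.FT_neg (wt_even t) (-(I * w))]
  congr 2
  ring

lemma Hx_conj (t : ℝ) (w : ℂ) : Hx t (starRingEnd ℂ w) = starRingEnd ℂ (Hx t w) := by
  unfold Hx
  rw [map_mul, ft_conj]
  have h8 : starRingEnd ℂ (8 : ℂ) = 8 := Complex.conj_ofNat 8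
  rw [h8]
  congr 2
  rw [map_neg, map_mul, conj_I]
  ring

lemma Hx_refl (t : ℝ) (w : ℂ) : Hx t (-(starRingEnd ℂ w)) = starRingEnd ℂ (Hx t w) := by
  rw [Hx_even, Hx_conj]

lemma order_shift {f : ℂ → ℂ} (hf : Differentiable ℂ f) (a c : ℂ) (hc : c ≠ 0) (z : ℂ) :
    analyticOrderAt (fun z => f (c * z + a)) z = analyticOrderAt f (c * z + a) := by
  have hd : HasDerivAt (fun z : ℂ => c * z + a) c z := by
    simpa using ((hasDerivAt_id z).const_mul c).add_const a
  exact analyticOrderAt_comp_of_deriv_ne_zero (f := f) (g := fun z : ℂ => c * z + a) (z₀ := z)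
    (by fun_prop) (by rw [hd.deriv]; exact hc)

lemma order_sym {f : ℂ → ℂ} (hf : Differentiable ℂ f)
    (hs : ∀ w, f (-(starRingEnd ℂ w)) = starRingEnd ℂ (f w)) (w : ℂ) :
    analyticOrderAt f (-(starRingEnd ℂ w)) = analyticOrderAt f w := by
  set g : ℂ → ℂ := fun z => f (1 * z + (-(1 / 2))) with hg
  have hgd : Differentiable ℂ g := by
    have h2 : Differentiable ℂ (fun z : ℂ => 1 * z + (-(1 / 2))) := by fun_prop
    exact hf.comp h2
  have hr : H370.DL.refl g = g := by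
    funext s
    simp only [H370.DL.refl, hg]
    have e : (1 : ℂ) * (1 - starRingEnd ℂ s) + -(1 / 2) = -(starRingEnd ℂ (1 * s + -(1 / 2))) := by
      have h2 : starRingEnd ℂ (1 / 2 : ℂ) = 1 / 2 := by
        rw [map_div₀, map_one, Complex.conj_ofNat]
      rw [map_add, map_mul, map_one, map_neg, h2]
      ring
    rw [e, hs, Complex.conj_conj]
  have h1 := H370.DL.order_refl (f := g) (s := w + 1 / 2) (hgd.analyticAt _)
  rw [hr, order_shift hf _ _ one_ne_zero, order_shift hf _ _ one_ne_zero] at h1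
  have e1 : (1 : ℂ) * (w + 1 / 2) + -(1 / 2) = w := by ring
  have e2 : (1 : ℂ) * (1 - starRingEnd ℂ (w + 1 / 2)) + -(1 / 2) = -(starRingEnd ℂ w) := by
    have h2 : starRingEnd ℂ (1 / 2 : ℂ) = 1 / 2 := by
      rw [map_div₀, map_one, Complex.conj_ofNat]
    rw [map_add, h2]
    ring
  rw [e1, e2] at h1
  exact h1.symm

lemma mult_sym {t : ℝ} (ht1 : t ≤ 1 / 2) (w : ℂ) :
    H370.mult (Hx t) (-(starRingEnd ℂ w)) = H370.mult (Hx t) w := by
  unfold H370.mult analyticOrderNatAt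
  rw [order_sym (Hx_diff ht1) (Hx_refl t)]

/-- the derivative under the symmetry -/
lemma deriv_sym {t : ℝ} (ht1 : t ≤ 1 / 2) (w : ℂ) (h : deriv (Hx t) w = 0) :
    deriv (Hx t) (-(starRingEnd ℂ w)) = 0 := by
  have h1 : HasDerivAt (Hx t) (deriv (Hx t) w) w := ((Hx_diff ht1) w).hasDerivAt
  rw [h] at h1
  have h2 : HasDerivAt (fun z => starRingEnd ℂ (Hx t (starRingEnd ℂ z))) (starRingEnd ℂ 0) (starRingEnd ℂ w) :=
    h1.conj_conj
  rw [map_zero] at h2
  have h3 : (fun z => starRingEnd ℂ (Hx t (starRingEnd ℂ z))) = Hx t := by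
    funext z
    rw [Hx_conj, Complex.conj_conj]
  rw [h3] at h2
  have h4 : HasDerivAt (fun z => Hx t (-z)) 0 (-(starRingEnd ℂ w)) := by
    have h5 : HasDerivAt (Hx t) 0 (-(-(starRingEnd ℂ w))) := by rw [neg_neg]; exact h2
    have := HasDerivAt.comp (-(starRingEnd ℂ w)) h5 (hasDerivAt_neg (-(starRingEnd ℂ w)))
    simpa [Function.comp_def] using this
  have h5 : (fun z => Hx t (-z)) = Hx t := by funext z; exact Hx_even t z
  rw [h5] at h4
  exact h4.deriv

end Pool.Agent.Helper54.Hf
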