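import Pool.Graph.R_seed8.Helper240.ZU.D

set_option autoImplicit false
set_option maxHeartbeats 1000000

/-!
Counting boxes in which a holomorphic function is large.
-/

open Complex MeasureTheory Set Filter Topology

namespace Pool.Agent.Helper54.Hf

theorem disc_avg (g : ℂ → ℂ) (hg : Differentiable ℂ g) (s : ℂ) {r : ℝ} (hr : 0 < r) :
    Real.pi * r ^ 2 * ‖g s‖ ^ 2 ≤ ∫ w in Metric.ball s r, ‖g w‖ ^ 2 := by
  have hpi := Real.pi_pos
  have hgc : Continuous g := hg.continuous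
  have hcm : Continuous fun p : ℝ × ℝ => circleMap s p.1 p.2 := by
    unfold circleMap
    fun_prop
  have hGint : IntegrableOn (fun p : ℝ × ℝ => p.1 * ‖g (circleMap s p.1 p.2)‖ ^ 2)
      ((Ioo 0 r) ×ˢ (Ioo (-Real.pi) Real.pi)) := by
    have hc : ContinuousOn (fun p : ℝ × ℝ => p.1 * ‖g (circleMap s p.1 p.2)‖ ^ 2)
        ((Icc 0 r) ×ˢ (Icc (-Real.pi) Real.pi)) :=
      continuous_fst.continuousOn.mul (((hgc.comp hcm).norm).pow 2).continuousOn
    have := ContinuousOn.integrableOn_compact (μ := volume) (isCompact_Icc.prod isCompact_Icc) hc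
    exact this.mono_set (Set.prod_mono Ioo_subset_Icc_self Ioo_subset_Icc_self)
  have hB : ∫ w in Metric.ball s r, ‖g w‖ ^ 2
      = ∫ x in Ioo 0 r, ∫ θ in Ioo (-Real.pi) Real.pi, x * ‖g (circleMap s x θ)‖ ^ 2 := by
    rw [ZU.J_d.sla_polar g s r hr]
    exact setIntegral_prod _ hGint
  have hInt2 : IntegrableOn (fun x => ∫ θ in Ioo (-Real.pi) Real.pi,
      x * ‖g (circleMap s x θ)‖ ^ 2) (Ioo 0 r) := by
    have h := hGint
    rw [IntegrableOn, Measure.volume_eq_prod, ← Measure.prod_restrict] at h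
    exact h.integral_prod_left
  have hC : ∫ x in Ioo 0 r, x * (2 * Real.pi * ‖g s‖ ^ 2)
      ≤ ∫ x in Ioo 0 r, ∫ θ in Ioo (-Real.pi) Real.pi, x * ‖g (circleMap s x θ)‖ ^ 2 := by
    refine setIntegral_mono_on ?_ hInt2 measurableSet_Ioo ?_
    · have : ContinuousOn (fun x : ℝ => x * (2 * Real.pi * ‖g s‖ ^ 2)) (Icc 0 r) := by fun_prop
      exact (ContinuousOn.integrableOn_compact isCompact_Icc this).mono_set Ioo_subset_Icc_self
    · intro x hx
      rw [integral_const_mul]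
      refine mul_le_mul_of_nonneg_left ?_ hx.1.le
      exact ZU.J_d.sla_mean g univ isOpen_univ hg.differentiableOn s x hx.1 (subset_univ _)
  have hD : ∫ x in Ioo 0 r, x * (2 * Real.pi * ‖g s‖ ^ 2) = Real.pi * r ^ 2 * ‖g s‖ ^ 2 := by
    rw [integral_mul_const, ← integral_Ioc_eq_integral_Ioo,
      ← intervalIntegral.integral_of_le hr.le, integral_id]
    ring
  rw [hB, ← hD]
  exact hC

/-- number of integers in a short interval -/
lemma card_int {S : Finset ℕ} {a b : ℝ} (hab : a ≤ b) (h : ∀ n ∈ S, a ≤ (n : ℝ) ∧ (n : ℝ) ≤ b) :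
    (S.card : ℝ) ≤ b - a + 1 := by
  rcases S.eq_empty_or_nonempty with he | hne
  · rw [he]; simp; linarith
  have h0 : 0 ≤ b := by
    obtain ⟨n, hn⟩ := hne
    exact le_trans (Nat.cast_nonneg n) (h n hn).2
  have hsub : S ⊆ Finset.Icc (Nat.ceil a) (Nat.floor b) := by
    intro n hn
    rw [Finset.mem_Icc]
    exact ⟨Nat.ceil_le.2 (h n hn).1, (Nat.le_floor_iff h0).2 (h n hn).2⟩
  have h1 := Finset.card_le_card hsub
  rw [Nat.card_Icc] at h1
  have h2 : (Nat.floor b : ℝ) ≤ b := Nat.floor_le h0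
  have h3 : a ≤ (Nat.ceil a : ℝ) := Nat.le_ceil a
  rcases le_total (Nat.ceil a) (Nat.floor b + 1) with h4 | h4
  · have h5 : ((Nat.floor b + 1 - Nat.ceil a : ℕ) : ℝ) = (Nat.floor b : ℝ) + 1 - Nat.ceil a := by
      rw [Nat.cast_sub h4]; push_cast; ring
    have h6 : (S.card : ℝ) ≤ ((Nat.floor b + 1 - Nat.ceil a : ℕ) : ℝ) := by exact_mod_cast h1
    rw [h5] at h6
    linarith
  · have h5 : Nat.floor b + 1 - Nat.ceil a = 0 := Nat.sub_eq_zero_of_le h4
    rw [h5] at h1
    have h6 : (S.card : ℝ) ≤ 0 := by exact_mod_cast h1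
    linarith

/-- rectangles -/
def Rc (a b c d : ℝ) : Set ℂ := {z : ℂ | (a ≤ z.re ∧ z.re ≤ b) ∧ (c ≤ z.im ∧ z.im ≤ d)}

lemma Rc_eq (a b c d : ℝ) : Rc a b c d = (Icc a b) ×ℂ (Icc c d) := by
  ext z; simp [Rc, Complex.mem_reProdIm]

lemma Rc_compact (a b c d : ℝ) : IsCompact (Rc a b c d) := by
  rw [Rc_eq]; exact isCompact_Icc.reProdIm isCompact_Icc

lemma Rc_meas (a b c d : ℝ) : MeasurableSet (Rc a b c d) := (Rc_compact a b c d).measurableSet

lemma Rc_integral {f : ℂ → ℝ} (hf : Continuous f) {a b c d : ℝ} (hab : a ≤ b) (hcd : c ≤ d) :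
    ∫ z in Rc a b c d, f z = ∫ x in a..b, ∫ t in c..d, f ⟨x, t⟩ := by
  have h1 : ∫ z in Rc a b c d, f z = ∫ p in (Icc a b) ×ˢ (Icc c d), f ⟨p.1, p.2⟩ := by
    have h := (Complex.volume_preserving_equiv_real_prod.symm).setIntegral_preimage_emb
      Complex.measurableEquivRealProd.symm.measurableEmbedding f (Rc a b c d)
    rw [← h]
    congr 1
  rw [h1]
  have hfc : Continuous (fun p : ℝ × ℝ => f ⟨p.1, p.2⟩) := by
    have : Continuous (fun p : ℝ × ℝ => (⟨p.1, p.2⟩ : ℂ)) := by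
      have e : (fun p : ℝ × ℝ => (⟨p.1, p.2⟩ : ℂ)) = fun p : ℝ × ℝ => (p.1 : ℂ) + (p.2 : ℂ) * I := by
        funext p; apply Complex.ext <;> simp
      rw [e]; fun_prop
    exact hf.comp this
  rw [Measure.volume_eq_prod, setIntegral_prod _
    ((hfc.continuousOn).integrableOn_compact (isCompact_Icc.prod isCompact_Icc))]
  rw [intervalIntegral.integral_of_le hab, integral_Icc_eq_integral_Ioc]
  refine setIntegral_congr_fun measurableSet_Ioc fun x _ => ?_
  simp only
  rw [intervalIntegral.integral_of_le hcd, integral_Icc_eq_integral_Ioc]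

/-- **Counting bad boxes.** -/
theorem box_count {P : ℂ → ℂ} (hP : Differentiable ℂ P) (k : ℕ) {v T A M : ℝ} (hv : 0 < v)
    (hv1 : v ≤ 1) (hT : 16 ≤ T) (hA : 0 < A)
    (hM : ∀ x ∈ Icc (1 / 2 + v / 2) (1 / 2 + 5 / 2 * v), ∫ t in (T / 4)..(4 * T), ‖P ⟨x, t⟩‖ ^ (2 * k) ≤ M)
    (S : Finset ℕ) (hS : ∀ n ∈ S, T / 2 ≤ n * v ∧ n * v ≤ 3 * T)
    (hbad : ∀ n ∈ S, ∃ s : ℂ, v ≤ s.re - 1 / 2 ∧ s.re - 1 / 2 ≤ 2 * v ∧ |s.im - n * v| ≤ v ∧ A ≤ ‖P s‖) :
    (S.card : ℝ) * A ^ (2 * k) ≤ 11 / v * M := by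
  classical
  choose! s hs1 hs2 hs3 hs4 using hbad
  set f : ℂ → ℝ := fun z => ‖P z ^ k‖ ^ 2 with hf
  have hfP : ∀ z, f z = ‖P z‖ ^ (2 * k) := by
    intro z; simp only [hf]; rw [norm_pow, ← pow_mul, mul_comm]
  have hfc : Continuous f := by
    have := hP.continuous; simp only [hf]; fun_prop
  have hf0 : ∀ z, 0 ≤ f z := fun z => by simp only [hf]; positivity
  set Big := Rc (1 / 2 + v / 2) (1 / 2 + 5 / 2 * v) (T / 4) (4 * T) with hBig
  have hpi := Real.pi_gt_three
  -- each box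
  have h1 : ∀ n ∈ S, 3 * (v / 2) ^ 2 * A ^ (2 * k) ≤
      ∫ z in Big, (Rc (1 / 2 + v / 2) (1 / 2 + 5 / 2 * v) (n * v - 3 / 2 * v) (n * v + 3 / 2 * v)).indicator f z := by
    intro n hn
    have h2 := disc_avg (fun z => P z ^ k) (hP.pow k) (s n) (r := v / 2) (by positivity)
    have h3 : A ^ (2 * k) ≤ ‖P (s n) ^ k‖ ^ 2 := by
      rw [norm_pow, ← pow_mul, mul_comm k 2]
      exact pow_le_pow_left₀ hA.le (hs4 n hn) _
    have h4 : 3 * (v / 2) ^ 2 * A ^ (2 * k) ≤ Real.pi * (v / 2) ^ 2 * ‖P (s n) ^ k‖ ^ 2 := by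
      apply mul_le_mul (mul_le_mul_of_nonneg_right hpi.le (by positivity)) h3 (by positivity) (by positivity)
    refine h4.trans (h2.trans ?_)
    have hsub : Metric.ball (s n) (v / 2) ⊆ Rc (1 / 2 + v / 2) (1 / 2 + 5 / 2 * v) (n * v - 3 / 2 * v) (n * v + 3 / 2 * v) := by
      intro z hz
      rw [Metric.mem_ball, dist_eq_norm] at hz
      have hre : |z.re - (s n).re| ≤ v / 2 := by
        have := Complex.abs_re_le_norm (z - s n)
        rw [sub_re] at this; linarith
      have him : |z.im - (s n).im| ≤ v / 2 := by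
        have := Complex.abs_im_le_norm (z - s n)
        rw [sub_im] at this; linarith
      have q1 := abs_le.1 hre
      have q2 := abs_le.1 him
      have q3 := abs_le.1 (hs3 n hn)
      have q4 := hs1 n hn
      have q5 := hs2 n hn
      refine ⟨⟨by linarith, by linarith⟩, ⟨by linarith, by linarith⟩⟩
    have hsub2 : Rc (1 / 2 + v / 2) (1 / 2 + 5 / 2 * v) (n * v - 3 / 2 * v) (n * v + 3 / 2 * v) ⊆ Big := by
      intro z hz
      obtain ⟨⟨a1, a2⟩, ⟨a3, a4⟩⟩ := hz
      have := hS n hn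
      exact ⟨⟨a1, a2⟩, ⟨by linarith, by linarith⟩⟩
    rw [setIntegral_indicator (Rc_meas _ _ _ _), inter_eq_self_of_subset_right hsub2]
    exact setIntegral_mono_set (hfc.continuousOn.integrableOn_compact (Rc_compact _ _ _ _))
      (Filter.Eventually.of_forall hf0) hsub.eventuallyLE
  have h5 : (S.card : ℝ) * (3 * (v / 2) ^ 2 * A ^ (2 * k)) ≤ ∫ z in Big, ∑ n ∈ S,
      (Rc (1 / 2 + v / 2) (1 / 2 + 5 / 2 * v) (n * v - 3 / 2 * v) (n * v + 3 / 2 * v)).indicator f z := by
    rw [integral_finsetSum]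
    · rw [← nsmul_eq_mul]
      exact Finset.card_nsmul_le_sum _ _ _ h1
    · intro n _
      exact (hfc.continuousOn.integrableOn_compact (Rc_compact _ _ _ _)).indicator (Rc_meas _ _ _ _)
  have h6 : ∫ z in Big, ∑ n ∈ S,
      (Rc (1 / 2 + v / 2) (1 / 2 + 5 / 2 * v) (n * v - 3 / 2 * v) (n * v + 3 / 2 * v)).indicator f z ≤
      ∫ z in Big, 4 * f z := by
    apply setIntegral_mono_on
    · apply integrable_finsetSum
      intro n _
      exact (hfc.continuousOn.integrableOn_compact (Rc_compact _ _ _ _)).indicator (Rc_meas _ _ _ _)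
    · exact (hfc.continuousOn.integrableOn_compact (Rc_compact _ _ _ _)).const_mul 4
    · exact Rc_meas _ _ _ _
    · intro z _
      have h7 : ∑ n ∈ S, (Rc (1 / 2 + v / 2) (1 / 2 + 5 / 2 * v) (n * v - 3 / 2 * v) (n * v + 3 / 2 * v)).indicator f z ≤
          ∑ n ∈ S.filter (fun n : ℕ => |z.im - n * v| ≤ 3 / 2 * v), f z := by
        rw [Finset.sum_filter]
        refine Finset.sum_le_sum fun n _ => ?_
        by_cases hz : z ∈ Rc (1 / 2 + v / 2) (1 / 2 + 5 / 2 * v) (n * v - 3 / 2 * v) (n * v + 3 / 2 * v)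
        · rw [indicator_of_mem hz]
          obtain ⟨_, ⟨a3, a4⟩⟩ := hz
          rw [if_pos (abs_le.2 ⟨by linarith, by linarith⟩)]
        · rw [indicator_of_notMem hz]
          split_ifs
          · exact hf0 z
          · exact le_rfl
      refine h7.trans ?_
      rw [Finset.sum_const, nsmul_eq_mul]
      apply mul_le_mul_of_nonneg_right _ (hf0 z)
      have h8 := card_int (S := S.filter (fun n : ℕ => |z.im - n * v| ≤ 3 / 2 * v)) (a := z.im / v - 3 / 2)
        (b := z.im / v + 3 / 2) (by linarith) (by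
          intro n hn
          have h9 := (Finset.mem_filter.1 hn).2
          rw [abs_le] at h9
          have e : z.im = z.im / v * v := by field_simp
          constructor
          · have : (z.im / v - 3 / 2) * v ≤ n * v := by linarith
            exact le_of_mul_le_mul_right this hv
          · have : (n : ℝ) * v ≤ (z.im / v + 3 / 2) * v := by linarith
            exact le_of_mul_le_mul_right this hv)
      linarith
  have h7 : ∫ z in Big, 4 * f z ≤ 4 * (2 * v * M) := by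
    rw [integral_const_mul]
    apply mul_le_mul_of_nonneg_left _ (by norm_num)
    rw [hBig, Rc_integral hfc (by linarith) (by linarith)]
    have h8 : ∀ x ∈ Icc (1 / 2 + v / 2) (1 / 2 + 5 / 2 * v), ∫ t in (T / 4)..(4 * T), f ⟨x, t⟩ ≤ M := by
      intro x hx
      simp only [hfP]
      exact hM x hx
    calc ∫ x in (1 / 2 + v / 2)..(1 / 2 + 5 / 2 * v), ∫ t in (T / 4)..(4 * T), f ⟨x, t⟩
        ≤ ∫ x in (1 / 2 + v / 2)..(1 / 2 + 5 / 2 * v), M := by
          apply intervalIntegral.integral_mono_on (by linarith) _ (by simp) h8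
          apply Continuous.intervalIntegrable
          apply intervalIntegral.continuous_parametric_intervalIntegral_of_continuous'
          have e : (Function.uncurry fun x t : ℝ => f ⟨x, t⟩) = fun p : ℝ × ℝ => f ((p.1 : ℂ) + (p.2 : ℂ) * I) := by
            funext p
            simp only [Function.uncurry]
            congr 1
            apply Complex.ext <;> simp
          rw [e]
          fun_prop
      _ = 2 * v * M := by rw [intervalIntegral.integral_const, smul_eq_mul]; ring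
  have h9 : (S.card : ℝ) * (3 * (v / 2) ^ 2 * A ^ (2 * k)) ≤ 4 * (2 * v * M) := h5.trans (h6.trans h7)
  have h10 : (S.card : ℝ) * A ^ (2 * k) ≤ 32 / 3 / v * M := by
    have e : 32 / 3 / v * M = 4 * (2 * v * M) / (3 * (v / 2) ^ 2) := by field_simp; ring
    rw [e, le_div_iff₀ (by positivity)]
    linarith
  have hM0 : 0 ≤ M := by
    refine le_trans ?_ (hM (1 / 2 + v) ⟨by linarith, by linarith⟩)
    apply intervalIntegral.integral_nonneg (by linarith)
    intro t _; positivity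
  refine h10.trans (mul_le_mul_of_nonneg_right ?_ hM0)
  apply div_le_div_of_nonneg_right (by norm_num) hv.le

end Pool.Agent.Helper54.Hf
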