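import Pool.Agent.Helper54.Hf.S8

set_option autoImplicit false
set_option maxHeartbeats 1000000

/-!
Zero density for the heat flow: zeros at distance at least `y` from the axis.
-/

open Complex MeasureTheory Set Filter Topology

namespace Pool.Agent.Helper54.Hf

open Pool.Agent.Helper54.Xm

lemma win_strip2 {L t U x0 : ℝ} {w : ℂ} (h : Good fx L (1 / 6400) (U / 16) (8 * U) x0) (t0 : 0 < t)
    (t1 : t ≤ 1 / 2) (hL : 17 ≤ L) (h520 : 520 * t ≤ U ^ 2) (hU : t * L ≤ U) (hz : Hx t w = 0) (hw0 : 0 ≤ w.re)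
    (hw17 : w.re < 17) (hwn : |w.im - x0| ≤ U) : w.re < U := by
  by_contra hc
  push Not at hc
  have hL0 : 0 < L := by linarith
  have htL : 0 < t * L := mul_pos t0 hL0
  have hl := win_loc h t0 t1 hL0 (htL.trans_le hU) hU hw0 (by linarith) (by linarith) hwn
  have h3 : U ^ 2 ≤ w.re ^ 2 := pow_le_pow_left₀ (htL.le.trans hU) hc 2
  obtain ⟨p1, hp, hp2, hlow⟩ := hl.lower fx_sym fx_gr (Hx_diff t1) (Hx_heat t0 t1) (by nlinarith)
    (by nlinarith)
  rw [hz, norm_zero] at hlow
  have := norm_pos_iff.2 (hl.MM_ne hp)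
  linarith

/-- the multi-scale count away from the axis -/
theorem multi2 {C1 c1 C01 T L t u : ℝ} (hC1 : 1 ≤ C1) (hc1 : 0 < c1) (hT : 1000 ≤ T)
    (hL17 : 34 ≤ L) (hLT : L ≤ T / 100) (t0 : 0 < t) (t1 : t ≤ 1 / 2)
    (hu : t * L ≤ u) (h520 : 520 * t ≤ u ^ 2) (hlam : 2 ≤ u * L) (hlam1 : C01 ≤ u * L) (hlam2 : 1 / c1 ≤ u * L)
    (hstat : ∀ U : ℝ, C01 ≤ U * L → U ≤ 12 → ∀ S : Finset ℕ,
      (∀ n ∈ S, 3 * T / 4 ≤ n * U ∧ n * U ≤ 5 * T / 2) →
      (∀ n ∈ S, ¬ Good fx L (1 / 6400) (U / 16) (8 * U) (n * U)) →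
      (S.card : ℝ) ≤ C1 * (T / U) * Real.exp (-(c1 * (U * L))))
    (htop : ∀ V R x0 : ℝ, 3 / 4 ≤ V → R ≤ T / 4 → T / 2 ≤ x0 → x0 ≤ 3 * T → Good fx L (1 / 6400) V R x0)
    (S : Finset ℂ) (hS : ∀ w ∈ S, Hx t w = 0 ∧ u ≤ w.re ∧ w.re < 17 ∧ T < w.im ∧ w.im ≤ 2 * T) :
    ∑ w ∈ S, (H370.mult (Hx t) w : ℝ) ≤ 320 * C1 * (T * L) * Real.exp (-(c1 * (u * L))) := by
  classical
  have hL0 : 0 < L := by linarith
  have htL0 : 0 < t * L := mul_pos t0 hL0
  have hu0 : 0 < u := htL0.trans_le hu
  rcases le_or_gt 12 u with h12 | h12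
  · -- large scale: no zeros
    have : S = ∅ := by
      rw [Finset.eq_empty_iff_forall_notMem]
      intro w hw
      obtain ⟨hb, hw0, hw17, hwT, hwT2⟩ := hS w hw
      have hn := nr_spec (U := u) (x := w.im) hu0 (by linarith)
      have hn' := abs_le.1 hn
      have hg := htop (u / 16) (8 * u) (nr u w.im * u) (by linarith) (by linarith) (by linarith) (by linarith)
      have := win_strip2 hg t0 t1 (by linarith) h520 hu hb (by linarith) hw17 (by linarith)
      linarith
    rw [this, Finset.sum_empty]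
    positivity
  · set U : ℕ → ℝ := fun j => 2 ^ j * u with hU
    have hU0 : ∀ j, 0 < U j := fun j => by simp only [hU]; positivity
    have hUu : ∀ j, u ≤ U j := fun j => by
      simp only [hU]
      have : (1 : ℝ) ≤ 2 ^ j := one_le_pow₀ (by norm_num)
      nlinarith
    have hU520 : ∀ j, 520 * t ≤ U j ^ 2 := fun j =>
      h520.trans (pow_le_pow_left₀ hu0.le (hUu _) 2)
    have hex : ∃ j, 12 ≤ U j := by
      obtain ⟨k, hk⟩ := pow_unbounded_of_one_lt (12 / u) (one_lt_two : (1 : ℝ) < 2)
      refine ⟨k, ?_⟩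
      rw [div_lt_iff₀ hu0] at hk
      exact hk.le
    set J := Nat.find hex with hJ
    have hJ1 : 12 ≤ U J := Nat.find_spec hex
    have hJ2 : ∀ i, i < J → U i < 12 := fun i hi => not_le.1 (Nat.find_min hex hi)
    set P : ℂ → ℕ → Prop := fun w j => Good fx L (1 / 6400) (U j / 16) (8 * U j) (nr (U j) w.im * U j) with hP
    have hUsucc : ∀ i, U (i + 1) = 2 * U i := fun i => by simp only [hU]; rw [pow_succ]; ring
    have hJ0 : J ≠ 0 := by
      intro h0
      rw [h0] at hJ1
      simp only [hU, pow_zero, one_mul] at hJ1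
      linarith
    have hUJ : U J < 24 := by
      obtain ⟨m, hm⟩ := Nat.exists_eq_succ_of_ne_zero hJ0
      have h1 := hJ2 m (by omega)
      rw [hm, Nat.succ_eq_add_one, hUsucc]
      linarith
    have hUle : ∀ i, i < J → U (i + 1) < 24 := fun i hi => by
      rw [hUsucc]; linarith [hJ2 i hi]
    have hPJ : ∀ w ∈ S, P w J := by
      intro w hw
      obtain ⟨hb, hw0, hw17, hwT, hwT2⟩ := hS w hw
      have hn := abs_le.1 (nr_spec (U := U J) (x := w.im) (hU0 J) (by linarith))
      exact htop (U J / 16) (8 * U J) (nr (U J) w.im * U J) (by linarith) (by linarith) (by linarith) (by linarith)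
    set jj : ℂ → ℕ := fun w => sInf {j | P w j} with hjj
    have hjP : ∀ w ∈ S, P w (jj w) := fun w hw => Nat.sInf_mem (s := {j | P w j}) ⟨J, hPJ w hw⟩
    have hjJ : ∀ w ∈ S, jj w ≤ J := fun w hw => Nat.sInf_le (hPJ w hw)
    have hj0 : ∀ w ∈ S, jj w ≠ 0 := by
      intro w hw h0
      have h1 := hjP w hw
      rw [h0] at h1
      obtain ⟨hb, hw0, hw17, hwT, hwT2⟩ := hS w hw
      have hn := nr_spec (U := U 0) (x := w.im) (hU0 0) (by linarith)
      simp only [hP, hU, pow_zero, one_mul] at h1 hn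
      have := win_strip2 h1 t0 t1 (by linarith) h520 hu hb (by linarith) hw17 (by linarith)
      linarith
    set g : ℂ → ℕ := fun w => jj w - 1 with hg
    have hgJ : ∀ w ∈ S, g w ∈ Finset.range J := fun w hw => by
      have h1 := hjJ w hw
      have h2 := hj0 w hw
      simp only [hg, Finset.mem_range]; omega
    rw [← Finset.sum_fiberwise_of_maps_to hgJ]
    have hinner : ∀ i ∈ Finset.range J, ∑ w ∈ S.filter (fun w => g w = i), (H370.mult (Hx t) w : ℝ) ≤
        160 * C1 * (T * L) * Real.exp (-(c1 * (u * L) * 2 ^ i)) := by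
      intro i hi
      rw [Finset.mem_range] at hi
      set Si := S.filter (fun w => g w = i) with hSi
      have hSi' : ∀ w ∈ Si, w ∈ S ∧ jj w = i + 1 := by
        intro w hw
        rw [hSi, Finset.mem_filter] at hw
        refine ⟨hw.1, ?_⟩
        have h2 := hj0 w hw.1
        have h3 := hw.2
        simp only [hg] at h3
        omega
      set B := Si.image (fun w => nr (U i) w.im) with hB
      have hmaps : ∀ w ∈ Si, nr (U i) w.im ∈ B := fun w hw => Finset.mem_image_of_mem _ hw
      rw [← Finset.sum_fiberwise_of_maps_to hmaps]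
      have hcell : ∀ n ∈ B, ∑ w ∈ Si.filter (fun w => nr (U i) w.im = n), (H370.mult (Hx t) w : ℝ) ≤
          80 * U (i + 1) * L := by
        intro n hn
        rw [hB, Finset.mem_image] at hn
        obtain ⟨w1, hw1, hn1⟩ := hn
        obtain ⟨hw1S, hw1j⟩ := hSi' w1 hw1
        have hgood := hjP w1 hw1S
        rw [hw1j] at hgood
        obtain ⟨-, -, -, hwT, hwT2⟩ := hS w1 hw1S
        have ha := nr_spec (U := U (i + 1)) (x := w1.im) (hU0 _) (by linarith)
        have hb := nr_spec (U := U i) (x := w1.im) (hU0 _) (by linarith)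
        rw [hn1] at hb
        have hU2 : u * L ≤ U (i + 1) * L := mul_le_mul_of_nonneg_right (hUu _) hL0.le
        refine win_count hgood t0 t1 (by linarith) (by linarith [hUle i hi]) (hU0 _) (hu.trans (hUu _))
          (hU520 _) (by linarith) _ ?_
        intro w hw
        rw [Finset.mem_filter] at hw
        obtain ⟨hwSi, hwn⟩ := hw
        obtain ⟨hwS, hwj⟩ := hSi' w hwSi
        obtain ⟨hbw, hw0, hw17, hwT', hwT2'⟩ := hS w hwS
        have hgw := hjP w hwS
        rw [hwj] at hgw
        have hc := nr_spec (U := U i) (x := w.im) (hU0 _) (by linarith)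
        rw [hwn] at hc
        have hd := nr_spec (U := U (i + 1)) (x := w.im) (hU0 _) (by linarith)
        have hU1 := hUsucc i
        constructor
        · rw [abs_of_nonneg (by linarith)]
          exact (win_strip2 hgw t0 t1 (by linarith) (hU520 _) (hu.trans (hUu _)) hbw (by linarith) hw17
            (by linarith [hU0 (i + 1)])).le
        · have h1 := abs_le.1 ha
          have h2 := abs_le.1 hb
          have h3 := abs_le.1 hc
          rw [abs_le]
          constructor <;> linarith [h1.1, h1.2, h2.1, h2.2, h3.1, h3.2]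
      have hBcard : (B.card : ℝ) ≤ C1 * (T / U i) * Real.exp (-(c1 * (U i * L))) := by
        refine hstat (U i) ?_ (hJ2 i hi).le B ?_ ?_
        · have : u * L ≤ U i * L := mul_le_mul_of_nonneg_right (hUu _) hL0.le
          linarith
        · intro n hn
          rw [hB, Finset.mem_image] at hn
          obtain ⟨w1, hw1, hn1⟩ := hn
          obtain ⟨hw1S, hw1j⟩ := hSi' w1 hw1
          obtain ⟨-, -, -, hwT, hwT2⟩ := hS w1 hw1S
          have hb := abs_le.1 (nr_spec (U := U i) (x := w1.im) (hU0 _) (by linarith))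
          rw [hn1] at hb
          have := hJ2 i hi
          constructor <;> linarith [hb.1, hb.2]
        · intro n hn
          rw [hB, Finset.mem_image] at hn
          obtain ⟨w1, hw1, hn1⟩ := hn
          obtain ⟨hw1S, hw1j⟩ := hSi' w1 hw1
          have h1 : i ∉ {j | P w1 j} := Nat.notMem_of_lt_sInf (by
            have : jj w1 = sInf {j | P w1 j} := rfl
            rw [← this, hw1j]; omega)
          simp only [hP, Set.mem_ofPred_eq] at h1
          rw [hn1] at h1
          exact h1
      refine (Finset.sum_le_sum hcell).trans ?_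
      rw [Finset.sum_const, nsmul_eq_mul]
      have h5 : 0 ≤ 80 * U (i + 1) * L := by
        have := hU0 (i + 1)
        positivity
      refine (mul_le_mul_of_nonneg_right hBcard h5).trans (le_of_eq ?_)
      rw [hUsucc]
      have e1 : c1 * (U i * L) = c1 * (u * L) * 2 ^ i := by simp only [hU]; ring
      rw [e1]
      have hUi := (hU0 i).ne'
      field_simp
      ring
    refine (Finset.sum_le_sum hinner).trans ?_
    rw [← Finset.mul_sum]
    have ha : 1 ≤ c1 * (u * L) := by
      rw [div_le_iff₀ hc1] at hlam2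
      linarith
    have h7 := sum_scales ha J
    have h8 : 0 < 160 * C1 * (T * L) := by positivity
    calc 160 * C1 * (T * L) * ∑ i ∈ Finset.range J, Real.exp (-(c1 * (u * L) * 2 ^ i))
        ≤ 160 * C1 * (T * L) * (2 * Real.exp (-(c1 * (u * L)))) :=
          mul_le_mul_of_nonneg_left h7 h8.le
      _ = _ := by ring

/-- **Zero density for the heat flow**, half plane version -/
theorem density : ∃ C c T0 : ℝ, 1 ≤ C ∧ 0 < c ∧ 1000 ≤ T0 ∧ ∀ T t y : ℝ, T0 ≤ T → 0 < t → t ≤ 1 / 2 →
    0 ≤ y → ∀ S : Finset ℂ, (∀ w ∈ S, Bad t w ∧ y ≤ w.re ∧ T < w.im ∧ w.im ≤ 2 * T) →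
    ∑ w ∈ S, (H370.mult (Hx t) w : ℝ) ≤
      C * (T * Real.log T) * Real.exp (-(c * ((y + t * Real.log T) * Real.log T))) := by
  obtain ⟨Ca, ca, Ta, hCa, hca, hTa, hbad⟩ := bad_count
  obtain ⟨C1, c1, C01, T1, hC1, hc1, hC01, hT1, hst⟩ := good_stat (ε := 1 / 6400) (by norm_num)
  obtain ⟨T2, hT2, htop⟩ := good_top (ε := 1 / 6400) (by norm_num)
  obtain ⟨K, hK, hstrip⟩ := strip
  set l0 : ℝ := max (max 520 C01) (1 / c1) with hl0
  have hl01 : 520 ≤ l0 := (le_max_left _ _).trans (le_max_left _ _)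
  have hl02 : C01 ≤ l0 := (le_max_right _ _).trans (le_max_left _ _)
  have hl03 : 1 / c1 ≤ l0 := le_max_right _ _
  refine ⟨max Ca (max (320 * C1) (1360 * Real.exp (c1 * l0))), min (ca / 2) (c1 / 2),
    max (max Ta (max T1 T2)) (max K (max (Real.exp l0) 40000)), ?_, by positivity, ?_, ?_⟩
  · exact hCa.trans (le_max_left _ _)
  · exact hTa.trans ((le_max_left _ _).trans (le_max_left _ _))
  intro T t y hT t0 t1 hy S hS
  have hTTa : Ta ≤ T := ((le_max_left _ _).trans (le_max_left _ _)).trans hT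
  have hTT1 : T1 ≤ T := ((le_max_left _ _).trans ((le_max_right _ _).trans (le_max_left _ _))).trans hT
  have hTT2 : T2 ≤ T := ((le_max_right _ _).trans ((le_max_right _ _).trans (le_max_left _ _))).trans hT
  have hTK : K ≤ T := ((le_max_left _ _).trans (le_max_right _ _)).trans hT
  have hTe : Real.exp l0 ≤ T := ((le_max_left _ _).trans ((le_max_right _ _).trans (le_max_right _ _))).trans hT
  have hT4 : 40000 ≤ T := ((le_max_right _ _).trans ((le_max_right _ _).trans (le_max_right _ _))).trans hT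
  have hTpos : 0 < T := by linarith
  set L := Real.log T with hL
  have hLl : l0 ≤ L := (Real.le_log_iff_exp_le hTpos).2 hTe
  have hLT : L ≤ T / 100 := by
    have h1 : Real.log T = 2 * Real.log (Real.sqrt T) := by rw [Real.log_sqrt hTpos.le]; ring
    have h2 := Real.log_le_sub_one_of_pos (Real.sqrt_pos.2 hTpos)
    have h3 : 200 ≤ Real.sqrt T := by
      rw [show (200 : ℝ) = Real.sqrt (200 ^ 2) by rw [Real.sqrt_sq (by norm_num)]]
      exact Real.sqrt_le_sqrt (by norm_num; linarith)
    have h4 : Real.sqrt T * Real.sqrt T = T := Real.mul_self_sqrt hTpos.le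
    rw [hL, h1]
    nlinarith
  have hL34 : 34 ≤ L := by linarith
  have hL0 : 0 < L := by linarith
  have hTL : 0 < T * L := by positivity
  have hyL : 0 ≤ y * L := by positivity
  have htLL : 0 ≤ t * L * L := by positivity
  have hexp : ∀ x c' : ℝ, 0 < c' → min (ca / 2) (c1 / 2) ≤ c' / 2 → (y + t * L) * L ≤ 2 * x →
      Real.exp (-(c' * x)) ≤ Real.exp (-(min (ca / 2) (c1 / 2) * ((y + t * L) * L))) := by
    intro x c' hc' h1 h2
    apply Real.exp_le_exp.2
    have h3 : min (ca / 2) (c1 / 2) * ((y + t * L) * L) ≤ c' / 2 * ((y + t * L) * L) :=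
      mul_le_mul_of_nonneg_right h1 (by positivity)
    have h4 : c' / 2 * ((y + t * L) * L) ≤ c' / 2 * (2 * x) := mul_le_mul_of_nonneg_left h2 (by positivity)
    linarith
  rcases le_or_gt y (t * L) with h | h
  · have h1 := hbad T t hTTa t0 t1 S (fun w hw => by
      obtain ⟨a1, a2, a3, a4⟩ := hS w hw
      exact ⟨a1, hy.trans a2, a3, a4⟩)
    refine h1.trans ?_
    refine mul_le_mul (mul_le_mul_of_nonneg_right (le_max_left _ _) hTL.le) ?_ (Real.exp_pos _).le
      (by
        have : 0 < max Ca (max (320 * C1) (1360 * Real.exp (c1 * l0))) := lt_of_lt_of_le (by linarith) (le_max_left _ _)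
        positivity)
    refine hexp _ _ hca (min_le_left _ _) ?_
    have : y * L ≤ t * L * L := mul_le_mul_of_nonneg_right h hL0.le
    nlinarith
  · have hS' : ∀ w ∈ S, Hx t w = 0 ∧ y ≤ w.re ∧ w.re < 17 ∧ T < w.im ∧ w.im ≤ 2 * T := by
      intro w hw
      obtain ⟨hb, h0, h1, h2⟩ := hS w hw
      exact ⟨hb.1, h0, hstrip t w t0 t1 hb.1 (by linarith), h1, h2⟩
    have htLy : t * L * L ≤ y * L := mul_le_mul_of_nonneg_right h.le hL0.le
    rcases le_or_gt l0 (y * L) with hl | hl
    · have h1 := multi2 (T := T) hC1 hc1 (by linarith) hL34 hLT t0 t1 h.le (by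
          have hy0 : 0 < y := lt_of_le_of_lt (by positivity) h
          have h5 : 520 * t * L ≤ y * y * L := by
            have e1 : y * y * L = (y * L) * y := by ring
            have e2 : 520 * (t * L) ≤ (y * L) * y := mul_le_mul (by linarith) h.le (by positivity) (by positivity)
            linarith
          have := le_of_mul_le_mul_right h5 hL0
          nlinarith) (by linarith) (hl02.trans hl) (hl03.trans hl)
        (fun U hU1 hU2 S' hS1 hS2 => hst T U hTT1 hU1 hU2 S' hS1 hS2)
        (fun V R x0 h1 h2 h3 h4 => htop T V R x0 hTT2 h1 h2 h3 h4) S hS'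
      refine h1.trans ?_
      refine mul_le_mul (mul_le_mul_of_nonneg_right ((le_max_left _ _).trans (le_max_right _ _)) hTL.le) ?_
        (Real.exp_pos _).le (by
          have : 0 < max Ca (max (320 * C1) (1360 * Real.exp (c1 * l0))) := lt_of_lt_of_le (by linarith) (le_max_left _ _)
          positivity)
      refine hexp _ _ hc1 (min_le_right _ _) ?_
      nlinarith
    · have htL : t * L ≤ 17 := by
        have h2 : t * L * l0 ≤ t * L * L := mul_le_mul_of_nonneg_left hLl (by positivity)
        have h3 : t * L * l0 < 1 * l0 := by linarith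
        have := lt_of_mul_lt_mul_right h3 (by linarith)
        linarith
      have h1 := total (by linarith) hL34 hLT t0 t1 htL
        (fun V R x0 h1 h2 h3 h4 => htop T V R x0 hTT2 h1 h2 h3 h4) S (fun w hw => by
          obtain ⟨a1, a2, a3, a4, a5⟩ := hS' w hw
          exact ⟨hy.trans a2, a3, a4, a5⟩)
      refine h1.trans ?_
      have h3 : Real.exp (-(c1 * l0)) ≤ Real.exp (-(min (ca / 2) (c1 / 2) * ((y + t * L) * L))) := by
        refine hexp _ _ hc1 (min_le_right _ _) ?_
        nlinarith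
      have h4 : Real.exp (c1 * l0) * Real.exp (-(c1 * l0)) = 1 := by
        rw [← Real.exp_add, add_neg_cancel, Real.exp_zero]
      calc 1360 * (T * L) = 1360 * (Real.exp (c1 * l0) * Real.exp (-(c1 * l0))) * (T * L) := by rw [h4]; ring
        _ = 1360 * Real.exp (c1 * l0) * (T * L) * Real.exp (-(c1 * l0)) := by ring
        _ ≤ _ := by
          refine mul_le_mul (mul_le_mul_of_nonneg_right ((le_max_right _ _).trans (le_max_right _ _)) hTL.le) h3
            (Real.exp_pos _).le (by
              have : 0 < max Ca (max (320 * C1) (1360 * Real.exp (c1 * l0))) := lt_of_lt_of_le (by linarith) (le_max_left _ _)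
              positivity)

end Pool.Agent.Helper54.Hf
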