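import Pool.Agent.Helper54.Hf.S9
import Pool.Agent.Helper54.Hf.S10

set_option autoImplicit false
set_option maxHeartbeats 1000000

/-!
The final form, in terms of the variable `z` with `w = i z`.
-/

open Complex MeasureTheory Set Filter Topology

namespace Pool.Agent.Helper54.Hf

open Pool.Agent.Helper54.Xm

/-- the heat flow does not vanish identically -/
lemma Hx_ne {t : ℝ} (t0 : 0 < t) (t1 : t ≤ 1 / 2) : ∃ w, Hx t w ≠ 0 := by
  obtain ⟨K, hK, h⟩ := far_loc
  refine ⟨((K + 17 : ℝ) : ℂ), fun hz => ?_⟩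
  have hn : K ≤ ‖((K + 17 : ℝ) : ℂ)‖ := by
    rw [Complex.norm_real, Real.norm_of_nonneg (by linarith)]; linarith
  have hre : (((K + 17 : ℝ) : ℂ)).re = K + 17 := ofReal_re _
  have hl := h ((K + 17 : ℝ) : ℂ) t t0 t1 (by rw [hre]; linarith) hn
  have hL := hl.L0
  have htL := hl.tL
  obtain ⟨p1, hp, hp2, hlow⟩ := hl.lower fx_sym fx_gr (Hx_diff t1) (Hx_heat t0 t1)
    (by rw [hre]; nlinarith) (by rw [hre]; nlinarith)
  rw [hz, norm_zero] at hlow
  have := norm_pos_iff.2 (hl.MM_ne hp)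
  linarith

lemma Hx_order {t : ℝ} (t0 : 0 < t) (t1 : t ≤ 1 / 2) (w : ℂ) : analyticOrderAt (Hx t) w ≠ ⊤ := by
  intro h
  rw [analyticOrderAt_eq_top] at h
  have han : AnalyticOnNhd ℂ (Hx t) univ := fun z _ => (Hx_diff t1).analyticAt z
  have h2 := han.eqOn_zero_of_preconnected_of_eventuallyEq_zero isPreconnected_univ (mem_univ w) h
  obtain ⟨w1, hw1⟩ := Hx_ne t0 t1
  exact hw1 (h2 (mem_univ w1))

/-- the two half planes -/
theorem density_z : ∃ C c T0 : ℝ, 1 ≤ C ∧ 0 < c ∧ 1000 ≤ T0 ∧ ∀ T t y : ℝ, T0 ≤ T → 0 < t → t ≤ 1 / 2 →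
    0 ≤ y → ∀ s : Finset ℂ, (∀ z ∈ s, Hx t (I * z) = 0 ∧ T < z.re ∧ z.re ≤ 2 * T ∧ y ≤ |z.im| ∧
      (z.im ≠ 0 ∨ deriv (Hx t) (I * z) = 0)) →
    ∑ z ∈ s, (H370.mult (Hx t) (I * z) : ℝ) ≤
      C * (T * Real.log T) * Real.exp (-(c * ((y + t * Real.log T) * Real.log T))) := by
  classical
  obtain ⟨C, c, T0, hC, hc, hT0, h⟩ := density
  refine ⟨2 * C, c, T0, by linarith, hc, hT0, ?_⟩
  intro T t y hT t0 t1 hy s hs
  set B := C * (T * Real.log T) * Real.exp (-(c * ((y + t * Real.log T) * Real.log T))) with hB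
  have h1 : ∑ z ∈ s.filter (fun z => z.im ≤ 0), (H370.mult (Hx t) (I * z) : ℝ) ≤ B := by
    have hinj : Set.InjOn (fun z : ℂ => I * z) (↑(s.filter (fun z => z.im ≤ 0)) : Set ℂ) := by
      intro a _ b _ hab
      exact mul_left_cancel₀ I_ne_zero hab
    have e := Finset.sum_image (f := fun w => (H370.mult (Hx t) w : ℝ)) hinj
    rw [← e]
    refine h T t y hT t0 t1 hy _ ?_
    intro w hw
    rw [Finset.mem_image] at hw
    obtain ⟨z, hz, rfl⟩ := hw
    rw [Finset.mem_filter] at hz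
    obtain ⟨hz1, hz2⟩ := hz
    obtain ⟨a1, a2, a3, a4, a5⟩ := hs z hz1
    have hre : (I * z).re = -z.im := by simp
    have him : (I * z).im = z.re := by simp
    refine ⟨⟨a1, ?_⟩, ?_, by rw [him]; exact a2, by rw [him]; exact a3⟩
    · rw [hre]
      rcases a5 with a5 | a5
      · left; exact neg_ne_zero.2 a5
      · right; exact a5
    · rw [hre]
      rwa [abs_of_nonpos hz2] at a4
  have h2 : ∑ z ∈ s.filter (fun z => ¬ z.im ≤ 0), (H370.mult (Hx t) (I * z) : ℝ) ≤ B := by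
    have hinj : Set.InjOn (fun z : ℂ => -(starRingEnd ℂ (I * z)))
        (↑(s.filter (fun z => ¬ z.im ≤ 0)) : Set ℂ) := by
      intro a _ b _ hab
      have h3 := neg_injective hab
      have h4 := (starRingEnd ℂ).injective h3
      exact mul_left_cancel₀ I_ne_zero h4
    have e := Finset.sum_image (f := fun w => (H370.mult (Hx t) w : ℝ)) hinj
    have e2 : ∑ z ∈ s.filter (fun z => ¬ z.im ≤ 0), (H370.mult (Hx t) (I * z) : ℝ) =
        ∑ z ∈ s.filter (fun z => ¬ z.im ≤ 0), (H370.mult (Hx t) (-(starRingEnd ℂ (I * z))) : ℝ) :=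
      Finset.sum_congr rfl fun z _ => by rw [mult_sym t1]
    rw [e2, ← e]
    refine h T t y hT t0 t1 hy _ ?_
    intro w hw
    rw [Finset.mem_image] at hw
    obtain ⟨z, hz, rfl⟩ := hw
    rw [Finset.mem_filter, not_le] at hz
    obtain ⟨hz1, hz2⟩ := hz
    obtain ⟨a1, a2, a3, a4, a5⟩ := hs z hz1
    have hre : (-(starRingEnd ℂ (I * z))).re = z.im := by simp
    have him : (-(starRingEnd ℂ (I * z))).im = z.re := by simp
    refine ⟨⟨?_, ?_⟩, ?_, by rw [him]; exact a2, by rw [him]; exact a3⟩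
    · rw [Hx_refl, a1, map_zero]
    · rw [hre]
      left; exact hz2.ne'
    · rw [hre]
      rwa [abs_of_pos hz2] at a4
  have h3 := Finset.sum_filter_add_sum_filter_not s (fun z => z.im ≤ 0)
    (fun z => (H370.mult (Hx t) (I * z) : ℝ))
  rw [← h3]
  calc _ ≤ B + B := add_le_add h1 h2
    _ = _ := by rw [hB]; ring

end Pool.Agent.Helper54.Hf
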