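import Pool.Agent.Helper54.Hf.S11
import Pool.Agent.Helper54.Hf.A6

set_option autoImplicit false
set_option maxHeartbeats 1000000

/-!
Crystallization: the zeros which are not real, simple and regularly spaced.
-/

open Complex MeasureTheory Set Filter Topology

namespace Pool.Agent.Helper54.Hf

open Pool.Agent.Helper54.Xm

section window

variable {L t U x0 ε : ℝ} {w : ℂ}

lemma win_loc3 (hε0 : 0 < ε) (hε1 : ε ≤ 1 / 6400) (h : Good fx L ε (U / 16) (8 * U) x0) (t0 : 0 < t) (t1 : t ≤ 1 / 2)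
    (hL : 0 < L) (hU0 : 0 < U) (hU : t * L ≤ U) (hw0 : 0 ≤ w.re) (hwL : w.re ≤ L)
    (hwU : U ≤ w.re + t * L) (hwn : |w.im - x0| ≤ U) :
    Loc fx t L (2 * ε) (U / 16) w :=
  h.loc fx_diff t0 t1 hL hε0 hε1 (by positivity) hw0 hwL (by linarith) (by linarith)

lemma win_strip3 (hε0 : 0 < ε) (hε1 : ε ≤ 1 / 6400) (h : Good fx L ε (U / 16) (8 * U) x0) (t0 : 0 < t)
    (t1 : t ≤ 1 / 2) (hL : 17 ≤ L) (h520 : 520 * t ≤ U ^ 2) (hU : t * L ≤ U) (hz : Hx t w = 0) (hw0 : 0 ≤ w.re)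
    (hw17 : w.re < 17) (hwn : |w.im - x0| ≤ U) : w.re < U := by
  by_contra hc
  push Not at hc
  have hL0 : 0 < L := by linarith
  have htL : 0 < t * L := mul_pos t0 hL0
  have hl := win_loc3 hε0 hε1 h t0 t1 hL0 (htL.trans_le hU) hU hw0 (by linarith) (by linarith) hwn
  have h3 : U ^ 2 ≤ w.re ^ 2 := pow_le_pow_left₀ (htL.le.trans hU) hc 2
  obtain ⟨p1, hp, hp2, hlow⟩ := hl.lower fx_sym fx_gr (Hx_diff t1) (Hx_heat t0 t1) (by nlinarith)
    (by nlinarith)
  rw [hz, norm_zero] at hlow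
  have := norm_pos_iff.2 (hl.MM_ne hp)
  linarith

lemma win_zero3 (hε0 : 0 < ε) (hε1 : ε ≤ 1 / 6400) (h : Good fx L ε (t * L / 16) (8 * (t * L)) x0) (t0 : 0 < t)
    (t1 : t ≤ 1 / 2) (hL : 17 ≤ L) (hlam : 2000000 ≤ t * L ^ 2) (hz : Hx t w = 0) (hw0 : 0 ≤ w.re)
    (hw17 : w.re < 17) (hwn : |w.im - x0| ≤ t * L) : w.re = 0 ∧ deriv (Hx t) w ≠ 0 := by
  have hL0 : 0 < L := by linarith
  have htL : 0 < t * L := mul_pos t0 hL0
  have hl := win_loc3 hε0 hε1 h t0 t1 hL0 htL le_rfl hw0 (by linarith) (by linarith) hwn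
  exact hl.zeros fx_sym fx_gr (Hx_diff t1) (Hx_heat t0 t1) hlam hz

lemma win_count3 (hε0 : 0 < ε) (hε1 : ε ≤ 1 / 6400) (h : Good fx L ε (U / 16) (8 * U) x0) (t0 : 0 < t)
    (t1 : t ≤ 1 / 2) (hL : 17 ≤ L) (hUL : U ≤ L) (hU0 : 0 < U) (hU : t * L ≤ U) (h520 : 520 * t ≤ U ^ 2)
    (hUL2 : 2 ≤ U * L) (S : Finset ℂ) (hS : ∀ w ∈ S, |w.re| ≤ U ∧ |w.im - x0| ≤ U) :
    ∑ w ∈ S, (H370.mult (Hx t) w : ℝ) ≤ 80 * U * L :=
  h.count fx_diff fx_sym fx_gr (Hx_diff t1) (Hx_heat t0 t1) t0 t1 (by linarith) hε0 hε1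
    (by positivity) (by linarith) hUL le_rfl hU h520 hUL2 S hS

/-- regular zeros: on the axis, simple, with the next zero at the expected distance -/
def Reg (δ L t : ℝ) (w : ℂ) : Prop := w.re = 0 ∧ deriv (Hx t) w ≠ 0 ∧ ∃ y : ℝ, w.im < y ∧
  |y - w.im - 2 * Real.pi / L| ≤ δ * (2 * Real.pi / L) ∧ Hx t (I * y) = 0 ∧
  ∀ v : ℂ, Hx t v = 0 → w.im < v.im → v.im < y → False

lemma win_reg {δ : ℝ} (hε0 : 0 < ε) (hε1 : ε ≤ 1 / 6400) (hδ0 : 0 < δ) (hδ1 : δ ≤ 1 / 2) (hεδ : 40 * ε ≤ δ)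
    (h : Good fx L ε (t * L / 16) (8 * (t * L)) x0) (t0 : 0 < t)
    (t1 : t ≤ 1 / 2) (hL : 17 ≤ L) (hlam : 2000000 ≤ t * L ^ 2) (hlδ : (640 / δ) ^ 2 ≤ t * L ^ 2)
    (hz : Hx t w = 0) (hw0 : 0 ≤ w.re) (hst : ∀ v : ℂ, Hx t v = 0 → w.im ≤ v.im → v.re < 17)
    (hwn : |w.im - x0| ≤ t * L / 2) : Reg δ L t w := by
  have hL0 : 0 < L := by linarith
  have htL : 0 < t * L := mul_pos t0 hL0
  have hpi2 := Real.pi_lt_d2
  have hpi0 := Real.pi_pos
  have hax := win_zero3 hε0 hε1 h t0 t1 hL hlam hz hw0 (hst w hz le_rfl) (by linarith)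
  have hl := win_loc3 hε0 hε1 h t0 t1 hL0 htL le_rfl hw0 (by rw [hax.1]; exact hL0.le) (by linarith)
    (by linarith)
  obtain ⟨y, hy1, hy2, hy3, hy4⟩ := hl.gap fx_sym fx_gr (Hx_diff t1) (Hx_heat t0 t1) hlam hax.1 hδ0 hδ1
    (by linarith) hlδ hz
  refine ⟨hax.1, hax.2, y, hy1, hy2, hy3, ?_⟩
  intro v hv hv1 hv2
  have hyL : y - w.im ≤ 10 / L := by
    have h1 := (abs_le.1 hy2).2
    have h2 : (1 + δ) * (2 * Real.pi / L) ≤ 10 / L := by
      have e : (1 + δ) * (2 * Real.pi / L) = ((1 + δ) * (2 * Real.pi)) / L := by ring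
      rw [e]
      apply div_le_div_of_nonneg_right _ hL0.le
      nlinarith
    linarith
  have h10 : 10 / L ≤ t * L / 2 := by
    rw [div_le_iff₀ hL0]; nlinarith
  have hwn' := abs_le.1 hwn
  have key : ∀ v' : ℂ, Hx t v' = 0 → v'.im = v.im → 0 ≤ v'.re → v'.re = 0 := by
    intro v' h1 h2 h3
    refine (win_zero3 hε0 hε1 h t0 t1 hL hlam h1 h3 (hst v' h1 (by rw [h2]; exact hv1.le)) ?_).1
    rw [h2, abs_le]
    constructor <;> linarith [hwn'.1, hwn'.2]
  have hre : v.re = 0 := by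
    rcases le_total 0 v.re with h1 | h1
    · exact key v hv rfl h1
    · have h2 := key (-(starRingEnd ℂ v)) (by rw [Hx_refl, hv, map_zero]) (by simp) (by simpa using h1)
      simpa using h2
  have e : v = I * ((v.im : ℝ) : ℂ) := by
    apply Complex.ext
    · simp [hre]
    · simp
  rw [e] at hv
  exact hy4 v.im hv1 hv2 hv

end window

/-- the general multi-scale count -/
theorem multi3 {C1 c1 C01 T L t u ε : ℝ} (hε0 : 0 < ε) (hε1 : ε ≤ 1 / 6400) (hC1 : 1 ≤ C1) (hc1 : 0 < c1) (hT : 1000 ≤ T)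
    (hL17 : 34 ≤ L) (hLT : L ≤ T / 100) (t0 : 0 < t) (t1 : t ≤ 1 / 2)
    (hu : t * L ≤ u) (huLL : u ≤ L) (h520 : 520 * t ≤ u ^ 2) (hlam : 2 ≤ u * L) (hlam1 : C01 ≤ u * L) (hlam2 : 1 / c1 ≤ u * L)
    (hstat : ∀ U : ℝ, C01 ≤ U * L → U ≤ 12 → ∀ S : Finset ℕ,
      (∀ n ∈ S, 3 * T / 4 ≤ n * U ∧ n * U ≤ 5 * T / 2) →
      (∀ n ∈ S, ¬ Good fx L ε (U / 16) (8 * U) (n * U)) →
      (S.card : ℝ) ≤ C1 * (T / U) * Real.exp (-(c1 * (U * L))))
    (htop : ∀ V R x0 : ℝ, 3 / 4 ≤ V → R ≤ T / 4 → T / 2 ≤ x0 → x0 ≤ 3 * T → Good fx L ε V R x0)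
    (S : Finset ℂ) (hS : ∀ w ∈ S, Hx t w = 0 ∧ 0 ≤ w.re ∧ w.re < 17 ∧ T < w.im ∧ w.im ≤ 2 * T)
    (h00 : ∀ w ∈ S, ∀ x0 : ℝ, Good fx L ε (u / 16) (8 * u) x0 → |w.im - x0| ≤ u / 2 → False) :
    ∑ w ∈ S, (H370.mult (Hx t) w : ℝ) ≤ 320 * C1 * (T * L) * Real.exp (-(c1 * (u * L))) := by
  classical
  have hL0 : 0 < L := by linarith
  have htL0 : 0 < t * L := mul_pos t0 hL0
  have hu0 : 0 < u := htL0.trans_le hu
  rcases le_or_gt 12 u with h12 | h12
  · -- large scale: no zeros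
    have : S = ∅ := by
      rw [Finset.eq_empty_iff_forall_notMem]
      intro w hw
      obtain ⟨hb, hw0, hw17, hwT, hwT2⟩ := hS w hw
      have hn := nr_spec (U := u) (x := w.im) hu0 (by linarith)
      have hn' := abs_le.1 hn
      have hg := htop (u / 16) (8 * u) (nr u w.im * u) (by linarith) (by linarith) (by linarith) (by linarith)
      exact h00 w hw _ hg hn
    rw [this, Finset.sum_empty]
    positivity
  · set U : ℕ → ℝ := fun j => 2 ^ j * u with hU
    have hU0 : ∀ j, 0 < U j := fun j => by simp only [hU]; positivity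
    have hUu : ∀ j, u ≤ U j := fun j => by
      simp only [hU]
      have : (1 : ℝ) ≤ 2 ^ j := one_le_pow₀ (by norm_num)
      nlinarith
    have hU520 : ∀ j, 520 * t ≤ U j ^ 2 := fun j =>
      h520.trans (pow_le_pow_left₀ hu0.le (hUu _) 2)
    have hex : ∃ j, 12 ≤ U j := by
      obtain ⟨k, hk⟩ := pow_unbounded_of_one_lt (12 / u) (one_lt_two : (1 : ℝ) < 2)
      refine ⟨k, ?_⟩
      rw [div_lt_iff₀ hu0] at hk
      exact hk.le
    set J := Nat.find hex with hJ
    have hJ1 : 12 ≤ U J := Nat.find_spec hex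
    have hJ2 : ∀ i, i < J → U i < 12 := fun i hi => not_le.1 (Nat.find_min hex hi)
    set P : ℂ → ℕ → Prop := fun w j => Good fx L ε (U j / 16) (8 * U j) (nr (U j) w.im * U j) with hP
    have hUsucc : ∀ i, U (i + 1) = 2 * U i := fun i => by simp only [hU]; rw [pow_succ]; ring
    have hJ0 : J ≠ 0 := by
      intro h0
      rw [h0] at hJ1
      simp only [hU, pow_zero, one_mul] at hJ1
      linarith
    have hUJ : U J < 24 := by
      obtain ⟨m, hm⟩ := Nat.exists_eq_succ_of_ne_zero hJ0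
      have h1 := hJ2 m (by omega)
      rw [hm, Nat.succ_eq_add_one, hUsucc]
      linarith
    have hUle : ∀ i, i < J → U (i + 1) < 24 := fun i hi => by
      rw [hUsucc]; linarith [hJ2 i hi]
    have hPJ : ∀ w ∈ S, P w J := by
      intro w hw
      obtain ⟨hb, hw0, hw17, hwT, hwT2⟩ := hS w hw
      have hn := abs_le.1 (nr_spec (U := U J) (x := w.im) (hU0 J) (by linarith))
      exact htop (U J / 16) (8 * U J) (nr (U J) w.im * U J) (by linarith) (by linarith) (by linarith) (by linarith)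
    set jj : ℂ → ℕ := fun w => sInf {j | P w j} with hjj
    have hjP : ∀ w ∈ S, P w (jj w) := fun w hw => Nat.sInf_mem (s := {j | P w j}) ⟨J, hPJ w hw⟩
    have hjJ : ∀ w ∈ S, jj w ≤ J := fun w hw => Nat.sInf_le (hPJ w hw)
    have hj0 : ∀ w ∈ S, jj w ≠ 0 := by
      intro w hw h0
      have h1 := hjP w hw
      rw [h0] at h1
      obtain ⟨hb, hw0, hw17, hwT, hwT2⟩ := hS w hw
      have hn := nr_spec (U := U 0) (x := w.im) (hU0 0) (by linarith)
      simp only [hP, hU, pow_zero, one_mul] at h1 hn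
      exact h00 w hw _ h1 hn
    set g : ℂ → ℕ := fun w => jj w - 1 with hg
    have hgJ : ∀ w ∈ S, g w ∈ Finset.range J := fun w hw => by
      have h1 := hjJ w hw
      have h2 := hj0 w hw
      simp only [hg, Finset.mem_range]; omega
    rw [← Finset.sum_fiberwise_of_maps_to hgJ]
    have hinner : ∀ i ∈ Finset.range J, ∑ w ∈ S.filter (fun w => g w = i), (H370.mult (Hx t) w : ℝ) ≤
        160 * C1 * (T * L) * Real.exp (-(c1 * (u * L) * 2 ^ i)) := by
      intro i hi
      rw [Finset.mem_range] at hi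
      set Si := S.filter (fun w => g w = i) with hSi
      have hSi' : ∀ w ∈ Si, w ∈ S ∧ jj w = i + 1 := by
        intro w hw
        rw [hSi, Finset.mem_filter] at hw
        refine ⟨hw.1, ?_⟩
        have h2 := hj0 w hw.1
        have h3 := hw.2
        simp only [hg] at h3
        omega
      set B := Si.image (fun w => nr (U i) w.im) with hB
      have hmaps : ∀ w ∈ Si, nr (U i) w.im ∈ B := fun w hw => Finset.mem_image_of_mem _ hw
      rw [← Finset.sum_fiberwise_of_maps_to hmaps]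
      have hcell : ∀ n ∈ B, ∑ w ∈ Si.filter (fun w => nr (U i) w.im = n), (H370.mult (Hx t) w : ℝ) ≤
          80 * U (i + 1) * L := by
        intro n hn
        rw [hB, Finset.mem_image] at hn
        obtain ⟨w1, hw1, hn1⟩ := hn
        obtain ⟨hw1S, hw1j⟩ := hSi' w1 hw1
        have hgood := hjP w1 hw1S
        rw [hw1j] at hgood
        obtain ⟨-, -, -, hwT, hwT2⟩ := hS w1 hw1S
        have ha := nr_spec (U := U (i + 1)) (x := w1.im) (hU0 _) (by linarith)
        have hb := nr_spec (U := U i) (x := w1.im) (hU0 _) (by linarith)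
        rw [hn1] at hb
        have hU2 : u * L ≤ U (i + 1) * L := mul_le_mul_of_nonneg_right (hUu _) hL0.le
        refine win_count3 hε0 hε1 hgood t0 t1 (by linarith) (by linarith [hUle i hi]) (hU0 _) (hu.trans (hUu _))
          (hU520 _) (by linarith) _ ?_
        intro w hw
        rw [Finset.mem_filter] at hw
        obtain ⟨hwSi, hwn⟩ := hw
        obtain ⟨hwS, hwj⟩ := hSi' w hwSi
        obtain ⟨hbw, hw0, hw17, hwT', hwT2'⟩ := hS w hwS
        have hgw := hjP w hwS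
        rw [hwj] at hgw
        have hc := nr_spec (U := U i) (x := w.im) (hU0 _) (by linarith)
        rw [hwn] at hc
        have hd := nr_spec (U := U (i + 1)) (x := w.im) (hU0 _) (by linarith)
        have hU1 := hUsucc i
        constructor
        · rw [abs_of_nonneg (by linarith)]
          exact (win_strip3 hε0 hε1 hgw t0 t1 (by linarith) (hU520 _) (hu.trans (hUu _)) hbw (by linarith) hw17
            (by linarith [hU0 (i + 1)])).le
        · have h1 := abs_le.1 ha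
          have h2 := abs_le.1 hb
          have h3 := abs_le.1 hc
          rw [abs_le]
          constructor <;> linarith [h1.1, h1.2, h2.1, h2.2, h3.1, h3.2]
      have hBcard : (B.card : ℝ) ≤ C1 * (T / U i) * Real.exp (-(c1 * (U i * L))) := by
        refine hstat (U i) ?_ (hJ2 i hi).le B ?_ ?_
        · have : u * L ≤ U i * L := mul_le_mul_of_nonneg_right (hUu _) hL0.le
          linarith
        · intro n hn
          rw [hB, Finset.mem_image] at hn
          obtain ⟨w1, hw1, hn1⟩ := hn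
          obtain ⟨hw1S, hw1j⟩ := hSi' w1 hw1
          obtain ⟨-, -, -, hwT, hwT2⟩ := hS w1 hw1S
          have hb := abs_le.1 (nr_spec (U := U i) (x := w1.im) (hU0 _) (by linarith))
          rw [hn1] at hb
          have := hJ2 i hi
          constructor <;> linarith [hb.1, hb.2]
        · intro n hn
          rw [hB, Finset.mem_image] at hn
          obtain ⟨w1, hw1, hn1⟩ := hn
          obtain ⟨hw1S, hw1j⟩ := hSi' w1 hw1
          have h1 : i ∉ {j | P w1 j} := Nat.notMem_of_lt_sInf (by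
            have : jj w1 = sInf {j | P w1 j} := rfl
            rw [← this, hw1j]; omega)
          simp only [hP, Set.mem_ofPred_eq] at h1
          rw [hn1] at h1
          exact h1
      refine (Finset.sum_le_sum hcell).trans ?_
      rw [Finset.sum_const, nsmul_eq_mul]
      have h5 : 0 ≤ 80 * U (i + 1) * L := by
        have := hU0 (i + 1)
        positivity
      refine (mul_le_mul_of_nonneg_right hBcard h5).trans (le_of_eq ?_)
      rw [hUsucc]
      have e1 : c1 * (U i * L) = c1 * (u * L) * 2 ^ i := by simp only [hU]; ring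
      rw [e1]
      have hUi := (hU0 i).ne'
      field_simp
      ring
    refine (Finset.sum_le_sum hinner).trans ?_
    rw [← Finset.mul_sum]
    have ha : 1 ≤ c1 * (u * L) := by
      rw [div_le_iff₀ hc1] at hlam2
      linarith
    have h7 := sum_scales ha J
    have h8 : 0 < 160 * C1 * (T * L) := by positivity
    calc 160 * C1 * (T * L) * ∑ i ∈ Finset.range J, Real.exp (-(c1 * (u * L) * 2 ^ i))
        ≤ 160 * C1 * (T * L) * (2 * Real.exp (-(c1 * (u * L)))) :=
          mul_le_mul_of_nonneg_left h7 h8.le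
      _ = _ := by ring

/-- **Irregular zeros**, half plane version -/
theorem irreg_count {δ : ℝ} (hδ0 : 0 < δ) (hδ1 : δ ≤ 1 / 2) : ∃ C c T0 : ℝ, 1 ≤ C ∧ 0 < c ∧ 1000 ≤ T0 ∧
    ∀ T t : ℝ, T0 ≤ T → 0 < t → t ≤ 1 / 2 →
    ∀ S : Finset ℂ, (∀ w ∈ S, Hx t w = 0 ∧ ¬ Reg δ (Real.log T) t w ∧ 0 ≤ w.re ∧ T < w.im ∧ w.im ≤ 2 * T) →
    ∑ w ∈ S, (H370.mult (Hx t) w : ℝ) ≤
      C * (T * Real.log T) * Real.exp (-(c * (t * (Real.log T) ^ 2))) := by
  set ε : ℝ := min (1 / 6400) (δ / 40) with hε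
  have hε0 : 0 < ε := lt_min (by norm_num) (by positivity)
  have hε1 : ε ≤ 1 / 6400 := min_le_left _ _
  have hε2 : 40 * ε ≤ δ := by
    have := min_le_right (1 / 6400) (δ / 40)
    rw [← hε] at this
    linarith
  obtain ⟨C1, c1, C01, T1, hC1, hc1, hC01, hT1, hst⟩ := good_stat hε0
  obtain ⟨T2, hT2, htop⟩ := good_top hε0
  obtain ⟨T3, hT3, htop'⟩ := good_top (ε := 1 / 6400) (by norm_num)
  obtain ⟨K, hK, hstrip⟩ := strip
  set l0 : ℝ := max (max 2000000 C01) (max (1 / c1) ((640 / δ) ^ 2)) with hl0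
  have hl01 : 2000000 ≤ l0 := (le_max_left _ _).trans (le_max_left _ _)
  have hl02 : C01 ≤ l0 := (le_max_right _ _).trans (le_max_left _ _)
  have hl03 : 1 / c1 ≤ l0 := (le_max_left _ _).trans (le_max_right _ _)
  have hl04 : (640 / δ) ^ 2 ≤ l0 := (le_max_right _ _).trans (le_max_right _ _)
  refine ⟨max (320 * C1) (1360 * Real.exp (c1 * l0)), c1,
    max (max T1 (max T2 T3)) (max K (max (Real.exp l0) 40000)), ?_, hc1, ?_, ?_⟩
  · refine le_trans ?_ (le_max_left _ _)
    linarith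
  · exact hT1.trans ((le_max_left _ _).trans (le_max_left _ _))
  intro T t hT t0 t1 S hS
  have hTT1 : T1 ≤ T := ((le_max_left _ _).trans (le_max_left _ _)).trans hT
  have hTT2 : T2 ≤ T := ((le_max_left _ _).trans ((le_max_right _ _).trans (le_max_left _ _))).trans hT
  have hTT3 : T3 ≤ T := ((le_max_right _ _).trans ((le_max_right _ _).trans (le_max_left _ _))).trans hT
  have hTK : K ≤ T := ((le_max_left _ _).trans (le_max_right _ _)).trans hT
  have hTe : Real.exp l0 ≤ T := ((le_max_left _ _).trans ((le_max_right _ _).trans (le_max_right _ _))).trans hT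
  have hT4 : 40000 ≤ T := ((le_max_right _ _).trans ((le_max_right _ _).trans (le_max_right _ _))).trans hT
  have hTpos : 0 < T := by linarith
  set L := Real.log T with hL
  have hLl : l0 ≤ L := (Real.le_log_iff_exp_le hTpos).2 hTe
  have hLT : L ≤ T / 100 := by
    have h1 : Real.log T = 2 * Real.log (Real.sqrt T) := by rw [Real.log_sqrt hTpos.le]; ring
    have h2 := Real.log_le_sub_one_of_pos (Real.sqrt_pos.2 hTpos)
    have h3 : 200 ≤ Real.sqrt T := by
      rw [show (200 : ℝ) = Real.sqrt (200 ^ 2) by rw [Real.sqrt_sq (by norm_num)]]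
      exact Real.sqrt_le_sqrt (by norm_num; linarith)
    have h4 : Real.sqrt T * Real.sqrt T = T := Real.mul_self_sqrt hTpos.le
    rw [hL, h1]
    nlinarith
  have hL34 : 34 ≤ L := by linarith
  have hL0 : 0 < L := by linarith
  have hS' : ∀ w ∈ S, Hx t w = 0 ∧ 0 ≤ w.re ∧ w.re < 17 ∧ T < w.im ∧ w.im ≤ 2 * T := by
    intro w hw
    obtain ⟨hb, -, h0, h1, h2⟩ := hS w hw
    exact ⟨hb, h0, hstrip t w t0 t1 hb (by linarith), h1, h2⟩
  have hTL : 0 < T * L := by positivity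
  have htL0 : 0 < t * L := mul_pos t0 hL0
  have huL : t * L * L = t * L ^ 2 := by ring
  rcases le_or_gt l0 (t * L ^ 2) with h | h
  · have h1 := multi3 (T := T) (u := t * L) hε0 hε1 hC1 hc1 (by linarith) hL34 hLT t0 t1 le_rfl (by nlinarith) (by
        have h2 : (t * L) ^ 2 = t * (t * L ^ 2) := by ring
        have h3 : t * 2000000 ≤ t * (t * L ^ 2) := mul_le_mul_of_nonneg_left (hl01.trans h) t0.le
        linarith) (by rw [huL]; linarith) (by rw [huL]; exact hl02.trans h) (by rw [huL]; exact hl03.trans h)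
      (fun U hU1 hU2 S' hS1 hS2 => hst T U hTT1 hU1 hU2 S' hS1 hS2)
      (fun V R x0 h1 h2 h3 h4 => htop T V R x0 hTT2 h1 h2 h3 h4) S hS' (by
        intro w hw x0 hg hn
        obtain ⟨hb, hr, h0, h1, h2⟩ := hS w hw
        exact hr (win_reg hε0 hε1 hδ0 hδ1 hε2 hg t0 t1 (by linarith) (hl01.trans h) (hl04.trans h) hb h0
          (fun v hv hv1 => hstrip t v t0 t1 hv (by linarith)) hn))
    rw [huL] at h1
    refine h1.trans ?_
    apply mul_le_mul_of_nonneg_right _ (Real.exp_pos _).le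
    exact mul_le_mul_of_nonneg_right (le_max_left _ _) hTL.le
  · have htL : t * L ≤ 17 := by
      have : t * L * L < l0 := by rw [huL]; exact h
      have h2 : t * L * l0 ≤ t * L * L := mul_le_mul_of_nonneg_left hLl (by positivity)
      have h3 : t * L * l0 < 1 * l0 := by linarith
      have := lt_of_mul_lt_mul_right h3 (by linarith)
      linarith
    have h1 := total (by linarith) hL34 hLT t0 t1 htL
      (fun V R x0 h1 h2 h3 h4 => htop' T V R x0 hTT3 h1 h2 h3 h4) S (fun w hw => (hS' w hw).2)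
    refine h1.trans ?_
    have h2 : 1 ≤ Real.exp (c1 * l0) * Real.exp (-(c1 * (t * L ^ 2))) := by
      rw [← Real.exp_add]
      apply Real.one_le_exp
      nlinarith
    calc 1360 * (T * L) = 1360 * 1 * (T * L) := by ring
      _ ≤ 1360 * (Real.exp (c1 * l0) * Real.exp (-(c1 * (t * L ^ 2)))) * (T * L) := by gcongr
      _ = 1360 * Real.exp (c1 * l0) * (T * L) * Real.exp (-(c1 * (t * L ^ 2))) := by ring
      _ ≤ _ := by
        apply mul_le_mul_of_nonneg_right _ (Real.exp_pos _).le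
        exact mul_le_mul_of_nonneg_right (le_max_right _ _) hTL.le

/-- **Density of irregular zeros**, half plane version -/
theorem irreg_density {δ : ℝ} (hδ0 : 0 < δ) (hδ1 : δ ≤ 1 / 2) : ∃ C c T0 : ℝ, 1 ≤ C ∧ 0 < c ∧ 1000 ≤ T0 ∧
    ∀ T t y : ℝ, T0 ≤ T → 0 < t → t ≤ 1 / 2 → 0 ≤ y →
    ∀ S : Finset ℂ, (∀ w ∈ S, Hx t w = 0 ∧ ¬ Reg δ (Real.log T) t w ∧ y ≤ w.re ∧ T < w.im ∧ w.im ≤ 2 * T) →
    ∑ w ∈ S, (H370.mult (Hx t) w : ℝ) ≤
      C * (T * Real.log T) * Real.exp (-(c * ((y + t * Real.log T) * Real.log T))) := by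
  obtain ⟨Ca, ca, Ta, hCa, hca, hTa, hbad⟩ := irreg_count hδ0 hδ1
  obtain ⟨Cb, cb, Tb, hCb, hcb, hTb, hden⟩ := density
  refine ⟨max Ca Cb, min (ca / 2) cb, max Ta Tb, hCa.trans (le_max_left _ _), by positivity,
    hTa.trans (le_max_left _ _), ?_⟩
  intro T t y hT t0 t1 hy S hS
  have hTTa : Ta ≤ T := (le_max_left _ _).trans hT
  have hTTb : Tb ≤ T := (le_max_right _ _).trans hT
  set L := Real.log T with hL
  have hL0 : 0 < L := Real.log_pos (by linarith)
  have hTL : 0 < T * L := mul_pos (by linarith) hL0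
  have hCpos : 0 ≤ max Ca Cb := le_trans (by linarith) (le_max_left _ _)
  rcases le_or_gt y (t * L) with h | h
  · have h1 := hbad T t hTTa t0 t1 S (fun w hw => by
      obtain ⟨a1, a2, a3, a4, a5⟩ := hS w hw
      exact ⟨a1, a2, hy.trans a3, a4, a5⟩)
    refine h1.trans ?_
    refine mul_le_mul (mul_le_mul_of_nonneg_right (le_max_left _ _) hTL.le) (Real.exp_le_exp.2 ?_)
      (Real.exp_pos _).le (mul_nonneg hCpos hTL.le)
    have h2 : (y + t * L) * L ≤ 2 * (t * L ^ 2) := by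
      have : y * L ≤ t * L * L := mul_le_mul_of_nonneg_right h hL0.le
      nlinarith
    have h3 : min (ca / 2) cb * ((y + t * L) * L) ≤ ca / 2 * ((y + t * L) * L) :=
      mul_le_mul_of_nonneg_right (min_le_left _ _) (by positivity)
    have h4 : ca / 2 * ((y + t * L) * L) ≤ ca / 2 * (2 * (t * L ^ 2)) := mul_le_mul_of_nonneg_left h2 (by positivity)
    linarith
  · have htL0 : 0 < t * L := mul_pos t0 hL0
    have h1 := hden T t y hTTb t0 t1 hy S (fun w hw => by
      obtain ⟨a1, a2, a3, a4, a5⟩ := hS w hw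
      exact ⟨⟨a1, Or.inl (by linarith)⟩, a3, a4, a5⟩)
    refine h1.trans ?_
    refine mul_le_mul (mul_le_mul_of_nonneg_right (le_max_right _ _) hTL.le) (Real.exp_le_exp.2 ?_)
      (Real.exp_pos _).le (mul_nonneg hCpos hTL.le)
    have h3 : min (ca / 2) cb * ((y + t * L) * L) ≤ cb * ((y + t * L) * L) :=
      mul_le_mul_of_nonneg_right (min_le_right _ _) (by positivity)
    linarith

end Pool.Agent.Helper54.Hf
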