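import Pool.Agent.Helper54.Hf.S12

set_option autoImplicit false
set_option maxHeartbeats 1000000

/-!
The number of regular zeros, and the final form in terms of `z` with `w = i z`.
-/

open Complex MeasureTheory Set Filter Topology

namespace Pool.Agent.Helper54.Hf

open Pool.Agent.Helper54.Xm

/-- one good window has many regular zeros -/
lemma win_real3 {L t x0 ε δ d : ℝ} (hε0 : 0 < ε) (hε1 : ε ≤ 1 / 6400) (hδ0 : 0 < δ) (hδ1 : δ ≤ 1 / 2)
    (hd0 : 0 < d) (hd1 : d ≤ δ) (hεd : 40 * ε ≤ d)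
    (h : Good fx L ε (t * L / 16) (8 * (t * L)) x0) (t0 : 0 < t)
    (t1 : t ≤ 1 / 2) (hL : 17 ≤ L) (hlam : 2000000 ≤ t * L ^ 2) (hld : (640 / d) ^ 2 ≤ t * L ^ 2)
    (hlδ : (640 / δ) ^ 2 ≤ t * L ^ 2)
    (hst : ∀ v : ℂ, Hx t v = 0 → x0 - t * L / 2 ≤ v.im → v.re < 17) (k : ℕ)
    (hk : (1 + 2 * d) * (2 * Real.pi) * ((k : ℝ) + 1) / L ≤ t * L) :
    ∃ y : ℝ, x0 - t * L / 2 + (1 + 2 * d) * (2 * Real.pi) * k / L ≤ y ∧
      y < x0 - t * L / 2 + (1 + 2 * d) * (2 * Real.pi) * ((k : ℝ) + 1) / L ∧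
      Hx t (I * y) = 0 ∧ Reg δ L t (I * y) := by
  have hL0 : 0 < L := by linarith
  have htL : 0 < t * L := mul_pos t0 hL0
  have hpi0 := Real.pi_pos
  have hk0 : 0 ≤ (1 + 2 * d) * (2 * Real.pi) * (k : ℝ) / L := by positivity
  have hk1 : (1 + 2 * d) * (2 * Real.pi) * ((k : ℝ) + 1) / L =
    (1 + 2 * d) * (2 * Real.pi) * k / L + (1 + 2 * d) * (2 * Real.pi) / L := by ring
  have h14 : 0 < (1 + 2 * d) * (2 * Real.pi) / L := by positivity
  set y0 := x0 - t * L / 2 + (1 + 2 * d) * (2 * Real.pi) * k / L with hy0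
  have hl := win_loc3 (w := ⟨0, y0⟩) hε0 hε1 h t0 t1 hL0 htL le_rfl (by simp) (by simp; linarith) (by simp)
    (by simp only; rw [abs_le]; constructor <;> linarith)
  obtain ⟨y, hy1, hy2, hy3⟩ := hl.zero_near fx_sym fx_gr (Hx_diff t1) (Hx_heat t0 t1) hlam rfl hd0
    (by linarith) (by linarith) hld
  simp only at hy1 hy2
  have h1314 : (1 + d) * (2 * Real.pi / L) < (1 + 2 * d) * (2 * Real.pi) / L := by
    have e : (1 + 2 * d) * (2 * Real.pi) / L = (1 + d) * (2 * Real.pi / L) + d * (2 * Real.pi / L) := by ring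
    rw [e]
    have : 0 < d * (2 * Real.pi / L) := by positivity
    linarith
  have hre : (I * (y : ℂ)).re = 0 := by simp
  have him : (I * (y : ℂ)).im = y := by simp
  refine ⟨y, hy1, by linarith, hy3, ?_⟩
  exact win_reg hε0 hε1 hδ0 hδ1 (by linarith) h t0 t1 hL hlam hlδ hy3 hre.ge
    (fun v hv hv1 => hst v hv (by rw [him] at hv1; linarith)) (by
      rw [him, abs_le]; constructor <;> linarith)

/-- **Regular zeros** -/
theorem reg_count {δ : ℝ} (hδ0 : 0 < δ) (hδ1 : δ ≤ 1 / 2) : ∃ l1 T0 : ℝ, 1 ≤ l1 ∧ 1000 ≤ T0 ∧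
    ∀ T t : ℝ, T0 ≤ T → 0 < t → t ≤ 1 / 2 →
    l1 ≤ t * (Real.log T) ^ 2 → ∃ S : Finset ℝ, (∀ y ∈ S, T < y ∧ y ≤ 2 * T ∧ Hx t (I * y) = 0 ∧
      Reg δ (Real.log T) t (I * y)) ∧ (1 - δ) * (T / (2 * Real.pi) * Real.log T) ≤ (S.card : ℝ) := by
  classical
  have hpi0 := Real.pi_pos
  have hpi2 := Real.pi_lt_d2
  set d : ℝ := δ / 4 with hd
  have hd0 : 0 < d := by positivity
  have hd1 : d ≤ 1 / 8 := by rw [hd]; linarith
  set ε : ℝ := min (1 / 6400) (d / 40) with hε
  have hε0 : 0 < ε := lt_min (by norm_num) (by positivity)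
  have hε1 : ε ≤ 1 / 6400 := min_le_left _ _
  have hε2 : 40 * ε ≤ d := by
    have := min_le_right (1 / 6400) (d / 40)
    rw [← hε] at this
    linarith
  obtain ⟨C1, c1, C01, T1, hC1, hc1, hC01, hT1, hst⟩ := good_stat hε0
  obtain ⟨T2, hT2, htop⟩ := good_top hε0
  obtain ⟨Ks, hKs, hstrip⟩ := strip
  set l0 : ℝ := max (max 2000000 C01) (max (2 * C1 / (c1 * d)) (max ((640 / d) ^ 2) (10 / d))) with hl0
  have hl01 : 2000000 ≤ l0 := (le_max_left _ _).trans (le_max_left _ _)
  have hl02 : C01 ≤ l0 := (le_max_right _ _).trans (le_max_left _ _)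
  have hl03 : 2 * C1 / (c1 * d) ≤ l0 := (le_max_left _ _).trans (le_max_right _ _)
  have hl04 : (640 / d) ^ 2 ≤ l0 := (le_max_left _ _).trans ((le_max_right _ _).trans (le_max_right _ _))
  have hl05 : 10 / d ≤ l0 := (le_max_right _ _).trans ((le_max_right _ _).trans (le_max_right _ _))
  refine ⟨l0, max (max T1 T2) (max (Real.exp 34) (max 40000 (max Ks ((6 / d) ^ 2)))), by linarith, ?_, ?_⟩
  · exact hT1.trans ((le_max_left _ _).trans (le_max_left _ _))
  intro T t hT t0 t1 hlam0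
  have hTT1 : T1 ≤ T := ((le_max_left _ _).trans (le_max_left _ _)).trans hT
  have hTT2 : T2 ≤ T := ((le_max_right _ _).trans (le_max_left _ _)).trans hT
  have hTe : Real.exp 34 ≤ T := ((le_max_left _ _).trans (le_max_right _ _)).trans hT
  have hT4 : 40000 ≤ T := ((le_max_left _ _).trans ((le_max_right _ _).trans (le_max_right _ _))).trans hT
  have hTK : Ks ≤ T := ((le_max_left _ _).trans ((le_max_right _ _).trans ((le_max_right _ _).trans (le_max_right _ _)))).trans hT
  have hT6 : (6 / d) ^ 2 ≤ T := ((le_max_right _ _).trans ((le_max_right _ _).trans ((le_max_right _ _).trans (le_max_right _ _)))).trans hT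
  have hTpos : 0 < T := by linarith
  set L := Real.log T with hL
  have hL34 : 34 ≤ L := (Real.le_log_iff_exp_le hTpos).2 hTe
  have hLsq : L ≤ 2 * Real.sqrt T := by
    have h1 : Real.log T = 2 * Real.log (Real.sqrt T) := by rw [Real.log_sqrt hTpos.le]; ring
    have h2 := Real.log_le_sub_one_of_pos (Real.sqrt_pos.2 hTpos)
    rw [hL, h1]
    linarith
  have hsT : Real.sqrt T * Real.sqrt T = T := Real.mul_self_sqrt hTpos.le
  have hLT : L ≤ T / 100 := by
    have h3 : 200 ≤ Real.sqrt T := by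
      rw [show (200 : ℝ) = Real.sqrt (200 ^ 2) by rw [Real.sqrt_sq (by norm_num)]]
      exact Real.sqrt_le_sqrt (by norm_num; linarith)
    have h4 := mul_le_mul_of_nonneg_right h3 (Real.sqrt_nonneg T)
    rw [hsT] at h4
    linarith
  have hLT2 : 3 * L ≤ d * T := by
    have h3 : 6 / d ≤ Real.sqrt T := by
      rw [show (6 / d : ℝ) = Real.sqrt ((6 / d) ^ 2) by rw [Real.sqrt_sq (by positivity)]]
      exact Real.sqrt_le_sqrt hT6
    have h4 : 6 ≤ Real.sqrt T * d := by rwa [div_le_iff₀ hd0] at h3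
    have h5 : Real.sqrt T * 6 ≤ Real.sqrt T * (Real.sqrt T * d) :=
      mul_le_mul_of_nonneg_left h4 (Real.sqrt_nonneg _)
    have h6 : Real.sqrt T * (Real.sqrt T * d) = d * T := by rw [← mul_assoc, hsT]; ring
    linarith
  have hL0 : 0 < L := by linarith
  set U := t * L with hU
  have hU0 : 0 < U := mul_pos t0 hL0
  have huL : t * L ^ 2 = U * L := by rw [hU]; ring
  rw [huL] at hlam0
  have hlam : 2000000 ≤ U * L := hl01.trans hlam0
  have huL2 : U ≤ L / 2 := by
    have := mul_le_mul_of_nonneg_right t1 hL0.le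
    rw [hU]; linarith
  -- the windows
  set a : ℕ := ⌈T / U⌉₊ + 1 with ha
  set b : ℕ := ⌊2 * T / U⌋₊ - 1 with hb
  have hTU : 200 ≤ T / U := by
    rw [le_div_iff₀ hU0]; linarith
  have hTU3 : 3 ≤ d / 2 * (T / U) := by
    rw [← mul_div_assoc, le_div_iff₀ hU0]; linarith
  have ha1 : T / U ≤ (⌈T / U⌉₊ : ℝ) := Nat.le_ceil _
  have ha2 : (⌈T / U⌉₊ : ℝ) < T / U + 1 := Nat.ceil_lt_add_one (by linarith)
  have hTU2 : 2 * T / U = 2 * (T / U) := by ring
  have hb1 : (⌊2 * T / U⌋₊ : ℝ) ≤ 2 * (T / U) := by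
    rw [← hTU2]; exact Nat.floor_le (by positivity)
  have hb2 : 2 * (T / U) < (⌊2 * T / U⌋₊ : ℝ) + 1 := by
    rw [← hTU2]; exact Nat.lt_floor_add_one _
  have hbn : 1 ≤ ⌊2 * T / U⌋₊ := by
    have : (1 : ℝ) ≤ ⌊2 * T / U⌋₊ := by linarith
    exact_mod_cast this
  have hbr : (b : ℝ) = (⌊2 * T / U⌋₊ : ℝ) - 1 := by
    rw [hb, Nat.cast_sub hbn, Nat.cast_one]
  have har : (a : ℝ) = (⌈T / U⌉₊ : ℝ) + 1 := by rw [ha]; push_cast; ring
  set A := Finset.Icc a b with hA
  have hAmem : ∀ n ∈ A, T + U ≤ n * U ∧ n * U ≤ 2 * T - U := by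
    intro n hn
    rw [hA, Finset.mem_Icc] at hn
    have h1 : (a : ℝ) ≤ n := by exact_mod_cast hn.1
    have h2 : (n : ℝ) ≤ b := by exact_mod_cast hn.2
    have e1 : T / U * U = T := by field_simp
    constructor
    · have h3 : T / U + 1 ≤ n := by linarith
      have := mul_le_mul_of_nonneg_right h3 hU0.le
      linarith
    · have h3 : (n : ℝ) ≤ 2 * (T / U) - 1 := by linarith
      have := mul_le_mul_of_nonneg_right h3 hU0.le
      linarith
  have hAcard : T / U - 3 ≤ (A.card : ℝ) := by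
    rw [hA, Nat.card_Icc]
    have h1 : ((b + 1 : ℕ) : ℝ) ≤ ((b + 1 - a : ℕ) : ℝ) + a := by
      have : b + 1 ≤ (b + 1 - a) + a := by omega
      exact_mod_cast this
    push_cast at h1
    linarith
  set Gd := A.filter (fun n : ℕ => Good fx L ε (U / 16) (8 * U) (n * U)) with hGd
  set Bd := A.filter (fun n : ℕ => ¬ Good fx L ε (U / 16) (8 * U) (n * U)) with hBd
  have hsplit : Gd.card + Bd.card = A.card := Finset.card_filter_add_card_filter_not _
  have hBdcard : (Bd.card : ℝ) ≤ d / 2 * (T / U) := by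
    rcases le_or_gt U 12 with h12 | h12
    · have h1 := hst T U hTT1 (hl02.trans hlam0) h12 Bd (by
        intro n hn
        rw [hBd, Finset.mem_filter] at hn
        have := hAmem n hn.1
        constructor <;> linarith [this.1, this.2]) (by
        intro n hn
        rw [hBd, Finset.mem_filter] at hn
        exact hn.2)
      refine h1.trans ?_
      have h2 : 2 * C1 / d ≤ c1 * (U * L) := by
        have h5 := hl03.trans hlam0
        rw [div_le_iff₀ (by positivity)] at h5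
        rw [div_le_iff₀ hd0]
        linarith
      have h3 : Real.exp (-(c1 * (U * L))) ≤ d / (2 * C1) := by
        have e : d / (2 * C1) = (2 * C1 / d)⁻¹ := by rw [inv_div]
        rw [Real.exp_neg, e]
        apply inv_anti₀ (by positivity)
        have := Real.add_one_le_exp (c1 * (U * L))
        linarith
      calc C1 * (T / U) * Real.exp (-(c1 * (U * L))) ≤ C1 * (T / U) * (d / (2 * C1)) :=
            mul_le_mul_of_nonneg_left h3 (by positivity)
        _ = _ := by field_simp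
    · have : Bd = ∅ := by
        rw [Finset.eq_empty_iff_forall_notMem]
        intro n hn
        rw [hBd, Finset.mem_filter] at hn
        have := hAmem n hn.1
        exact hn.2 (htop T (U / 16) (8 * U) (n * U) hTT2 (by linarith) (by linarith)
          (by linarith [this.1]) (by linarith [this.2]))
      rw [this]
      simp only [Finset.card_empty, Nat.cast_zero]
      positivity
  have hGdcard : (1 - d) * (T / U) ≤ (Gd.card : ℝ) := by
    have : (Gd.card : ℝ) + Bd.card = A.card := by exact_mod_cast hsplit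
    linarith
  -- the subintervals
  set β : ℝ := (1 + 2 * d) * (2 * Real.pi) with hβ
  have hβ0 : 0 < β := by positivity
  have hβ10 : β ≤ 10 := by
    have := mul_le_mul (show 1 + 2 * d ≤ 5 / 4 by linarith) (show 2 * Real.pi ≤ 6.3 by linarith)
      (by positivity) (by norm_num)
    rw [hβ]; linarith
  set K : ℕ := ⌊U * L / β⌋₊ with hK
  have hK1 : (K : ℝ) ≤ U * L / β := Nat.floor_le (by positivity)
  have hK2 : U * L / β < K + 1 := Nat.lt_floor_add_one _
  have hK3 : (1 - d) * (U * L / β) ≤ K := by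
    have h1 : 1 ≤ d * (U * L / β) := by
      rw [← mul_div_assoc, le_div_iff₀ hβ0]
      have h5 := hl05.trans hlam0
      rw [div_le_iff₀ hd0] at h5
      linarith
    linarith
  have hch : ∀ q : ℕ × ℕ, ∃ y : ℝ, q.1 ∈ Gd → q.2 < K →
      (q.1 * U - U / 2 + β * q.2 / L ≤ y ∧ y < q.1 * U - U / 2 + β * ((q.2 : ℝ) + 1) / L ∧
      Hx t (I * y) = 0 ∧ Reg δ L t (I * y)) := by
    intro q
    by_cases hq : q.1 ∈ Gd ∧ q.2 < K
    · have h1 := hq.1
      rw [hGd, Finset.mem_filter] at h1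
      have h2 : (q.2 : ℝ) + 1 ≤ K := by exact_mod_cast hq.2
      have h3 : β * ((q.2 : ℝ) + 1) / L ≤ t * L := by
        rw [div_le_iff₀ hL0, ← hU]
        have : β * ((q.2 : ℝ) + 1) ≤ β * (U * L / β) := mul_le_mul_of_nonneg_left (by linarith) hβ0.le
        have e : β * (U * L / β) = U * L := by field_simp
        linarith
      have h4 := hAmem q.1 h1.1
      obtain ⟨y, hy⟩ := win_real3 hε0 hε1 hδ0 hδ1 hd0 (by rw [hd]; linarith) hε2 h1.2 t0 t1 (by linarith)
        (by rw [huL]; exact hlam) (by rw [huL]; exact hl04.trans hlam0) (by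
          rw [huL]
          refine le_trans ?_ (hl04.trans hlam0)
          apply pow_le_pow_left₀ (by positivity)
          apply div_le_div_of_nonneg_left (by norm_num) hd0
          rw [hd]; linarith)
        (fun v hv hv1 => hstrip t v t0 t1 hv (by linarith [h4.1])) q.2 h3
      exact ⟨y, fun _ _ => hy⟩
    · refine ⟨0, fun h1 h2 => absurd ⟨h1, h2⟩ hq⟩
  choose Y hY using hch
  have hq2 : ∀ q : ℕ × ℕ, q.2 < K → β * ((q.2 : ℝ) + 1) / L ≤ U := by
    intro q hq
    have h2 : (q.2 : ℝ) + 1 ≤ K := by exact_mod_cast hq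
    rw [div_le_iff₀ hL0]
    have : β * ((q.2 : ℝ) + 1) ≤ β * (U * L / β) := mul_le_mul_of_nonneg_left (by linarith) hβ0.le
    have e : β * (U * L / β) = U * L := by field_simp
    linarith
  have hinj : Set.InjOn Y (↑(Gd ×ˢ Finset.range K) : Set (ℕ × ℕ)) := by
    intro q hq q' hq' he
    rw [Finset.mem_coe, Finset.mem_product, Finset.mem_range] at hq hq'
    obtain ⟨a1, a2, -, -⟩ := hY q hq.1 hq.2
    obtain ⟨b1, b2, -, -⟩ := hY q' hq'.1 hq'.2
    have c1' := hq2 q hq.2
    have c2' := hq2 q' hq'.2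
    have p1 : 0 ≤ β * (q.2 : ℝ) / L := by positivity
    have p2 : 0 ≤ β * (q'.2 : ℝ) / L := by positivity
    rw [he] at a1 a2
    have hfst : q.1 = q'.1 := by
      rcases lt_trichotomy q.1 q'.1 with h | h | h
      · exfalso
        have h1 : (q.1 : ℝ) + 1 ≤ q'.1 := by exact_mod_cast h
        have := mul_le_mul_of_nonneg_right h1 hU0.le
        linarith
      · exact h
      · exfalso
        have h1 : (q'.1 : ℝ) + 1 ≤ q.1 := by exact_mod_cast h
        have := mul_le_mul_of_nonneg_right h1 hU0.le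
        linarith
    have hsnd : q.2 = q'.2 := by
      rw [hfst] at a1 a2
      rcases lt_trichotomy q.2 q'.2 with h | h | h
      · exfalso
        have h1 : (q.2 : ℝ) + 1 ≤ q'.2 := by exact_mod_cast h
        have : β * ((q.2 : ℝ) + 1) / L ≤ β * q'.2 / L := by gcongr
        linarith
      · exact h
      · exfalso
        have h1 : (q'.2 : ℝ) + 1 ≤ q.2 := by exact_mod_cast h
        have : β * ((q'.2 : ℝ) + 1) / L ≤ β * q.2 / L := by gcongr
        linarith
    exact Prod.ext hfst hsnd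
  refine ⟨(Gd ×ˢ Finset.range K).image Y, ?_, ?_⟩
  · intro y hy
    rw [Finset.mem_image] at hy
    obtain ⟨q, hq, rfl⟩ := hy
    rw [Finset.mem_product, Finset.mem_range] at hq
    obtain ⟨a1, a2, a3, a4⟩ := hY q hq.1 hq.2
    have h1 := hq.1
    rw [hGd, Finset.mem_filter] at h1
    have h2 := hAmem q.1 h1.1
    have h3 := hq2 q hq.2
    have p1 : 0 ≤ β * (q.2 : ℝ) / L := by positivity
    exact ⟨by linarith [h2.1], by linarith [h2.2], a3, a4⟩
  · rw [Finset.card_image_of_injOn hinj, Finset.card_product, Finset.card_range]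
    push_cast
    have h1 : (1 - d) * (T / U) * ((1 - d) * (U * L / β)) ≤ (Gd.card : ℝ) * K := by
      have hd1' : 0 ≤ 1 - d := by linarith
      exact mul_le_mul hGdcard hK3 (by positivity) (by positivity)
    refine le_trans ?_ h1
    have e : (1 - d) * (T / U) * ((1 - d) * (U * L / β)) = (1 - d) ^ 2 * (T * L) / β := by field_simp
    rw [e, le_div_iff₀ hβ0, hβ]
    have hTL : 0 < T * L := by positivity
    have e2 : (1 - δ) * (T / (2 * Real.pi) * L) * ((1 + 2 * d) * (2 * Real.pi)) =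
        (1 - 4 * d) * (1 + 2 * d) * (T * L) := by rw [hd]; field_simp
    rw [e2]
    apply mul_le_mul_of_nonneg_right _ hTL.le
    have e3 : (1 - d) ^ 2 - (1 - 4 * d) * (1 + 2 * d) = 9 * d ^ 2 := by ring
    have e4 := sq_nonneg d
    linarith

/-- the two half planes -/
theorem irreg_z {δ : ℝ} (hδ0 : 0 < δ) (hδ1 : δ ≤ 1 / 2) : ∃ C c T0 : ℝ, 1 ≤ C ∧ 0 < c ∧ 1000 ≤ T0 ∧
    ∀ T t y : ℝ, T0 ≤ T → 0 < t → t ≤ 1 / 2 → 0 ≤ y →
    ∀ s : Finset ℂ, (∀ z ∈ s, Hx t (I * z) = 0 ∧ T < z.re ∧ z.re ≤ 2 * T ∧ y ≤ |z.im| ∧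
      ¬ Reg δ (Real.log T) t (I * z)) →
    ∑ z ∈ s, (H370.mult (Hx t) (I * z) : ℝ) ≤
      C * (T * Real.log T) * Real.exp (-(c * ((y + t * Real.log T) * Real.log T))) := by
  classical
  obtain ⟨C, c, T0, hC, hc, hT0, h⟩ := irreg_density hδ0 hδ1
  refine ⟨2 * C, c, T0, by linarith, hc, hT0, ?_⟩
  intro T t y hT t0 t1 hy s hs
  set B := C * (T * Real.log T) * Real.exp (-(c * ((y + t * Real.log T) * Real.log T))) with hB
  have h1 : ∑ z ∈ s.filter (fun z => z.im ≤ 0), (H370.mult (Hx t) (I * z) : ℝ) ≤ B := by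
    have hinj : Set.InjOn (fun z : ℂ => I * z) (↑(s.filter (fun z => z.im ≤ 0)) : Set ℂ) := by
      intro a _ b _ hab
      exact mul_left_cancel₀ I_ne_zero hab
    have e := Finset.sum_image (f := fun w => (H370.mult (Hx t) w : ℝ)) hinj
    rw [← e]
    refine h T t y hT t0 t1 hy _ ?_
    intro w hw
    rw [Finset.mem_image] at hw
    obtain ⟨z, hz, rfl⟩ := hw
    rw [Finset.mem_filter] at hz
    obtain ⟨hz1, hz2⟩ := hz
    obtain ⟨a1, a2, a3, a4, a5⟩ := hs z hz1
    have hre : (I * z).re = -z.im := by simp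
    have him : (I * z).im = z.re := by simp
    refine ⟨a1, a5, ?_, by rw [him]; exact a2, by rw [him]; exact a3⟩
    rw [hre]
    rwa [abs_of_nonpos hz2] at a4
  have h2 : ∑ z ∈ s.filter (fun z => ¬ z.im ≤ 0), (H370.mult (Hx t) (I * z) : ℝ) ≤ B := by
    have hinj : Set.InjOn (fun z : ℂ => -(starRingEnd ℂ (I * z)))
        (↑(s.filter (fun z => ¬ z.im ≤ 0)) : Set ℂ) := by
      intro a _ b _ hab
      have h3 := neg_injective hab
      have h4 := (starRingEnd ℂ).injective h3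
      exact mul_left_cancel₀ I_ne_zero h4
    have e := Finset.sum_image (f := fun w => (H370.mult (Hx t) w : ℝ)) hinj
    have e2 : ∑ z ∈ s.filter (fun z => ¬ z.im ≤ 0), (H370.mult (Hx t) (I * z) : ℝ) =
        ∑ z ∈ s.filter (fun z => ¬ z.im ≤ 0), (H370.mult (Hx t) (-(starRingEnd ℂ (I * z))) : ℝ) :=
      Finset.sum_congr rfl fun z _ => by rw [mult_sym t1]
    rw [e2, ← e]
    refine h T t y hT t0 t1 hy _ ?_
    intro w hw
    rw [Finset.mem_image] at hw
    obtain ⟨z, hz, rfl⟩ := hw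
    rw [Finset.mem_filter, not_le] at hz
    obtain ⟨hz1, hz2⟩ := hz
    obtain ⟨a1, a2, a3, a4, a5⟩ := hs z hz1
    have hre : (-(starRingEnd ℂ (I * z))).re = z.im := by simp
    have him : (-(starRingEnd ℂ (I * z))).im = z.re := by simp
    refine ⟨?_, ?_, ?_, by rw [him]; exact a2, by rw [him]; exact a3⟩
    · rw [Hx_refl, a1, map_zero]
    · intro hr
      have := hr.1
      rw [hre] at this
      linarith
    · rw [hre]
      rwa [abs_of_pos hz2] at a4
  have h3 := Finset.sum_filter_add_sum_filter_not s (fun z => z.im ≤ 0)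
    (fun z => (H370.mult (Hx t) (I * z) : ℝ))
  rw [← h3]
  calc _ ≤ B + B := add_le_add h1 h2
    _ = _ := by rw [hB]; ring

end Pool.Agent.Helper54.Hf
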