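import Pool.Agent.Helper54.Xm.Prm
import Pool.Agent.Helper54.Xm.Mom
import Pool.Agent.Helper54.Hf.S1

set_option autoImplicit false
set_option maxHeartbeats 1000000

/-!
Large values of the prime sum.
-/

open Complex MeasureTheory Set Filter Topology

namespace Pool.Agent.Helper54.Hf

open Pool.Agent.Helper54.Xm ArithmeticFunction

/-- the prime sum -/
noncomputable def PQ (a : ℕ → ℂ) (Y : ℝ) (N : ℕ) (s : ℂ) : ℂ :=
  ∑ p ∈ Pool.Agent.Helper54.Xm.PP N, a p * (p : ℂ) ^ (-s) * (wt Y (Real.log p) : ℂ)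

lemma PQ_diff (a : ℕ → ℂ) (Y : ℝ) (N : ℕ) : Differentiable ℂ (PQ a Y N) := by
  unfold PQ
  apply Differentiable.fun_sum
  intro p hp
  have hp' := (Finset.mem_filter.1 hp).2
  have h0 : (p : ℂ) ≠ 0 := by exact_mod_cast hp'.ne_zero
  have h1 : Differentiable ℂ (fun s : ℂ => (p : ℂ) ^ (-s)) := by
    intro s
    exact (differentiableAt_id.neg).const_cpow (Or.inl h0)
  exact (h1.const_mul (a p)).mul_const _

theorem P_moment : ∃ C : ℝ, 1 ≤ C ∧ ∀ (a : ℕ → ℂ), (∀ n, ‖a n‖ ≤ vonMangoldt n) →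
    ∀ (Y : ℝ) (N k : ℕ) (T : ℝ), 1 ≤ Y → 1 ≤ N → (N : ℝ) ≤ Real.exp (2 * Y) → 1 ≤ T →
    4 * k * Y ≤ Real.log T → ∀ x : ℝ, 1 / 2 ≤ x →
    ∫ t in (T / 4)..(4 * T), ‖PQ a Y N ⟨x, t⟩‖ ^ (2 * k) ≤ 12 * T * (k * C * Y ^ 2) ^ k := by
  obtain ⟨C0, hC0⟩ := Pool.Agent.Helper256.KM.Mert.mertens_log
  have hC00 : 0 ≤ C0 := (abs_nonneg _).trans (hC0 1 le_rfl)
  refine ⟨2 * (2 + C0), by linarith, fun a ha Y N k T hY hN hNY hT hk x hx => ?_⟩
  set P := Pool.Agent.Helper54.Xm.PP N with hP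
  set b : ℕ → ℂ := fun p => a p * (p : ℂ) ^ (-(x : ℂ)) * (wt Y (Real.log p) : ℂ) with hb
  have hPp : ∀ p ∈ P, p.Prime ∧ p ≤ N := by
    intro p hp
    rw [hP, Finset.mem_filter, Finset.mem_Icc] at hp
    exact ⟨hp.2, hp.1.2⟩
  have e1 : ∀ t : ℝ, PQ a Y N ⟨x, t⟩ = ∑ p ∈ P, b p * (p : ℂ) ^ (-(t : ℂ) * I) := by
    intro t
    unfold PQ
    refine Finset.sum_congr rfl fun p hp => ?_
    have h0 : (p : ℂ) ≠ 0 := by exact_mod_cast (hPp p hp).1.ne_zero
    have e2 : (-(⟨x, t⟩ : ℂ)) = -(x : ℂ) + -(t : ℂ) * I := by apply Complex.ext <;> simp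
    simp only [hb]
    rw [e2, Complex.cpow_add _ _ h0]
    ring
  have hmom := Mom.moment P N k hPp hN b (T1 := T / 4) (T2 := 4 * T) (by linarith)
  simp only [e1]
  refine hmom.trans ?_
  have hT0 : 0 < T := by linarith
  have hN2 : (N : ℝ) ^ (2 * k) ≤ T := by
    have h1 : (N : ℝ) ^ (2 * k) ≤ Real.exp (2 * Y) ^ (2 * k) :=
      pow_le_pow_left₀ (Nat.cast_nonneg N) hNY _
    rw [← Real.exp_nat_mul] at h1
    refine h1.trans ?_
    rw [← Real.le_log_iff_exp_le hT0]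
    refine le_trans (le_of_eq ?_) hk
    push_cast; ring
  have hlogN : Real.log N ≤ 2 * Y := by
    rw [Real.log_le_iff_le_exp (by exact_mod_cast hN)]; exact hNY
  have hsum : ∑ p ∈ P, ‖b p‖ ^ 2 ≤ 2 * (2 + C0) * Y ^ 2 := by
    have h1 : ∀ p ∈ P, ‖b p‖ ^ 2 ≤ 2 * Y * (Real.log p / p) := by
      intro p hp
      obtain ⟨hpp, hpN⟩ := hPp p hp
      have hp0 : (0 : ℝ) < p := by exact_mod_cast hpp.pos
      have hp1 : (1 : ℝ) ≤ p := by exact_mod_cast hpp.one_lt.le
      have hlog0 : 0 ≤ Real.log p := Real.log_nonneg hp1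
      have h2 : ‖a p‖ ≤ Real.log p := by
        have := ha p
        rwa [vonMangoldt_apply_prime hpp] at this
      have h3 : ‖(p : ℂ) ^ (-(x : ℂ))‖ ^ 2 ≤ 1 / p := by
        rw [show ((p : ℕ) : ℂ) = ((p : ℝ) : ℂ) by push_cast; rfl,
          Complex.norm_cpow_eq_rpow_re_of_pos hp0]
        simp only [neg_re, ofReal_re]
        rw [← Real.rpow_natCast, ← Real.rpow_mul hp0.le, one_div, ← Real.rpow_neg_one]
        apply Real.rpow_le_rpow_of_exponent_le hp1
        push_cast; linarith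
      have h4 : ‖((wt Y (Real.log p) : ℝ) : ℂ)‖ ≤ 1 := by
        rw [Complex.norm_real, Real.norm_of_nonneg (wt_nonneg (by linarith) _)]
        exact wt_le_one (by linarith) _
      have h5 : Real.log p ≤ 2 * Y := by
        refine le_trans ?_ hlogN
        apply Real.log_le_log hp0
        exact_mod_cast hpN
      simp only [hb]
      rw [norm_mul, norm_mul, mul_pow, mul_pow]
      calc ‖a p‖ ^ 2 * ‖(p : ℂ) ^ (-(x : ℂ))‖ ^ 2 * ‖((wt Y (Real.log p) : ℝ) : ℂ)‖ ^ 2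
          ≤ (2 * Y * Real.log p) * (1 / p) * 1 := by
            apply mul_le_mul _ _ (by positivity) (by positivity)
            · apply mul_le_mul _ h3 (by positivity) (by positivity)
              calc ‖a p‖ ^ 2 ≤ Real.log p ^ 2 := pow_le_pow_left₀ (norm_nonneg _) h2 2
                _ = Real.log p * Real.log p := sq _
                _ ≤ 2 * Y * Real.log p := mul_le_mul_of_nonneg_right h5 hlog0
            · exact pow_le_one₀ (norm_nonneg _) h4
        _ = _ := by ring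
    calc ∑ p ∈ P, ‖b p‖ ^ 2 ≤ ∑ p ∈ P, 2 * Y * (Real.log p / p) := Finset.sum_le_sum h1
      _ = 2 * Y * ∑ p ∈ P, Real.log p / p := by rw [Finset.mul_sum]
      _ ≤ 2 * Y * (2 * Y + C0) := by
          apply mul_le_mul_of_nonneg_left _ (by positivity)
          have := (abs_le.1 (hC0 N hN)).2
          linarith
      _ ≤ 2 * (2 + C0) * Y ^ 2 := by nlinarith [mul_nonneg hC00 (by linarith : (0:ℝ) ≤ Y - 1)]
  have hkf : (k.factorial : ℝ) ≤ (k : ℝ) ^ k := by exact_mod_cast Nat.factorial_le_pow k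
  have hs0 : 0 ≤ ∑ p ∈ P, ‖b p‖ ^ 2 := Finset.sum_nonneg fun _ _ => by positivity
  calc (4 * T - T / 4 + 8 * (N : ℝ) ^ (2 * k)) * k.factorial * (∑ p ∈ P, ‖b p‖ ^ 2) ^ k
      ≤ (12 * T) * (k : ℝ) ^ k * (2 * (2 + C0) * Y ^ 2) ^ k := by
        apply mul_le_mul _ (pow_le_pow_left₀ hs0 hsum _) (by positivity) (by positivity)
        apply mul_le_mul (by linarith) hkf (by positivity) (by positivity)
    _ = _ := by rw [mul_assoc, ← mul_pow]; ring_nf

/-- **Large values of the prime sum.** -/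
theorem P_count (K A : ℝ) (hK : 1 ≤ K) (hA : 0 < A) : ∃ C0 : ℝ, 1 ≤ C0 ∧
    ∀ (a : ℕ → ℂ), (∀ n, ‖a n‖ ≤ vonMangoldt n) → ∀ (v T : ℝ) (N : ℕ), 16 ≤ T → C0 ≤ v * Real.log T →
    v ≤ 1 → 1 ≤ N → (N : ℝ) ≤ Real.exp (2 * (K / v)) →
    ∀ S : Finset ℕ, (∀ n ∈ S, T / 2 ≤ n * v ∧ n * v ≤ 3 * T) →
    (∀ n ∈ S, ∃ s : ℂ, v ≤ s.re - 1 / 2 ∧ s.re - 1 / 2 ≤ 2 * v ∧ |s.im - n * v| ≤ v ∧
      A * Real.log T ≤ ‖PQ a (K / v) N s‖) →
    (S.card : ℝ) ≤ 400 * (T / v) * Real.exp (-(v * Real.log T) / (4 * K)) := by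
  obtain ⟨C, hC1, hC⟩ := P_moment
  refine ⟨max (8 * K) (C * K / A ^ 2), le_trans (by linarith) (le_max_left _ _),
    fun a ha v T N hT hCv hv1 hN hNK S hS hbad => ?_⟩
  have hL : 0 < Real.log T := Real.log_pos (by linarith)
  have hL1 : 1 ≤ Real.log T := by
    rw [Real.le_log_iff_exp_le (by linarith)]
    have := Real.exp_one_lt_d9
    linarith
  have h8K : 8 * K ≤ v * Real.log T := le_trans (le_max_left _ _) hCv
  have hCK : C * K / A ^ 2 ≤ v * Real.log T := le_trans (le_max_right _ _) hCv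
  have hv : 0 < v := by
    by_contra hc
    push Not at hc
    have : v * Real.log T ≤ 0 := mul_nonpos_of_nonpos_of_nonneg hc hL.le
    linarith
  have hY : 1 ≤ K / v := by rw [le_div_iff₀ hv]; linarith
  set k : ℕ := Nat.floor (v * Real.log T / (4 * K)) with hk
  have hk1 : (k : ℝ) ≤ v * Real.log T / (4 * K) := Nat.floor_le (by positivity)
  have hk2 : v * Real.log T / (4 * K) - 1 < k := Nat.sub_one_lt_floor _
  have hkY : 4 * k * (K / v) ≤ Real.log T := by
    have : 4 * (k : ℝ) * (K / v) ≤ 4 * (v * Real.log T / (4 * K)) * (K / v) := by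
      apply mul_le_mul_of_nonneg_right _ (by positivity); linarith
    refine this.trans (le_of_eq ?_)
    field_simp
  have hbox := box_count (PQ_diff a (K / v) N) k hv hv1 hT (mul_pos hA hL)
    (M := 12 * T * (k * C * (K / v) ^ 2) ^ k) (fun x hx => hC a ha (K / v) N k T hY hN hNK (by linarith) hkY x (by
      have := hx.1; linarith)) S hS hbad
  have hAL : 0 < (A * Real.log T) ^ (2 * k) := by positivity
  have h1 : (S.card : ℝ) ≤ 132 * (T / v) * ((k * C * (K / v) ^ 2) / (A * Real.log T) ^ 2) ^ k := by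
    rw [div_pow, ← pow_mul]
    rw [← mul_div_assoc, le_div_iff₀ hAL]
    refine hbox.trans (le_of_eq ?_)
    ring
  refine h1.trans ?_
  have h2 : (k * C * (K / v) ^ 2) / (A * Real.log T) ^ 2 ≤ 1 / 4 := by
    rw [div_le_iff₀ (by positivity)]
    have h3 : (k : ℝ) * C * (K / v) ^ 2 ≤ (v * Real.log T / (4 * K)) * C * (K / v) ^ 2 := by
      apply mul_le_mul_of_nonneg_right _ (by positivity)
      exact mul_le_mul_of_nonneg_right hk1 (by linarith)
    refine h3.trans ?_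
    have h4 : (v * Real.log T / (4 * K)) * C * (K / v) ^ 2 = 1 / 4 * (Real.log T * (C * K) / v) := by
      field_simp
    rw [h4]
    apply mul_le_mul_of_nonneg_left _ (by norm_num)
    rw [div_le_iff₀ hv]
    have h5 : C * K ≤ v * Real.log T * A ^ 2 := by rwa [div_le_iff₀ (by positivity)] at hCK
    calc Real.log T * (C * K) ≤ Real.log T * (v * Real.log T * A ^ 2) :=
          mul_le_mul_of_nonneg_left h5 hL.le
      _ = _ := by ring
  have h6 : ((k * C * (K / v) ^ 2) / (A * Real.log T) ^ 2) ^ k ≤ 3 * Real.exp (-(v * Real.log T) / (4 * K)) := by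
    have h7 : ((k * C * (K / v) ^ 2) / (A * Real.log T) ^ 2) ^ k ≤ (1 / 4 : ℝ) ^ k :=
      pow_le_pow_left₀ (by positivity) h2 _
    have h8 : (1 / 4 : ℝ) ≤ Real.exp (-1) := by
      have h9 : Real.exp 1 < 2.7182818286 := Real.exp_one_lt_d9
      rw [Real.exp_neg, le_inv_comm₀ (by norm_num) (Real.exp_pos _)]
      linarith
    have h10 : (1 / 4 : ℝ) ^ k ≤ Real.exp (-1) ^ k := pow_le_pow_left₀ (by norm_num) h8 _
    have h11 : Real.exp (-1) ^ k = Real.exp (-k) := by rw [← Real.exp_nat_mul]; congr 1; ring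
    have h12 : Real.exp (-(k : ℝ)) ≤ Real.exp (1 + -(v * Real.log T) / (4 * K)) := by
      apply Real.exp_le_exp.2
      have : -(v * Real.log T) / (4 * K) = -(v * Real.log T / (4 * K)) := by ring
      rw [this]; linarith
    rw [Real.exp_add] at h12
    have h13 : Real.exp 1 ≤ 3 := by have := Real.exp_one_lt_d9; linarith
    calc _ ≤ Real.exp 1 * Real.exp (-(v * Real.log T) / (4 * K)) := by
          rw [h11] at h10; linarith
      _ ≤ _ := mul_le_mul_of_nonneg_right h13 (Real.exp_pos _).le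
  calc 132 * (T / v) * ((k * C * (K / v) ^ 2) / (A * Real.log T) ^ 2) ^ k
      ≤ 132 * (T / v) * (3 * Real.exp (-(v * Real.log T) / (4 * K))) :=
        mul_le_mul_of_nonneg_left h6 (by positivity)
    _ ≤ _ := by
        have : 0 ≤ (T / v) * Real.exp (-(v * Real.log T) / (4 * K)) := by positivity
        nlinarith

end Pool.Agent.Helper54.Hf
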