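import Pool.Agent.Helper54.Hf.X1

set_option autoImplicit false
set_option maxHeartbeats 1000000

/-!
Monotonicity and positivity of the xi function under cone conditions on its zeros.
-/

open Complex Filter Topology Metric

namespace Pool.Agent.Helper54.Hf

open H370 H370.Loc Pool.Agent.Helper54.Xm

lemma Pf_pair_mono {s : Multiset ℂ} {z z' : ℂ}
    (h : ∀ ρ ∈ s, ‖z - ρ‖ * ‖z - starRingEnd ℂ ρ‖ ≤ ‖z' - ρ‖ * ‖z' - starRingEnd ℂ ρ‖) :
    ‖Pf s z‖ * ‖Pf (s.map (starRingEnd ℂ)) z‖ ≤ ‖Pf s z'‖ * ‖Pf (s.map (starRingEnd ℂ)) z'‖ := by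
  induction s using Multiset.induction_on with
  | empty => simp [Pf_zero]
  | cons ρ s ih =>
    rw [Multiset.map_cons, Pf_cons, Pf_cons, Pf_cons, Pf_cons]
    simp only [norm_mul]
    have h1 := h ρ (Multiset.mem_cons_self ρ s)
    have h2 := ih fun ρ' h' => h ρ' (Multiset.mem_cons_of_mem h')
    calc ‖z - ρ‖ * ‖Pf s z‖ * (‖z - starRingEnd ℂ ρ‖ * ‖Pf (s.map (starRingEnd ℂ)) z‖)
        = (‖z - ρ‖ * ‖z - starRingEnd ℂ ρ‖) * (‖Pf s z‖ * ‖Pf (s.map (starRingEnd ℂ)) z‖) := by ring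
      _ ≤ (‖z' - ρ‖ * ‖z' - starRingEnd ℂ ρ‖) * (‖Pf s z'‖ * ‖Pf (s.map (starRingEnd ℂ)) z'‖) :=
          mul_le_mul h1 h2 (by positivity) (by positivity)
      _ = _ := by ring

lemma real_mono {v V b d : ℝ} (hv : |v| ≤ V) (h : b ^ 2 - d ^ 2 ≤ V ^ 2 / 2) :
    ((v - b) ^ 2 + d ^ 2) * ((v + b) ^ 2 + d ^ 2) ≤ ((V - b) ^ 2 + d ^ 2) * ((V + b) ^ 2 + d ^ 2) := by
  have h1 : v ^ 2 ≤ V ^ 2 := by rw [← sq_abs v]; exact pow_le_pow_left₀ (abs_nonneg _) hv 2
  have h2 : 0 ≤ (V ^ 2 - v ^ 2) * (V ^ 2 + v ^ 2 - 2 * b ^ 2 + 2 * d ^ 2) :=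
    mul_nonneg (by linarith) (by nlinarith [sq_nonneg v])
  nlinarith

lemma normsq (z : ℂ) : ‖z‖ ^ 2 = z.re ^ 2 + z.im ^ 2 := by
  rw [← Complex.normSq_eq_norm_sq, Complex.normSq_apply]; ring

/-- **Monotonicity.** -/
theorem fx_mono {V x : ℝ} (hz : ∀ ρ, fx ρ = 0 → ρ.re ^ 2 - (x - ρ.im) ^ 2 ≤ V ^ 2 / 2)
    {v : ℝ} (hv : |v| ≤ V) : ‖fx ⟨v, x⟩‖ ≤ ‖fx ⟨V, x⟩‖ := by
  set w : ℂ := ⟨v, x⟩ with hw
  set w' : ℂ := ⟨V, x⟩ with hw'
  have key : ∀ η : ℝ, 0 < η → ‖fx w‖ ≤ ‖fx w'‖ * Real.exp (η * ‖w ^ 2 - w' ^ 2‖) := by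
    intro η hη
    obtain ⟨s, g, e1, e2, e3, e4, e5, e6, e7⟩ := FF_fact (‖w ^ 2 - 1‖ + ‖w' ^ 2 - 1‖ + 1) hη
    have hwb : w ^ 2 ∈ ball (1 : ℂ) (‖w ^ 2 - 1‖ + ‖w' ^ 2 - 1‖ + 1) := by
      rw [mem_ball, dist_eq_norm]; have := norm_nonneg (w' ^ 2 - 1); linarith
    have hwb' : w' ^ 2 ∈ ball (1 : ℂ) (‖w ^ 2 - 1‖ + ‖w' ^ 2 - 1‖ + 1) := by
      rw [mem_ball, dist_eq_norm]; have := norm_nonneg (w ^ 2 - 1); linarith
    have h1 : ‖Pf s (w ^ 2)‖ ≤ ‖Pf s (w' ^ 2)‖ := by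
      have h2 := Pf_pair_mono (s := s) (z := w ^ 2) (z' := w' ^ 2) ?_
      · rw [e2] at h2
        have h3 : ‖Pf s (w ^ 2)‖ ^ 2 ≤ ‖Pf s (w' ^ 2)‖ ^ 2 := by nlinarith
        exact (pow_le_pow_iff_left₀ (norm_nonneg _) (norm_nonneg _) two_ne_zero).1 h3
      · intro ρ hρ
        set u := ρ ^ (1 / 2 : ℂ) with hu
        have hu2 : u ^ 2 = ρ := cpow_half_sq ρ
        have hfu : fx u = 0 := by rw [← FF_sq, hu2]; exact e3 ρ hρ
        have hfu' : fx (starRingEnd ℂ u) = 0 := by rw [fx_conj, hfu, map_zero]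
        have c1 := hz u hfu
        have c2 := hz _ hfu'
        rw [conj_re, conj_im] at c2
        have hcu : starRingEnd ℂ ρ = (starRingEnd ℂ u) ^ 2 := by rw [← hu2, map_pow]
        have fac : ∀ y : ℂ, ‖y ^ 2 - ρ‖ * ‖y ^ 2 - starRingEnd ℂ ρ‖ =
            (‖y - u‖ * ‖y + starRingEnd ℂ u‖) * (‖y + u‖ * ‖y - starRingEnd ℂ u‖) := by
          intro y
          rw [hcu, ← hu2]
          have a1 : y ^ 2 - u ^ 2 = (y - u) * (y + u) := by ring
          have a2 : y ^ 2 - (starRingEnd ℂ u) ^ 2 = (y - starRingEnd ℂ u) * (y + starRingEnd ℂ u) := by ring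
          rw [a1, a2, norm_mul, norm_mul]; ring
        rw [fac, fac]
        have sq1 : ∀ y : ℝ, (‖(⟨y, x⟩ : ℂ) - u‖ * ‖(⟨y, x⟩ : ℂ) + starRingEnd ℂ u‖) ^ 2 =
            ((y - u.re) ^ 2 + (x - u.im) ^ 2) * ((y + u.re) ^ 2 + (x - u.im) ^ 2) := by
          intro y
          rw [mul_pow, normsq, normsq]
          simp only [sub_re, sub_im, add_re, add_im, conj_re, conj_im]
          ring
        have sq2 : ∀ y : ℝ, (‖(⟨y, x⟩ : ℂ) + u‖ * ‖(⟨y, x⟩ : ℂ) - starRingEnd ℂ u‖) ^ 2 =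
            ((y - u.re) ^ 2 + (x - -u.im) ^ 2) * ((y + u.re) ^ 2 + (x - -u.im) ^ 2) := by
          intro y
          rw [mul_pow, normsq, normsq]
          simp only [sub_re, sub_im, add_re, add_im, conj_re, conj_im]
          ring
        apply mul_le_mul
        · apply (pow_le_pow_iff_left₀ (by positivity) (by positivity) two_ne_zero).1
          rw [hw, hw', sq1, sq1]
          exact real_mono hv c1
        · apply (pow_le_pow_iff_left₀ (by positivity) (by positivity) two_ne_zero).1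
          rw [hw, hw', sq2, sq2]
          exact real_mono hv c2
        · positivity
        · positivity
    obtain ⟨k, hk, hkn⟩ := ratio_exp e5 e6 e7 hwb' hwb
    rw [← FF_sq, ← FF_sq, e1, e1, hk]
    simp only [norm_mul]
    rw [Complex.norm_exp]
    calc ‖Pf s (w ^ 2)‖ * (‖g (w' ^ 2)‖ * Real.exp k.re)
        ≤ ‖Pf s (w' ^ 2)‖ * (‖g (w' ^ 2)‖ * Real.exp (η * ‖w ^ 2 - w' ^ 2‖)) := by
          apply mul_le_mul h1 _ (by positivity) (norm_nonneg _)
          apply mul_le_mul_of_nonneg_left _ (norm_nonneg _)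
          exact Real.exp_le_exp.2 ((Complex.re_le_norm k).trans hkn)
      _ = _ := by ring
  have hlim : Tendsto (fun η : ℝ => ‖fx w'‖ * Real.exp (η * ‖w ^ 2 - w' ^ 2‖)) (𝓝[>] 0)
      (𝓝 ‖fx w'‖) := by
    have h1 : Continuous (fun η : ℝ => ‖fx w'‖ * Real.exp (η * ‖w ^ 2 - w' ^ 2‖)) := by fun_prop
    have h2 := (h1.tendsto 0).mono_left (nhdsWithin_le_nhds (s := Set.Ioi (0:ℝ)))
    simpa using h2
  exact ge_of_tendsto hlim (eventually_nhdsWithin_of_forall fun η hη => key η hη)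

/-- the logarithmic derivative of a polynomial -/
lemma Pf_ld {s : Multiset ℂ} {z : ℂ} (h : ∀ ρ ∈ s, z ≠ ρ) :
    logDeriv (Pf s) z = (s.map (fun ρ => 1 / (z - ρ))).sum := by
  induction s using Multiset.induction_on with
  | empty =>
    have : Pf 0 = fun _ => (1 : ℂ) := funext Pf_zero
    rw [this]
    simp [logDeriv]
  | cons ρ s ih =>
    have e : Pf (ρ ::ₘ s) = fun z => (z - ρ) * Pf s z := funext (Pf_cons ρ s)
    have hz : z - ρ ≠ 0 := sub_ne_zero.2 (h ρ (Multiset.mem_cons_self ρ s))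
    have hP : Pf s z ≠ 0 := Pf_ne_zero fun ρ' h' => h ρ' (Multiset.mem_cons_of_mem h')
    rw [e, logDeriv_mul z hz hP (by fun_prop : DifferentiableAt ℂ (fun z : ℂ => z - ρ) z) (Pf_diff s).differentiableAt,
      ih fun ρ' h' => h ρ' (Multiset.mem_cons_of_mem h'), Multiset.map_cons, Multiset.sum_cons]
    congr 1
    rw [logDeriv_apply]
    have : deriv (fun z : ℂ => z - ρ) z = 1 := by
      rw [deriv_sub_const, deriv_id'']
    rw [this]

lemma real_pos {v b d : ℝ} (hv : 0 < v) (h : b ^ 2 ≤ v ^ 2 / 2 + d ^ 2 / 4) :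
    v / 3 * (1 / ((v - b) ^ 2 + d ^ 2) + 1 / ((v + b) ^ 2 + d ^ 2)) ≤
      (v - b) / ((v - b) ^ 2 + d ^ 2) + (v + b) / ((v + b) ^ 2 + d ^ 2) := by
  have h1 : 0 < (v - b) ^ 2 + d ^ 2 := by
    by_contra hc
    push Not at hc
    have e1 : (v - b) ^ 2 = 0 := le_antisymm (by nlinarith [sq_nonneg d]) (sq_nonneg _)
    have e2 : d ^ 2 = 0 := le_antisymm (by nlinarith [sq_nonneg (v - b)]) (sq_nonneg _)
    have e3 : v = b := by
      have := pow_eq_zero_iff (two_ne_zero) |>.1 e1; linarith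
    rw [e2, ← e3] at h
    nlinarith
  have h2 : 0 < (v + b) ^ 2 + d ^ 2 := by
    by_contra hc
    push Not at hc
    have e1 : (v + b) ^ 2 = 0 := le_antisymm (by nlinarith [sq_nonneg d]) (sq_nonneg _)
    have e2 : d ^ 2 = 0 := le_antisymm (by nlinarith [sq_nonneg (v + b)]) (sq_nonneg _)
    have e3 : b = -v := by
      have := pow_eq_zero_iff (two_ne_zero) |>.1 e1; linarith
    rw [e2, e3] at h
    nlinarith
  have e1 : v / 3 * (1 / ((v - b) ^ 2 + d ^ 2) + 1 / ((v + b) ^ 2 + d ^ 2)) =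
      (v / 3 * (((v + b) ^ 2 + d ^ 2) + ((v - b) ^ 2 + d ^ 2))) /
        (((v - b) ^ 2 + d ^ 2) * ((v + b) ^ 2 + d ^ 2)) := by
    field_simp
  have e2 : (v - b) / ((v - b) ^ 2 + d ^ 2) + (v + b) / ((v + b) ^ 2 + d ^ 2) =
      ((v - b) * ((v + b) ^ 2 + d ^ 2) + (v + b) * ((v - b) ^ 2 + d ^ 2)) /
        (((v - b) ^ 2 + d ^ 2) * ((v + b) ^ 2 + d ^ 2)) := by
    field_simp
  rw [e1, e2]
  apply div_le_div_of_nonneg_right _ (by positivity)
  have e3 : (v - b) * ((v + b) ^ 2 + d ^ 2) + (v + b) * ((v - b) ^ 2 + d ^ 2) =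
      v * (2 * (d ^ 2 + v ^ 2 - b ^ 2)) := by ring
  have e4 : v / 3 * (((v + b) ^ 2 + d ^ 2) + ((v - b) ^ 2 + d ^ 2)) =
      v * (2 / 3 * (v ^ 2 + b ^ 2 + d ^ 2)) := by ring
  rw [e3, e4]
  apply mul_le_mul_of_nonneg_left _ hv.le
  nlinarith [sq_nonneg d, sq_nonneg v]

lemma inv_re (z : ℂ) : (1 / z).re = z.re / ‖z‖ ^ 2 := by
  rw [one_div, Complex.inv_re, Complex.normSq_eq_norm_sq]

lemma mult_FF {u : ℂ} (hu : u ≠ 0) : mult FF (u ^ 2) = mult fx u := by
  have e : fx = FF ∘ (fun w : ℂ => w ^ 2) := by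
    funext w; exact (FF_sq w).symm
  have hd : deriv (fun w : ℂ => w ^ 2) u ≠ 0 := by
    have h1 : deriv (fun w : ℂ => w ^ 2) u = 2 * u := by simpa using (hasDerivAt_pow 2 u).deriv
    rw [h1]; exact mul_ne_zero two_ne_zero hu
  have h := analyticOrderAt_comp_of_deriv_ne_zero (f := FF) (g := fun w : ℂ => w ^ 2) (z₀ := u)
    (by fun_prop) hd
  unfold mult analyticOrderNatAt
  rw [e, h]

/-- **Positivity.** -/
theorem fx_pos {w : ℂ} (hv : 0 < w.re)
    (hz : ∀ ρ, fx ρ = 0 → ρ.re ^ 2 ≤ w.re ^ 2 / 2 + (w.im - ρ.im) ^ 2 / 4)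
    (S : Finset ℂ) (hS : ∀ u ∈ S, 0 < u.im) (hS0 : ∀ u ∈ S, fx u = 0) :
    w.re / 6 * ∑ u ∈ S, (mult fx u : ℝ) / ‖w - u‖ ^ 2 ≤ (deriv fx w / fx w).re := by
  classical
  have hfw : fx w ≠ 0 := by
    intro h0
    have := hz w h0
    nlinarith
  have key : ∀ η : ℝ, 0 < η → w.re / 6 * ∑ u ∈ S, (mult fx u : ℝ) / ‖w - u‖ ^ 2 ≤
      (deriv fx w / fx w).re + η * (2 * ‖w‖) := by
    intro η hη
    set R : ℝ := ‖w ^ 2 - 1‖ + 1 + ∑ u ∈ S, ‖u ^ 2 - 1‖ with hR
    obtain ⟨s, g, e1, e2, e3, e4, e5, e6, e7⟩ := FF_fact R hη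
    have hwb : w ^ 2 ∈ ball (1 : ℂ) R := by
      rw [mem_ball, dist_eq_norm, hR]
      have := Finset.sum_nonneg fun u (_ : u ∈ S) => norm_nonneg (u ^ 2 - 1)
      linarith
    have hub : ∀ u ∈ S, u ^ 2 ∈ ball (1 : ℂ) R := by
      intro u hu
      rw [mem_ball, dist_eq_norm, hR]
      have h1 := Finset.single_le_sum (f := fun u : ℂ => ‖u ^ 2 - 1‖) (fun u _ => norm_nonneg _) hu
      have h2 := norm_nonneg (w ^ 2 - 1)
      linarith
    have hFw : FF (w ^ 2) ≠ 0 := by rw [FF_sq]; exact hfw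
    have hws : ∀ ρ ∈ s, w ^ 2 ≠ ρ := by
      intro ρ hρ h0
      rw [h0] at hFw
      exact hFw (e3 ρ hρ)
    have hPw : Pf s (w ^ 2) ≠ 0 := Pf_ne_zero hws
    have hgw : g (w ^ 2) ≠ 0 := e6 _ hwb
    have hgd : DifferentiableAt ℂ g (w ^ 2) := (e5 _ hwb).differentiableAt (isOpen_ball.mem_nhds hwb)
    -- logarithmic derivative
    have hld : deriv fx w / fx w = 2 * w * ((s.map (fun ρ => 1 / (w ^ 2 - ρ))).sum + logDeriv g (w ^ 2)) := by
      have d1 : deriv fx w = deriv FF (w ^ 2) * (2 * w) := by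
        have e : fx = fun w => FF (w ^ 2) := by funext w; exact (FF_sq w).symm
        have d2 : HasDerivAt (fun w : ℂ => FF (w ^ 2)) (deriv FF (w ^ 2) * (2 * w)) w := by
          have d3 : HasDerivAt (fun w : ℂ => w ^ 2) (2 * w) w := by
            simpa using hasDerivAt_pow 2 w
          exact HasDerivAt.comp (h₂ := FF) (h := fun w : ℂ => w ^ 2) w (FF_diff (w ^ 2)).hasDerivAt d3
        rw [← e] at d2
        exact d2.deriv
      have d4 : deriv FF (w ^ 2) / FF (w ^ 2) = logDeriv (Pf s) (w ^ 2) + logDeriv g (w ^ 2) := by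
        rw [← logDeriv_mul (w ^ 2) hPw hgw (Pf_diff s).differentiableAt hgd, logDeriv_apply]
        have : FF = fun z => Pf s z * g z := funext e1
        rw [this]
      rw [d1, ← FF_sq w, ← Pf_ld hws, ← d4]
      ring
    -- symmetrisation
    set φ : ℂ → ℂ := fun ρ => 2 * w * (1 / (w ^ 2 - ρ)) with hφ
    have hsum : 2 * w * (s.map (fun ρ => 1 / (w ^ 2 - ρ))).sum = (s.map φ).sum := by
      rw [hφ, Multiset.sum_map_mul_left]
    have hsym2 : (s.map φ).sum = (s.map (fun ρ => φ (starRingEnd ℂ ρ))).sum := by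
      conv_lhs => rw [← e2]
      rw [Multiset.map_map]; rfl
    have hre : 2 * ((s.map φ).sum).re = (s.map (fun ρ => (φ ρ + φ (starRingEnd ℂ ρ)).re)).sum := by
      have h1 : (s.map φ).sum + (s.map φ).sum = (s.map (fun ρ => φ ρ + φ (starRingEnd ℂ ρ))).sum := by
        conv_lhs => rhs; rw [hsym2]
        rw [Multiset.sum_map_add]
      have h2 : ∀ m : Multiset ℂ, (m.map (fun ρ => φ ρ + φ (starRingEnd ℂ ρ))).sum.re =
          (m.map (fun ρ => (φ ρ + φ (starRingEnd ℂ ρ)).re)).sum := by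
        intro m
        induction m using Multiset.induction_on with
        | empty => simp
        | cons a m ih => rw [Multiset.map_cons, Multiset.sum_cons, add_re, ih, Multiset.map_cons, Multiset.sum_cons]
      rw [← h2, ← h1, add_re]; ring
    -- the pointwise bound
    set Ψ : ℂ → ℝ := fun ρ => (φ ρ + φ (starRingEnd ℂ ρ)).re with hΨ
    have hpt : ∀ u : ℂ, fx u = 0 → w.re / 3 * (1 / ‖w - u‖ ^ 2) ≤ Ψ (u ^ 2) := by
      intro u hfu
      have hfu' : fx (starRingEnd ℂ u) = 0 := by rw [fx_conj, hfu, map_zero]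
      have c1 := hz u hfu
      have c2 := hz _ hfu'
      rw [conj_re, conj_im] at c2
      have n1 : w - u ≠ 0 := by
        intro h0; rw [sub_eq_zero] at h0; rw [h0] at hfw; exact hfw hfu
      have n2 : w + u ≠ 0 := by
        intro h0
        have : w = -u := by linear_combination h0
        rw [this, fx_even] at hfw; exact hfw hfu
      have n3 : w - starRingEnd ℂ u ≠ 0 := by
        intro h0; rw [sub_eq_zero] at h0; rw [h0] at hfw; exact hfw hfu'
      have n4 : w + starRingEnd ℂ u ≠ 0 := by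
        intro h0
        have : w = -(starRingEnd ℂ u) := by linear_combination h0
        rw [this, fx_even] at hfw; exact hfw hfu'
      have f1 : φ (u ^ 2) = 1 / (w - u) + 1 / (w + u) := by
        simp only [hφ]
        have : w ^ 2 - u ^ 2 ≠ 0 := by
          have e : w ^ 2 - u ^ 2 = (w - u) * (w + u) := by ring
          rw [e]; exact mul_ne_zero n1 n2
        field_simp
        ring
      have f2 : φ (starRingEnd ℂ (u ^ 2)) = 1 / (w - starRingEnd ℂ u) + 1 / (w + starRingEnd ℂ u) := by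
        simp only [hφ, map_pow]
        have : w ^ 2 - (starRingEnd ℂ u) ^ 2 ≠ 0 := by
          have e : w ^ 2 - (starRingEnd ℂ u) ^ 2 = (w - starRingEnd ℂ u) * (w + starRingEnd ℂ u) := by ring
          rw [e]; exact mul_ne_zero n3 n4
        field_simp
        ring
      simp only [hΨ]
      rw [f1, f2]
      simp only [add_re, inv_re]
      have g1 := real_pos hv c1
      have g2 := real_pos hv c2
      have m1 : ‖w - u‖ ^ 2 = (w.re - u.re) ^ 2 + (w.im - u.im) ^ 2 := by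
        rw [normsq]; simp
      have m2 : ‖w + u‖ ^ 2 = (w.re + u.re) ^ 2 + (w.im - -u.im) ^ 2 := by
        rw [normsq]; simp
      have m3 : ‖w - starRingEnd ℂ u‖ ^ 2 = (w.re - u.re) ^ 2 + (w.im - -u.im) ^ 2 := by
        rw [normsq]; simp
      have m4 : ‖w + starRingEnd ℂ u‖ ^ 2 = (w.re + u.re) ^ 2 + (w.im - u.im) ^ 2 := by
        rw [normsq]; simp; ring
      rw [m1, m2, m3, m4]
      simp only [sub_re, add_re, conj_re]
      have p4 : 0 ≤ w.re / 3 * (1 / ((w.re + u.re) ^ 2 + (w.im - u.im) ^ 2)) := by positivity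
      have p3 : 0 ≤ w.re / 3 * (1 / ((w.re - u.re) ^ 2 + (w.im - -u.im) ^ 2) +
        1 / ((w.re + u.re) ^ 2 + (w.im - -u.im) ^ 2)) := by positivity
      rw [mul_add] at g1
      linarith
    have hΨ0 : ∀ ρ ∈ s, 0 ≤ Ψ ρ := by
      intro ρ hρ
      set u := ρ ^ (1 / 2 : ℂ) with hu
      have hu2 : u ^ 2 = ρ := cpow_half_sq ρ
      have hfu : fx u = 0 := by rw [← FF_sq, hu2]; exact e3 ρ hρ
      have := hpt u hfu
      rw [hu2] at this
      exact le_trans (by positivity) this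
    have hbig : ∑ u ∈ S, (mult fx u : ℝ) * (w.re / 3 * (1 / ‖w - u‖ ^ 2)) ≤ (s.map Ψ).sum := by
      rw [Finset.sum_multiset_map_count]
      have hinj : Set.InjOn (fun u : ℂ => u ^ 2) (S : Set ℂ) := by
        intro a ha b hb hab
        have hab' : a ^ 2 = b ^ 2 := hab
        rcases sq_eq_sq_iff_eq_or_eq_neg.1 hab' with h | h
        · exact h
        · exfalso
          have ha' := hS a ha
          have hb' := hS b hb
          rw [h, neg_im] at ha'
          linarith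
      have hmem : ∀ u ∈ S, u ^ 2 ∈ s.toFinset := by
        intro u hu
        rw [Multiset.mem_toFinset]
        apply Pf_mem_zero
        have h1 : FF (u ^ 2) = 0 := by rw [FF_sq]; exact hS0 u hu
        rw [e1] at h1
        exact (mul_eq_zero.1 h1).resolve_right (e6 _ (hub u hu))
      calc ∑ u ∈ S, (mult fx u : ℝ) * (w.re / 3 * (1 / ‖w - u‖ ^ 2))
          ≤ ∑ u ∈ S, s.count (u ^ 2) • Ψ (u ^ 2) := by
            refine Finset.sum_le_sum fun u hu => ?_
            have hu0 : u ≠ 0 := by intro h0; have := hS u hu; rw [h0] at this; simp at this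
            rw [← e4 _ (hub u hu), mult_FF hu0, nsmul_eq_mul]
            exact mul_le_mul_of_nonneg_left (hpt u (hS0 u hu)) (Nat.cast_nonneg _)
        _ = ∑ ρ ∈ S.image (fun u : ℂ => u ^ 2), s.count ρ • Ψ ρ := by
            rw [Finset.sum_image hinj]
        _ ≤ ∑ ρ ∈ s.toFinset, s.count ρ • Ψ ρ := by
            apply Finset.sum_le_sum_of_subset_of_nonneg
            · intro ρ hρ
              obtain ⟨u, hu, rfl⟩ := Finset.mem_image.1 hρ
              exact hmem u hu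
            · intro ρ hρ _
              rw [Multiset.mem_toFinset] at hρ
              exact nsmul_nonneg (hΨ0 ρ hρ) _
    have hgr : -(η * (2 * ‖w‖)) ≤ (2 * w * logDeriv g (w ^ 2)).re := by
      have h1 := Complex.abs_re_le_norm (2 * w * logDeriv g (w ^ 2))
      rw [norm_mul, norm_mul] at h1
      have h2 := e7 _ hwb
      have h3 : ‖(2 : ℂ)‖ = 2 := by norm_num
      rw [h3] at h1
      have h4 : 2 * ‖w‖ * ‖logDeriv g (w ^ 2)‖ ≤ 2 * ‖w‖ * η :=
        mul_le_mul_of_nonneg_left h2 (by positivity)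
      have := (abs_le.1 h1).1
      linarith
    rw [hld, mul_add, hsum, add_re]
    have h5 : w.re / 6 * ∑ u ∈ S, (mult fx u : ℝ) / ‖w - u‖ ^ 2 =
        1 / 2 * ∑ u ∈ S, (mult fx u : ℝ) * (w.re / 3 * (1 / ‖w - u‖ ^ 2)) := by
      rw [Finset.mul_sum, Finset.mul_sum]
      refine Finset.sum_congr rfl fun u _ => ?_
      ring
    rw [h5]
    linarith
  have hlim : Tendsto (fun η : ℝ => (deriv fx w / fx w).re + η * (2 * ‖w‖)) (𝓝[>] 0)
      (𝓝 (deriv fx w / fx w).re) := by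
    have h1 : Continuous (fun η : ℝ => (deriv fx w / fx w).re + η * (2 * ‖w‖)) := by fun_prop
    have h2 := (h1.tendsto 0).mono_left (nhdsWithin_le_nhds (s := Set.Ioi (0:ℝ)))
    simpa using h2
  exact ge_of_tendsto hlim (eventually_nhdsWithin_of_forall fun η hη => key η hη)

end Pool.Agent.Helper54.Hf
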