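import Pool.Agent.Helper54.Hf.S2
import Pool.Agent.Helper54.Hf.S3
import Pool.Agent.Helper54.Hf.X2

set_option autoImplicit false
set_option maxHeartbeats 1000000

/-!
The logarithmic derivative in a good cell.
-/

open Complex MeasureTheory Set Filter Topology

namespace Pool.Agent.Helper54.Hf

open Pool.Agent.Helper54.Xm ArithmeticFunction

lemma Gx_an {w : ℂ} (hw : -(1 / 2) < w.re) : AnalyticAt ℂ Gx w := by
  have hopen : IsOpen {w : ℂ | -(1 / 2) < w.re} := isOpen_lt continuous_const Complex.continuous_re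
  have hd : DifferentiableOn ℂ Gx {w : ℂ | -(1 / 2) < w.re} := by
    intro z hz
    have hz' : -(1 / 2 : ℝ) < z.re := hz
    have h1 : DifferentiableAt ℂ (fun w : ℂ => 1 / 2 + w) z := by fun_prop
    have h2 : DifferentiableAt ℂ Gammaℝ (1 / 2 + z) := by
      have hre : 0 < (1 / 2 + z).re := by simp; linarith
      unfold Gammaℝ
      apply DifferentiableAt.mul
      · apply DifferentiableAt.const_cpow
        · fun_prop
        · left; exact_mod_cast Real.pi_ne_zero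
      · have h3 : DifferentiableAt ℂ Gamma ((1 / 2 + z) / 2) := by
          apply differentiableAt_Gamma
          intro m h
          have := congrArg Complex.re h
          have e : (((1 / 2 : ℂ) + z) / 2).re = (1 / 2 + z).re / 2 := by
            rw [show ((1 / 2 : ℂ) + z) / 2 = ((1 / 2 : ℝ) : ℂ) * (1 / 2 + z) by push_cast; ring, re_ofReal_mul]
            ring
          rw [e] at this
          simp only [neg_re, natCast_re] at this
          have hm : (0 : ℝ) ≤ m := Nat.cast_nonneg m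
          linarith
        exact h3.comp (1 / 2 + z) (by fun_prop)
    have h4 : DifferentiableAt ℂ Gx z := by
      have h5 : DifferentiableAt ℂ (fun w : ℂ => Gammaℝ (1 / 2 + w)) z := h2.comp z h1
      have h6 : DifferentiableAt ℂ (fun w : ℂ => 4 * w ^ 2 - 1) z := by fun_prop
      exact h6.mul h5
    exact h4.differentiableWithinAt
  exact hd.analyticAt (hopen.mem_nhds hw)

lemma fx_local {w : ℂ} (hw : -(1 / 2) < w.re) (hi : w.im ≠ 0) :
    fx =ᶠ[𝓝 w] fun w => Gx w * riemannZeta (1 / 2 + w) := by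
  have hopen : IsOpen {w : ℂ | -(1 / 2) < w.re ∧ w.im ≠ 0} :=
    (isOpen_lt continuous_const Complex.continuous_re).inter (isOpen_ne_fun Complex.continuous_im continuous_const)
  filter_upwards [hopen.mem_nhds ⟨hw, hi⟩] with z hz
  apply fx_eq hz.1
  intro h
  have := hz.2
  rw [h] at this
  simp at this

lemma zeta_an {s : ℂ} (hi : 0 < s.im) : AnalyticAt ℂ riemannZeta s := H370.good_zeta.an s hi

lemma fx_ld {w : ℂ} (hw : -(1 / 2) < w.re) (hi : 0 < w.im) (hz : riemannZeta (1 / 2 + w) ≠ 0) :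
    deriv fx w / fx w = logDeriv Gx w + deriv riemannZeta (1 / 2 + w) / riemannZeta (1 / 2 + w) := by
  have h1 := fx_local hw hi.ne'
  have hG : Gx w ≠ 0 := Gx_ne hw (by intro h; rw [h] at hi; simp at hi)
  have hGd := (Gx_an hw).differentiableAt
  have hζd : DifferentiableAt ℂ riemannZeta (1 / 2 + w) := (zeta_an (by simpa using hi)).differentiableAt
  have h2 : HasDerivAt (fun w : ℂ => riemannZeta (1 / 2 + w)) (deriv riemannZeta (1 / 2 + w)) w := by
    have h3 : HasDerivAt (fun w : ℂ => 1 / 2 + w) 1 w := by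
      simpa using (hasDerivAt_id w).const_add (1 / 2 : ℂ)
    have := HasDerivAt.comp (h₂ := riemannZeta) (h := fun w : ℂ => 1 / 2 + w) w hζd.hasDerivAt h3
    rw [mul_one] at this
    exact this
  rw [← logDeriv_apply, (logDeriv_congr_nhds h1).eq_of_nhds]
  have h4 := logDeriv_mul (f := Gx) (g := fun w => riemannZeta (1 / 2 + w)) w hG hz hGd h2.differentiableAt
  rw [h4]
  congr 1
  rw [logDeriv_apply, h2.deriv]

lemma mult_fx {u : ℂ} (hw : -(1 / 2) < u.re) (hi : 0 < u.im) :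
    (H370.mult fx u : ℝ) = mz (1 / 2 + u) := by
  unfold H370.mult mz analyticOrderNatAt
  congr 2
  have h1 := fx_local hw hi.ne'
  rw [analyticOrderAt_congr h1]
  have hG : Gx u ≠ 0 := Gx_ne hw (by intro h; rw [h] at hi; simp at hi)
  have hζ : AnalyticAt ℂ (fun w : ℂ => riemannZeta (1 / 2 + w)) u := by
    have : AnalyticAt ℂ riemannZeta (1 / 2 + u) := zeta_an (by simpa using hi)
    exact this.comp_of_eq (f := fun w : ℂ => 1 / 2 + w) (by fun_prop) rfl
  have h2 := analyticOrderAt_mul (Gx_an hw) hζ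
  have h3 : analyticOrderAt Gx u = 0 := (Gx_an hw).analyticOrderAt_eq_zero.2 hG
  have h4 : (fun w => Gx w * riemannZeta (1 / 2 + w)) = Gx * fun w : ℂ => riemannZeta (1 / 2 + w) := rfl
  rw [h4, h2, h3, zero_add]
  have hd : deriv (fun w : ℂ => 1 / 2 + w) u ≠ 0 := by
    have h5 : deriv (fun w : ℂ => 1 / 2 + w) u = 1 := by
      have : HasDerivAt (fun w : ℂ => 1 / 2 + w) 1 u := by
        simpa using (hasDerivAt_id u).const_add (1 / 2 : ℂ)
      exact this.deriv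
    rw [h5]; exact one_ne_zero
  exact analyticOrderAt_comp_of_deriv_ne_zero (f := riemannZeta) (g := fun w : ℂ => 1 / 2 + w) (z₀ := u)
    (by fun_prop) hd

lemma fx_zero_zeta {u : ℂ} (h : fx u = 0) (hi : 0 < u.im) : riemannZeta (1 / 2 + u) = 0 := by
  have h1 := fx_zero_re h
  have h2 := abs_lt.1 h1
  have hne : u ≠ 1 / 2 := by intro h; rw [h] at hi; simp at hi
  have h3 := fx_eq h2.1 hne
  rw [h] at h3
  rcases mul_eq_zero.1 h3.symm with h4 | h4
  · exact absurd h4 (Gx_ne h2.1 hne)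
  · exact h4

/-- the cone condition transferred to the zeros of `fx` -/
lemma cone_fx {v y : ℝ} (hv : 0 < v) (hv1 : v ≤ 1) (hy : 8 ≤ y) (hc : ConeAt v y) {w : ℂ} (hw : v ≤ w.re)
    (hi : |w.im - y| ≤ v) : ∀ ρ, fx ρ = 0 → ρ.re ^ 2 ≤ w.re ^ 2 / 2 + (w.im - ρ.im) ^ 2 / 4 := by
  intro ρ hρ
  have h1 := fx_zero_re hρ
  have h2 : ρ.re ^ 2 ≤ 1 / 4 := by
    rw [← sq_abs]; nlinarith [abs_nonneg ρ.re]
  have hi' := abs_le.1 hi
  rcases le_or_gt ρ.im 0 with h | h
  · have h3 : 7 ≤ w.im - ρ.im := by linarith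
    nlinarith [sq_nonneg w.re]
  · have h3 := fx_zero_zeta hρ h
    have h4 := abs_lt.1 h1
    have h5 := hc (1 / 2 + ρ) h3 (by simp; linarith) (by simp; linarith) (by simpa using h)
    simp only [add_re, add_im, one_div, inv_re, inv_im, re_ofNat, im_ofNat, normSq_ofNat] at h5
    norm_num at h5
    have h6 : v ^ 2 ≤ w.re ^ 2 := pow_le_pow_left₀ hv.le hw 2
    have h7 : (w.im - y) ^ 2 ≤ v ^ 2 := by rw [← sq_abs (w.im - y)]; exact pow_le_pow_left₀ (abs_nonneg _) hi 2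
    nlinarith [sq_nonneg ((ρ.im - w.im) - (w.im - y))]

/-- sum over zeros -/
lemma zero_sum {T v y : ℝ} (hv : 0 < v) (hv1 : v ≤ 1) (hy : 8 ≤ y) (hc : ConeAt v y) {s : ℂ}
    (hs : v ≤ s.re - 1 / 2) (hi : |s.im - y| ≤ v) :
    ∑ ρ ∈ ZF T, mz ρ / ‖ρ - s‖ ^ 2 ≤ 6 / v * ‖deriv fx (s - 1 / 2) / fx (s - 1 / 2)‖ := by
  classical
  set w : ℂ := s - 1 / 2 with hw
  have hwre : w.re = s.re - 1 / 2 := by rw [hw]; simp
  have hwim : w.im = s.im := by rw [hw]; simp
  have hwpos : 0 < w.re := by linarith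
  have h1 := fx_pos (w := w) hwpos (cone_fx hv hv1 hy hc (by linarith) (by rw [hwim]; exact hi))
    ((ZF T).image (fun ρ => ρ - 1 / 2)) (by
      intro u hu
      obtain ⟨ρ, hρ, rfl⟩ := Finset.mem_image.1 hu
      rw [mem_ZF] at hρ
      simpa using hρ.2.2.2.1) (by
      intro u hu
      obtain ⟨ρ, hρ, rfl⟩ := Finset.mem_image.1 hu
      rw [mem_ZF] at hρ
      have h2 : -(1 / 2) < (ρ - 1 / 2).re := by simp; linarith [hρ.2.1]
      rw [fx_eq h2 (by
        intro h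
        have := congrArg Complex.im h
        simp at this
        linarith [hρ.2.2.2.1])]
      have h3 : 1 / 2 + (ρ - 1 / 2) = ρ := by ring
      rw [h3, hρ.1, mul_zero])
  rw [Finset.sum_image (by intro a _ b _ h; simpa using h)] at h1
  have h2 : ∑ ρ ∈ ZF T, (H370.mult fx (ρ - 1 / 2) : ℝ) / ‖w - (ρ - 1 / 2)‖ ^ 2 =
      ∑ ρ ∈ ZF T, mz ρ / ‖ρ - s‖ ^ 2 := by
    refine Finset.sum_congr rfl fun ρ hρ => ?_
    rw [mem_ZF] at hρ
    rw [mult_fx (by simp; linarith [hρ.2.1]) (by simpa using hρ.2.2.2.1)]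
    have e1 : (1 / 2 : ℂ) + (ρ - 1 / 2) = ρ := by ring
    have e2 : w - (ρ - 1 / 2) = -(ρ - s) := by rw [hw]; ring
    rw [e1, e2, norm_neg]
  rw [h2] at h1
  have h3 : w.re / 6 * ∑ ρ ∈ ZF T, mz ρ / ‖ρ - s‖ ^ 2 ≤ ‖deriv fx w / fx w‖ :=
    h1.trans (Complex.re_le_norm _)
  have h4 : v / 6 * ∑ ρ ∈ ZF T, mz ρ / ‖ρ - s‖ ^ 2 ≤ ‖deriv fx w / fx w‖ := by
    refine le_trans ?_ h3
    apply mul_le_mul_of_nonneg_right
    · linarith
    · exact Finset.sum_nonneg fun ρ _ => div_nonneg (mz_nonneg ρ) (by positivity)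
  have e : 6 / v * ‖deriv fx w / fx w‖ = ‖deriv fx w / fx w‖ / (v / 6) := by field_simp
  rw [e, le_div_iff₀ (by positivity)]
  linarith

lemma quad_low {d e v : ℝ} (h4 : 12 * v ^ 2 ≤ d ^ 2) (he2 : e ^ 2 ≤ v ^ 2) :
    d ^ 2 / 2.4 ≤ (d + e) ^ 2 := by
  have h8 : 0 ≤ (d + 17 / 5 * e) ^ 2 := sq_nonneg _
  have h9 : (d + 17 / 5 * e) ^ 2 = d ^ 2 + 34 / 5 * (d * e) + 289 / 25 * e ^ 2 := by ring
  have h10 : (d + e) ^ 2 = d ^ 2 + 2 * (d * e) + e ^ 2 := by ring
  have h11 := sq_nonneg d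
  rw [h10]
  rw [h9] at h8
  have h12 : d ^ 2 / 2.4 = 5 / 12 * d ^ 2 := by norm_num; ring
  rw [h12]
  linarith

lemma final_ineq {X L ε K v C CP C1 E Pn lg : ℝ} (hXn : 0 ≤ X) (hL : 0 < L) (hε : 0 < ε) (hv : 0 < v)
    (hv1 : v ≤ 1) (hC : 0 < C) (hC1 : 1 ≤ C1)
    (hK1 : 96 ≤ K) (hKε : 768 / ε ≤ K) (hKC : 64 * C / ε ≤ K) (hvL : 32 * CP * K / ε ≤ v * L)
    (hX1 : X ≤ Pn + (4 / (K / v) * (2 * (6 / v * (L / 2 + (C1 + 1) + X)) + 4.8 * E) + C * (lg / (K / v) + 1)))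
    (hP : Pn ≤ CP * (K / v) + ε / 8 * L) (hE : E ≤ ε * K / (136 * v) * L) (hlg : lg ≤ 2 * L)
    (b5 : 2 * C1 + 2 + C + 3 ≤ ε * L / 32) : X ≤ 0.9 * (ε * L) := by
  have hK0 : 0 < K := by linarith
  have hεL : 0 < ε * L := by positivity
  have e1 : 4 / (K / v) * (2 * (6 / v * (L / 2 + (C1 + 1) + X)) + 4.8 * E) =
      48 / K * (L / 2 + (C1 + 1) + X) + 19.2 * v / K * E := by
    field_simp; ring
  rw [e1] at hX1
  have b1 : 48 / K * (L / 2 + (C1 + 1) + X) ≤ ε * L / 32 + (C1 + 1) / 2 + X / 2 := by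
    have h1 : 48 / K ≤ 1 / 2 := by rw [div_le_div_iff₀ hK0 (by norm_num)]; linarith
    have h2 : 48 / K * (L / 2) ≤ ε * L / 32 := by
      have h3 : 48 / K ≤ ε / 16 := by
        rw [div_le_div_iff₀ hK0 (by norm_num)]
        rw [div_le_iff₀ hε] at hKε
        linarith
      calc 48 / K * (L / 2) ≤ ε / 16 * (L / 2) := mul_le_mul_of_nonneg_right h3 (by positivity)
        _ = _ := by ring
    have h4 : 48 / K * (C1 + 1) ≤ 1 / 2 * (C1 + 1) := mul_le_mul_of_nonneg_right h1 (by linarith)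
    have h5 : 48 / K * X ≤ 1 / 2 * X := mul_le_mul_of_nonneg_right h1 hXn
    rw [mul_add, mul_add]
    linarith
  have b2 : 19.2 * v / K * E ≤ 0.142 * (ε * L) := by
    calc 19.2 * v / K * E ≤ 19.2 * v / K * (ε * K / (136 * v) * L) :=
          mul_le_mul_of_nonneg_left hE (by positivity)
      _ = 19.2 / 136 * (ε * L) := by field_simp
      _ ≤ _ := mul_le_mul_of_nonneg_right (by norm_num) hεL.le
  have b3 : CP * (K / v) ≤ ε * L / 32 := by
    rw [div_le_iff₀ hε] at hvL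
    rw [← mul_div_assoc, div_le_div_iff₀ hv (by norm_num)]
    linarith
  have b4 : C * (lg / (K / v) + 1) ≤ ε * L / 32 + C := by
    have h1 : lg / (K / v) ≤ 2 * L / K := by
      have e : lg / (K / v) = lg * v / K := by field_simp
      rw [e]
      apply div_le_div_of_nonneg_right _ hK0.le
      calc lg * v ≤ 2 * L * v := mul_le_mul_of_nonneg_right hlg hv.le
        _ ≤ 2 * L * 1 := mul_le_mul_of_nonneg_left hv1 (by positivity)
        _ = _ := by ring
    have h2 : C * (2 * L / K) ≤ ε * L / 32 := by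
      rw [div_le_iff₀ hε] at hKC
      rw [← mul_div_assoc, div_le_div_iff₀ hK0 (by norm_num)]
      calc C * (2 * L) * 32 = (64 * C) * L := by ring
        _ ≤ (K * ε) * L := mul_le_mul_of_nonneg_right hKC hL.le
        _ = _ := by ring
    have h3 : C * (lg / (K / v)) ≤ C * (2 * L / K) := mul_le_mul_of_nonneg_left h1 hC.le
    linarith
  linarith

lemma term_bound {T v Y y : ℝ} (hv : 0 < v) (hY0 : 0 < Y) (hcone : ConeAt v y) {s : ℂ}
    (hs1 : v ≤ s.re - 1 / 2) (hs3 : |s.im - y| ≤ v) {ρ : ℂ} (hρ : ρ ∈ ZF T) :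
    mz ρ * ((1 + Real.exp (Y * (ρ.re - s.re))) / ‖ρ - s‖ ^ 2) ≤
      2 * (mz ρ / ‖ρ - s‖ ^ 2) + if 1 / 2 + v ≤ ρ.re then
        4.8 * (mz ρ * Real.exp (Y * (ρ.re - 1 / 2 - v)) / (ρ.im - y) ^ 2) else 0 := by
  have hm := mz_nonneg ρ
  have hne : 0 ≤ mz ρ / ‖ρ - s‖ ^ 2 := div_nonneg hm (by positivity)
  rw [mem_ZF] at hρ
  obtain ⟨z1, z2, z3, z4, z5⟩ := hρ
  split_ifs with hc
  · have h1 : Real.exp (Y * (ρ.re - s.re)) ≤ Real.exp (Y * (ρ.re - 1 / 2 - v)) := by
      apply Real.exp_le_exp.2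
      apply mul_le_mul_of_nonneg_left _ hY0.le
      linarith
    have h2 : 1 ≤ Real.exp (Y * (ρ.re - 1 / 2 - v)) :=
      Real.one_le_exp (mul_nonneg hY0.le (by linarith))
    have h3 := hcone ρ z1 z2 z3 z4
    have h4 : 12 * v ^ 2 ≤ (ρ.im - y) ^ 2 := by
      have : v ^ 2 ≤ (ρ.re - 1 / 2) ^ 2 := pow_le_pow_left₀ hv.le (by linarith) 2
      linarith
    have hd0 : 0 < (ρ.im - y) ^ 2 := by
      have : 0 < v ^ 2 := by positivity
      linarith
    have h5 : (ρ.im - y) ^ 2 / 2.4 ≤ ‖ρ - s‖ ^ 2 := by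
      have h6 : (ρ.im - s.im) ^ 2 ≤ ‖ρ - s‖ ^ 2 := by
        rw [normsq]; simp only [sub_im, sub_re]
        have := sq_nonneg (ρ.re - s.re); linarith
      refine le_trans ?_ h6
      have e1 : ρ.im - s.im = (ρ.im - y) + (y - s.im) := by ring
      rw [e1]
      apply quad_low h4
      rw [← sq_abs (y - s.im)]
      apply pow_le_pow_left₀ (abs_nonneg _)
      rw [abs_sub_comm]; exact hs3
    have hns : 0 < ‖ρ - s‖ ^ 2 := lt_of_lt_of_le (by positivity) h5
    have h6 : 1 / ‖ρ - s‖ ^ 2 ≤ 2.4 / (ρ.im - y) ^ 2 := by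
      rw [div_le_div_iff₀ hns hd0]
      have := (div_le_iff₀ (by norm_num : (0:ℝ) < 2.4)).1 h5
      linarith
    have h9 : mz ρ * ((1 + Real.exp (Y * (ρ.re - s.re))) / ‖ρ - s‖ ^ 2) ≤
        4.8 * (mz ρ * Real.exp (Y * (ρ.re - 1 / 2 - v)) / (ρ.im - y) ^ 2) := by
      calc mz ρ * ((1 + Real.exp (Y * (ρ.re - s.re))) / ‖ρ - s‖ ^ 2)
          = mz ρ * (1 + Real.exp (Y * (ρ.re - s.re))) * (1 / ‖ρ - s‖ ^ 2) := by ring
        _ ≤ mz ρ * (2 * Real.exp (Y * (ρ.re - 1 / 2 - v))) * (2.4 / (ρ.im - y) ^ 2) := by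
            apply mul_le_mul _ h6 (by positivity) (by positivity)
            apply mul_le_mul_of_nonneg_left _ hm
            linarith
        _ = _ := by ring
    linarith
  · push Not at hc
    have h1 : Real.exp (Y * (ρ.re - s.re)) ≤ 1 := by
      rw [Real.exp_le_one_iff]
      exact mul_nonpos_of_nonneg_of_nonpos hY0.le (by linarith)
    have h2 : mz ρ * ((1 + Real.exp (Y * (ρ.re - s.re))) / ‖ρ - s‖ ^ 2) =
        (1 + Real.exp (Y * (ρ.re - s.re))) * (mz ρ / ‖ρ - s‖ ^ 2) := by ring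
    rw [h2, add_zero]
    exact mul_le_mul_of_nonneg_right (by linarith) hne

theorem cell_bound : ∃ a : ℕ → ℂ, (∀ n, ‖a n‖ ≤ vonMangoldt n) ∧ ∀ ε : ℝ, 0 < ε →
    ∃ K C0 T0 : ℝ, 1 ≤ K ∧ 1 ≤ C0 ∧ 16 ≤ T0 ∧ ∀ T v y : ℝ, T0 ≤ T → C0 ≤ v * Real.log T → v ≤ 3 / 5 →
      T / 2 ≤ y → y ≤ 3 * T → ConeAt v y →
      EE T v (K / v) y ≤ ε * K / (136 * v) * Real.log T → ∀ N : ℕ, 1 ≤ N →
      (N : ℝ) ≤ Real.exp (2 * (K / v)) → Real.exp (2 * (K / v)) ≤ N + 1 →
      ∀ s : ℂ, v ≤ s.re - 1 / 2 → s.re ≤ 1.1 → |s.im - y| ≤ v →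
      ‖PQ a (K / v) N s‖ ≤ ε / 8 * Real.log T → fx (s - 1 / 2) ≠ 0 ∧
      ‖deriv fx (s - 1 / 2) / fx (s - 1 / 2) - Real.log T / 2‖ ≤ ε * Real.log T := by
  classical
  obtain ⟨a, ha, C, T0, hC, hT0, hexpl⟩ := expl H370.good_zeta
  obtain ⟨CP, hCP, hprimes⟩ := PS_primes
  obtain ⟨C1, hC1, hGx⟩ := logDeriv_Gx
  refine ⟨a, ha, fun ε hε => ?_⟩
  set K : ℝ := 96 + 768 / ε + 64 * C / ε with hK
  have hK1 : 96 ≤ K := by rw [hK]; have : 0 < 768 / ε + 64 * C / ε := by positivity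
                          linarith
  have hKε : 768 / ε ≤ K := by rw [hK]; have : 0 < 64 * C / ε := by positivity
                               linarith
  have hKC : 64 * C / ε ≤ K := by rw [hK]; have : 0 < 768 / ε := by positivity
                                  linarith
  set C0 : ℝ := 2 * K + 32 * CP * K / ε with hC0
  have hK0 : 0 < K := by linarith
  have hC0K : 2 * K ≤ C0 := by rw [hC0]; have : 0 < 32 * CP * K / ε := by positivity
                               linarith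
  have hC0P : 32 * CP * K / ε ≤ C0 := by rw [hC0]; linarith
  set Lm : ℝ := 32 * (2 * C1 + 2 + C + 3) / ε with hLm
  refine ⟨K, C0, max (max 100 (4 * T0)) (Real.exp Lm), by linarith, by linarith,
    le_trans (by norm_num) ((le_max_left _ _).trans (le_max_left _ _)), ?_⟩
  intro T v y hT hvL hv1 hy1 hy2 hcone hEE N hN1 hN2 hN3 s hs1 hs2 hs3 hPQ
  have hT100 : 100 ≤ T := (le_max_left _ _).trans ((le_max_left _ _).trans hT)
  have hTT0 : 4 * T0 ≤ T := (le_max_right _ _).trans ((le_max_left _ _).trans hT)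
  have hTL : Real.exp Lm ≤ T := (le_max_right _ _).trans hT
  have hT0' : 0 < T := by linarith
  set L := Real.log T with hL
  have hLm' : Lm ≤ L := by rw [hL, Real.le_log_iff_exp_le hT0']; exact hTL
  have hL4 : 4 ≤ L := by
    rw [hL, Real.le_log_iff_exp_le hT0']
    have h1 : Real.exp 4 = Real.exp 1 ^ 4 := by rw [← Real.exp_nat_mul]; norm_num
    rw [h1]
    calc Real.exp 1 ^ 4 ≤ 2.7182818286 ^ 4 := pow_le_pow_left₀ (Real.exp_pos _).le Real.exp_one_lt_d9.le 4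
      _ ≤ 100 := by norm_num
      _ ≤ T := hT100
  have hLpos : 0 < L := by linarith
  have hv : 0 < v := by
    by_contra hc
    push Not at hc
    have : v * L ≤ 0 := mul_nonpos_of_nonpos_of_nonneg hc hLpos.le
    linarith
  have hs3' := abs_le.1 hs3
  have him : T / 4 ≤ s.im := by linarith
  have him2 : s.im ≤ 3 * T + 1 := by linarith
  have hsre : 1 / 2 ≤ s.re := by linarith
  set w : ℂ := s - 1 / 2 with hw
  have hwre : w.re = s.re - 1 / 2 := by rw [hw]; simp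
  have hwim : w.im = s.im := by rw [hw]; simp
  have hws : 1 / 2 + w = s := by rw [hw]; ring
  have hy8 : 8 ≤ y := by linarith
  have hconew := cone_fx hv (by linarith) hy8 hcone (w := w) (by linarith) (by rw [hwim]; exact hs3)
  have hfw : fx w ≠ 0 := by
    intro h0
    have := hconew w h0
    have hwpos : 0 < w.re := by linarith
    nlinarith
  have hwim0 : 0 < w.im := by rw [hwim]; linarith
  have hζ : riemannZeta s ≠ 0 := by
    intro h0
    apply hfw
    rw [fx_eq (by linarith) (by intro h; rw [h] at hwim0; simp at hwim0), hws, h0, mul_zero]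
  -- logarithm of the ordinate
  have hlogs : |Real.log s.im - L| ≤ 2 := by
    have h1 : Real.log (T / 4) ≤ Real.log s.im := Real.log_le_log (by positivity) him
    have h2 : Real.log s.im ≤ Real.log (4 * T) := Real.log_le_log (by linarith) (by linarith)
    rw [Real.log_div hT0'.ne' (by norm_num)] at h1
    rw [Real.log_mul (by norm_num) hT0'.ne'] at h2
    have h3 : Real.log 4 ≤ 2 := by
      have h4 : Real.log 4 = 2 * Real.log 2 := by
        rw [show (4 : ℝ) = 2 ^ 2 by norm_num, Real.log_pow]; norm_num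
      rw [h4]
      have := Real.log_two_lt_d9
      linarith
    rw [abs_le]; constructor <;> linarith
  have hlogs' := abs_le.1 hlogs
  -- Gamma factor
  obtain ⟨_, _, hG⟩ := hGx w (by rw [hwim]; linarith) (by
    rw [hwim, abs_of_nonneg (by linarith)]
    have : s.re ≤ 1.1 := hs2
    linarith)
  rw [hwim] at hG
  have hG2 : ‖logDeriv Gx w - ((L / 2 : ℝ) : ℂ)‖ ≤ C1 + 1 := by
    have e : logDeriv Gx w - ((L / 2 : ℝ) : ℂ) = (logDeriv Gx w - ((1 / 2 * Real.log s.im : ℝ) : ℂ)) +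
        ((1 / 2 * (Real.log s.im - L) : ℝ) : ℂ) := by push_cast; ring
    rw [e]
    refine (norm_add_le _ _).trans (add_le_add hG ?_)
    rw [Complex.norm_real, Real.norm_eq_abs, abs_mul]
    norm_num
    linarith
  set X := deriv riemannZeta s / riemannZeta s with hX
  have hfld : deriv fx w / fx w = logDeriv Gx w + X := by
    rw [fx_ld (by linarith) hwim0 (by rw [hws]; exact hζ), hws]
  have hfX : ‖deriv fx w / fx w‖ ≤ L / 2 + (C1 + 1) + ‖X‖ := by
    rw [hfld]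
    have e : logDeriv Gx w + X = ((L / 2 : ℝ) : ℂ) + (logDeriv Gx w - ((L / 2 : ℝ) : ℂ)) + X := by ring
    rw [e]
    refine (norm_add_le _ _).trans (add_le_add ((norm_add_le _ _).trans (add_le_add ?_ hG2)) le_rfl)
    rw [Complex.norm_real, Real.norm_of_nonneg (by positivity)]
  -- explicit formula
  have hY1 : 1 ≤ K / v := by rw [le_div_iff₀ hv]; linarith
  have hY0 : 0 < K / v := by positivity
  have hYL2 : K / v ≤ L / 2 := by
    rw [div_le_div_iff₀ hv (by norm_num)]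
    have h2 : C0 ≤ v * L := hvL
    linarith
  have hYL : K / v ≤ Real.log s.im := by linarith
  obtain ⟨U1, U2, hU1, hU2, hU3, hmain⟩ := hexpl s.im (by linarith) s le_rfl (by linarith) hsre hs2 hζ
    (K / v) hY1 hYL
  set Y := K / v with hY
  -- the sum over the zeros
  have hfs : ∑ᶠ ρ ∈ H370.zset riemannZeta U1 U2, (H370.mult riemannZeta ρ : ℝ) *
      ((1 + Real.exp (Y * (ρ.re - s.re))) / ‖ρ - s‖ ^ 2) ≤
      ∑ ρ ∈ ZF T, mz ρ * ((1 + Real.exp (Y * (ρ.re - s.re))) / ‖ρ - s‖ ^ 2) := by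
    have hsub : H370.zset riemannZeta U1 U2 ⊆ Zs T := by
      intro ρ hρ
      obtain ⟨z1, z2, z3, z4, z5⟩ := hρ
      exact ⟨z5, z1, z2, by linarith, by linarith⟩
    rw [finsum_mem_eq_finite_toFinset_sum _ ((Zs_fin T).subset hsub)]
    apply Finset.sum_le_sum_of_subset_of_nonneg
    · intro ρ hρ
      rw [Set.Finite.mem_toFinset] at hρ
      unfold ZF
      rw [Set.Finite.mem_toFinset]
      exact hsub hρ
    · intro ρ _ _
      exact mul_nonneg (mz_nonneg ρ) (by positivity)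
  have hpt : ∀ ρ ∈ ZF T, mz ρ * ((1 + Real.exp (Y * (ρ.re - s.re))) / ‖ρ - s‖ ^ 2) ≤
      2 * (mz ρ / ‖ρ - s‖ ^ 2) + if 1 / 2 + v ≤ ρ.re then
        4.8 * (mz ρ * Real.exp (Y * (ρ.re - 1 / 2 - v)) / (ρ.im - y) ^ 2) else 0 :=
    fun ρ hρ => term_bound hv hY0 hcone hs1 hs3 hρ
  have hsum : ∑ ρ ∈ ZF T, mz ρ * ((1 + Real.exp (Y * (ρ.re - s.re))) / ‖ρ - s‖ ^ 2) ≤
      2 * ∑ ρ ∈ ZF T, mz ρ / ‖ρ - s‖ ^ 2 + 4.8 * EE T v Y y := by
    refine (Finset.sum_le_sum hpt).trans (le_of_eq ?_)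
    rw [Finset.sum_add_distrib, ← Finset.mul_sum, ← Finset.sum_filter, ← Finset.mul_sum]
    rfl
  have hzs := zero_sum (T := T) hv (by linarith) hy8 hcone hs1 hs3
  have hPS := hprimes a ha Y hY1 N hN2 hN3 s hsre
  have hPQ' : ‖PS a Y s‖ ≤ CP * Y + ε / 8 * L := by
    have e : PS a Y s = (PS a Y s - PQ a Y N s) + PQ a Y N s := by ring
    rw [e]
    refine (norm_add_le _ _).trans (add_le_add ?_ hPQ)
    exact hPS
  have hX1 : ‖X‖ ≤ ‖PS a Y s‖ + (4 / Y * (2 * (6 / v * (L / 2 + (C1 + 1) + ‖X‖)) + 4.8 * EE T v Y y) +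
      C * (Real.log s.im / Y + 1)) := by
    have e : X = (X + PS a Y s) - PS a Y s := by ring
    have h1 : ‖X‖ ≤ ‖X + PS a Y s‖ + ‖PS a Y s‖ := by
      conv_lhs => rw [e]
      exact norm_sub_le _ _
    have h2 : 4 / Y * ∑ᶠ ρ ∈ H370.zset riemannZeta U1 U2, (H370.mult riemannZeta ρ : ℝ) *
      ((1 + Real.exp (Y * (ρ.re - s.re))) / ‖ρ - s‖ ^ 2) ≤
      4 / Y * (2 * (6 / v * (L / 2 + (C1 + 1) + ‖X‖)) + 4.8 * EE T v Y y) := by
      apply mul_le_mul_of_nonneg_left _ (by positivity)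
      refine hfs.trans (hsum.trans ?_)
      have h3 : 6 / v * ‖deriv fx w / fx w‖ ≤ 6 / v * (L / 2 + (C1 + 1) + ‖X‖) :=
        mul_le_mul_of_nonneg_left hfX (by positivity)
      linarith
    linarith
  have b5 : 2 * C1 + 2 + C + 3 ≤ ε * L / 32 := by
    have h1 : Lm ≤ L := hLm'
    rw [hLm, div_le_iff₀ hε] at h1
    linarith
  have hXfin : ‖X‖ ≤ 0.9 * (ε * L) :=
    final_ineq (norm_nonneg X) hLpos hε hv (by linarith) hC hC1 hK1 hKε hKC (hC0P.trans hvL) hX1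
      hPQ' hEE (by linarith) b5
  refine ⟨hfw, ?_⟩
  rw [hfld]
  have e2 : logDeriv Gx w + X - (L : ℂ) / 2 = (logDeriv Gx w - ((L / 2 : ℝ) : ℂ)) + X := by push_cast; ring
  rw [e2]
  refine (norm_add_le _ _).trans ?_
  have hεL : 0 < ε * L := by positivity
  linarith

end Pool.Agent.Helper54.Hf
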