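import Pool.Agent.Helper54.Hf.S4

set_option autoImplicit false
set_option maxHeartbeats 1000000

/-!
The number of bad cells.
-/

open Complex MeasureTheory Set Filter Topology

namespace Pool.Agent.Helper54.Hf

open Pool.Agent.Helper54.Xm ArithmeticFunction

/-- good cells -/
def CellGood (ε T v y : ℝ) : Prop := ConeAt v y ∧ ∀ w : ℂ, v ≤ w.re → w.re ≤ 2 * v → w.re ≤ 3 / 5 →
  |w.im - y| ≤ v → fx w ≠ 0 ∧ ‖deriv fx w / fx w - Real.log T / 2‖ ≤ ε * Real.log T

theorem cell_stat (ε : ℝ) (hε : 0 < ε) : ∃ C c C0 T0 : ℝ, 1 ≤ C ∧ 0 < c ∧ 1 ≤ C0 ∧ 16 ≤ T0 ∧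
    ∀ T v : ℝ, T0 ≤ T → C0 ≤ v * Real.log T → v ≤ 3 / 5 → ∀ S : Finset ℕ,
    (∀ n ∈ S, T / 2 ≤ n * v ∧ n * v ≤ 3 * T) → (∀ n ∈ S, ¬ CellGood ε T v (n * v)) →
    (S.card : ℝ) ≤ C * (T / v) * Real.exp (-(c * (v * Real.log T))) := by
  classical
  obtain ⟨a, ha, hcell⟩ := cell_bound
  obtain ⟨K, C0, T0, hK, hC0, hT0, hcb⟩ := hcell ε hε
  obtain ⟨C1, hC1, hcone⟩ := cone_count
  obtain ⟨C2, hC2, hE⟩ := E_count
  obtain ⟨C3, hC3, hP⟩ := P_count K (ε / 8) hK (by positivity)
  set c : ℝ := 1 / (4 * K) with hc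
  have hc0 : 0 < c := by positivity
  have hc4 : c ≤ 1 / 4 := by rw [hc, div_le_div_iff₀ (by positivity) (by norm_num)]; linarith
  refine ⟨C1 + C2 * 136 / (ε * K) + 400, c, max (max C0 C3) (2 * K + 2), T0, by
    have : 0 < C2 * 136 / (ε * K) := by positivity
    linarith, hc0, le_trans hC0 ((le_max_left _ _).trans (le_max_left _ _)), hT0, ?_⟩
  intro T v hT hvL hv1 S hS hbad
  have hT16 : 16 ≤ T := hT0.trans hT
  have hvC0 : C0 ≤ v * Real.log T := ((le_max_left _ _).trans (le_max_left _ _)).trans hvL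
  have hvC3 : C3 ≤ v * Real.log T := ((le_max_right _ _).trans (le_max_left _ _)).trans hvL
  have hvK : 2 * K + 2 ≤ v * Real.log T := (le_max_right _ _).trans hvL
  have hT0' : 0 < T := by linarith
  set L := Real.log T with hL
  have hLpos : 0 < L := Real.log_pos (by linarith)
  have hv : 0 < v := by
    by_contra hcc
    push Not at hcc
    have : v * L ≤ 0 := mul_nonpos_of_nonpos_of_nonneg hcc hLpos.le
    linarith
  set N : ℕ := Nat.floor (Real.exp (2 * (K / v))) with hN
  have hN1 : 1 ≤ N := by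
    rw [hN, Nat.one_le_floor_iff]
    exact Real.one_le_exp (by positivity)
  have hN2 : (N : ℝ) ≤ Real.exp (2 * (K / v)) := Nat.floor_le (Real.exp_pos _).le
  have hN3 : Real.exp (2 * (K / v)) ≤ N + 1 := (Nat.lt_floor_add_one _).le
  set A : ℝ := ε * K / (136 * v) * L with hA
  have hA0 : 0 < A := by positivity
  set S1 := S.filter (fun n : ℕ => ¬ ConeAt v (n * v)) with hS1
  set S2 := S.filter (fun n : ℕ => ConeAt v (n * v) ∧ A ≤ EE T v (K / v) (n * v)) with hS2
  set S3 := S.filter (fun n : ℕ => ConeAt v (n * v) ∧ ¬ A ≤ EE T v (K / v) (n * v)) with hS3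
  have hcover : S ⊆ S1 ∪ S2 ∪ S3 := by
    intro n hn
    simp only [hS1, hS2, hS3, Finset.mem_union, Finset.mem_filter]
    by_cases h1 : ConeAt v (n * v)
    · by_cases h2 : A ≤ EE T v (K / v) (n * v)
      · left; right; exact ⟨hn, h1, h2⟩
      · right; exact ⟨hn, h1, h2⟩
    · left; left; exact ⟨hn, h1⟩
  have hcard : (S.card : ℝ) ≤ S1.card + S2.card + S3.card := by
    have h1 := (Finset.card_le_card hcover).trans (Finset.card_union_le _ _)
    have h2 := Finset.card_union_le S1 S2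
    have h3 : S.card ≤ S1.card + S2.card + S3.card := by omega
    exact_mod_cast h3
  have b1 : (S1.card : ℝ) ≤ C1 * (T / v) * Real.exp (-(c * (v * L))) := by
    refine (hcone v T hT16 (by linarith) S1 (fun n hn => hS n (Finset.mem_filter.1 hn).1)
      (fun n hn => (Finset.mem_filter.1 hn).2)).trans ?_
    apply mul_le_mul_of_nonneg_left _ (by positivity)
    apply Real.exp_le_exp.2
    have : 0 < v * L := by positivity
    nlinarith
  have b2 : (S2.card : ℝ) ≤ C2 * 136 / (ε * K) * (T / v) * Real.exp (-(c * (v * L))) := by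
    have h1 := hE v T (K / v) A hT16 hv (by positivity) (by
      rw [div_le_div_iff₀ hv (by norm_num)]; linarith) hA0 S2 (fun n hn => (Finset.mem_filter.1 hn).2.1)
      (fun n hn => (Finset.mem_filter.1 hn).2.2)
    have h2 : (S2.card : ℝ) ≤ C2 * (T / v ^ 2) * L * Real.exp (-(v * L)) / A := by
      rw [le_div_iff₀ hA0]; exact h1
    refine h2.trans ?_
    have e : C2 * (T / v ^ 2) * L * Real.exp (-(v * L)) / A =
        C2 * 136 / (ε * K) * (T / v) * Real.exp (-(v * L)) := by
      rw [hA]; field_simp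
    rw [e]
    apply mul_le_mul_of_nonneg_left _ (by positivity)
    apply Real.exp_le_exp.2
    have : 0 < v * L := by positivity
    nlinarith
  have b3 : (S3.card : ℝ) ≤ 400 * (T / v) * Real.exp (-(c * (v * L))) := by
    refine (hP a ha v T N hT16 hvC3 (by linarith) hN1 hN2 S3 (fun n hn => hS n (Finset.mem_filter.1 hn).1) ?_).trans
      (le_of_eq ?_)
    · intro n hn
      obtain ⟨hnS, hco, hEE⟩ := Finset.mem_filter.1 hn
      have hb := hbad n hnS
      unfold CellGood at hb
      rw [not_and] at hb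
      have hb2 := hb hco
      push Not at hb2
      obtain ⟨w, w1, w2, w3, w4, w5⟩ := hb2
      obtain ⟨n1, n2⟩ := hS n hnS
      refine ⟨w + 1 / 2, by simp; linarith, by simp; linarith, by simpa using w4, ?_⟩
      by_contra hcon
      push Not at hcon
      have h3 := hcb T v (n * v) hT hvC0 hv1 n1 n2 hco (le_of_lt (not_le.1 hEE)) N hN1 hN2 hN3
        (w + 1 / 2) (by simp; linarith) (by simp; norm_num; linarith) (by simpa using w4) (by
          have : ε / 8 * L = ε / 8 * L := rfl
          exact hcon.le)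
      have e : w + 1 / 2 - 1 / 2 = w := by ring
      rw [e] at h3
      exact absurd h3.2 (not_le.2 (w5 h3.1))
    · have e : -(v * L) / (4 * K) = -(c * (v * L)) := by rw [hc]; field_simp
      rw [← e]
  calc (S.card : ℝ) ≤ S1.card + S2.card + S3.card := hcard
    _ ≤ C1 * (T / v) * Real.exp (-(c * (v * L))) +
        C2 * 136 / (ε * K) * (T / v) * Real.exp (-(c * (v * L))) +
        400 * (T / v) * Real.exp (-(c * (v * L))) := by linarith
    _ = _ := by ring

end Pool.Agent.Helper54.Hf
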