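import Pool.Agent.Helper54.Hf.S5
import Pool.Agent.Helper54.Hf.J1
import Pool.Agent.Helper54.Xm.Ver
import Pool.Graph.R_seed8.H370R2.Count

set_option autoImplicit false
set_option maxHeartbeats 1000000

/-!
Unconditional estimates for the logarithmic derivative of `fx` to the right of the critical strip.
-/

open Complex MeasureTheory Set Filter Topology

namespace Pool.Agent.Helper54.Hf

open Pool.Agent.Helper54.Xm ArithmeticFunction

/-- logarithmic derivative of `Gx` in the right half plane -/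
lemma Gx_gen : ∃ C : ℝ, 1 ≤ C ∧ ∀ w : ℂ, 11 / 20 ≤ w.re →
    Gx w ≠ 0 ∧ DifferentiableAt ℂ Gx w ∧
    ‖logDeriv Gx w - ((1 / 2 * Real.log ‖w‖ : ℝ) : ℂ)‖ ≤ C := by
  have hZ := SG.Dig.Z2_nonneg
  refine ⟨SG.Dig.Z2 + 90, by linarith, ?_⟩
  intro w hw
  set s : ℂ := (1 / 2 + w) / 2 with hs
  have him : s.im = w.im / 2 := by
    rw [hs]
    have : ((1 / 2 + w) / 2 : ℂ) = ((1 / 2 : ℝ) : ℂ) * (((1 / 2 : ℝ) : ℂ) + w) := by push_cast; ring
    rw [this, Complex.im_ofReal_mul, add_im, ofReal_im]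
    ring
  have hsre : s.re = 1 / 4 + w.re / 2 := by
    rw [hs]
    have : ((1 / 2 + w) / 2 : ℂ) = ((1 / 2 : ℝ) : ℂ) * (((1 / 2 : ℝ) : ℂ) + w) := by push_cast; ring
    rw [this, Complex.re_ofReal_mul, add_re, ofReal_re]
    ring
  have hsp : 1 / 2 ≤ s.re := by rw [hsre]; linarith
  have hsne : ∀ n : ℕ, s ≠ -n := by
    intro n hn
    have h1 : s.re = -(n : ℝ) := by rw [hn]; simp
    have := Nat.cast_nonneg (α := ℝ) n
    linarith
  have hΓ : Complex.Gamma s ≠ 0 := Complex.Gamma_ne_zero hsne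
  have hwn : 11 / 20 ≤ ‖w‖ := hw.trans ((le_abs_self _).trans (abs_re_le_norm w))
  have hw0 : 0 < ‖w‖ := by linarith
  have hm1 : 1 / 10 ≤ ‖2 * w - 1‖ := by
    refine le_trans ?_ ((le_abs_self _).trans (abs_re_le_norm _))
    have : (2 * w - 1 : ℂ).re = 2 * w.re - 1 := by simp
    rw [this]; linarith
  have hm2 : 2 * ‖w‖ ≤ ‖2 * w + 1‖ := by
    have h1 : ‖(2 : ℂ) * w‖ = 2 * ‖w‖ := by rw [norm_mul]; norm_num
    rw [← h1]
    rw [← sq_le_sq₀ (norm_nonneg _) (norm_nonneg _), normsq, normsq]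
    have e1 : (2 * w + 1 : ℂ).re = 2 * w.re + 1 := by simp
    have e2 : (2 * w + 1 : ℂ).im = 2 * w.im := by simp
    have e3 : (2 * w : ℂ).re = 2 * w.re := by simp
    have e4 : (2 * w : ℂ).im = 2 * w.im := by simp
    rw [e1, e2, e3, e4]
    nlinarith
  have hfac : (4 * w ^ 2 - 1 : ℂ) = (2 * w - 1) * (2 * w + 1) := by ring
  have hpn : 1 / 10 * (2 * ‖w‖) ≤ ‖4 * w ^ 2 - 1‖ := by
    rw [hfac, norm_mul]
    exact mul_le_mul hm1 hm2 (by positivity) (norm_nonneg _)
  have hpoly : (4 * w ^ 2 - 1 : ℂ) ≠ 0 := by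
    intro h
    rw [h, norm_zero] at hpn
    linarith
  have hd1 : HasDerivAt (fun w : ℂ => 4 * w ^ 2 - 1) (8 * w) w := by
    have := ((hasDerivAt_pow 2 w).const_mul (4 : ℂ)).sub_const 1
    refine this.congr_deriv ?_
    push_cast
    ring
  have hpi0 : (Real.pi : ℂ) ≠ 0 := by exact_mod_cast Real.pi_pos.ne'
  have hd2 : HasDerivAt (fun w : ℂ => (Real.pi : ℂ) ^ (-(1 / 2 + w) / 2))
      ((Real.pi : ℂ) ^ (-(1 / 2 + w) / 2) * Complex.log Real.pi * (-1 / 2)) w := by
    have h1 : HasDerivAt (fun w : ℂ => -(1 / 2 + w) / 2) (-1 / 2) w := by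
      have := (((hasDerivAt_id w).const_add (1 / 2 : ℂ)).neg).div_const 2
      exact this
    exact h1.const_cpow (Or.inl hpi0)
  have hd3 : HasDerivAt (fun w : ℂ => Complex.Gamma ((1 / 2 + w) / 2))
      (deriv Complex.Gamma s * (1 / 2)) w := by
    have h1 : HasDerivAt (fun w : ℂ => (1 / 2 + w) / 2) (1 / 2) w := by
      exact ((hasDerivAt_id w).const_add (1 / 2 : ℂ)).div_const 2
    exact (Complex.differentiableAt_Gamma s hsne).hasDerivAt.comp w h1
  have hGx : Gx = fun w => (4 * w ^ 2 - 1) * ((Real.pi : ℂ) ^ (-(1 / 2 + w) / 2) *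
      Complex.Gamma ((1 / 2 + w) / 2)) := by
    funext w
    rw [Gx, Gammaℝ_def]
  have hpp : (Real.pi : ℂ) ^ (-(1 / 2 + w) / 2) ≠ 0 := by
    rw [Complex.cpow_def_of_ne_zero hpi0]
    exact Complex.exp_ne_zero _
  have hd := hd1.mul (hd2.mul hd3)
  have hne : Gx w ≠ 0 := by
    rw [hGx]
    exact mul_ne_zero hpoly (mul_ne_zero hpp hΓ)
  refine ⟨hne, ?_, ?_⟩
  · rw [hGx]
    exact hd.differentiableAt
  · have hl : logDeriv Gx w = 8 * w / (4 * w ^ 2 - 1) - Complex.log Real.pi / 2 +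
        1 / 2 * logDeriv Complex.Gamma s := by
      rw [logDeriv_apply, hGx]
      have h1 := hd.deriv
      have h2 : deriv (fun w : ℂ => (4 * w ^ 2 - 1) * ((Real.pi : ℂ) ^ (-(1 / 2 + w) / 2) *
        Complex.Gamma ((1 / 2 + w) / 2))) w = 8 * w * ((Real.pi : ℂ) ^ (-(1 / 2 + w) / 2) *
          Complex.Gamma s) + (4 * w ^ 2 - 1) *
          ((Real.pi : ℂ) ^ (-(1 / 2 + w) / 2) * Complex.log Real.pi * (-1 / 2) * Complex.Gamma s +
            (Real.pi : ℂ) ^ (-(1 / 2 + w) / 2) * (deriv Complex.Gamma s * (1 / 2))) := h1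
      rw [h2, logDeriv_apply]
      simp only
      rw [← hs]
      exact alg_aux hpoly hpp hΓ
    have hsn : 1 / 2 ≤ ‖s‖ := hsp.trans ((le_abs_self _).trans (abs_re_le_norm s))
    have hsn1 : 1 ≤ ‖s + 1‖ := by
      refine le_trans ?_ ((le_abs_self _).trans (abs_re_le_norm _))
      simp only [add_re, one_re]; linarith
    have b1 : ‖1 / s‖ ≤ 2 := by
      rw [norm_div, norm_one, div_le_iff₀ (by linarith)]
      linarith
    have b2 : ‖1 / (s + 1)‖ ≤ 1 := by
      rw [norm_div, norm_one, div_le_iff₀ (by linarith)]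
      linarith
    have hn3 : ‖w‖ / 2 ≤ ‖s + 2‖ := by
      have h1 : ‖((1 / 2 : ℝ) : ℂ) * w‖ = ‖w‖ / 2 := by
        rw [norm_mul, Complex.norm_real, Real.norm_of_nonneg (by norm_num)]; ring
      rw [← h1, ← sq_le_sq₀ (norm_nonneg _) (norm_nonneg _), normsq, normsq]
      rw [Complex.re_ofReal_mul, Complex.im_ofReal_mul]
      simp only [add_re, re_ofNat, add_im, im_ofNat, add_zero, him, hsre]
      nlinarith
    have hn4 : ‖s + 2‖ ≤ 5 * ‖w‖ := by
      have : s + 2 = ((1 / 2 : ℝ) : ℂ) * w + ((9 / 4 : ℝ) : ℂ) := by rw [hs]; push_cast; ring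
      rw [this]
      refine (norm_add_le _ _).trans ?_
      rw [norm_mul, Complex.norm_real, Complex.norm_real, Real.norm_of_nonneg (by norm_num),
        Real.norm_of_nonneg (by norm_num)]
      linarith
    have hl5 : Real.log 5 ≤ 4 := by
      have := Real.log_le_sub_one_of_pos (show (0 : ℝ) < 5 by norm_num)
      linarith
    have hl2 : Real.log 2 ≤ 1 := by linarith [Real.log_two_lt_d9]
    have b3 : ‖Complex.log (s + 2) - Real.log ‖w‖‖ ≤ 4 + Real.pi := by
      have e : Complex.log (s + 2) - Real.log ‖w‖ =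
          ((Real.log (‖s + 2‖ / ‖w‖) : ℝ) : ℂ) + (arg (s + 2) : ℂ) * I := by
        rw [Real.log_div (by linarith) hw0.ne']
        rw [Complex.log]
        push_cast
        ring
      rw [e]
      refine (norm_add_le _ _).trans (add_le_add ?_ ?_)
      · rw [Complex.norm_real, Real.norm_eq_abs, abs_le]
        constructor
        · have h1 : Real.log (1 / 2) ≤ Real.log (‖s + 2‖ / ‖w‖) := by
            apply Real.log_le_log (by norm_num)
            rw [le_div_iff₀ hw0]; linarith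
          rw [Real.log_div (by norm_num) (by norm_num), Real.log_one] at h1
          linarith
        · have h1 : Real.log (‖s + 2‖ / ‖w‖) ≤ Real.log 5 := by
            apply Real.log_le_log (div_pos (by linarith) hw0)
            rw [div_le_iff₀ hw0]; linarith
          linarith
      · rw [norm_mul, norm_I, mul_one, Complex.norm_real, Real.norm_eq_abs]
        exact abs_arg_le_pi _
    have hpi4 : Real.pi ≤ 4 := Real.pi_le_four
    have h1 : ‖logDeriv Complex.Gamma s - Real.log ‖w‖‖ ≤ 8 + 2 + 1 + SG.Dig.Z2 := by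
      have e : logDeriv Complex.Gamma s - Real.log ‖w‖ =
          (Complex.log (s + 2) - Real.log ‖w‖) - 1 / s - 1 / (s + 1) + ∑' n, H370.DG.er n s := by
        rw [H370.DG.logDeriv_Gamma' (by linarith : 0 < s.re)]
        ring
      rw [e]
      have c1 := norm_add_le ((Complex.log (s + 2) - Real.log ‖w‖) - 1 / s - 1 / (s + 1)) (∑' n, H370.DG.er n s)
      have c2 := norm_sub_le ((Complex.log (s + 2) - Real.log ‖w‖) - 1 / s) (1 / (s + 1))
      have c3 := norm_sub_le (Complex.log (s + 2) - Real.log ‖w‖) (1 / s)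
      have c4 : ‖∑' n, H370.DG.er n s‖ ≤ SG.Dig.Z2 := H370.DG.norm_tsum_er (by linarith : 0 < s.re)
      linarith
    have h2 : ‖8 * w / (4 * w ^ 2 - 1)‖ ≤ 40 := by
      rw [norm_div, div_le_iff₀ (norm_pos_iff.2 hpoly), norm_mul]
      have : ‖(8 : ℂ)‖ = 8 := by norm_num
      rw [this]
      linarith
    have hlogpi : Real.log Real.pi ≤ 3 := by
      have := Real.log_le_sub_one_of_pos Real.pi_pos
      have := Real.pi_lt_d2
      linarith
    have hlogpi0 : 0 ≤ Real.log Real.pi := Real.log_nonneg (by linarith [Real.pi_gt_three])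
    have h4 : ‖Complex.log Real.pi / 2‖ ≤ 3 / 2 := by
      rw [← Complex.ofReal_log Real.pi_pos.le, norm_div, Complex.norm_real,
        Real.norm_of_nonneg hlogpi0]
      norm_num
      linarith
    have e : logDeriv Gx w - ((1 / 2 * Real.log ‖w‖ : ℝ) : ℂ) =
        8 * w / (4 * w ^ 2 - 1) - Complex.log Real.pi / 2 +
        1 / 2 * (logDeriv Complex.Gamma s - Real.log ‖w‖) := by
      rw [hl]; push_cast; ring
    rw [e]
    have n2 := norm_add_le (8 * w / (4 * w ^ 2 - 1) - Complex.log Real.pi / 2)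
        (1 / 2 * (logDeriv Complex.Gamma s - Real.log ‖w‖))
    have n3 := norm_sub_le (8 * w / (4 * w ^ 2 - 1)) (Complex.log Real.pi / 2)
    have n4 : ‖1 / 2 * (logDeriv Complex.Gamma s - Real.log ‖w‖)‖ ≤
        1 / 2 * (8 + 2 + 1 + SG.Dig.Z2) := by
      rw [norm_mul]
      have : ‖(1 / 2 : ℂ)‖ = 1 / 2 := by norm_num
      rw [this]
      exact mul_le_mul_of_nonneg_left h1 (by norm_num)
    linarith

/-- the logarithmic derivative of zeta is bounded to the right -/
lemma zeta_right : ∃ K : ℝ, 0 ≤ K ∧ ∀ s : ℂ, 21 / 20 ≤ s.re →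
    riemannZeta s ≠ 0 ∧ ‖deriv riemannZeta s / riemannZeta s‖ ≤ K := by
  have hsum : Summable fun n : ℕ => vonMangoldt n * (n : ℝ) ^ (-(21 / 20) : ℝ) := by
    have h1 := ArithmeticFunction.LSeriesSummable_vonMangoldt (s := (((21 / 20 : ℝ)) : ℂ)) (by
      rw [ofReal_re]; norm_num)
    have h2 := h1.norm
    refine h2.congr fun n => ?_
    rw [LSeries.norm_term_eq]
    by_cases hn : n = 0
    · subst hn; simp
    · rw [if_neg hn]
      simp only [Complex.norm_real, ofReal_re, Real.norm_eq_abs]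
      rw [abs_of_nonneg vonMangoldt_nonneg, Real.rpow_neg (by positivity), div_eq_mul_inv]
  refine ⟨∑' n : ℕ, vonMangoldt n * (n : ℝ) ^ (-(21 / 20) : ℝ),
    tsum_nonneg fun n => mul_nonneg vonMangoldt_nonneg (by positivity), fun s hσ => ?_⟩
  have hs1 : 1 < s.re := by linarith
  refine ⟨riemannZeta_ne_zero_of_one_lt_re hs1, ?_⟩
  have e := ArithmeticFunction.LSeries_vonMangoldt_eq_deriv_riemannZeta_div hs1
  have e2 : deriv riemannZeta s / riemannZeta s = -LSeries (fun n => ((vonMangoldt n : ℝ) : ℂ)) s := by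
    rw [e]; ring
  rw [e2, norm_neg]
  have hb : ∀ n : ℕ, ‖LSeries.term (fun n => ((vonMangoldt n : ℝ) : ℂ)) s n‖ ≤
      vonMangoldt n * (n : ℝ) ^ (-(21 / 20) : ℝ) := by
    intro n
    rw [LSeries.norm_term_eq]
    by_cases hn : n = 0
    · subst hn; simp
    · rw [if_neg hn, Complex.norm_real, Real.norm_of_nonneg vonMangoldt_nonneg, div_eq_mul_inv,
        ← Real.rpow_neg (by positivity)]
      refine mul_le_mul_of_nonneg_left ?_ vonMangoldt_nonneg
      exact Real.rpow_le_rpow_of_exponent_le (by exact_mod_cast Nat.one_le_iff_ne_zero.2 hn) (by linarith)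
  exact tsum_of_norm_bounded hsum.hasSum hb

/-- the logarithmic derivative of `fx` to the right -/
lemma fx_right : ∃ C : ℝ, 1 ≤ C ∧ ∀ w : ℂ, 11 / 20 ≤ w.re →
    fx w ≠ 0 ∧ ‖deriv fx w / fx w - ((1 / 2 * Real.log ‖w‖ : ℝ) : ℂ)‖ ≤ C := by
  obtain ⟨C, hC, hG⟩ := Gx_gen
  obtain ⟨K, hK, hz⟩ := zeta_right
  refine ⟨C + K, by linarith, ?_⟩
  intro w hw
  obtain ⟨g1, g2, g3⟩ := hG w hw
  have hsre : (1 / 2 + w : ℂ).re = 1 / 2 + w.re := by simp
  obtain ⟨z1, z2⟩ := hz (1 / 2 + w) (by rw [hsre]; linarith)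
  have hne : w ≠ 1 / 2 := by
    rintro rfl
    norm_num at hw
  have hev : fx =ᶠ[𝓝 w] fun w => Gx w * riemannZeta (1 / 2 + w) := by
    have h1 : {w : ℂ | -(1 / 2) < w.re} ∩ {1 / 2}ᶜ ∈ 𝓝 w := by
      refine (IsOpen.inter (isOpen_lt continuous_const Complex.continuous_re) isOpen_compl_singleton).mem_nhds ?_
      exact ⟨by simp only [Set.mem_ofPred_eq]; linarith, hne⟩
    filter_upwards [h1] with u hu
    exact fx_eq hu.1 hu.2
  have hzd : DifferentiableAt ℂ riemannZeta (1 / 2 + w) := by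
    apply differentiableAt_riemannZeta
    intro h
    have := congrArg Complex.re h
    rw [hsre] at this
    simp at this
    linarith
  have hzd2 : HasDerivAt (fun w : ℂ => riemannZeta (1 / 2 + w)) (deriv riemannZeta (1 / 2 + w)) w :=
    hzd.hasDerivAt.comp_const_add (1 / 2) w
  have hd := g2.hasDerivAt.mul hzd2
  have hval : fx w = Gx w * riemannZeta (1 / 2 + w) := hev.eq_of_nhds
  have hder : deriv fx w = deriv Gx w * riemannZeta (1 / 2 + w) + Gx w * deriv riemannZeta (1 / 2 + w) := by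
    rw [hev.deriv_eq]
    exact hd.deriv
  refine ⟨by rw [hval]; exact mul_ne_zero g1 z1, ?_⟩
  have e : deriv fx w / fx w = logDeriv Gx w + deriv riemannZeta (1 / 2 + w) / riemannZeta (1 / 2 + w) := by
    rw [hval, hder, logDeriv_apply]
    clear hder hval hd hzd2
    generalize deriv riemannZeta (1 / 2 + w) = Z' at *
    generalize riemannZeta (1 / 2 + w) = Z at *
    field_simp
  rw [e]
  have : logDeriv Gx w + deriv riemannZeta (1 / 2 + w) / riemannZeta (1 / 2 + w) -
      ((1 / 2 * Real.log ‖w‖ : ℝ) : ℂ) = (logDeriv Gx w - ((1 / 2 * Real.log ‖w‖ : ℝ) : ℂ)) +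
        deriv riemannZeta (1 / 2 + w) / riemannZeta (1 / 2 + w) := by ring
  rw [this]
  exact (norm_add_le _ _).trans (add_le_add g3 z2)

end Pool.Agent.Helper54.Hf
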