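import Pool.Agent.Helper54.Hf.S6
import Pool.Agent.Helper54.Hf.A3

set_option autoImplicit false
set_option maxHeartbeats 1000000

/-!
Good windows: unconditional for large height, and statistics for small height.
-/

open Complex MeasureTheory Set Filter Topology

namespace Pool.Agent.Helper54.Hf

open Pool.Agent.Helper54.Xm ArithmeticFunction

/-- the estimate for the logarithmic derivative to the right, high up -/
lemma H1_right {ε : ℝ} (hε : 0 < ε) : ∃ T0 : ℝ, 16 ≤ T0 ∧ ∀ T : ℝ, T0 ≤ T → ∀ p : ℂ, 11 / 20 ≤ p.re →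
    T / 4 ≤ p.im → p.im ≤ 4 * T →
    fx p ≠ 0 ∧ ‖deriv fx p / fx p - Real.log T / 2‖ ≤ ε * (Real.log T + p.re) := by
  obtain ⟨C, hC, hfx⟩ := fx_right
  refine ⟨max 16 (max (1 / ε) (Real.exp ((C + 2) / ε))), le_max_left _ _, ?_⟩
  intro T hT p hp h1 h2
  have hT16 : 16 ≤ T := (le_max_left _ _).trans hT
  have hT1 : 1 / ε ≤ T := ((le_max_left _ _).trans (le_max_right _ _)).trans hT
  have hT2 : Real.exp ((C + 2) / ε) ≤ T := ((le_max_right _ _).trans (le_max_right _ _)).trans hT
  have hT0 : 0 < T := by linarith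
  have hL : (C + 2) / ε ≤ Real.log T := (Real.le_log_iff_exp_le hT0).2 hT2
  rw [div_le_iff₀ hε] at hL hT1
  obtain ⟨g1, g2⟩ := hfx p hp
  refine ⟨g1, ?_⟩
  have hpn1 : T / 4 ≤ ‖p‖ := h1.trans ((le_abs_self _).trans (abs_im_le_norm p))
  have hpn2 : ‖p‖ ≤ p.re + 4 * T := by
    refine (norm_le_abs_re_add_abs_im p).trans ?_
    rw [abs_of_nonneg (by linarith), abs_of_nonneg (by linarith)]
    linarith
  have hp0 : 0 < ‖p‖ := by linarith
  have hl4 : Real.log 4 ≤ 2 := by
    have := Real.log_two_lt_d9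
    have e : Real.log 4 = 2 * Real.log 2 := by
      rw [show (4 : ℝ) = 2 ^ 2 by norm_num, Real.log_pow]; push_cast; ring
    rw [e]; linarith
  have hlow : Real.log T - 2 ≤ Real.log ‖p‖ := by
    have := Real.log_le_log (by linarith) hpn1
    rw [Real.log_div (by linarith) (by norm_num)] at this
    linarith
  have hup : Real.log ‖p‖ ≤ Real.log T + 2 + p.re / (4 * T) := by
    have h3 := Real.log_le_log hp0 hpn2
    have e : p.re + 4 * T = T * (4 * (1 + p.re / (4 * T))) := by field_simp; ring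
    have h4 : 0 < 1 + p.re / (4 * T) := by
      have : 0 ≤ p.re / (4 * T) := by
        apply div_nonneg <;> linarith
      linarith
    rw [e, Real.log_mul hT0.ne' (by positivity), Real.log_mul (by norm_num) h4.ne'] at h3
    have h5 := Real.log_le_sub_one_of_pos h4
    linarith
  have hq : p.re / (4 * T) ≤ ε * p.re := by
    rw [div_le_iff₀ (by linarith)]
    nlinarith
  have e : deriv fx p / fx p - Real.log T / 2 =
      (deriv fx p / fx p - ((1 / 2 * Real.log ‖p‖ : ℝ) : ℂ)) +
        ((1 / 2 * (Real.log ‖p‖ - Real.log T) : ℝ) : ℂ) := by push_cast; ring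
  rw [e]
  refine (norm_add_le _ _).trans ?_
  have h6 : ‖((1 / 2 * (Real.log ‖p‖ - Real.log T) : ℝ) : ℂ)‖ ≤ 1 + ε * p.re := by
    rw [Complex.norm_real, Real.norm_eq_abs, abs_le]
    have : 0 ≤ ε * p.re := mul_nonneg hε.le (by linarith)
    constructor <;> linarith
  linarith

/-- the heat flow cannot have small values far away: the saddle conditions far to the right -/
theorem far_loc : ∃ K : ℝ, 12 ≤ K ∧ ∀ (w0 : ℂ) (t : ℝ), 0 < t → t ≤ 1 / 2 → 17 ≤ w0.re → K ≤ ‖w0‖ →
    Loc fx t (Real.log ‖w0‖) (1 / 3200) (w0.re / 16) w0 := by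
  obtain ⟨C, hC, hfx⟩ := fx_right
  refine ⟨max 3200 (Real.exp (6400 * (C + 2))), (by norm_num : (12 : ℝ) ≤ 3200).trans (le_max_left _ _), ?_⟩
  intro w0 t t0 t1 hw hK
  have hA1 : 3200 ≤ ‖w0‖ := (le_max_left _ _).trans hK
  have hA2 : Real.exp (6400 * (C + 2)) ≤ ‖w0‖ := (le_max_right _ _).trans hK
  set A := ‖w0‖ with hA
  have hA0 : 0 < A := by linarith
  have hL : 6400 * (C + 2) ≤ Real.log A := (Real.le_log_iff_exp_le hA0).2 hA2
  set L := Real.log A with hLdef
  have hL0 : 0 < L := by linarith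
  have hLA : L ≤ A / 2 := by
    have h1 := Real.log_le_sub_one_of_pos (show 0 < A / 2 by linarith)
    rw [Real.log_div (by linarith) (by norm_num)] at h1
    linarith [Real.log_two_lt_d9]
  refine ⟨fx_diff, t0, t1, hL0, by norm_num, le_rfl, by linarith, by linarith, ?_, ?_, ?_⟩
  · have := mul_pos t0 hL0
    linarith
  · intro p hp1 hp2
    have hpr : 17 / 16 ≤ p.re := by linarith
    obtain ⟨g1, g2⟩ := hfx p (by linarith)
    refine ⟨g1, ?_⟩
    set Δ := |p.re - w0.re| with hΔ
    have hΔ0 : 0 ≤ Δ := abs_nonneg _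
    have htL : t * L ≤ L / 2 := by nlinarith
    have hpn2 : ‖p‖ ≤ A + Δ + L / 2 := by
      have e : p = w0 + (p - w0) := by ring
      rw [e]
      refine (norm_add_le _ _).trans ?_
      have := norm_le_abs_re_add_abs_im (p - w0)
      rw [sub_re, sub_im] at this
      linarith
    have hAre : A ≤ w0.re + |w0.im| := by
      refine (norm_le_abs_re_add_abs_im w0).trans ?_
      rw [abs_of_nonneg (by linarith : 0 ≤ w0.re)]
    have hpn1 : A / 32 ≤ ‖p‖ := by
      rcases le_total (A / 2) w0.re with h | h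
      · refine le_trans ?_ ((le_abs_self _).trans (abs_re_le_norm p))
        linarith
      · refine le_trans ?_ (abs_im_le_norm p)
        have h1 : A / 2 ≤ |w0.im| := by linarith
        have h2 : |w0.im| - |p.im| ≤ |p.im - w0.im| := by
          rw [abs_sub_comm]; exact abs_sub_abs_le_abs_sub _ _
        have h3 : L / 2 ≤ A / 4 := by linarith
        linarith
    have hp0 : 0 < ‖p‖ := by linarith
    have hl32 : Real.log 32 ≤ 4 := by
      have := Real.log_two_lt_d9
      have e : Real.log 32 = 5 * Real.log 2 := by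
        rw [show (32 : ℝ) = 2 ^ 5 by norm_num, Real.log_pow]; push_cast; ring
      rw [e]; linarith
    have hlow : L - 4 ≤ Real.log ‖p‖ := by
      have := Real.log_le_log (by linarith) hpn1
      rw [Real.log_div (by linarith) (by norm_num)] at this
      linarith
    have hup : Real.log ‖p‖ ≤ L + (Δ + L / 2) / A := by
      have h3 := Real.log_le_log hp0 hpn2
      have e : A + Δ + L / 2 = A * (1 + (Δ + L / 2) / A) := by field_simp; ring
      have h4 : 0 ≤ (Δ + L / 2) / A := by positivity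
      rw [e, Real.log_mul hA0.ne' (by linarith)] at h3
      have h5 := Real.log_le_sub_one_of_pos (show 0 < 1 + (Δ + L / 2) / A by linarith)
      linarith
    have hq : (Δ + L / 2) / A ≤ (Δ + L) / 3200 := by
      apply div_le_div₀ (by positivity) (by linarith) (by norm_num) hA1
    have e : deriv fx p / fx p - L / 2 =
        (deriv fx p / fx p - ((1 / 2 * Real.log ‖p‖ : ℝ) : ℂ)) +
          ((1 / 2 * (Real.log ‖p‖ - L) : ℝ) : ℂ) := by push_cast; ring
    rw [e]
    refine (norm_add_le _ _).trans ?_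
    have h6 : ‖((1 / 2 * (Real.log ‖p‖ - L) : ℝ) : ℂ)‖ ≤ 2 + (Δ + L) / 6400 := by
      rw [Complex.norm_real, Real.norm_eq_abs, abs_le]
      have : 0 ≤ (Δ + L) / 3200 := by positivity
      constructor <;> linarith
    have h7 : C + 2 ≤ L / 6400 := by linarith
    linarith
  · intro v x hv _
    refine fx_mono (fun ρ hρ => ?_) hv
    have h1 := fx_zero_re hρ
    have h2 : ρ.re ^ 2 ≤ 1 / 4 := by
      have := sq_le_sq' (by linarith [neg_abs_le ρ.re, abs_nonneg ρ.re] : -(1 / 2) ≤ |ρ.re|) h1.le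
      rw [sq_abs] at this
      linarith
    have h3 : (17 / 16 : ℝ) ^ 2 ≤ (w0.re / 16) ^ 2 := by
      apply pow_le_pow_left₀ (by norm_num)
      linarith
    nlinarith [sq_nonneg (x - ρ.im)]

/-- good windows of large height -/
lemma good_top {ε : ℝ} (hε : 0 < ε) : ∃ T0 : ℝ, 16 ≤ T0 ∧ ∀ T V R x0 : ℝ, T0 ≤ T → 3 / 4 ≤ V → R ≤ T / 4 →
    T / 2 ≤ x0 → x0 ≤ 3 * T → Good fx (Real.log T) ε V R x0 := by
  obtain ⟨T0, hT0, h⟩ := H1_right hε
  refine ⟨T0, hT0, ?_⟩
  intro T V R x0 hT hV hR h1 h2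
  constructor
  · intro p hp1 hp2
    have := abs_le.1 (hp2.trans hR)
    exact h T hT p (by linarith) (by linarith [this.1]) (by linarith [this.2])
  · intro v x hv _
    refine fx_mono (fun ρ hρ => ?_) hv
    have h1 := fx_zero_re hρ
    have h2 : ρ.re ^ 2 ≤ 1 / 4 := by
      have := sq_le_sq' (by linarith [neg_abs_le ρ.re, abs_nonneg ρ.re] : -(1 / 2) ≤ |ρ.re|) h1.le
      rw [sq_abs] at this
      linarith
    nlinarith [sq_nonneg (x - ρ.im)]

/-- rounding to a natural number -/
lemma exists_round {x v : ℝ} (hv : 0 < v) (hx : 0 ≤ x) : ∃ m : ℕ, |x - m * v| ≤ v / 2 := by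
  have h0 : 0 ≤ round (x / v) := by
    rw [round_eq]
    apply Int.floor_nonneg.2
    positivity
  obtain ⟨m, hm⟩ := Int.eq_ofNat_of_zero_le h0
  refine ⟨m, ?_⟩
  have h1 := abs_sub_round (x / v)
  rw [hm] at h1
  have e : x - m * v = (x / v - m) * v := by field_simp
  rw [e, abs_mul, abs_of_pos hv]
  have h2 : |x / v - (m : ℝ)| ≤ 1 / 2 := by simpa using h1
  nlinarith

/-- good windows from good cells -/
theorem good_of_cells {ε : ℝ} (hε : 0 < ε) : ∃ T0 : ℝ, 1000 ≤ T0 ∧ ∀ T U y : ℝ, T0 ≤ T → 0 < U → U ≤ 12 →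
    3 * T / 4 ≤ y → y ≤ 5 * T / 2 →
    (∀ i : ℕ, U / 32 * 2 ^ i ≤ 3 / 5 → ∀ m : ℕ, |m * (U / 32 * 2 ^ i) - y| ≤ 8 * U + U / 32 * 2 ^ i →
      CellGood ε T (U / 32 * 2 ^ i) (m * (U / 32 * 2 ^ i))) →
    Good fx (Real.log T) ε (U / 16) (8 * U) y := by
  obtain ⟨T0, hT0, h⟩ := H1_right hε
  refine ⟨max T0 1000, le_max_right _ _, ?_⟩
  intro T U y hT hU hU12 hy1 hy2 hc
  have hT1 : T0 ≤ T := (le_max_left _ _).trans hT
  have hT2 : 1000 ≤ T := (le_max_right _ _).trans hT
  have hL0 : 0 < Real.log T := Real.log_pos (by linarith)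
  constructor
  · intro p hp1 hp2
    have hp2' := abs_le.1 hp2
    rcases le_or_gt (11 / 20) p.re with hp | hp
    · exact h T hT1 p hp (by linarith [hp2'.1]) (by linarith [hp2'.2])
    · have hx1 : 1 ≤ p.re / (U / 32) := by
        rw [le_div_iff₀ (by positivity)]; linarith
      obtain ⟨i, hi1, hi2⟩ := exists_nat_pow_near hx1 (one_lt_two : (1 : ℝ) < 2)
      rw [le_div_iff₀ (by positivity)] at hi1
      rw [div_lt_iff₀ (by positivity)] at hi2
      set v := U / 32 * 2 ^ i with hv
      have hv0 : 0 < v := by positivity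
      have hv1 : v ≤ p.re := by rw [hv]; linarith
      have hv2 : p.re ≤ 2 * v := by
        rw [hv]
        have : (2 : ℝ) ^ (i + 1) * (U / 32) = 2 * (U / 32 * 2 ^ i) := by rw [pow_succ]; ring
        linarith
      obtain ⟨m, hm⟩ := exists_round (x := p.im) hv0 (by linarith [hp2'.1])
      have hm1 : |(m : ℝ) * v - y| ≤ 8 * U + v := by
        have h1 := abs_sub_le (m * v) p.im y
        rw [abs_sub_comm (m * v) p.im] at h1
        linarith
      have hcell := hc i (by rw [← hv]; linarith) m hm1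
      obtain ⟨g1, g2⟩ := hcell.2 p hv1 hv2 (by linarith) (by linarith)
      refine ⟨g1, g2.trans ?_⟩
      have : 0 ≤ ε * p.re := mul_nonneg hε.le (by linarith)
      nlinarith
  · intro v x hv hx
    have hx' := abs_le.1 hx
    have hv0 : 0 < U / 32 := by positivity
    obtain ⟨m, hm⟩ := exists_round (x := x) hv0 (by linarith [hx'.1])
    have hm1 : |(m : ℝ) * (U / 32) - y| ≤ 8 * U + U / 32 := by
      have h1 := abs_sub_le (m * (U / 32)) x y
      rw [abs_sub_comm (m * (U / 32)) x] at h1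
      linarith
    have hcell := hc 0 (by rw [pow_zero, mul_one]; linarith) m (by rw [pow_zero, mul_one]; exact hm1)
    rw [pow_zero, mul_one] at hcell
    have hmy : 8 ≤ (m : ℝ) * (U / 32) := by
      have := abs_le.1 hm1
      linarith [this.1]
    refine fx_mono (fun ρ hρ => ?_) hv
    have h1 := cone_fx (w := ⟨U / 32, x⟩) hv0 (by linarith) hmy hcell.1 le_rfl (by
      simp only
      linarith) ρ hρ
    simp only at h1
    nlinarith [sq_nonneg (x - ρ.im)]

/-- sum over scales -/
lemma sum_scales {a : ℝ} (ha : 1 ≤ a) (k : ℕ) :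
    ∑ i ∈ Finset.range k, Real.exp (-(a * 2 ^ i)) ≤ 2 * Real.exp (-a) := by
  have h1 : ∀ i ∈ Finset.range k, Real.exp (-(a * 2 ^ i)) ≤ Real.exp (-a) * (1 / 2) ^ i := by
    intro i _
    have h2 : (i : ℝ) + 1 ≤ 2 ^ i := by
      have := Nat.lt_two_pow_self (n := i)
      exact_mod_cast this
    have h3 : Real.exp (-(a * 2 ^ i)) ≤ Real.exp (-a + i * (-1)) := by
      apply Real.exp_le_exp.2
      have : a * ((i : ℝ) + 1) ≤ a * 2 ^ i := mul_le_mul_of_nonneg_left h2 (by linarith)
      have h4 : (i : ℝ) * 1 ≤ i * a := mul_le_mul_of_nonneg_left ha (Nat.cast_nonneg _)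
      linarith
    refine h3.trans ?_
    rw [Real.exp_add, Real.exp_nat_mul]
    refine mul_le_mul_of_nonneg_left ?_ (Real.exp_pos _).le
    apply pow_le_pow_left₀ (Real.exp_pos _).le
    rw [Real.exp_neg, one_div]
    apply inv_anti₀ (by norm_num)
    linarith [Real.exp_one_gt_d9]
  refine (Finset.sum_le_sum h1).trans ?_
  rw [← Finset.mul_sum]
  have h5 : ∑ i ∈ Finset.range k, (1 / 2 : ℝ) ^ i ≤ 2 := by
    have := Summable.sum_le_tsum (Finset.range k) (fun i _ => by positivity) summable_geometric_two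
    rw [tsum_geometric_two] at this
    exact this
  nlinarith [Real.exp_pos (-a)]

/-- the number of bad windows -/
theorem good_stat {ε : ℝ} (hε : 0 < ε) : ∃ C c C0 T0 : ℝ, 1 ≤ C ∧ 0 < c ∧ 1 ≤ C0 ∧ 1000 ≤ T0 ∧
    ∀ T U : ℝ, T0 ≤ T → C0 ≤ U * Real.log T → U ≤ 12 → ∀ S : Finset ℕ,
    (∀ n ∈ S, 3 * T / 4 ≤ n * U ∧ n * U ≤ 5 * T / 2) →
    (∀ n ∈ S, ¬ Good fx (Real.log T) ε (U / 16) (8 * U) (n * U)) →
    (S.card : ℝ) ≤ C * (T / U) * Real.exp (-(c * (U * Real.log T))) := by
  classical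
  obtain ⟨C, c, C0, T0, hC, hc, hC0, hT0, hst⟩ := cell_stat ε hε
  obtain ⟨T1, hT1, hgc⟩ := good_of_cells hε
  refine ⟨1152 * C, c / 32, 32 * C0 + 32 / c, max T0 T1, by linarith, by positivity, by
    have : 0 < 32 / c := by positivity
    linarith, hT1.trans (le_max_right _ _), ?_⟩
  intro T U hT hUL hU12 S hS hbad
  have hTT0 : T0 ≤ T := (le_max_left _ _).trans hT
  have hTT1 : T1 ≤ T := (le_max_right _ _).trans hT
  have hT1000 : 1000 ≤ T := hT1.trans hTT1
  have hL0 : 0 < Real.log T := Real.log_pos (by linarith)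
  set L := Real.log T with hL
  have hc32 : 0 < 32 / c := by positivity
  have hU0 : 0 < U := by
    by_contra h
    push Not at h
    have : U * L ≤ 0 := mul_nonpos_of_nonpos_of_nonneg h hL0.le
    linarith
  set v : ℕ → ℝ := fun i => U / 32 * 2 ^ i with hv
  have hv0 : ∀ i, 0 < v i := fun i => by simp only [hv]; positivity
  have hvmono : ∀ i, U / 32 ≤ v i := fun i => by
    simp only [hv]
    have : (1 : ℝ) ≤ 2 ^ i := one_le_pow₀ (by norm_num)
    nlinarith
  -- the scale cut-off
  obtain ⟨k, hk⟩ : ∃ k : ℕ, ∀ i, v i ≤ 3 / 5 → i < k := by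
    obtain ⟨k, hk⟩ := exists_nat_gt (32 / U)
    refine ⟨k, fun i hi => ?_⟩
    by_contra h
    push Not at h
    have h1 : (i : ℝ) < 2 ^ i := by exact_mod_cast Nat.lt_two_pow_self (n := i)
    have h2 : (k : ℝ) ≤ i := by exact_mod_cast h
    have h3 : 32 / U < 2 ^ i := by linarith
    rw [div_lt_iff₀ hU0] at h3
    simp only [hv] at hi
    linarith
  obtain ⟨M, hM⟩ := exists_nat_gt (3 * T / (U / 32))
  set B : ℕ → Finset ℕ := fun i => (Finset.range M).filter (fun m => v i ≤ 3 / 5 ∧
    (T / 2 ≤ m * v i ∧ m * v i ≤ 3 * T) ∧ ¬ CellGood ε T (v i) (m * v i)) with hB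
  set N : ℕ → ℕ → Finset ℕ := fun i m => S.filter (fun n => |m * v i - n * U| ≤ 8 * U + v i) with hN
  have hcover : S ⊆ (Finset.range k).biUnion (fun i => (B i).biUnion (fun m => N i m)) := by
    intro n hn
    have h1 := hbad n hn
    have h2 := hS n hn
    have h3 : ¬ (∀ i : ℕ, U / 32 * 2 ^ i ≤ 3 / 5 → ∀ m : ℕ,
      |m * (U / 32 * 2 ^ i) - n * U| ≤ 8 * U + U / 32 * 2 ^ i →
      CellGood ε T (U / 32 * 2 ^ i) (m * (U / 32 * 2 ^ i))) :=
      fun h => h1 (hgc T U (n * U) hTT1 hU0 hU12 h2.1 h2.2 h)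
    push Not at h3
    obtain ⟨i, hi, m, hm, hcell⟩ := h3
    have hm' := abs_le.1 hm
    have hb1 : T / 2 ≤ m * v i := by simp only [hv]; linarith [hm'.1]
    have hb2 : m * v i ≤ 3 * T := by simp only [hv]; linarith [hm'.2]
    rw [Finset.mem_biUnion]
    refine ⟨i, Finset.mem_range.2 (hk i hi), ?_⟩
    rw [Finset.mem_biUnion]
    refine ⟨m, ?_, ?_⟩
    · simp only [hB, Finset.mem_filter, Finset.mem_range]
      refine ⟨?_, hi, ⟨hb1, hb2⟩, hcell⟩
      have h4 : (m : ℝ) * (U / 32) ≤ 3 * T :=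
        (mul_le_mul_of_nonneg_left (hvmono i) (Nat.cast_nonneg m)).trans hb2
      rw [← le_div_iff₀ (by positivity)] at h4
      exact_mod_cast h4.trans_lt hM
    · simp only [hN, Finset.mem_filter]
      exact ⟨hn, hm⟩
  have hNc : ∀ i m, ((N i m).card : ℝ) ≤ 18 * 2 ^ i := by
    intro i m
    have h1 := card_int (S := N i m) (a := (m * v i - (8 * U + v i)) / U)
      (b := (m * v i + (8 * U + v i)) / U) (by
        apply div_le_div_of_nonneg_right _ hU0.le
        have := hv0 i
        linarith) (by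
        intro n hn
        simp only [hN, Finset.mem_filter] at hn
        have := abs_le.1 hn.2
        rw [div_le_iff₀ hU0, le_div_iff₀ hU0]
        constructor <;> linarith [this.1, this.2])
    refine h1.trans ?_
    have e : (m * v i + (8 * U + v i)) / U - (m * v i - (8 * U + v i)) / U + 1 = 17 + 2 ^ i / 16 := by
      simp only [hv]
      field_simp
      ring
    rw [e]
    have : (1 : ℝ) ≤ 2 ^ i := one_le_pow₀ (by norm_num)
    linarith
  have hBc : ∀ i, ((B i).card : ℝ) ≤ C * (T / v i) * Real.exp (-(c * (v i * L))) := by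
    intro i
    by_cases hi : v i ≤ 3 / 5
    · refine hst T (v i) hTT0 ?_ hi (B i) ?_ ?_
      · have h1 : U / 32 * L ≤ v i * L := mul_le_mul_of_nonneg_right (hvmono i) hL0.le
        linarith
      · intro m hm
        simp only [hB, Finset.mem_filter] at hm
        exact hm.2.2.1
      · intro m hm
        simp only [hB, Finset.mem_filter] at hm
        exact hm.2.2.2
    · have : B i = ∅ := by
        simp only [hB]
        rw [Finset.filter_eq_empty_iff]
        intro m _ h
        exact hi h.1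
      rw [this]
      simp only [Finset.card_empty, Nat.cast_zero]
      have := hv0 i
      positivity
  have h1 : (S.card : ℝ) ≤ ∑ i ∈ Finset.range k, ((B i).card : ℝ) * (18 * 2 ^ i) := by
    have h2 := (Finset.card_le_card hcover).trans Finset.card_biUnion_le
    have h3 : (S.card : ℝ) ≤ ∑ i ∈ Finset.range k, (((B i).biUnion (fun m => N i m)).card : ℝ) := by
      exact_mod_cast h2
    refine h3.trans (Finset.sum_le_sum fun i _ => ?_)
    have h4 : ((((B i).biUnion (fun m => N i m)).card : ℕ) : ℝ) ≤ ∑ m ∈ B i, ((N i m).card : ℝ) := by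
      exact_mod_cast Finset.card_biUnion_le (s := B i) (t := fun m => N i m)
    refine h4.trans ?_
    refine (Finset.sum_le_sum (fun m _ => hNc i m)).trans ?_
    rw [Finset.sum_const, nsmul_eq_mul]
  refine h1.trans ?_
  have h5 : ∀ i ∈ Finset.range k, ((B i).card : ℝ) * (18 * 2 ^ i) ≤
      576 * C * (T / U) * Real.exp (-(c / 32 * (U * L) * 2 ^ i)) := by
    intro i _
    refine (mul_le_mul_of_nonneg_right (hBc i) (by positivity)).trans ?_
    have e1 : -(c * (v i * L)) = -(c / 32 * (U * L) * 2 ^ i) := by simp only [hv]; ring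
    have e2 : C * (T / v i) * Real.exp (-(c / 32 * (U * L) * 2 ^ i)) * (18 * 2 ^ i) =
        576 * C * (T / U) * Real.exp (-(c / 32 * (U * L) * 2 ^ i)) := by
      simp only [hv]
      field_simp
      ring
    rw [e1, e2]
  refine (Finset.sum_le_sum h5).trans ?_
  rw [← Finset.mul_sum]
  have ha : 1 ≤ c / 32 * (U * L) := by
    have h6 : 32 / c ≤ U * L := by linarith
    rw [div_le_iff₀ hc] at h6
    linarith
  have h7 := sum_scales ha k
  have h8 : 0 < 576 * C * (T / U) := by positivity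
  calc 576 * C * (T / U) * ∑ i ∈ Finset.range k, Real.exp (-(c / 32 * (U * L) * 2 ^ i))
      ≤ 576 * C * (T / U) * (2 * Real.exp (-(c / 32 * (U * L)))) :=
        mul_le_mul_of_nonneg_left h7 h8.le
    _ = _ := by ring

end Pool.Agent.Helper54.Hf
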