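import Pool.Agent.Helper54.Hf.S7
import Pool.Agent.Helper54.Hf.R2
import Pool.Agent.Helper54.Hf.A4

set_option autoImplicit false
set_option maxHeartbeats 1000000

/-!
The number of zeros of the heat flow which are not on the axis or not simple.
-/

open Complex MeasureTheory Set Filter Topology

namespace Pool.Agent.Helper54.Hf

open Pool.Agent.Helper54.Xm

/-- nearest multiple -/
noncomputable def nr (U x : ℝ) : ℕ := (round (x / U)).toNat

lemma nr_spec {U x : ℝ} (hU : 0 < U) (hx : 0 ≤ x) : |x - nr U x * U| ≤ U / 2 := by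
  have h0 : 0 ≤ round (x / U) := by
    rw [round_eq]
    apply Int.floor_nonneg.2
    positivity
  have h1 := abs_sub_round (x / U)
  have h2 : ((round (x / U) : ℤ) : ℝ) = (nr U x : ℝ) := by
    unfold nr
    have : ((round (x / U)).toNat : ℤ) = round (x / U) := Int.toNat_of_nonneg h0
    exact_mod_cast this.symm
  rw [h2] at h1
  have e : x - nr U x * U = (x / U - nr U x) * U := by field_simp
  rw [e, abs_mul, abs_of_pos hU]
  nlinarith

/-- zeros of the heat flow stay in a strip -/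
lemma strip : ∃ K : ℝ, 17 ≤ K ∧ ∀ (t : ℝ) (w : ℂ), 0 < t → t ≤ 1 / 2 → Hx t w = 0 → K ≤ w.im →
    w.re < 17 := by
  obtain ⟨K, hK, h⟩ := far_loc
  refine ⟨max K 17, le_max_right _ _, ?_⟩
  intro t w t0 t1 hz hw
  by_contra hc
  push Not at hc
  have hn : K ≤ ‖w‖ := (le_max_left _ _).trans (hw.trans ((le_abs_self _).trans (abs_im_le_norm w)))
  have hl := h w t t0 t1 hc hn
  have hL := hl.L0
  have htL := hl.tL
  obtain ⟨p1, hp, hp2, hlow⟩ := hl.lower fx_sym fx_gr (Hx_diff t1) (Hx_heat t0 t1) (by nlinarith)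
    (by nlinarith)
  rw [hz, norm_zero] at hlow
  have := norm_pos_iff.2 (hl.MM_ne hp)
  linarith

section window

variable {L t U x0 : ℝ} {w : ℂ}

lemma win_loc (h : Good fx L (1 / 6400) (U / 16) (8 * U) x0) (t0 : 0 < t) (t1 : t ≤ 1 / 2)
    (hL : 0 < L) (hU0 : 0 < U) (hU : t * L ≤ U) (hw0 : 0 ≤ w.re) (hwL : w.re ≤ L)
    (hwU : U ≤ w.re + t * L) (hwn : |w.im - x0| ≤ U) :
    Loc fx t L (2 * (1 / 6400)) (U / 16) w :=
  h.loc fx_diff t0 t1 hL (by norm_num) le_rfl (by positivity) hw0 hwL (by linarith) (by linarith)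

lemma win_strip (h : Good fx L (1 / 6400) (U / 16) (8 * U) x0) (t0 : 0 < t) (t1 : t ≤ 1 / 2)
    (hL : 17 ≤ L) (hlam : 2000000 ≤ t * L ^ 2) (hU : t * L ≤ U) (hz : Hx t w = 0) (hw0 : 0 ≤ w.re)
    (hw17 : w.re < 17) (hwn : |w.im - x0| ≤ U) : w.re < U := by
  by_contra hc
  push Not at hc
  have hL0 : 0 < L := by linarith
  have htL : 0 < t * L := mul_pos t0 hL0
  have hl := win_loc h t0 t1 hL0 (htL.trans_le hU) hU hw0 (by linarith) (by linarith) hwn
  have h1 : t * 2000000 ≤ t * (t * L ^ 2) := mul_le_mul_of_nonneg_left hlam t0.le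
  have h2 : (t * L) ^ 2 = t * (t * L ^ 2) := by ring
  have h3 : (t * L) ^ 2 ≤ w.re ^ 2 := pow_le_pow_left₀ htL.le (hU.trans hc) 2
  obtain ⟨p1, hp, hp2, hlow⟩ := hl.lower fx_sym fx_gr (Hx_diff t1) (Hx_heat t0 t1) (by nlinarith)
    (by nlinarith)
  rw [hz, norm_zero] at hlow
  have := norm_pos_iff.2 (hl.MM_ne hp)
  linarith

lemma win_zero (h : Good fx L (1 / 6400) (t * L / 16) (8 * (t * L)) x0) (t0 : 0 < t) (t1 : t ≤ 1 / 2)
    (hL : 17 ≤ L) (hlam : 2000000 ≤ t * L ^ 2) (hz : Hx t w = 0) (hw0 : 0 ≤ w.re)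
    (hw17 : w.re < 17) (hwn : |w.im - x0| ≤ t * L) : w.re = 0 ∧ deriv (Hx t) w ≠ 0 := by
  have hL0 : 0 < L := by linarith
  have htL : 0 < t * L := mul_pos t0 hL0
  have hl := win_loc h t0 t1 hL0 htL le_rfl hw0 (by linarith) (by linarith) hwn
  exact hl.zeros fx_sym fx_gr (Hx_diff t1) (Hx_heat t0 t1) hlam hz

lemma win_count (h : Good fx L (1 / 6400) (U / 16) (8 * U) x0) (t0 : 0 < t) (t1 : t ≤ 1 / 2)
    (hL : 17 ≤ L) (hUL : U ≤ L) (hU0 : 0 < U) (hU : t * L ≤ U) (h520 : 520 * t ≤ U ^ 2) (hUL2 : 2 ≤ U * L)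
    (S : Finset ℂ) (hS : ∀ w ∈ S, |w.re| ≤ U ∧ |w.im - x0| ≤ U) :
    ∑ w ∈ S, (H370.mult (Hx t) w : ℝ) ≤ 80 * U * L :=
  h.count fx_diff fx_sym fx_gr (Hx_diff t1) (Hx_heat t0 t1) t0 t1 (by linarith) (by norm_num) le_rfl
    (by positivity) (by linarith) hUL le_rfl hU h520 hUL2 S hS

end window

/-- a zero which is not on the axis or not simple -/
def Bad (t : ℝ) (w : ℂ) : Prop := Hx t w = 0 ∧ (w.re ≠ 0 ∨ deriv (Hx t) w = 0)

/-- the multi-scale count -/
theorem multi {C1 c1 C01 T L t : ℝ} (hC1 : 1 ≤ C1) (hc1 : 0 < c1) (hT : 1000 ≤ T)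
    (hL : L = Real.log T) (hL17 : 34 ≤ L) (hLT : L ≤ T / 100) (t0 : 0 < t) (t1 : t ≤ 1 / 2)
    (hlam : 2000000 ≤ t * L ^ 2) (hlam1 : C01 ≤ t * L ^ 2) (hlam2 : 1 / c1 ≤ t * L ^ 2)
    (hstat : ∀ U : ℝ, C01 ≤ U * L → U ≤ 12 → ∀ S : Finset ℕ,
      (∀ n ∈ S, 3 * T / 4 ≤ n * U ∧ n * U ≤ 5 * T / 2) →
      (∀ n ∈ S, ¬ Good fx L (1 / 6400) (U / 16) (8 * U) (n * U)) →
      (S.card : ℝ) ≤ C1 * (T / U) * Real.exp (-(c1 * (U * L))))
    (htop : ∀ V R x0 : ℝ, 3 / 4 ≤ V → R ≤ T / 4 → T / 2 ≤ x0 → x0 ≤ 3 * T → Good fx L (1 / 6400) V R x0)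
    (S : Finset ℂ) (hS : ∀ w ∈ S, Bad t w ∧ 0 ≤ w.re ∧ w.re < 17 ∧ T < w.im ∧ w.im ≤ 2 * T) :
    ∑ w ∈ S, (H370.mult (Hx t) w : ℝ) ≤ 320 * C1 * (T * L) * Real.exp (-(c1 * (t * L ^ 2))) := by
  classical
  have hL0 : 0 < L := by linarith
  set u := t * L with hu
  have hu0 : 0 < u := mul_pos t0 hL0
  have huL : t * L ^ 2 = u * L := by rw [hu]; ring
  rw [huL] at hlam hlam1 hlam2 ⊢
  have huL2 : u ≤ L / 2 := by rw [hu]; nlinarith
  rcases le_or_gt 12 u with h12 | h12
  · -- large scale: no bad zeros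
    have : S = ∅ := by
      rw [Finset.eq_empty_iff_forall_notMem]
      intro w hw
      obtain ⟨hb, hw0, hw17, hwT, hwT2⟩ := hS w hw
      have hn := nr_spec (U := u) (x := w.im) hu0 (by linarith)
      have hn' := abs_le.1 hn
      have hg := htop (u / 16) (8 * u) (nr u w.im * u) (by linarith) (by linarith) (by linarith) (by linarith)
      have := win_zero hg t0 t1 (by linarith) (by rw [huL]; exact hlam) hb.1 hw0 hw17 (by linarith)
      rcases hb.2 with h | h
      · exact h this.1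
      · exact this.2 h
    rw [this, Finset.sum_empty]
    positivity
  · set U : ℕ → ℝ := fun j => 2 ^ j * u with hU
    have hU0 : ∀ j, 0 < U j := fun j => by simp only [hU]; positivity
    have hUu : ∀ j, u ≤ U j := fun j => by
      simp only [hU]
      have : (1 : ℝ) ≤ 2 ^ j := one_le_pow₀ (by norm_num)
      nlinarith
    have hex : ∃ j, 12 ≤ U j := by
      obtain ⟨k, hk⟩ := pow_unbounded_of_one_lt (12 / u) (one_lt_two : (1 : ℝ) < 2)
      refine ⟨k, ?_⟩
      rw [div_lt_iff₀ hu0] at hk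
      exact hk.le
    set J := Nat.find hex with hJ
    have hJ1 : 12 ≤ U J := Nat.find_spec hex
    have hJ2 : ∀ i, i < J → U i < 12 := fun i hi => not_le.1 (Nat.find_min hex hi)
    set P : ℂ → ℕ → Prop := fun w j => Good fx L (1 / 6400) (U j / 16) (8 * U j) (nr (U j) w.im * U j) with hP
    have hUsucc : ∀ i, U (i + 1) = 2 * U i := fun i => by simp only [hU]; rw [pow_succ]; ring
    have hJ0 : J ≠ 0 := by
      intro h0
      rw [h0] at hJ1
      simp only [hU, pow_zero, one_mul] at hJ1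
      linarith
    have hUJ : U J < 24 := by
      obtain ⟨m, hm⟩ := Nat.exists_eq_succ_of_ne_zero hJ0
      have h1 := hJ2 m (by omega)
      rw [hm, Nat.succ_eq_add_one, hUsucc]
      linarith
    have hUle : ∀ i, i < J → U (i + 1) < 24 := fun i hi => by
      rw [hUsucc]; linarith [hJ2 i hi]
    have hPJ : ∀ w ∈ S, P w J := by
      intro w hw
      obtain ⟨hb, hw0, hw17, hwT, hwT2⟩ := hS w hw
      have hn := abs_le.1 (nr_spec (U := U J) (x := w.im) (hU0 J) (by linarith))
      exact htop (U J / 16) (8 * U J) (nr (U J) w.im * U J) (by linarith) (by linarith) (by linarith) (by linarith)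
    set jj : ℂ → ℕ := fun w => sInf {j | P w j} with hjj
    have hjP : ∀ w ∈ S, P w (jj w) := fun w hw => Nat.sInf_mem (s := {j | P w j}) ⟨J, hPJ w hw⟩
    have hjJ : ∀ w ∈ S, jj w ≤ J := fun w hw => Nat.sInf_le (hPJ w hw)
    have hj0 : ∀ w ∈ S, jj w ≠ 0 := by
      intro w hw h0
      have h1 := hjP w hw
      rw [h0] at h1
      obtain ⟨hb, hw0, hw17, hwT, hwT2⟩ := hS w hw
      have hn := nr_spec (U := U 0) (x := w.im) (hU0 0) (by linarith)
      simp only [hP, hU, pow_zero, one_mul] at h1 hn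
      have := win_zero h1 t0 t1 (by linarith) (by rw [huL]; exact hlam) hb.1 hw0 hw17
        (by linarith)
      rcases hb.2 with h | h
      · exact h this.1
      · exact this.2 h
    set g : ℂ → ℕ := fun w => jj w - 1 with hg
    have hgJ : ∀ w ∈ S, g w ∈ Finset.range J := fun w hw => by
      have h1 := hjJ w hw
      have h2 := hj0 w hw
      simp only [hg, Finset.mem_range]; omega
    rw [← Finset.sum_fiberwise_of_maps_to hgJ]
    have hinner : ∀ i ∈ Finset.range J, ∑ w ∈ S.filter (fun w => g w = i), (H370.mult (Hx t) w : ℝ) ≤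
        160 * C1 * (T * L) * Real.exp (-(c1 * (u * L) * 2 ^ i)) := by
      intro i hi
      rw [Finset.mem_range] at hi
      set Si := S.filter (fun w => g w = i) with hSi
      have hSi' : ∀ w ∈ Si, w ∈ S ∧ jj w = i + 1 := by
        intro w hw
        rw [hSi, Finset.mem_filter] at hw
        refine ⟨hw.1, ?_⟩
        have h2 := hj0 w hw.1
        have h3 := hw.2
        simp only [hg] at h3
        omega
      set B := Si.image (fun w => nr (U i) w.im) with hB
      have hmaps : ∀ w ∈ Si, nr (U i) w.im ∈ B := fun w hw => Finset.mem_image_of_mem _ hw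
      rw [← Finset.sum_fiberwise_of_maps_to hmaps]
      have hcell : ∀ n ∈ B, ∑ w ∈ Si.filter (fun w => nr (U i) w.im = n), (H370.mult (Hx t) w : ℝ) ≤
          80 * U (i + 1) * L := by
        intro n hn
        rw [hB, Finset.mem_image] at hn
        obtain ⟨w1, hw1, hn1⟩ := hn
        obtain ⟨hw1S, hw1j⟩ := hSi' w1 hw1
        have hgood := hjP w1 hw1S
        rw [hw1j] at hgood
        obtain ⟨-, -, -, hwT, hwT2⟩ := hS w1 hw1S
        have ha := nr_spec (U := U (i + 1)) (x := w1.im) (hU0 _) (by linarith)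
        have hb := nr_spec (U := U i) (x := w1.im) (hU0 _) (by linarith)
        rw [hn1] at hb
        have h520 : 520 * t ≤ U (i + 1) ^ 2 := by
          have h1 : u ^ 2 ≤ U (i + 1) ^ 2 := pow_le_pow_left₀ hu0.le (hUu _) 2
          have h2 : u ^ 2 = t * (u * L) := by rw [hu]; ring
          have h3 : t * 2000000 ≤ t * (u * L) := mul_le_mul_of_nonneg_left hlam t0.le
          linarith
        have hU2 : u * L ≤ U (i + 1) * L := mul_le_mul_of_nonneg_right (hUu _) hL0.le
        refine win_count hgood t0 t1 (by linarith) (by linarith [hUle i hi]) (hU0 _) (hUu _) h520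
          (by linarith) _ ?_
        intro w hw
        rw [Finset.mem_filter] at hw
        obtain ⟨hwSi, hwn⟩ := hw
        obtain ⟨hwS, hwj⟩ := hSi' w hwSi
        obtain ⟨hbw, hw0, hw17, hwT', hwT2'⟩ := hS w hwS
        have hgw := hjP w hwS
        rw [hwj] at hgw
        have hc := nr_spec (U := U i) (x := w.im) (hU0 _) (by linarith)
        rw [hwn] at hc
        have hd := nr_spec (U := U (i + 1)) (x := w.im) (hU0 _) (by linarith)
        have hU1 := hUsucc i
        constructor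
        · rw [abs_of_nonneg hw0]
          exact (win_strip hgw t0 t1 (by linarith) (by rw [huL]; exact hlam) (hUu _) hbw.1 hw0 hw17
            (by linarith [hU0 (i + 1)])).le
        · have h1 := abs_le.1 ha
          have h2 := abs_le.1 hb
          have h3 := abs_le.1 hc
          rw [abs_le]
          constructor <;> linarith [h1.1, h1.2, h2.1, h2.2, h3.1, h3.2]
      have hBcard : (B.card : ℝ) ≤ C1 * (T / U i) * Real.exp (-(c1 * (U i * L))) := by
        refine hstat (U i) ?_ (hJ2 i hi).le B ?_ ?_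
        · have : u * L ≤ U i * L := mul_le_mul_of_nonneg_right (hUu _) hL0.le
          linarith
        · intro n hn
          rw [hB, Finset.mem_image] at hn
          obtain ⟨w1, hw1, hn1⟩ := hn
          obtain ⟨hw1S, hw1j⟩ := hSi' w1 hw1
          obtain ⟨-, -, -, hwT, hwT2⟩ := hS w1 hw1S
          have hb := abs_le.1 (nr_spec (U := U i) (x := w1.im) (hU0 _) (by linarith))
          rw [hn1] at hb
          have := hJ2 i hi
          constructor <;> linarith [hb.1, hb.2]
        · intro n hn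
          rw [hB, Finset.mem_image] at hn
          obtain ⟨w1, hw1, hn1⟩ := hn
          obtain ⟨hw1S, hw1j⟩ := hSi' w1 hw1
          have h1 : i ∉ {j | P w1 j} := Nat.notMem_of_lt_sInf (by
            have : jj w1 = sInf {j | P w1 j} := rfl
            rw [← this, hw1j]; omega)
          simp only [hP, Set.mem_ofPred_eq] at h1
          rw [hn1] at h1
          exact h1
      refine (Finset.sum_le_sum hcell).trans ?_
      rw [Finset.sum_const, nsmul_eq_mul]
      have h5 : 0 ≤ 80 * U (i + 1) * L := by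
        have := hU0 (i + 1)
        positivity
      refine (mul_le_mul_of_nonneg_right hBcard h5).trans (le_of_eq ?_)
      rw [hUsucc]
      have e1 : c1 * (U i * L) = c1 * (u * L) * 2 ^ i := by simp only [hU]; ring
      rw [e1]
      have hUi := (hU0 i).ne'
      field_simp
      ring
    refine (Finset.sum_le_sum hinner).trans ?_
    rw [← Finset.mul_sum]
    have ha : 1 ≤ c1 * (u * L) := by
      rw [div_le_iff₀ hc1] at hlam2
      linarith
    have h7 := sum_scales ha J
    have h8 : 0 < 160 * C1 * (T * L) := by positivity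
    calc 160 * C1 * (T * L) * ∑ i ∈ Finset.range J, Real.exp (-(c1 * (u * L) * 2 ^ i))
        ≤ 160 * C1 * (T * L) * (2 * Real.exp (-(c1 * (u * L)))) :=
          mul_le_mul_of_nonneg_left h7 h8.le
      _ = _ := by ring

/-- the trivial count -/
theorem total {T L t : ℝ} (hT : 1000 ≤ T)
    (hL17 : 34 ≤ L) (hLT : L ≤ T / 100) (t0 : 0 < t) (t1 : t ≤ 1 / 2) (htL : t * L ≤ 17)
    (htop : ∀ V R x0 : ℝ, 3 / 4 ≤ V → R ≤ T / 4 → T / 2 ≤ x0 → x0 ≤ 3 * T → Good fx L (1 / 6400) V R x0)
    (S : Finset ℂ) (hS : ∀ w ∈ S, 0 ≤ w.re ∧ w.re < 17 ∧ T < w.im ∧ w.im ≤ 2 * T) :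
    ∑ w ∈ S, (H370.mult (Hx t) w : ℝ) ≤ 1360 * (T * L) := by
  classical
  have hL0 : 0 < L := by linarith
  set B := S.image (fun w => nr 17 w.im) with hB
  have hmaps : ∀ w ∈ S, nr 17 w.im ∈ B := fun w hw => Finset.mem_image_of_mem _ hw
  rw [← Finset.sum_fiberwise_of_maps_to hmaps]
  have hcell : ∀ n ∈ B, ∑ w ∈ S.filter (fun w => nr 17 w.im = n), (H370.mult (Hx t) w : ℝ) ≤
      80 * 17 * L := by
    intro n hn
    rw [hB, Finset.mem_image] at hn
    obtain ⟨w1, hw1, hn1⟩ := hn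
    obtain ⟨-, -, hwT, hwT2⟩ := hS w1 hw1
    have hb := abs_le.1 (nr_spec (U := 17) (x := w1.im) (by norm_num) (by linarith))
    rw [hn1] at hb
    have hgood := htop (17 / 16) (8 * 17) (n * 17) (by norm_num) (by linarith) (by linarith) (by linarith)
    refine win_count (U := 17) (x0 := n * 17) hgood t0 t1 (by linarith) (by linarith) (by norm_num)
      htL (by linarith) (by linarith) _ ?_
    intro w hw
    rw [Finset.mem_filter] at hw
    obtain ⟨hw0, hw17, hwT', hwT2'⟩ := hS w hw.1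
    have hc := nr_spec (U := 17) (x := w.im) (by norm_num) (by linarith)
    rw [hw.2] at hc
    exact ⟨by rw [abs_of_nonneg hw0]; exact hw17.le, by linarith⟩
  have hBcard : (B.card : ℝ) ≤ T := by
    have h1 := card_int (S := B) (a := (T - 17) / 17) (b := (2 * T + 17) / 17) (by
      apply div_le_div_of_nonneg_right _ (by norm_num)
      linarith) (by
      intro n hn
      rw [hB, Finset.mem_image] at hn
      obtain ⟨w1, hw1, hn1⟩ := hn
      obtain ⟨-, -, hwT, hwT2⟩ := hS w1 hw1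
      have hb := abs_le.1 (nr_spec (U := 17) (x := w1.im) (by norm_num) (by linarith))
      rw [hn1] at hb
      rw [div_le_iff₀ (by norm_num), le_div_iff₀ (by norm_num)]
      constructor <;> linarith [hb.1, hb.2])
    linarith
  refine (Finset.sum_le_sum hcell).trans ?_
  rw [Finset.sum_const, nsmul_eq_mul]
  have h5 : 0 ≤ 80 * 17 * L := by positivity
  refine (mul_le_mul_of_nonneg_right hBcard h5).trans (le_of_eq ?_)
  ring

/-- **Exceptional zeros of the heat flow**, half plane version -/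
theorem bad_count : ∃ C c T0 : ℝ, 1 ≤ C ∧ 0 < c ∧ 1000 ≤ T0 ∧ ∀ T t : ℝ, T0 ≤ T → 0 < t → t ≤ 1 / 2 →
    ∀ S : Finset ℂ, (∀ w ∈ S, Bad t w ∧ 0 ≤ w.re ∧ T < w.im ∧ w.im ≤ 2 * T) →
    ∑ w ∈ S, (H370.mult (Hx t) w : ℝ) ≤
      C * (T * Real.log T) * Real.exp (-(c * (t * (Real.log T) ^ 2))) := by
  obtain ⟨C1, c1, C01, T1, hC1, hc1, hC01, hT1, hst⟩ := good_stat (ε := 1 / 6400) (by norm_num)
  obtain ⟨T2, hT2, htop⟩ := good_top (ε := 1 / 6400) (by norm_num)
  obtain ⟨K, hK, hstrip⟩ := strip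
  set l0 : ℝ := max (max 2000000 C01) (1 / c1) with hl0
  have hl01 : 2000000 ≤ l0 := (le_max_left _ _).trans (le_max_left _ _)
  have hl02 : C01 ≤ l0 := (le_max_right _ _).trans (le_max_left _ _)
  have hl03 : 1 / c1 ≤ l0 := le_max_right _ _
  refine ⟨max (320 * C1) (1360 * Real.exp (c1 * l0)), c1,
    max (max T1 T2) (max K (max (Real.exp l0) 40000)), ?_, hc1, ?_, ?_⟩
  · refine le_trans ?_ (le_max_left _ _)
    linarith
  · exact hT1.trans ((le_max_left _ _).trans (le_max_left _ _))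
  intro T t hT t0 t1 S hS
  have hTT1 : T1 ≤ T := ((le_max_left _ _).trans (le_max_left _ _)).trans hT
  have hTT2 : T2 ≤ T := ((le_max_right _ _).trans (le_max_left _ _)).trans hT
  have hTK : K ≤ T := ((le_max_left _ _).trans (le_max_right _ _)).trans hT
  have hTe : Real.exp l0 ≤ T := ((le_max_left _ _).trans ((le_max_right _ _).trans (le_max_right _ _))).trans hT
  have hT4 : 40000 ≤ T := ((le_max_right _ _).trans ((le_max_right _ _).trans (le_max_right _ _))).trans hT
  have hTpos : 0 < T := by linarith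
  set L := Real.log T with hL
  have hLl : l0 ≤ L := (Real.le_log_iff_exp_le hTpos).2 hTe
  have hLT : L ≤ T / 100 := by
    -- log T = 2 log sqrt T ≤ 2 sqrt T ≤ T / 100 for T ≥ 40000
    have h1 : Real.log T = 2 * Real.log (Real.sqrt T) := by rw [Real.log_sqrt hTpos.le]; ring
    have h2 := Real.log_le_sub_one_of_pos (Real.sqrt_pos.2 hTpos)
    have h3 : 200 ≤ Real.sqrt T := by
      rw [show (200 : ℝ) = Real.sqrt (200 ^ 2) by rw [Real.sqrt_sq (by norm_num)]]
      exact Real.sqrt_le_sqrt (by norm_num; linarith)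
    have h4 : Real.sqrt T * Real.sqrt T = T := Real.mul_self_sqrt hTpos.le
    rw [hL, h1]
    nlinarith
  have hL34 : 34 ≤ L := by linarith
  have hL0 : 0 < L := by linarith
  have hS' : ∀ w ∈ S, Bad t w ∧ 0 ≤ w.re ∧ w.re < 17 ∧ T < w.im ∧ w.im ≤ 2 * T := by
    intro w hw
    obtain ⟨hb, h0, h1, h2⟩ := hS w hw
    exact ⟨hb, h0, hstrip t w t0 t1 hb.1 (by linarith), h1, h2⟩
  have hTL : 0 < T * L := by positivity
  rcases le_or_gt l0 (t * L ^ 2) with h | h
  · have h1 := multi hC1 hc1 (by linarith) hL hL34 hLT t0 t1 (hl01.trans h) (hl02.trans h) (hl03.trans h)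
      (fun U hU1 hU2 S' hS1 hS2 => hst T U hTT1 hU1 hU2 S' hS1 hS2)
      (fun V R x0 h1 h2 h3 h4 => htop T V R x0 hTT2 h1 h2 h3 h4) S hS'
    refine h1.trans ?_
    apply mul_le_mul_of_nonneg_right _ (Real.exp_pos _).le
    exact mul_le_mul_of_nonneg_right (le_max_left _ _) hTL.le
  · have htL : t * L ≤ 17 := by
      have : t * L * L < l0 := by rw [mul_assoc, ← pow_two]; exact h
      have h2 : t * L * l0 ≤ t * L * L := mul_le_mul_of_nonneg_left hLl (by positivity)
      have h3 : t * L * l0 < 1 * l0 := by linarith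
      have := lt_of_mul_lt_mul_right h3 (by linarith)
      linarith
    have h1 := total (by linarith) hL34 hLT t0 t1 htL
      (fun V R x0 h1 h2 h3 h4 => htop T V R x0 hTT2 h1 h2 h3 h4) S (fun w hw => (hS' w hw).2)
    refine h1.trans ?_
    have h2 : 1 ≤ Real.exp (c1 * l0) * Real.exp (-(c1 * (t * L ^ 2))) := by
      rw [← Real.exp_add]
      apply Real.one_le_exp
      nlinarith
    calc 1360 * (T * L) = 1360 * 1 * (T * L) := by ring
      _ ≤ 1360 * (Real.exp (c1 * l0) * Real.exp (-(c1 * (t * L ^ 2)))) * (T * L) := by gcongr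
      _ = 1360 * Real.exp (c1 * l0) * (T * L) * Real.exp (-(c1 * (t * L ^ 2))) := by ring
      _ ≤ _ := by
        apply mul_le_mul_of_nonneg_right _ (Real.exp_pos _).le
        exact mul_le_mul_of_nonneg_right (le_max_right _ _) hTL.le

end Pool.Agent.Helper54.Hf
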