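import Pool.Agent.Helper54.Hf.S8

set_option autoImplicit false
set_option maxHeartbeats 1000000

/-!
The number of simple zeros on the axis.
-/

open Complex MeasureTheory Set Filter Topology

namespace Pool.Agent.Helper54.Hf

open Pool.Agent.Helper54.Xm

/-- one good window has many simple zeros on the axis -/
lemma win_real {L t x0 : ℝ} (h : Good fx L (1 / 6400) (t * L / 16) (8 * (t * L)) x0) (t0 : 0 < t)
    (t1 : t ≤ 1 / 2) (hL : 17 ≤ L) (hlam : 2000000 ≤ t * L ^ 2) (k : ℕ)
    (hk : 14 * ((k : ℝ) + 1) / L ≤ t * L) :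
    ∃ y : ℝ, x0 - t * L / 2 + 14 * k / L ≤ y ∧ y < x0 - t * L / 2 + 14 * ((k : ℝ) + 1) / L ∧
      Hx t (I * y) = 0 ∧ deriv (Hx t) (I * y) ≠ 0 := by
  have hL0 : 0 < L := by linarith
  have htL : 0 < t * L := mul_pos t0 hL0
  have hk0 : 0 ≤ 14 * (k : ℝ) / L := by positivity
  have hk1 : 14 * ((k : ℝ) + 1) / L = 14 * k / L + 14 / L := by ring
  have h14 : 0 < 14 / L := by positivity
  set y0 := x0 - t * L / 2 + 14 * k / L with hy0
  have hl := win_loc (w := ⟨0, y0⟩) h t0 t1 hL0 htL le_rfl (by simp) (by simp; linarith) (by simp)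
    (by simp only; rw [abs_le]; constructor <;> linarith)
  obtain ⟨y, hy1, hy2, hy3⟩ := hl.real_zero fx_sym fx_gr (Hx_diff t1) (Hx_heat t0 t1) hlam rfl
  simp only at hy1 hy2
  have h1314 : 13 / L < 14 / L := div_lt_div_of_pos_right (by norm_num) hL0
  refine ⟨y, hy1, by linarith, hy3, ?_⟩
  have hre : (I * (y : ℂ)).re = 0 := by simp
  have him : (I * (y : ℂ)).im = y := by simp
  exact (win_zero h t0 t1 hL hlam hy3 hre.ge (by rw [hre]; norm_num) (by
    rw [him, abs_le]; constructor <;> linarith)).2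

/-- **Simple zeros on the axis** -/
theorem real_count : ∃ l1 T0 : ℝ, 1 ≤ l1 ∧ 1000 ≤ T0 ∧ ∀ T t : ℝ, T0 ≤ T → 0 < t → t ≤ 1 / 2 →
    l1 ≤ t * (Real.log T) ^ 2 → ∃ S : Finset ℝ, (∀ y ∈ S, T < y ∧ y ≤ 2 * T ∧ Hx t (I * y) = 0 ∧
      deriv (Hx t) (I * y) ≠ 0) ∧ T * Real.log T / 60 ≤ (S.card : ℝ) := by
  classical
  obtain ⟨C1, c1, C01, T1, hC1, hc1, hC01, hT1, hst⟩ := good_stat (ε := 1 / 6400) (by norm_num)
  obtain ⟨T2, hT2, htop⟩ := good_top (ε := 1 / 6400) (by norm_num)
  set l0 : ℝ := max (max 2000000 C01) (4 * C1 / c1) with hl0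
  have hl01 : 2000000 ≤ l0 := (le_max_left _ _).trans (le_max_left _ _)
  have hl02 : C01 ≤ l0 := (le_max_right _ _).trans (le_max_left _ _)
  have hl03 : 4 * C1 / c1 ≤ l0 := le_max_right _ _
  refine ⟨l0, max (max T1 T2) (max (Real.exp 34) 40000), by linarith, ?_, ?_⟩
  · exact hT1.trans ((le_max_left _ _).trans (le_max_left _ _))
  intro T t hT t0 t1 hlam0
  have hTT1 : T1 ≤ T := ((le_max_left _ _).trans (le_max_left _ _)).trans hT
  have hTT2 : T2 ≤ T := ((le_max_right _ _).trans (le_max_left _ _)).trans hT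
  have hTe : Real.exp 34 ≤ T := ((le_max_left _ _).trans (le_max_right _ _)).trans hT
  have hT4 : 40000 ≤ T := ((le_max_right _ _).trans (le_max_right _ _)).trans hT
  have hTpos : 0 < T := by linarith
  set L := Real.log T with hL
  have hL34 : 34 ≤ L := (Real.le_log_iff_exp_le hTpos).2 hTe
  have hLT : L ≤ T / 100 := by
    have h1 : Real.log T = 2 * Real.log (Real.sqrt T) := by rw [Real.log_sqrt hTpos.le]; ring
    have h2 := Real.log_le_sub_one_of_pos (Real.sqrt_pos.2 hTpos)
    have h3 : 200 ≤ Real.sqrt T := by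
      rw [show (200 : ℝ) = Real.sqrt (200 ^ 2) by rw [Real.sqrt_sq (by norm_num)]]
      exact Real.sqrt_le_sqrt (by norm_num; linarith)
    have h4 : Real.sqrt T * Real.sqrt T = T := Real.mul_self_sqrt hTpos.le
    rw [hL, h1]
    nlinarith
  have hL0 : 0 < L := by linarith
  set U := t * L with hU
  have hU0 : 0 < U := mul_pos t0 hL0
  have huL : t * L ^ 2 = U * L := by rw [hU]; ring
  rw [huL] at hlam0
  have hlam : 2000000 ≤ U * L := hl01.trans hlam0
  have huL2 : U ≤ L / 2 := by rw [hU]; nlinarith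
  -- the windows
  set a : ℕ := ⌈T / U⌉₊ + 1 with ha
  set b : ℕ := ⌊2 * T / U⌋₊ - 1 with hb
  have hTU : 200 ≤ T / U := by
    rw [le_div_iff₀ hU0]; linarith
  have ha1 : T / U ≤ (⌈T / U⌉₊ : ℝ) := Nat.le_ceil _
  have ha2 : (⌈T / U⌉₊ : ℝ) < T / U + 1 := Nat.ceil_lt_add_one (by linarith)
  have hTU2 : 2 * T / U = 2 * (T / U) := by ring
  have hb1 : (⌊2 * T / U⌋₊ : ℝ) ≤ 2 * (T / U) := by
    rw [← hTU2]; exact Nat.floor_le (by positivity)
  have hb2 : 2 * (T / U) < (⌊2 * T / U⌋₊ : ℝ) + 1 := by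
    rw [← hTU2]; exact Nat.lt_floor_add_one _
  have hbn : 1 ≤ ⌊2 * T / U⌋₊ := by
    have : (1 : ℝ) ≤ ⌊2 * T / U⌋₊ := by linarith
    exact_mod_cast this
  have hbr : (b : ℝ) = (⌊2 * T / U⌋₊ : ℝ) - 1 := by
    rw [hb, Nat.cast_sub hbn, Nat.cast_one]
  have har : (a : ℝ) = (⌈T / U⌉₊ : ℝ) + 1 := by rw [ha]; push_cast; ring
  set A := Finset.Icc a b with hA
  have hAmem : ∀ n ∈ A, T + U ≤ n * U ∧ n * U ≤ 2 * T - U := by
    intro n hn
    rw [hA, Finset.mem_Icc] at hn
    have h1 : (a : ℝ) ≤ n := by exact_mod_cast hn.1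
    have h2 : (n : ℝ) ≤ b := by exact_mod_cast hn.2
    have e1 : T / U * U = T := by field_simp
    constructor
    · have h3 : T / U + 1 ≤ n := by linarith
      have := mul_le_mul_of_nonneg_right h3 hU0.le
      linarith
    · have h3 : (n : ℝ) ≤ 2 * (T / U) - 1 := by linarith
      have := mul_le_mul_of_nonneg_right h3 hU0.le
      linarith
  have hAcard : T / U - 3 ≤ (A.card : ℝ) := by
    rw [hA, Nat.card_Icc]
    have h1 : ((b + 1 : ℕ) : ℝ) ≤ ((b + 1 - a : ℕ) : ℝ) + a := by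
      have : b + 1 ≤ (b + 1 - a) + a := by omega
      exact_mod_cast this
    push_cast at h1
    linarith
  set Gd := A.filter (fun n : ℕ => Good fx L (1 / 6400) (U / 16) (8 * U) (n * U)) with hGd
  set Bd := A.filter (fun n : ℕ => ¬ Good fx L (1 / 6400) (U / 16) (8 * U) (n * U)) with hBd
  have hsplit : Gd.card + Bd.card = A.card := Finset.card_filter_add_card_filter_not _
  have hBdcard : (Bd.card : ℝ) ≤ T / U / 4 := by
    rcases le_or_gt U 12 with h12 | h12
    · have h1 := hst T U hTT1 (hl02.trans hlam0) h12 Bd (by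
        intro n hn
        rw [hBd, Finset.mem_filter] at hn
        have := hAmem n hn.1
        constructor <;> linarith [this.1, this.2]) (by
        intro n hn
        rw [hBd, Finset.mem_filter] at hn
        exact hn.2)
      refine h1.trans ?_
      have h2 : 4 * C1 ≤ c1 * (U * L) := by
        have := hl03.trans hlam0
        rw [div_le_iff₀ hc1] at this
        linarith
      have h3 : Real.exp (-(c1 * (U * L))) ≤ 1 / (4 * C1) := by
        rw [Real.exp_neg, one_div]
        apply inv_anti₀ (by positivity)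
        have := Real.add_one_le_exp (c1 * (U * L))
        linarith
      calc C1 * (T / U) * Real.exp (-(c1 * (U * L))) ≤ C1 * (T / U) * (1 / (4 * C1)) :=
            mul_le_mul_of_nonneg_left h3 (by positivity)
        _ = _ := by field_simp
    · have : Bd = ∅ := by
        rw [Finset.eq_empty_iff_forall_notMem]
        intro n hn
        rw [hBd, Finset.mem_filter] at hn
        have := hAmem n hn.1
        exact hn.2 (htop T (U / 16) (8 * U) (n * U) hTT2 (by linarith) (by linarith)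
          (by linarith [this.1]) (by linarith [this.2]))
      rw [this]
      simp only [Finset.card_empty, Nat.cast_zero]
      positivity
  have hGdcard : T / U / 2 ≤ (Gd.card : ℝ) := by
    have : (Gd.card : ℝ) + Bd.card = A.card := by exact_mod_cast hsplit
    linarith
  -- the subintervals
  set K : ℕ := ⌊U * L / 14⌋₊ with hK
  have hK1 : (K : ℝ) ≤ U * L / 14 := Nat.floor_le (by positivity)
  have hK2 : U * L / 14 < K + 1 := Nat.lt_floor_add_one _
  have hK3 : U * L / 15 ≤ K := by linarith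
  have hch : ∀ q : ℕ × ℕ, ∃ y : ℝ, q.1 ∈ Gd → q.2 < K →
      (q.1 * U - U / 2 + 14 * q.2 / L ≤ y ∧ y < q.1 * U - U / 2 + 14 * ((q.2 : ℝ) + 1) / L ∧
      Hx t (I * y) = 0 ∧ deriv (Hx t) (I * y) ≠ 0) := by
    intro q
    by_cases hq : q.1 ∈ Gd ∧ q.2 < K
    · have h1 : Good fx L (1 / 6400) (U / 16) (8 * U) (q.1 * U) := by
        have := hq.1
        rw [hGd, Finset.mem_filter] at this
        exact this.2
      have h2 : (q.2 : ℝ) + 1 ≤ K := by exact_mod_cast hq.2
      have h3 : 14 * ((q.2 : ℝ) + 1) / L ≤ t * L := by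
        rw [div_le_iff₀ hL0, ← hU]
        linarith
      obtain ⟨y, hy⟩ := win_real h1 t0 t1 (by linarith) (by rw [huL]; exact hlam) q.2 h3
      exact ⟨y, fun _ _ => hy⟩
    · refine ⟨0, fun h1 h2 => absurd ⟨h1, h2⟩ hq⟩
  choose Y hY using hch
  have hq2 : ∀ q : ℕ × ℕ, q.2 < K → 14 * ((q.2 : ℝ) + 1) / L ≤ U := by
    intro q hq
    have h2 : (q.2 : ℝ) + 1 ≤ K := by exact_mod_cast hq
    rw [div_le_iff₀ hL0]
    linarith
  have hinj : Set.InjOn Y (↑(Gd ×ˢ Finset.range K) : Set (ℕ × ℕ)) := by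
    intro q hq q' hq' he
    rw [Finset.mem_coe, Finset.mem_product, Finset.mem_range] at hq hq'
    obtain ⟨a1, a2, -, -⟩ := hY q hq.1 hq.2
    obtain ⟨b1, b2, -, -⟩ := hY q' hq'.1 hq'.2
    have c1' := hq2 q hq.2
    have c2' := hq2 q' hq'.2
    have p1 : 0 ≤ 14 * (q.2 : ℝ) / L := by positivity
    have p2 : 0 ≤ 14 * (q'.2 : ℝ) / L := by positivity
    rw [he] at a1 a2
    have hfst : q.1 = q'.1 := by
      rcases lt_trichotomy q.1 q'.1 with h | h | h
      · exfalso
        have h1 : (q.1 : ℝ) + 1 ≤ q'.1 := by exact_mod_cast h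
        have := mul_le_mul_of_nonneg_right h1 hU0.le
        linarith
      · exact h
      · exfalso
        have h1 : (q'.1 : ℝ) + 1 ≤ q.1 := by exact_mod_cast h
        have := mul_le_mul_of_nonneg_right h1 hU0.le
        linarith
    have hsnd : q.2 = q'.2 := by
      rw [hfst] at a1 a2
      rcases lt_trichotomy q.2 q'.2 with h | h | h
      · exfalso
        have h1 : (q.2 : ℝ) + 1 ≤ q'.2 := by exact_mod_cast h
        have : 14 * ((q.2 : ℝ) + 1) / L ≤ 14 * q'.2 / L := by gcongr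
        linarith
      · exact h
      · exfalso
        have h1 : (q'.2 : ℝ) + 1 ≤ q.2 := by exact_mod_cast h
        have : 14 * ((q'.2 : ℝ) + 1) / L ≤ 14 * q.2 / L := by gcongr
        linarith
    exact Prod.ext hfst hsnd
  refine ⟨(Gd ×ˢ Finset.range K).image Y, ?_, ?_⟩
  · intro y hy
    rw [Finset.mem_image] at hy
    obtain ⟨q, hq, rfl⟩ := hy
    rw [Finset.mem_product, Finset.mem_range] at hq
    obtain ⟨a1, a2, a3, a4⟩ := hY q hq.1 hq.2
    have h1 := hq.1
    rw [hGd, Finset.mem_filter] at h1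
    have h2 := hAmem q.1 h1.1
    have h3 := hq2 q hq.2
    have p1 : 0 ≤ 14 * (q.2 : ℝ) / L := by positivity
    exact ⟨by linarith [h2.1], by linarith [h2.2], a3, a4⟩
  · rw [Finset.card_image_of_injOn hinj, Finset.card_product, Finset.card_range]
    push_cast
    have h1 : T / U / 2 * (U * L / 15) ≤ (Gd.card : ℝ) * K := mul_le_mul hGdcard hK3 (by positivity) (by positivity)
    have e : T / U / 2 * (U * L / 15) = T * L / 30 := by field_simp; ring
    rw [e] at h1
    have : 0 < T * L := by positivity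
    linarith

end Pool.Agent.Helper54.Hf
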