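import Pool.Agent.Helper54.Xm.Ver

set_option autoImplicit false
set_option maxHeartbeats 1000000

/-!
Factorisation of the xi function over its zeros in a disc, with a small remainder.
-/

open Polynomial Complex Filter Topology Metric

namespace Pool.Agent.Helper54.Hf

open H370 H370.Loc Pool.Agent.Helper54.Xm

lemma approx_two {F : ℂ → ℂ} (hF : Differentiable ℂ F)
    (hsym : ∀ z, F (starRingEnd ℂ z) = starRingEnd ℂ (F z)) (h1 : 0 < (F 1).re)
    {r M : ℝ} (hr : 1 ≤ r) (hM : 1 ≤ M)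
    (hb : ∀ z ∈ closedBall (1 : ℂ) (4 * r), ‖F z‖ ≤ M) :
    ∃ (s : Multiset ℂ) (g : ℂ → ℂ), (∀ z, F z = Pf s z * g z) ∧ s.map (starRingEnd ℂ) = s ∧
      (∀ ρ ∈ s, F ρ = 0) ∧ (∀ ρ ∈ closedBall (1 : ℂ) r, mult F ρ = s.count ρ) ∧
      DifferentiableOn ℂ g (ball (1 : ℂ) (r / 4)) ∧ (∀ z ∈ ball (1 : ℂ) (r / 4), g z ≠ 0) ∧
      ∀ z ∈ ball (1 : ℂ) (r / 4), ‖logDeriv g z‖ ≤ 8 * (Real.log M + |Real.log ‖F 1‖| + 1) / r := by
  have hF1 : F 1 ≠ 0 := by intro h; rw [h] at h1; simp at h1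
  have hr0 : 0 < r := by linarith
  obtain ⟨s, g, hs, hg, hfg, hg0, -⟩ := extract (f := F) (c := 1) (r := r) (R := 4 * r) (M := M)
    hr0 (by linarith) hM (fun z _ => hF.analyticAt z) hF1 hb
  have hPs1 : Pf s 1 ≠ 0 := by
    intro h
    apply hF1
    rw [hfg 1, h, zero_mul]
  have h1mem : (1 : ℂ) ∈ closedBall (1 : ℂ) r := mem_closedBall_self hr0.le
  have hg1 : g 1 ≠ 0 := hg0 1 h1mem
  -- conjugation symmetry of the multiset
  have hsconj : s.map (starRingEnd ℂ) = s := by
    have hball : ∀ z : ℂ, z ∈ closedBall (1 : ℂ) r → starRingEnd ℂ z ∈ closedBall (1 : ℂ) r := by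
      intro z hz
      rw [mem_closedBall, dist_eq_norm] at hz ⊢
      have : starRingEnd ℂ z - 1 = starRingEnd ℂ (z - 1) := by simp
      rw [this, Complex.norm_conj]
      exact hz
    ext ρ
    by_cases hρ : ρ ∈ closedBall (1 : ℂ) r
    · have e1 : mult F ρ = s.count ρ := SP.LocAux.count_eq_mult (hF.analyticAt ρ)
        (hg ρ (closedBall_subset_closedBall (by linarith) hρ)) (hg0 ρ hρ) hfg
      have e2 : mult F ρ = (s.map (starRingEnd ℂ)).count ρ := by
        refine SP.LocAux.count_eq_mult (g := fun z => starRingEnd ℂ (g (starRingEnd ℂ z)))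
          (hF.analyticAt ρ) ?_ ?_ ?_
        · -- analytic
          have hcρ : starRingEnd ℂ ρ ∈ ball (1 : ℂ) (4 * r) := by
            have := hball ρ hρ
            rw [mem_closedBall] at this
            rw [mem_ball]
            linarith
          have hopen : IsOpen ((starRingEnd ℂ) ⁻¹' (ball (1 : ℂ) (4 * r))) :=
            isOpen_ball.preimage Complex.continuous_conj
          have hdo : DifferentiableOn ℂ (fun z => starRingEnd ℂ (g (starRingEnd ℂ z)))
              ((starRingEnd ℂ) ⁻¹' (ball (1 : ℂ) (4 * r))) := by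
            intro z hz
            have h2 : DifferentiableAt ℂ g (starRingEnd ℂ z) :=
              (hg _ (ball_subset_closedBall hz)).differentiableAt
            have h3 := h2.conj_conj
            rw [Complex.conj_conj] at h3
            exact h3.differentiableWithinAt
          exact hdo.analyticAt (hopen.mem_nhds hcρ)
        · intro h
          rw [map_eq_zero] at h
          exact hg0 _ (hball ρ hρ) h
        · intro z
          have h2 := hfg (starRingEnd ℂ z)
          rw [hsym] at h2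
          have h3 := congrArg (starRingEnd ℂ) h2
          rw [Complex.conj_conj, map_mul, Pf_conj] at h3
          exact h3
      rw [← e2, e1]
    · have e1 : s.count ρ = 0 := Multiset.count_eq_zero.2 fun h => hρ (hs ρ h).1
      have e2 : (s.map (starRingEnd ℂ)).count ρ = 0 := by
        refine Multiset.count_eq_zero.2 fun h => ?_
        obtain ⟨a, ha, rfl⟩ := Multiset.mem_map.1 h
        exact hρ (hball a (hs a ha).1)
      rw [e1, e2]
  -- bound for g
  have hgb : ∀ w ∈ closedBall (1 : ℂ) r, ‖g w‖ ≤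
      Real.exp (Real.log M + |Real.log ‖F 1‖|) * ‖g 1‖ := by
    set n := Multiset.card s with hn
    have hF1n : 0 < ‖F 1‖ := norm_pos_iff.2 hF1
    have hgc : ‖F 1‖ / r ^ n ≤ ‖g 1‖ := by
      rw [div_le_iff₀ (by positivity)]
      have h2 : ‖Pf s 1‖ ≤ r ^ n := Pf_norm_le fun ρ hρ => by
        have h3 := (hs ρ hρ).1
        rw [mem_closedBall, dist_eq_norm, norm_sub_rev] at h3
        exact h3
      calc ‖F 1‖ = ‖g 1‖ * ‖Pf s 1‖ := by rw [hfg 1, norm_mul, mul_comm]
        _ ≤ ‖g 1‖ * r ^ n := mul_le_mul_of_nonneg_left h2 (norm_nonneg _)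
    have hsph : ∀ w ∈ sphere (1 : ℂ) (3 * r), ‖g w‖ ≤ M / r ^ n := by
      intro w hw
      have h2 : r ^ n ≤ ‖Pf s w‖ := Pf_norm_ge hr0.le fun ρ hρ => by
        have h2 := (hs ρ hρ).1
        rw [mem_closedBall, dist_eq_norm] at h2
        rw [mem_sphere, dist_eq_norm] at hw
        have h3 : ‖w - 1‖ ≤ ‖w - ρ‖ + ‖ρ - 1‖ := by
          calc ‖w - 1‖ = ‖(w - ρ) + (ρ - 1)‖ := by congr 1; ring
            _ ≤ _ := norm_add_le _ _
        linarith
      rw [le_div_iff₀ (by positivity)]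
      calc ‖g w‖ * r ^ n ≤ ‖g w‖ * ‖Pf s w‖ := mul_le_mul_of_nonneg_left h2 (norm_nonneg _)
        _ = ‖F w‖ := by rw [hfg w, norm_mul, mul_comm]
        _ ≤ M := hb w (by
            rw [mem_closedBall]; rw [mem_sphere] at hw; linarith)
    have hball3 : ∀ w ∈ closedBall (1 : ℂ) (3 * r), ‖g w‖ ≤ M / r ^ n := by
      intro w hw
      refine Complex.norm_le_of_forall_mem_frontier_norm_le (U := ball (1 : ℂ) (3 * r))
        isBounded_ball ?_ ?_ ?_
      · apply DifferentiableOn.diffContOnCl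
        rw [closure_ball _ (by linarith)]
        intro x hx
        exact (hg x (closedBall_subset_closedBall (by linarith) hx)).differentiableAt.differentiableWithinAt
      · intro x hx
        rw [frontier_ball _ (by linarith)] at hx
        exact hsph x hx
      · rwa [closure_ball _ (by linarith)]
    intro w hw
    refine (hball3 w (closedBall_subset_closedBall (by linarith) hw)).trans ?_
    have h5 : M ≤ Real.exp (Real.log M + |Real.log ‖F 1‖|) * ‖F 1‖ := by
      rw [Real.exp_add, Real.exp_log (by linarith), mul_assoc]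
      have h6 : 1 ≤ Real.exp |Real.log ‖F 1‖| * ‖F 1‖ := by
        have h7 : ‖F 1‖ = Real.exp (Real.log ‖F 1‖) := (Real.exp_log hF1n).symm
        have h8 : Real.exp |Real.log ‖F 1‖| * ‖F 1‖ =
            Real.exp (|Real.log ‖F 1‖| + Real.log ‖F 1‖) := by
          rw [Real.exp_add, ← h7]
        rw [h8]
        exact Real.one_le_exp (by linarith [neg_abs_le (Real.log ‖F 1‖)])
      nlinarith
    calc M / r ^ n ≤ Real.exp (Real.log M + |Real.log ‖F 1‖|) * ‖F 1‖ / r ^ n := by gcongr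
      _ = Real.exp (Real.log M + |Real.log ‖F 1‖|) * (‖F 1‖ / r ^ n) := by ring
      _ ≤ _ := by gcongr
  have hB0 : 0 ≤ Real.log M + |Real.log ‖F 1‖| := by
    have := Real.log_nonneg hM
    positivity
  have hlog : ∀ z ∈ closedBall (1 : ℂ) (r / 4), ‖logDeriv g z‖ ≤
      8 * (Real.log M + |Real.log ‖F 1‖| + 1) / r := by
    intro z hz
    have := logDeriv_zero_free (g := g) (c := 1) (r := r) (r1 := r / 2) (r2 := r / 4)
      (B := Real.log M + |Real.log ‖F 1‖|) (by linarith) (by linarith) (by linarith) hB0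
      (hg.mono (closedBall_subset_closedBall (by linarith))) hg0 hgb hz
    refine this.trans (le_of_eq ?_)
    field_simp
    ring
  have hgd : DifferentiableOn ℂ g (ball (1 : ℂ) (r / 4)) := fun x hx =>
    (hg x (closedBall_subset_closedBall (by linarith) (ball_subset_closedBall hx))).differentiableAt.differentiableWithinAt
  have hgne : ∀ x ∈ ball (1 : ℂ) (r / 4), g x ≠ 0 := fun x hx =>
    hg0 x (closedBall_subset_closedBall (by linarith) (ball_subset_closedBall hx))
  refine ⟨s, g, hfg, hsconj, fun ρ hρ => (hs ρ hρ).2, ?_, hgd, hgne, fun z hz =>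
    hlog z (ball_subset_closedBall hz)⟩
  intro ρ hρ
  exact SP.LocAux.count_eq_mult (hF.analyticAt ρ)
        (hg ρ (closedBall_subset_closedBall (by linarith) hρ)) (hg0 ρ hρ) hfg

/-- factorisation of `FF` -/
theorem FF_fact (R : ℝ) {η : ℝ} (hη : 0 < η) :
    ∃ (s : Multiset ℂ) (g : ℂ → ℂ), (∀ z, FF z = Pf s z * g z) ∧ s.map (starRingEnd ℂ) = s ∧
      (∀ ρ ∈ s, FF ρ = 0) ∧ (∀ ρ ∈ ball (1 : ℂ) R, mult FF ρ = s.count ρ) ∧
      DifferentiableOn ℂ g (ball (1 : ℂ) R) ∧ (∀ z ∈ ball (1 : ℂ) R, g z ≠ 0) ∧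
      ∀ z ∈ ball (1 : ℂ) R, ‖logDeriv g z‖ ≤ η := by
  obtain ⟨C, hC, hgr⟩ := FF_growth
  have hlim := eps_tendsto C |Real.log ‖FF 1‖|
  have h1 : ∀ᶠ N : ℕ in atTop, 8 * (C * (6 * ((N : ℝ) + 1)) ^ (3 / 5 : ℝ) + |Real.log ‖FF 1‖| + 1) /
    ((N : ℝ) + 1) ≤ η := by
    have := hlim.eventually (gt_mem_nhds hη)
    filter_upwards [this] with N hN using hN.le
  have h2 : ∀ᶠ N : ℕ in atTop, 4 * |R| ≤ (N : ℝ) := by
    exact tendsto_natCast_atTop_atTop.eventually_ge_atTop _
  obtain ⟨N, hN1, hN2⟩ := (h1.and h2).exists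
  have hN : (0 : ℝ) ≤ N := Nat.cast_nonneg N
  have hexp : 0 ≤ C * (6 * ((N : ℝ) + 1)) ^ (3 / 5 : ℝ) := by positivity
  obtain ⟨s, g, e1, e2, e3, e4, e5, e6, e7⟩ := approx_two FF_diff FF_conj FF_one (r := (N : ℝ) + 1)
    (M := Real.exp (C * (6 * ((N : ℝ) + 1)) ^ (3 / 5 : ℝ))) (by linarith)
    (Real.one_le_exp hexp) (fun z hz => by
      refine (hgr z).trans (Real.exp_le_exp.2 ?_)
      refine mul_le_mul_of_nonneg_left ?_ hC
      refine Real.rpow_le_rpow (by positivity) ?_ (by norm_num)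
      rw [mem_closedBall, dist_eq_norm] at hz
      have : ‖z‖ ≤ ‖z - 1‖ + 1 := by
        calc ‖z‖ = ‖(z - 1) + 1‖ := by congr 1; ring
          _ ≤ ‖z - 1‖ + ‖(1 : ℂ)‖ := norm_add_le _ _
          _ = _ := by simp
      linarith)
  rw [Real.log_exp] at e7
  have hR : R ≤ ((N : ℝ) + 1) / 4 := by
    have := le_abs_self R
    linarith
  have hsub : ball (1 : ℂ) R ⊆ ball (1 : ℂ) (((N : ℝ) + 1) / 4) := ball_subset_ball hR
  refine ⟨s, g, e1, e2, e3, fun ρ hρ => e4 ρ ?_, e5.mono hsub, fun z hz => e6 z (hsub hz),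
    fun z hz => (e7 z (hsub hz)).trans hN1⟩
  have := ball_subset_closedBall (hsub hρ)
  exact closedBall_subset_closedBall (by linarith) this

end Pool.Agent.Helper54.Hf
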